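import Mathlib

/-!
An integral inequality.
-/

set_option autoImplicit false

namespace Run7.h343.GI

open MeasureTheory Filter Topology

theorem int_sq {J : Type*} [Fintype J] {F : J → ℝ → ℝ} (hc : ∀ i, ContinuousOn (F i) (Set.Ioi 0))
    (h0 : ∀ i x, 0 ≤ F i x) {Q D B : ℝ} (hQ : 1 < Q) (hD : 0 ≤ D)
    (ha : ∀ i x, 1 ≤ x → F i x ≤ D / x)
    (hb : ∀ i x, 0 < x → x ≤ 1 / Q → F i x ≤ D * Real.sqrt Q)
    (hm : ∀ x, 1 / Q ≤ x → x ≤ 1 → ∑ i, F i x ^ 2 ≤ B / x) :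
    ∑ i, (∫ x in Set.Ioi (0 : ℝ), x ^ (-(1 / 2) : ℝ) * F i x) ^ 2 ≤
      32 * D ^ 2 * Fintype.card J + 2 * B * (Real.log Q) ^ 2 := by
  have hQ0 : 0 < Q := by linarith
  have hQ1 : 0 < 1 / Q := by positivity
  have hQ2 : 1 / Q ≤ 1 := by rw [div_le_one hQ0]; exact hQ.le
  have hlog : 0 < Real.log Q := Real.log_pos hQ
  obtain ⟨g, hg⟩ : ∃ g : J → ℝ → ℝ, g = fun i x => x ^ (-(1 / 2) : ℝ) * F i x := ⟨_, rfl⟩
  have hgc : ∀ i, ContinuousOn (g i) (Set.Ioi 0) := by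
    intro i
    rw [hg]
    refine ContinuousOn.mul ?_ (hc i)
    intro x hx
    have hx0 : (0 : ℝ) < x := hx
    exact (Real.continuousAt_rpow_const x _ (Or.inl hx0.ne')).continuousWithinAt
  have hg0 : ∀ i x, 0 < x → 0 ≤ g i x := by
    intro i x hx
    rw [hg]
    exact mul_nonneg (by positivity) (h0 i x)
  have hsub1 : Set.Ioc (0 : ℝ) (1 / Q) ⊆ Set.Ioi 0 := fun x hx => hx.1
  have hsub2 : Set.Icc (1 / Q) 1 ⊆ Set.Ioi 0 := fun x hx => lt_of_lt_of_le hQ1 hx.1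
  have hsub3 : Set.Ioi (1 : ℝ) ⊆ Set.Ioi 0 := Set.Ioi_subset_Ioi zero_le_one
  -- integrability
  have hr1 : IntegrableOn (fun x : ℝ => x ^ (-(1 / 2) : ℝ) * (D * Real.sqrt Q)) (Set.Ioc 0 (1 / Q)) := by
    have := (intervalIntegral.intervalIntegrable_rpow' (a := 0) (b := 1 / Q) (r := -(1 / 2)) (by norm_num)).mul_const
      (D * Real.sqrt Q)
    rwa [intervalIntegrable_iff_integrableOn_Ioc_of_le hQ1.le] at this
  have hr3 : IntegrableOn (fun x : ℝ => D * x ^ (-(3 / 2) : ℝ)) (Set.Ioi 1) :=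
    (integrableOn_Ioi_rpow_of_lt (by norm_num) one_pos).const_mul D
  have hb1 : ∀ i, ∀ x ∈ Set.Ioc (0 : ℝ) (1 / Q), g i x ≤ x ^ (-(1 / 2) : ℝ) * (D * Real.sqrt Q) := by
    intro i x hx
    rw [hg]
    have hx0 : 0 < x := hx.1
    exact mul_le_mul_of_nonneg_left (hb i x hx.1 hx.2) (by positivity)
  have hb3 : ∀ i, ∀ x ∈ Set.Ioi (1 : ℝ), g i x ≤ D * x ^ (-(3 / 2) : ℝ) := by
    intro i x hx
    have hx1 : 1 < x := hx
    have hx0 : 0 < x := by linarith
    rw [hg]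
    calc x ^ (-(1 / 2) : ℝ) * F i x ≤ x ^ (-(1 / 2) : ℝ) * (D / x) :=
          mul_le_mul_of_nonneg_left (ha i x hx1.le) (by positivity)
      _ = D * x ^ (-(3 / 2) : ℝ) := by
        have : x ^ (-(3 / 2) : ℝ) = x ^ (-(1 / 2) : ℝ) * x⁻¹ := by
          rw [← Real.rpow_neg_one, ← Real.rpow_add hx0]; norm_num
        rw [this]; ring
  have hi1 : ∀ i, IntegrableOn (g i) (Set.Ioc 0 (1 / Q)) := by
    intro i
    refine Integrable.mono' hr1 (((hgc i).mono hsub1).aestronglyMeasurable measurableSet_Ioc) ?_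
    refine (ae_restrict_iff' measurableSet_Ioc).2 (Eventually.of_forall fun x hx => ?_)
    rw [Real.norm_of_nonneg (hg0 i x hx.1)]
    exact hb1 i x hx
  have hi2 : ∀ i, IntegrableOn (g i) (Set.Ioc (1 / Q) 1) := fun i =>
    (((hgc i).mono hsub2).integrableOn_Icc).mono_set Set.Ioc_subset_Icc_self
  have hi3 : ∀ i, IntegrableOn (g i) (Set.Ioi 1) := by
    intro i
    refine Integrable.mono' hr3 (((hgc i).mono hsub3).aestronglyMeasurable measurableSet_Ioi) ?_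
    refine (ae_restrict_iff' measurableSet_Ioi).2 (Eventually.of_forall fun x hx => ?_)
    rw [Real.norm_of_nonneg (hg0 i x (hsub3 hx))]
    exact hb3 i x hx
  obtain ⟨M, hM⟩ : ∃ M : J → ℝ, M = fun i => ∫ x in Set.Ioc (1 / Q) 1, g i x := ⟨_, rfl⟩
  have hsplit : ∀ i, ∫ x in Set.Ioi (0 : ℝ), g i x = (∫ x in Set.Ioc 0 (1 / Q), g i x) +
      (M i + ∫ x in Set.Ioi (1 : ℝ), g i x) := by
    intro i
    rw [hM]
    simp only
    rw [← setIntegral_union (Set.Ioc_disjoint_Ioi_same) measurableSet_Ioi (hi2 i) (hi3 i),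
      Set.Ioc_union_Ioi_eq_Ioi hQ2, ← setIntegral_union (Set.Ioc_disjoint_Ioi_same) measurableSet_Ioi (hi1 i) ?_,
      Set.Ioc_union_Ioi_eq_Ioi hQ1.le]
    rw [← Set.Ioc_union_Ioi_eq_Ioi hQ2]
    exact (hi2 i).union (hi3 i)
  have hI1 : ∀ i, ∫ x in Set.Ioc 0 (1 / Q), g i x ≤ 2 * D := by
    intro i
    refine (setIntegral_mono_on (hi1 i) hr1 measurableSet_Ioc (hb1 i)).trans (le_of_eq ?_)
    rw [integral_mul_const, ← intervalIntegral.integral_of_le hQ1.le, integral_rpow (Or.inl (by norm_num))]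
    rw [show (-(1 / 2) + 1 : ℝ) = 1 / 2 by norm_num, Real.zero_rpow (by norm_num), sub_zero,
      ← Real.sqrt_eq_rpow, Real.sqrt_div' _ hQ0.le, Real.sqrt_one]
    have : Real.sqrt Q ≠ 0 := (Real.sqrt_pos.2 hQ0).ne'
    field_simp
  have hI3 : ∀ i, ∫ x in Set.Ioi (1 : ℝ), g i x ≤ 2 * D := by
    intro i
    refine (setIntegral_mono_on (hi3 i) hr3 measurableSet_Ioi (hb3 i)).trans (le_of_eq ?_)
    rw [integral_const_mul, integral_Ioi_rpow_of_lt (by norm_num) one_pos, Real.one_rpow]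
    norm_num
    ring
  have hI1' : ∀ i, 0 ≤ ∫ x in Set.Ioc 0 (1 / Q), g i x := fun i =>
    setIntegral_nonneg measurableSet_Ioc fun x hx => hg0 i x hx.1
  have hI3' : ∀ i, 0 ≤ ∫ x in Set.Ioi (1 : ℝ), g i x := fun i =>
    setIntegral_nonneg measurableSet_Ioi fun x hx => hg0 i x (hsub3 hx)
  -- the middle range
  have hMi : ∀ i, M i = ∫ x in (1 / Q)..1, g i x := by
    intro i
    rw [intervalIntegral.integral_of_le hQ2, hM]
  have hu : Set.uIcc (1 / Q) 1 = Set.Icc (1 / Q) 1 := Set.uIcc_of_le hQ2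
  have hci : ∀ i, IntervalIntegrable (g i) volume (1 / Q) 1 := fun i =>
    ContinuousOn.intervalIntegrable (by rw [hu]; exact (hgc i).mono hsub2)
  have hcF : ∀ i, IntervalIntegrable (fun x => F i x ^ 2) volume (1 / Q) 1 := fun i =>
    ContinuousOn.intervalIntegrable (by rw [hu]; exact ((hc i).mono hsub2).pow 2)
  have hcx : IntervalIntegrable (fun x : ℝ => x⁻¹) volume (1 / Q) 1 := by
    refine ContinuousOn.intervalIntegrable ?_
    rw [hu]
    intro x hx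
    exact (continuousAt_inv₀ (lt_of_lt_of_le hQ1 hx.1).ne').continuousWithinAt
  have hlogI : ∫ x in (1 / Q)..1, x⁻¹ = Real.log Q := by
    rw [integral_inv_of_pos hQ1 one_pos, one_div_one_div]
  have hMsq : ∀ i, M i ^ 2 ≤ Real.log Q * ∫ x in (1 / Q)..1, F i x ^ 2 := by
    intro i
    obtain ⟨a, hadef⟩ : ∃ a : ℝ, a = M i / Real.log Q := ⟨_, rfl⟩
    have h1 : 0 ≤ ∫ x in (1 / Q)..1, (F i x ^ 2 - 2 * a * g i x + a ^ 2 * x⁻¹) := by
      refine intervalIntegral.integral_nonneg hQ2 fun x hx => ?_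
      have hx0 : 0 < x := lt_of_lt_of_le hQ1 hx.1
      have e1 : x⁻¹ = (x ^ (-(1 / 2) : ℝ)) ^ 2 := by
        rw [← Real.rpow_natCast, ← Real.rpow_mul hx0.le, ← Real.rpow_neg_one]
        norm_num
      rw [hg, e1]
      simp only
      nlinarith [sq_nonneg (F i x - a * x ^ (-(1 / 2) : ℝ))]
    rw [intervalIntegral.integral_add ((hcF i).sub ((hci i).const_mul _)) (hcx.const_mul _),
      intervalIntegral.integral_sub (hcF i) ((hci i).const_mul _), intervalIntegral.integral_const_mul,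
      intervalIntegral.integral_const_mul, hlogI, ← hMi] at h1
    have e2 : 2 * a * M i = 2 * (M i ^ 2 / Real.log Q) := by rw [hadef]; ring
    have e3 : a ^ 2 * Real.log Q = M i ^ 2 / Real.log Q := by rw [hadef]; field_simp
    rw [e2, e3] at h1
    have h2 : M i ^ 2 / Real.log Q ≤ ∫ x in (1 / Q)..1, F i x ^ 2 := by linarith
    rw [div_le_iff₀ hlog] at h2
    linarith
  have hsumF : ∑ i, ∫ x in (1 / Q)..1, F i x ^ 2 ≤ B * Real.log Q := by
    rw [← intervalIntegral.integral_finsetSum (fun i _ => hcF i)]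
    calc ∫ x in (1 / Q)..1, ∑ i, F i x ^ 2 ≤ ∫ x in (1 / Q)..1, B * x⁻¹ := by
          refine intervalIntegral.integral_mono_on hQ2 ?_ (hcx.const_mul B) fun x hx => ?_
          · refine ContinuousOn.intervalIntegrable ?_
            rw [hu]
            exact continuousOn_finsetSum _ fun i _ => ((hc i).mono hsub2).pow 2
          · have := hm x hx.1 hx.2
            rwa [div_eq_mul_inv] at this
      _ = B * Real.log Q := by rw [intervalIntegral.integral_const_mul, hlogI]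
  have hpt : ∀ i, (∫ x in Set.Ioi (0 : ℝ), x ^ (-(1 / 2) : ℝ) * F i x) ^ 2 ≤
      32 * D ^ 2 + 2 * (Real.log Q * ∫ x in (1 / Q)..1, F i x ^ 2) := by
    intro i
    have e1 : ∫ x in Set.Ioi (0 : ℝ), x ^ (-(1 / 2) : ℝ) * F i x = ∫ x in Set.Ioi (0 : ℝ), g i x := by
      rw [hg]
    rw [e1, hsplit i]
    have h1 := hI1 i
    have h2 := hI3 i
    have h1' := hI1' i
    have h2' := hI3' i
    have h3 := hMsq i
    obtain ⟨A1, hA1⟩ : ∃ A1, A1 = ∫ x in Set.Ioc 0 (1 / Q), g i x := ⟨_, rfl⟩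
    obtain ⟨A3, hA3⟩ : ∃ A3, A3 = ∫ x in Set.Ioi (1 : ℝ), g i x := ⟨_, rfl⟩
    rw [← hA1] at h1 h1' ⊢
    rw [← hA3] at h2 h2' ⊢
    have h4 : (A1 + A3) ^ 2 ≤ 16 * D ^ 2 := by
      have : A1 + A3 ≤ 4 * D := by linarith
      calc (A1 + A3) ^ 2 ≤ (4 * D) ^ 2 := pow_le_pow_left₀ (by linarith) this 2
        _ = _ := by ring
    nlinarith [sq_nonneg (A1 + A3 - M i)]
  calc _ ≤ ∑ i, (32 * D ^ 2 + 2 * (Real.log Q * ∫ x in (1 / Q)..1, F i x ^ 2)) :=
        Finset.sum_le_sum fun i _ => hpt i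
    _ = 32 * D ^ 2 * Fintype.card J + 2 * (Real.log Q * ∑ i, ∫ x in (1 / Q)..1, F i x ^ 2) := by
        rw [Finset.sum_add_distrib, Finset.sum_const, Finset.card_univ, nsmul_eq_mul, ← Finset.mul_sum,
          ← Finset.mul_sum]
        ring
    _ ≤ 32 * D ^ 2 * Fintype.card J + 2 * (Real.log Q * (B * Real.log Q)) := by gcongr
    _ = _ := by ring

end Run7.h343.GI
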