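import Pool.Agent.Run7.h343.GI.LF
import Pool.Agent.Run7.h343.GI.Int
import Pool.Agent.Y766.R3.TE

/-!
Mean squares of central values over cosets of characters.
-/

set_option autoImplicit false

namespace Run7.h343.GI

open Complex Finset
open Pool.Agent.Y766.R3 (prim_mul)

lemma prim_inv {q : ℕ} {χ : DirichletCharacter ℂ q} (hχ : χ.IsPrimitive) : χ⁻¹.IsPrimitive := by
  unfold DirichletCharacter.IsPrimitive at hχ ⊢
  rw [DirichletCharacter.conductor_inv, hχ]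

lemma card_le {p m : ℕ} (hp : p.Prime) [NeZero (p ^ m)] :
    (Fintype.card (DirichletCharacter ℂ (p ^ m)) : ℝ) ≤ (p : ℝ) ^ m := by
  have e1 := DirichletCharacter.card_eq_totient_of_hasEnoughRootsOfUnity ℂ (p ^ m)
  rw [← Nat.card_eq_fintype_card, e1]
  calc ((p ^ m).totient : ℝ) ≤ ((p ^ m : ℕ) : ℝ) := by exact_mod_cast Nat.totient_le _
    _ = _ := by push_cast; rfl

theorem th_unit : ∃ C : ℝ, 0 < C ∧ ∀ p : ℕ, p.Prime → 7 ≤ p →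
    ∀ (ν m : ℕ) (ι : ℤ) (ϖ : GaussianInt), Fr p ν ι ϖ → 1 ≤ m → ∀ hmν : m < ν, 19 * ν ≤ 58 * m →
    ∀ [NeZero (p ^ m)],
    ∀ χ : DirichletCharacter ℂ (p ^ ν), χ.IsPrimitive → ∀ ω : ℂ, ‖ω‖ = 1 → 0 < ω.re → ∀ x : ℝ, 0 < x →
      x ≤ 1 → 1 ≤ x ^ 2 * (p : ℝ) ^ ν →
    ∑ θ : DirichletCharacter ℂ (p ^ m),
      ‖Th (χ * DirichletCharacter.changeLevel (pow_dvd_pow p hmν.le) θ) ι (ω * x)‖ ^ 2 ≤
      C * (p : ℝ) ^ 4 * (1 + ν) ^ 2 * (1 / ω.re) ^ 3 * (p : ℝ) ^ m / x := by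
  obtain ⟨C, hC, hall⟩ := th_main
  refine ⟨C, hC, ?_⟩
  intro p hp hp7 ν m ι ϖ hfr hm hmν h19 _ χ hχ ω hω1 hω x hx hx1 hxq
  have hre : ω.re ≤ 1 := (Complex.re_le_norm ω).trans hω1.le
  have him : |ω.im| ≤ 1 := (Complex.abs_im_le_norm ω).trans hω1.le
  have h1 := hall p hp hp7 ν m ι ϖ hfr hm hmν h19 χ hχ (ω.re * x) (ω.im * x) x (by positivity)
    (by nlinarith) (by rw [abs_mul, abs_of_pos hx]; nlinarith) hx1 hxq
  have e1 : (((ω.re * x : ℝ) : ℂ) + ((ω.im * x : ℝ) : ℂ) * I) = ω * x := by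
    push_cast
    calc (ω.re : ℂ) * x + ω.im * x * I = (ω.re + ω.im * I) * x := by ring
      _ = ω * x := by rw [Complex.re_add_im]
  rw [e1] at h1
  refine h1.trans (le_of_eq ?_)
  have e2 : x / (ω.re * x) = 1 / ω.re := by field_simp
  rw [e2]
  ring

theorem th_range : ∃ C : ℝ, 0 < C ∧ ∀ p : ℕ, p.Prime → 7 ≤ p →
    ∀ (ν m : ℕ) (ι : ℤ) (ϖ : GaussianInt), Fr p ν ι ϖ → 1 ≤ m → ∀ hmν : m < ν, 19 * ν ≤ 58 * m →
    ∀ [NeZero (p ^ m)],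
    ∀ χ : DirichletCharacter ℂ (p ^ ν), χ.IsPrimitive → ∀ ω : ℂ, ‖ω‖ = 1 → 0 < ω.re → ∀ x : ℝ,
      1 / (p : ℝ) ^ ν ≤ x → x ≤ 1 →
    ∑ θ : DirichletCharacter ℂ (p ^ m),
      ‖Th (χ * DirichletCharacter.changeLevel (pow_dvd_pow p hmν.le) θ) ι (ω * x)‖ ^ 2 ≤
      C * (p : ℝ) ^ 4 * (1 + ν) ^ 2 * (1 / ω.re) ^ 3 * (p : ℝ) ^ m / x := by
  obtain ⟨C, hC, hall⟩ := th_unit
  refine ⟨C, hC, ?_⟩
  intro p hp hp7 ν m ι ϖ hfr hm hmν h19 _ χ hχ ω hω1 hω x hx0 hx1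
  have hp0 : (0 : ℝ) < p := by exact_mod_cast hp.pos
  obtain ⟨Q, hQ⟩ : ∃ Q : ℝ, Q = (p : ℝ) ^ ν := ⟨_, rfl⟩
  have hQ0 : 0 < Q := by rw [hQ]; positivity
  have hx : 0 < x := lt_of_lt_of_le (by positivity) hx0
  rcases le_or_gt 1 (x ^ 2 * (p : ℝ) ^ ν) with hxq | hxq
  · exact hall p hp hp7 ν m ι ϖ hfr hm hmν h19 χ hχ ω hω1 hω x hx hx1 hxq
  · obtain ⟨y, hy⟩ : ∃ y : ℝ, y = 1 / (x * Q) := ⟨_, rfl⟩
    have hy0 : 0 < y := by rw [hy]; positivity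
    rw [← hQ] at hx0 hxq
    have hy1 : y ≤ 1 := by
      rw [hy, div_le_one (by positivity)]
      rwa [div_le_iff₀ hQ0] at hx0
    have hyq : 1 ≤ y ^ 2 * (p : ℝ) ^ ν := by
      rw [← hQ, hy]
      have e1 : (1 / (x * Q)) ^ 2 * Q = 1 / (x ^ 2 * Q) := by field_simp
      rw [e1, le_div_iff₀ (by positivity)]
      linarith
    have hcr : (starRingEnd ℂ ω).re = ω.re := conj_re ω
    have h1 := hall p hp hp7 ν m ι ϖ hfr hm hmν h19 χ⁻¹ (prim_inv hχ) (starRingEnd ℂ ω)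
      (by rw [RCLike.norm_conj]; exact hω1) (by rw [hcr]; exact hω) y hy0 hy1 hyq
    rw [hcr] at h1
    have h2 : ∀ θ : DirichletCharacter ℂ (p ^ m),
        ‖Th (χ * DirichletCharacter.changeLevel (pow_dvd_pow p hmν.le) θ) ι (ω * x)‖ ^ 2 =
        1 / (Q * x ^ 2) *
        ‖Th (χ⁻¹ * DirichletCharacter.changeLevel (pow_dvd_pow p hmν.le) θ⁻¹) ι (starRingEnd ℂ ω * y)‖ ^ 2 := by
      intro θ
      rw [fx_fe hfr (by omega) (prim_mul hp hmν hχ θ) hω hω1 hx, ← hQ, ← hy, mul_pow]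
      have e1 : (χ * DirichletCharacter.changeLevel (pow_dvd_pow p hmν.le) θ)⁻¹ =
          χ⁻¹ * DirichletCharacter.changeLevel (pow_dvd_pow p hmν.le) θ⁻¹ := by
        rw [mul_inv, map_inv]
      rw [e1]
      congr 1
      rw [div_pow, mul_pow, Real.sq_sqrt hQ0.le, one_pow]
    have h3 : ∑ θ : DirichletCharacter ℂ (p ^ m),
        ‖Th (χ * DirichletCharacter.changeLevel (pow_dvd_pow p hmν.le) θ) ι (ω * x)‖ ^ 2 =
        1 / (Q * x ^ 2) * ∑ θ : DirichletCharacter ℂ (p ^ m),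
        ‖Th (χ⁻¹ * DirichletCharacter.changeLevel (pow_dvd_pow p hmν.le) θ) ι (starRingEnd ℂ ω * y)‖ ^ 2 := by
      rw [sum_congr rfl fun θ _ => h2 θ, ← mul_sum]
      congr 1
      exact Equiv.sum_comp (Equiv.inv (DirichletCharacter ℂ (p ^ m))) (fun θ : DirichletCharacter ℂ (p ^ m) =>
        ‖Th (χ⁻¹ * DirichletCharacter.changeLevel (pow_dvd_pow p hmν.le) θ) ι (starRingEnd ℂ ω * y)‖ ^ 2)
    rw [h3]
    calc _ ≤ 1 / (Q * x ^ 2) * (C * (p : ℝ) ^ 4 * (1 + ν) ^ 2 * (1 / ω.re) ^ 3 * (p : ℝ) ^ m / y) := by gcongr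
      _ = _ := by
        rw [hy]
        field_simp

theorem bd_main : ∃ C : ℝ, 0 < C ∧ ∀ p : ℕ, p.Prime → 7 ≤ p →
    ∀ (ν m : ℕ) (ι : ℤ) (ϖ : GaussianInt), Fr p ν ι ϖ → 1 ≤ m → ∀ hmν : m < ν, 19 * ν ≤ 58 * m →
    ∀ [NeZero (p ^ m)],
    ∀ χ : DirichletCharacter ℂ (p ^ ν), χ.IsPrimitive →
    ∀ L : DirichletCharacter ℂ (p ^ m) → ℂ → ℂ, (∀ θ, Differentiable ℂ (L θ)) →
    (∀ θ (s : ℂ), 1 < s.re → L θ s =
      Ds (χ * DirichletCharacter.changeLevel (pow_dvd_pow p hmν.le) θ) ι s) → ∀ t : ℝ,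
    ∑ θ : DirichletCharacter ℂ (p ^ m), ‖L θ (1 / 2 + t * I)‖ ^ 2 ≤
      C * (p : ℝ) ^ 4 * (1 + |t|) ^ 3 * ((1 + ν) ^ 2 * (1 + Real.log ((p : ℝ) ^ ν)) ^ 2) * (p : ℝ) ^ m := by
  obtain ⟨C, hC, hall⟩ := th_range
  have hCG := CG_one
  refine ⟨Real.exp 1 ^ 2 * (128 * CG ^ 2 + 16 * C), by positivity, ?_⟩
  intro p hp hp7 ν m ι ϖ hfr hm hmν h19 _ χ hχ L hL hLs t
  have hp0 : (0 : ℝ) < p := by exact_mod_cast hp.pos
  have hp1 : (1 : ℝ) ≤ p := by exact_mod_cast hp.one_le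
  obtain ⟨Q, hQ⟩ : ∃ Q : ℝ, Q = (p : ℝ) ^ ν := ⟨_, rfl⟩
  have hQ0 : 0 < Q := by rw [hQ]; positivity
  have hQ1 : 1 < Q := by
    rw [hQ]
    exact one_lt_pow₀ (by exact_mod_cast hp.one_lt) (by omega)
  obtain ⟨ω, hω1, hωre, hω2⟩ := ray t
  have ht : 0 < 1 + |t| := by positivity
  have ht1 : 1 ≤ 1 + |t| := by linarith [abs_nonneg t]
  have hω : 0 < ω.re := lt_of_lt_of_le (by positivity) hωre
  have hinv : 1 / ω.re ≤ 2 * (1 + |t|) := by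
    rw [div_le_iff₀ hω]
    rw [div_le_iff₀ (by positivity)] at hωre
    linarith
  have hcr : (starRingEnd ℂ ω).re = ω.re := conj_re ω
  obtain ⟨F, hF⟩ : ∃ F : DirichletCharacter ℂ (p ^ m) → ℝ → ℝ, F = fun (θ : DirichletCharacter ℂ (p ^ m)) (x : ℝ) =>
    ‖Th (χ * DirichletCharacter.changeLevel (pow_dvd_pow p hmν.le) θ) ι (ω * x)‖ := ⟨_, rfl⟩
  obtain ⟨B, hB⟩ : ∃ B : ℝ, B = C * (p : ℝ) ^ 4 * (1 + ν) ^ 2 * (1 / ω.re) ^ 3 * (p : ℝ) ^ m := ⟨_, rfl⟩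
  have hmain := int_sq (F := F) (Q := Q) (D := CG / ω.re) (B := B) (fun θ => by
      rw [hF]; exact (fx_cont _ ι hω).norm) (fun θ x => by rw [hF]; exact norm_nonneg _) hQ1 (by positivity)
    (fun θ x hx => by
      rw [hF]
      have hx0 : 0 < x := by linarith
      have hre : (ω * x : ℂ).re = ω.re * x := by rw [re_mul_ofReal]
      refine (Th_le hp (by omega) _ ι (z := ω * x) (by rw [hre]; positivity)).trans (le_of_eq ?_)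
      rw [hre, div_div])
    (fun θ x hx hxQ => by
      rw [hF]
      simp only
      rw [fx_fe hfr (by omega) (prim_mul hp hmν hχ θ) hω hω1 hx, ← hQ]
      have hre : (starRingEnd ℂ ω * ((1 / (x * Q) : ℝ) : ℂ)).re = ω.re / (x * Q) := by
        rw [re_mul_ofReal, conj_re]; ring
      have h2 := Th_le hfr.pr (by omega) (χ * DirichletCharacter.changeLevel (pow_dvd_pow p hmν.le) θ)⁻¹ ι
        (z := starRingEnd ℂ ω * ((1 / (x * Q) : ℝ) : ℂ)) (by rw [hre]; positivity)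
      rw [hre] at h2
      have hs0 : 0 < Real.sqrt Q := Real.sqrt_pos.2 hQ0
      have hss : Real.sqrt Q * Real.sqrt Q = Q := Real.mul_self_sqrt hQ0.le
      calc _ ≤ 1 / (Real.sqrt Q * x) * (CG / (ω.re / (x * Q))) := by gcongr
        _ = CG / ω.re * (Q / Real.sqrt Q) := by field_simp
        _ = _ := by rw [Real.div_sqrt])
    (fun x hx hx1 => by
      rw [hF, hB]
      exact hall p hp hp7 ν m ι ϖ hfr hm hmν h19 χ hχ ω hω1 hω x (by rw [← hQ]; exact hx) hx1)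
  have hlog : 0 < Real.log Q := Real.log_pos hQ1
  have hpm : 0 < (p : ℝ) ^ m := by positivity
  have hone : ∀ θ, ‖L θ (1 / 2 + t * I)‖ ^ 2 ≤
      Real.exp 1 ^ 2 * (∫ x in Set.Ioi (0 : ℝ), x ^ (-(1 / 2) : ℝ) * F θ x) ^ 2 := by
    intro θ
    have h1 := L_half_le hfr (by omega) (prim_mul hp hmν hχ θ) (hL θ) (hLs θ) hω hω1 hω2
    rw [← mul_pow, hF]
    exact pow_le_pow_left₀ (norm_nonneg _) h1 2
  have h4 : (1 / ω.re) ^ 2 ≤ 4 * (1 + |t|) ^ 3 := by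
    calc (1 / ω.re) ^ 2 ≤ (2 * (1 + |t|)) ^ 2 := by gcongr
      _ = 4 * (1 + |t|) ^ 2 := by ring
      _ ≤ 4 * (1 + |t|) ^ 3 := by
        have := pow_le_pow_right₀ ht1 (show 2 ≤ 3 by norm_num)
        linarith
  have h5 : (1 / ω.re) ^ 3 ≤ 8 * (1 + |t|) ^ 3 := by
    calc (1 / ω.re) ^ 3 ≤ (2 * (1 + |t|)) ^ 3 := by gcongr
      _ = _ := by ring
  have h6 : 1 ≤ (p : ℝ) ^ 4 * ((1 + (ν : ℝ)) ^ 2 * (1 + Real.log Q) ^ 2) := by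
    have e1 : (1 : ℝ) ≤ (1 + (ν : ℝ)) ^ 2 := one_le_pow₀ (by linarith [Nat.cast_nonneg (α := ℝ) ν])
    have e2 : (1 : ℝ) ≤ (1 + Real.log Q) ^ 2 := one_le_pow₀ (by linarith)
    have e3 : 1 ≤ (p : ℝ) ^ 4 := one_le_pow₀ hp1
    calc (1 : ℝ) = 1 * (1 * 1) := by norm_num
      _ ≤ _ := by gcongr
  have h7 : (Real.log Q) ^ 2 ≤ (1 + Real.log Q) ^ 2 := by gcongr; linarith
  rw [← hQ]
  calc ∑ θ : DirichletCharacter ℂ (p ^ m), ‖L θ (1 / 2 + t * I)‖ ^ 2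
      ≤ ∑ θ : DirichletCharacter ℂ (p ^ m),
        Real.exp 1 ^ 2 * (∫ x in Set.Ioi (0 : ℝ), x ^ (-(1 / 2) : ℝ) * F θ x) ^ 2 := sum_le_sum fun θ _ => hone θ
    _ ≤ Real.exp 1 ^ 2 * (32 * (CG / ω.re) ^ 2 * Fintype.card (DirichletCharacter ℂ (p ^ m)) +
        2 * B * (Real.log Q) ^ 2) := by
        rw [← mul_sum]
        gcongr
    _ ≤ Real.exp 1 ^ 2 * (32 * (CG ^ 2 * (4 * (1 + |t|) ^ 3)) * (p : ℝ) ^ m +
        2 * (C * (p : ℝ) ^ 4 * (1 + ν) ^ 2 * (8 * (1 + |t|) ^ 3) * (p : ℝ) ^ m) * (1 + Real.log Q) ^ 2) := by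
        have e1 : (CG / ω.re) ^ 2 = CG ^ 2 * (1 / ω.re) ^ 2 := by ring
        have e2 := card_le (m := m) hp
        rw [hB, e1]
        gcongr
    _ = Real.exp 1 ^ 2 * (128 * CG ^ 2 * (1 + |t|) ^ 3 * (p : ℝ) ^ m * 1 +
        16 * C * (1 + |t|) ^ 3 * (p : ℝ) ^ m * ((p : ℝ) ^ 4 * ((1 + ν) ^ 2 * (1 + Real.log Q) ^ 2))) := by ring
    _ ≤ Real.exp 1 ^ 2 * (128 * CG ^ 2 * (1 + |t|) ^ 3 * (p : ℝ) ^ m *
          ((p : ℝ) ^ 4 * ((1 + ν) ^ 2 * (1 + Real.log Q) ^ 2)) +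
        16 * C * (1 + |t|) ^ 3 * (p : ℝ) ^ m * ((p : ℝ) ^ 4 * ((1 + ν) ^ 2 * (1 + Real.log Q) ^ 2))) := by
        gcongr
    _ = _ := by ring

end Run7.h343.GI
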