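import Pool.Agent.Run7.h343.GI.Off2
import Pool.Agent.Y766.R3.TD

/-!
Mean squares of theta series over cosets of characters.
-/

set_option autoImplicit false

namespace Run7.h343.GI

open Complex Finset
open Pool.Agent.Y766.R3 (FF orth)

/-- the complex Gaussian -/
noncomputable def gz (z : ℂ) (α : GaussianInt) : ℂ := cexp (-Real.pi * z * (α.re ^ 2 + α.im ^ 2))

/-- the theta series of a character -/
noncomputable def Th {q : ℕ} (χ : DirichletCharacter ℂ q) (ι : ℤ) (z : ℂ) : ℂ :=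
  ∑' α, χ ((red ι α : ℤ) : ZMod q) * gz z α

lemma gz_norm (z : ℂ) (hz : 0 < z.re) (α : GaussianInt) : ‖gz z α‖ = gw (1 / z.re) 0 α := by
  unfold gz gw
  rw [Complex.norm_exp, sub_zero, normSq_int]
  congr 1
  have e : (-Real.pi * z * (α.re ^ 2 + α.im ^ 2) : ℂ) =
      ((-Real.pi * ((α.re : ℝ) ^ 2 + (α.im : ℝ) ^ 2) : ℝ) : ℂ) * z := by
    push_cast; ring
  rw [e, re_ofReal_mul]
  field_simp

lemma chi_le {q : ℕ} (χ : DirichletCharacter ℂ q) (ι : ℤ) (z : ℂ) (hz : 0 < z.re) (α : GaussianInt) :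
    ‖χ ((red ι α : ℤ) : ZMod q) * gz z α‖ ≤ gw (1 / z.re) 0 α := by
  rw [norm_mul, gz_norm z hz]
  exact mul_le_of_le_one_left (gw_nonneg _ _ _) (χ.norm_le_one _)

lemma Th_summable {q : ℕ} (χ : DirichletCharacter ℂ q) (ι : ℤ) (z : ℂ) (hz : 0 < z.re) :
    Summable fun α => ‖χ ((red ι α : ℤ) : ZMod q) * gz z α‖ :=
  Summable.of_nonneg_of_le (fun _ => norm_nonneg _) (fun α => chi_le χ ι z hz α)
    (gw_summable (by positivity) 0)

/-- from finite sums to the whole sum -/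
lemma tsum_of_fin {F : GaussianInt → ℂ} {B : ℝ} (h : ∀ S : Finset GaussianInt, (∀ l ∈ S, l ≠ 0) →
    ∑ l ∈ S, ‖F l‖ ≤ B) : ‖∑' l, F l‖ ≤ ‖F 0‖ + B := by
  classical
  have h1 : ∀ S : Finset GaussianInt, ∑ l ∈ S, ‖F l‖ ≤ ‖F 0‖ + B := by
    intro S
    have h2 := h (S.erase 0) (fun l hl => (mem_erase.1 hl).1)
    calc ∑ l ∈ S, ‖F l‖ ≤ ∑ l ∈ insert 0 (S.erase 0), ‖F l‖ := by
          refine sum_le_sum_of_subset_of_nonneg ?_ fun _ _ _ => norm_nonneg _
          intro l hl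
          by_cases h0 : l = 0
          · rw [h0]; exact mem_insert_self _ _
          · exact mem_insert_of_mem (mem_erase.2 ⟨h0, hl⟩)
      _ = ‖F 0‖ + ∑ l ∈ S.erase 0, ‖F l‖ := sum_insert (notMem_erase _ _)
      _ ≤ _ := by linarith
  have hs : Summable fun l => ‖F l‖ := summable_of_sum_le (fun _ => norm_nonneg _) h1
  exact (norm_tsum_le_tsum_norm hs).trans (hs.tsum_le_of_sum_le h1)

theorem Th_sq {p ν m : ℕ} {ι : ℤ} {ϖ : GaussianInt} [NeZero (p ^ m)] (hfr : Fr p ν ι ϖ) (hm : 1 ≤ m) (hmν : m < ν)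
    (χ : DirichletCharacter ℂ (p ^ ν)) {ρ : ℝ} (hρ : 0 < ρ) (σ : ℝ) {B : ℝ}
    (hB : ∀ S : Finset GaussianInt, (∀ l ∈ S, l ≠ 0) → ∑ l ∈ S, ‖TT χ ι ρ σ (ϖ ^ m * l)‖ ≤ B) :
    ∑ θ : DirichletCharacter ℂ (p ^ m),
      ‖Th (χ * DirichletCharacter.changeLevel (pow_dvd_pow p hmν.le) θ) ι (ρ + σ * I)‖ ^ 2 ≤
      (p : ℝ) ^ m * (GG (1 / (2 * ρ)) + B) := by
  classical
  have hp := hfr.pr
  have hz : 0 < ((ρ : ℂ) + σ * I).re := by simpa using hρ
  obtain ⟨z, hzd⟩ : ∃ z : ℂ, z = ρ + σ * I := ⟨_, rfl⟩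
  rw [← hzd] at hz ⊢
  have hzre : z.re = ρ := by rw [hzd]; simp
  obtain ⟨c, hc⟩ : ∃ c : GaussianInt → ℂ, c = fun α => χ ((red ι α : ℤ) : ZMod (p ^ ν)) * gz z α := ⟨_, rfl⟩
  have hcs : Summable fun α => ‖c α‖ := by rw [hc]; exact Th_summable χ ι z hz
  have hcs' : Summable c := hcs.of_norm
  have hinj : ∀ a : GaussianInt, Function.Injective fun x => a + ϖ ^ m * x := by
    intro a x y hxy
    exact mul_left_cancel₀ (pow_ne_zero m hfr.ne0) (add_left_cancel hxy)
  obtain ⟨C, hC⟩ : ∃ C : ℕ → ℂ, C = fun a : ℕ => ∑' x, c ((a : GaussianInt) + ϖ ^ m * x) := ⟨_, rfl⟩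
  have hdvd : p ^ m ∣ p ^ ν := pow_dvd_pow p hmν.le
  -- the reduction on a class
  have hredm : ∀ (a : ℕ) (x : GaussianInt), ((red ι ((a : GaussianInt) + ϖ ^ m * x) : ℤ) : ZMod (p ^ m)) = a := by
    intro a x
    obtain ⟨k, hk⟩ := hfr.dvd_red_mul hmν.le x
    rw [red_add, hk]
    have e1 : red ι ((a : ℕ) : GaussianInt) = a := by
      have := red_int ι a
      simpa using this
    rw [e1]
    push_cast
    have h0 : ((p ^ m : ℕ) : ZMod (p ^ m)) = 0 := ZMod.natCast_self _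
    push_cast at h0
    rw [h0, zero_mul, add_zero]
  have hredp : ∀ (a : ℕ) (x : GaussianInt), ((p : ℤ) ∣ red ι ((a : GaussianInt) + ϖ ^ m * x) ↔ p ∣ a) := by
    intro a x
    obtain ⟨k, hk⟩ := hfr.dvd_red_mul hmν.le x
    rw [red_add, hk]
    have e1 : red ι ((a : ℕ) : GaussianInt) = a := by
      have := red_int ι a
      simpa using this
    rw [e1, dvd_add_left (Dvd.dvd.mul_right (dvd_pow_self _ (by omega)) _)]
    exact Int.natCast_dvd_natCast
  have hTh : ∀ θ : DirichletCharacter ℂ (p ^ m),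
      Th (χ * DirichletCharacter.changeLevel hdvd θ) ι z = ∑ a ∈ range (p ^ m), θ (a : ZMod (p ^ m)) * C a := by
    intro θ
    unfold Th
    rw [hfr.tsum_dec hmν.le (Th_summable _ ι z hz).of_norm]
    refine sum_congr rfl fun a _ => ?_
    rw [hC]
    simp only
    rw [← tsum_mul_left]
    refine tsum_congr fun x => ?_
    rw [hc]
    simp only
    rw [MulChar.mul_apply]
    by_cases hn : IsUnit ((red ι ((a : GaussianInt) + ϖ ^ m * x) : ℤ) : ZMod (p ^ ν))
    · have h1 : (DirichletCharacter.changeLevel hdvd θ) ((red ι ((a : GaussianInt) + ϖ ^ m * x) : ℤ) : ZMod (p ^ ν)) =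
          θ (a : ZMod (p ^ m)) := by
        rw [← hredm a x]
        obtain ⟨u, hu⟩ := hn
        rw [← hu, DirichletCharacter.changeLevel_eq_cast_of_dvd, hu, ZMod.cast_intCast hdvd]
      rw [h1]
      ring
    · have h1 : χ ((red ι ((a : GaussianInt) + ϖ ^ m * x) : ℤ) : ZMod (p ^ ν)) = 0 := MulChar.map_nonunit _ hn
      rw [h1]
      ring
  simp_rw [hTh]
  have hC0 : ∀ a ∈ range (p ^ m), ¬ IsUnit (a : ZMod (p ^ m)) → C a = 0 := by
    intro a _ ha
    have hpa : p ∣ a := by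
      by_contra hpa
      apply ha
      rw [ZMod.isUnit_iff_coprime]
      exact Nat.Coprime.pow_right _ ((hp.coprime_iff_not_dvd).2 hpa).symm
    rw [hC]
    simp only
    have : ∀ x, c ((a : GaussianInt) + ϖ ^ m * x) = 0 := by
      intro x
      rw [hc]
      simp only
      rw [MulChar.map_nonunit, zero_mul]
      intro hu
      have h1 := (hredp a x).2 hpa
      have h2 : ((red ι ((a : GaussianInt) + ϖ ^ m * x) : ℤ) : ZMod (p ^ ν)) =
          (p : ZMod (p ^ ν)) * ((red ι ((a : GaussianInt) + ϖ ^ m * x) / p : ℤ) : ZMod (p ^ ν)) := by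
        have h3 : red ι ((a : GaussianInt) + ϖ ^ m * x) = p * (red ι ((a : GaussianInt) + ϖ ^ m * x) / p) :=
          (Int.mul_ediv_cancel' h1).symm
        conv_lhs => rw [h3]
        push_cast
        rfl
      rw [h2] at hu
      exact Pool.Agent.Y779.R3.not_unit_pi hp (by omega) _ hu
    simp_rw [this, tsum_zero]
  refine (orth (d := p ^ m) (range (p ^ m)) C hC0).trans ?_
  have hpm : ((p ^ m : ℕ) : ℝ) = (p : ℝ) ^ m := by push_cast; rfl
  rw [hpm]
  refine mul_le_mul_of_nonneg_left ?_ (by positivity)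
  -- the double sum
  have e1 : ∑ n ∈ range (p ^ m), ∑ k ∈ range (p ^ m), (if (n : ZMod (p ^ m)) = (k : ZMod (p ^ m)) then
      C n * (starRingEnd ℂ) (C k) else 0) = ∑ n ∈ range (p ^ m), C n * (starRingEnd ℂ) (C n) := by
    refine sum_congr rfl fun n hn => ?_
    rw [sum_eq_single n]
    · rw [if_pos rfl]
    · intro k hk hkn
      rw [if_neg]
      intro h
      apply hkn
      rw [ZMod.natCast_eq_natCast_iff'] at h
      rw [mem_range] at hn hk
      rw [Nat.mod_eq_of_lt hn, Nat.mod_eq_of_lt hk] at h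
      exact h.symm
    · intro h
      exact absurd hn h
  rw [e1]
  obtain ⟨g, hg⟩ : ∃ g : GaussianInt → ℂ, g = fun β => ∑' l, c (β + ϖ ^ m * l) * (starRingEnd ℂ) (c β) :=
    ⟨_, rfl⟩
  have hprod : Summable fun t : GaussianInt × GaussianInt => ‖c t.1‖ * ‖c t.2‖ :=
    hcs.mul_of_nonneg hcs (fun _ => norm_nonneg _) (fun _ => norm_nonneg _)
  have h2s : Summable fun t : GaussianInt × GaussianInt => c (t.1 + ϖ ^ m * t.2) * (starRingEnd ℂ) (c t.1) := by
    have hi : Function.Injective fun t : GaussianInt × GaussianInt => (t.1 + ϖ ^ m * t.2, t.1) := by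
      rintro ⟨a, b⟩ ⟨a', b'⟩ h
      simp only [Prod.mk.injEq] at h
      obtain ⟨h1, h2⟩ := h
      subst h2
      rw [hinj a h1]
    have := hprod.comp_injective hi
    refine Summable.of_norm (this.congr fun t => ?_)
    simp only [Function.comp]
    rw [norm_mul, RCLike.norm_conj]
  have hgs : Summable g := by
    rw [hg]
    exact h2s.prod
  have e2 : ∀ n ∈ range (p ^ m), C n * (starRingEnd ℂ) (C n) = ∑' y, g ((n : GaussianInt) + ϖ ^ m * y) := by
    intro n _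
    have e3 : (starRingEnd ℂ) (C n) = ∑' y, (starRingEnd ℂ) (c ((n : GaussianInt) + ϖ ^ m * y)) := by
      rw [hC]
      simp only
      rw [Complex.conj_tsum]
    rw [e3, ← tsum_mul_left]
    refine tsum_congr fun y => ?_
    rw [hg]
    simp only
    rw [tsum_mul_right]
    congr 1
    rw [hC]
    simp only
    rw [← (Equiv.addRight y).tsum_eq]
    refine tsum_congr fun l => ?_
    rw [Equiv.coe_addRight]
    congr 1
    ring
  rw [sum_congr rfl e2, ← hfr.tsum_dec hmν.le hgs]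
  have e4 : ∑' β, g β = ∑' l, TT χ ι ρ σ (ϖ ^ m * l) := by
    rw [hg]
    simp only
    rw [← Summable.tsum_comm (f := fun β l => c (β + ϖ ^ m * l) * (starRingEnd ℂ) (c β)) h2s]
    refine tsum_congr fun l => ?_
    unfold TT
    refine tsum_congr fun β => ?_
    rw [hc]
    simp only
    unfold FF Wt gz
    rw [map_mul, ← Complex.exp_conj]
    have e5 : red ι (β + ϖ ^ m * l) = red ι β + red ι (ϖ ^ m * l) := red_add _ _ _
    rw [e5]
    have e6 : (starRingEnd ℂ) (-Real.pi * z * (β.re ^ 2 + β.im ^ 2)) =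
        -Real.pi * (ρ - σ * I) * (β.re ^ 2 + β.im ^ 2) := by
      rw [hzd]
      simp only [map_mul, map_neg, map_add, conj_ofReal, conj_I, map_pow, map_intCast]
      ring
    rw [e6, Zsqrtd.re_add, Zsqrtd.im_add, hzd]
    have e7 : cexp (-Real.pi * ((ρ + σ * I) * ((β.re + (ϖ ^ m * l).re) ^ 2 + (β.im + (ϖ ^ m * l).im) ^ 2) +
        (ρ - σ * I) * (β.re ^ 2 + β.im ^ 2))) =
        cexp (-Real.pi * (ρ + σ * I) * (((β.re + (ϖ ^ m * l).re : ℤ) : ℂ) ^ 2 +
          ((β.im + (ϖ ^ m * l).im : ℤ) : ℂ) ^ 2)) * cexp (-Real.pi * (ρ - σ * I) * (β.re ^ 2 + β.im ^ 2)) := by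
      rw [← Complex.exp_add]
      congr 1
      push_cast
      ring
    rw [e7]
    ring
  rw [e4]
  refine (tsum_of_fin hB).trans ?_
  rw [mul_zero]
  have h0 := TT_triv χ ι hρ σ 0
  have h1 : Real.exp (-(Real.pi * ρ * normSq ((0 : GaussianInt) : ℂ) / 2)) = 1 := by simp
  rw [h1, one_mul] at h0
  linarith

end Run7.h343.GI
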