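import Pool.Agent.Run7.h343.GI.Cos
import Pool.Agent.Helper112.MultLS

/-!
The functional equation of the theta series.
-/

set_option autoImplicit false

namespace Run7.h343.GI

open Complex Finset
open Pool.Agent.H442R2
open Pool.Agent.Y766.R7
open Pool.Agent.Y766.R3 (eu FF FH)

variable {p ν : ℕ} {ι : ℤ} {ϖ : GaussianInt}

theorem poisZ (hfr : Fr p ν ι ϖ) {F : ℤ → ℂ} (hF : ∀ n k : ℤ, F (n + (p ^ ν : ℕ) * k) = F n)
    (hF1 : ∀ n, ‖F n‖ ≤ 1) {z : ℂ} (hz : 0 < z.re) :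
    ∑' β, F (red ι β) * gz z β = (1 / (z * (p : ℂ) ^ ν)) *
      ∑' h, FH (p ^ ν) F (RJ ν ϖ h) * gz (1 / (z * (p : ℂ) ^ ν)) h := by
  have hp0 : (0 : ℝ) < p := by exact_mod_cast hfr.pr.pos
  obtain ⟨P, hP⟩ : ∃ P : ℝ, P = (p : ℝ) ^ ν := ⟨_, rfl⟩
  have hP0 : 0 < P := by rw [hP]; positivity
  have hPc : (p : ℂ) ^ ν = (P : ℂ) := by rw [hP]; push_cast; rfl
  obtain ⟨c, hc⟩ : ∃ c : ℤ, c = (ϖ ^ ν).re := ⟨_, rfl⟩
  obtain ⟨d, hd⟩ : ∃ d : ℤ, d = (ϖ ^ ν).im := ⟨_, rfl⟩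
  have hcd : (c : ℂ) ^ 2 + (d : ℂ) ^ 2 = (P : ℂ) := by
    have h1 := hfr.nsq ν
    rw [← hc, ← hd] at h1
    rw [hP]
    exact_mod_cast h1
  have hz0 : z ≠ 0 := by intro h; rw [h] at hz; simp at hz
  have hPC : (P : ℂ) ≠ 0 := by exact_mod_cast hP0.ne'
  have hA0 : 0 < (z * P : ℂ).re := by
    rw [re_mul_ofReal]
    positivity
  have hA1 : 0 < (1 / (z * P) : ℂ).re := re_inv_pos hA0
  rw [hPc]
  have hsum : Summable fun β => F (red ι β) * gz z β := by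
    refine Summable.of_norm_bounded (gw_summable (X := 1 / z.re) (by positivity) 0) fun β => ?_
    rw [norm_mul, gz_norm z hz]
    exact mul_le_of_le_one_left (gw_nonneg _ _ _) (hF1 _)
  rw [hfr.tsum_dec le_rfl hsum]
  have hper : ∀ (a : ℕ) (x : GaussianInt), F (red ι ((a : GaussianInt) + ϖ ^ ν * x)) = F a := by
    intro a x
    obtain ⟨k, hk⟩ := hfr.dvd_red_mul le_rfl x
    rw [red_add, hk]
    have e1 : red ι ((a : ℕ) : GaussianInt) = a := by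
      have := red_int ι a
      simpa using this
    rw [e1]
    have := hF a k
    push_cast at this
    exact this
  have hcls : ∀ a : ℕ, ∑' x, gz z ((a : GaussianInt) + ϖ ^ ν * x) =
      (1 / (z * P)) * ∑' h, KF.e ((RJ ν ϖ h : ℝ) * ((a : ℝ) / (p ^ ν : ℕ))) * gz (1 / (z * P)) h := by
    intro a
    have e1 : ∀ x : GaussianInt, gz z ((a : GaussianInt) + ϖ ^ ν * x) =
        cexp (-Real.pi * z * a ^ 2) * EE (z * P) (-(z * a * c)) (z * a * d) x := by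
      intro x
      unfold gz EE
      rw [← Complex.exp_add]
      congr 1
      have r1 : ((a : GaussianInt) + ϖ ^ ν * x).re = a + (c * x.re - d * x.im) := by
        rw [Zsqrtd.re_add, Zsqrtd.re_mul, ← hc, ← hd]
        simp
        ring
      have r2 : ((a : GaussianInt) + ϖ ^ ν * x).im = c * x.im + d * x.re := by
        rw [Zsqrtd.im_add, Zsqrtd.im_mul, ← hc, ← hd]
        simp
      rw [r1, r2, ← hcd]
      push_cast
      ring
    simp_rw [e1]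
    rw [tsum_mul_left, poisson hA0, ← tsum_mul_left, ← tsum_mul_left, ← tsum_mul_left]
    refine tsum_congr fun h => ?_
    unfold EE gz KF.e
    have e2 : ((RJ ν ϖ h : ℤ) : ℂ) = c * h.re - d * h.im := by
      unfold RJ
      rw [Zsqrtd.re_mul, ← hc, ← hd]
      push_cast
      ring
    have hpr2 : (((p ^ ν : ℕ) : ℝ)) = P := by rw [hP]; push_cast; rfl
    rw [hpr2]
    have k2 : cexp (-Real.pi * z * a ^ 2) * (1 / (z * P) * cexp (Real.pi / (z * P) *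
        ((-(z * a * c)) ^ 2 + (z * a * d) ^ 2)) * cexp (-Real.pi * (1 / (z * P)) * (h.re ^ 2 + h.im ^ 2) +
        2 * Real.pi * (-I * (-(z * a * c)) / (z * P) * h.re + -I * (z * a * d) / (z * P) * h.im))) =
        1 / (z * P) * cexp (2 * Real.pi * ((c * h.re - d * h.im) * (a / P)) * I +
          -Real.pi * (1 / (z * P)) * (h.re ^ 2 + h.im ^ 2)) := by
      apply exp3
      rw [← hcd] at hPC ⊢
      field_simp
      ring
    rw [k2, Complex.exp_add]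
    push_cast
    rw [e2]
  have e5 : ∀ a ∈ range (p ^ ν), ∑' x, F (red ι ((a : GaussianInt) + ϖ ^ ν * x)) *
      gz z ((a : GaussianInt) + ϖ ^ ν * x) =
      ∑' h, (1 / (z * P)) * ((F a * KF.e ((RJ ν ϖ h : ℝ) * ((a : ℝ) / (p ^ ν : ℕ)))) * gz (1 / (z * P)) h) := by
    intro a _
    simp_rw [hper]
    rw [tsum_mul_left, hcls, ← tsum_mul_left, ← tsum_mul_left]
    refine tsum_congr fun h => ?_
    ring
  rw [sum_congr rfl e5]
  have hs : ∀ a ∈ range (p ^ ν), Summable fun h =>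
      (1 / (z * P)) * ((F a * KF.e ((RJ ν ϖ h : ℝ) * ((a : ℝ) / (p ^ ν : ℕ)))) * gz (1 / (z * P)) h) := by
    intro a _
    refine Summable.mul_left _ ?_
    refine Summable.of_norm_bounded (gw_summable (X := 1 / (1 / (z * P) : ℂ).re) (by positivity) 0) fun h => ?_
    rw [norm_mul, norm_mul, ← Pool.Agent.Y766.R3.eu_eq, eu_norm, mul_one, gz_norm _ hA1]
    exact mul_le_of_le_one_left (gw_nonneg _ _ _) (hF1 _)
  rw [← Summable.tsum_finsetSum hs, ← tsum_mul_left]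
  refine tsum_congr fun h => ?_
  rw [← mul_sum, ← sum_mul]
  unfold FH
  ring

/-- sums over `range q` and over `ZMod q` -/
lemma sum_zmod (q : ℕ) [NeZero q] (f : ZMod q → ℂ) : ∑ a ∈ range q, f (a : ZMod q) = ∑ a : ZMod q, f a := by
  refine sum_bij' (fun a _ => (a : ZMod q)) (fun x _ => x.val) ?_ ?_ ?_ ?_ ?_
  · intro a _; exact mem_univ _
  · intro x _; exact mem_range.2 (ZMod.val_lt x)
  · intro a ha
    exact ZMod.val_cast_of_lt (mem_range.1 ha)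
  · intro x _
    exact ZMod.natCast_zmod_val x
  · intro a _; rfl

lemma FH_char {q : ℕ} [NeZero q] {χ : DirichletCharacter ℂ q} (hχ : χ.IsPrimitive) (j : ℤ) :
    FH q (fun n => χ (n : ZMod q)) j = χ⁻¹ (j : ZMod q) * gaussSum χ (ZMod.stdAddChar : AddChar (ZMod q) ℂ) := by
  rw [← gaussSum_mulShift_of_isPrimitive _ hχ]
  unfold FH gaussSum
  rw [← sum_zmod]
  refine sum_congr rfl fun a _ => ?_
  rw [AddChar.mulShift_apply]
  have e1 : ((j : ZMod q) * (a : ZMod q)) = (((j * a : ℤ)) : ZMod q) := by push_cast; rfl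
  rw [e1, ZMod.stdAddChar_coe]
  unfold KF.e
  congr 1
  · simp
  · congr 1
    push_cast
    ring

theorem Th_fe (hfr : Fr p ν ι ϖ) (hν : 1 ≤ ν) {χ : DirichletCharacter ℂ (p ^ ν)} (hχ : χ.IsPrimitive) :
    ∃ ε : ℂ, ‖ε‖ = 1 ∧ ∀ z : ℂ, 0 < z.re →
      Th χ ι z = (ε / ((Real.sqrt ((p : ℝ) ^ ν) : ℂ) * z)) * Th χ⁻¹ ι (1 / (z * (p : ℂ) ^ ν)) := by
  have hp := hfr.pr
  haveI : NeZero (p ^ ν) := ⟨pow_ne_zero _ hp.ne_zero⟩
  have hp0 : (0 : ℝ) < p := by exact_mod_cast hp.pos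
  obtain ⟨τ, hτ⟩ : ∃ τ, τ = gaussSum χ (ZMod.stdAddChar : AddChar (ZMod (p ^ ν)) ℂ) := ⟨_, rfl⟩
  obtain ⟨u, hu⟩ : ∃ u : ZMod (p ^ ν), u = (2 : ZMod (p ^ ν))⁻¹ * ((red (-ι) (ϖ ^ ν) : ℤ) : ZMod (p ^ ν)) := ⟨_, rfl⟩
  have h2u : IsUnit (2 : ZMod (p ^ ν)) := by
    have := Pool.Agent.Y779.R3.unit_int (r := ν) hp hfr.two
    simpa using this
  have hiu : IsUnit ((2 : ZMod (p ^ ν))⁻¹) := Pool.Agent.Y924.R7.inv_unit h2u
  have hru : IsUnit ((red (-ι) (ϖ ^ ν) : ℤ) : ZMod (p ^ ν)) :=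
    Pool.Agent.Y779.R3.unit_int (r := ν) hp (hfr.conj_ndvd_pow hν ν)
  have huu : IsUnit u := by rw [hu]; exact hiu.mul hru
  have hRJ : ∀ h : GaussianInt, ((RJ ν ϖ h : ℤ) : ZMod (p ^ ν)) = u * ((red ι (star h) : ℤ) : ZMod (p ^ ν)) := by
    intro h
    apply h2u.mul_left_cancel
    have h22 : (2 : ZMod (p ^ ν)) * (2 : ZMod (p ^ ν))⁻¹ = 1 := ZMod.mul_inv_of_unit _ h2u
    have e1 : (2 : ZMod (p ^ ν)) * u = ((red (-ι) (ϖ ^ ν) : ℤ) : ZMod (p ^ ν)) := by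
      rw [hu, ← mul_assoc, h22, one_mul]
    rw [← mul_assoc, e1]
    have e2 : 2 * RJ ν ϖ h = red ι (ϖ ^ ν * h) + red (-ι) (ϖ ^ ν * h) := by
      unfold red RJ; ring
    have e3 : red ι (star h) = red (-ι) h := by unfold red; simp
    have e4 := hfr.conj.red_mul (ϖ ^ ν) h
    have e5 := hfr.dvd_red_mul le_rfl h
    have e6 : ((2 * RJ ν ϖ h : ℤ) : ZMod (p ^ ν)) = ((red (-ι) (ϖ ^ ν) * red (-ι) h : ℤ) : ZMod (p ^ ν)) := by
      rw [← sub_eq_zero, ← Int.cast_sub, ZMod.intCast_zmod_eq_zero_iff_dvd]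
      have e7 : 2 * RJ ν ϖ h - red (-ι) (ϖ ^ ν) * red (-ι) h =
          red ι (ϖ ^ ν * h) - (red (-ι) (ϖ ^ ν) * red (-ι) h - red (-ι) (ϖ ^ ν * h)) := by
        rw [e2]; ring
      rw [e7]
      push_cast
      exact dvd_sub e5 e4
    rw [e3]
    push_cast at e6
    exact e6
  have hκ : ‖χ⁻¹ u‖ = 1 := by
    obtain ⟨v, hv⟩ := huu
    rw [← hv]
    exact (χ⁻¹).unit_norm_eq_one v
  have hτn : ‖τ‖ = Real.sqrt ((p : ℝ) ^ ν) := by
    have h1 := Pool.Agent.Helper112.MLS.norm_gauss (p ^ ν) hχ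
    rw [← hτ] at h1
    have h2 : ((p ^ ν : ℕ) : ℝ) = (p : ℝ) ^ ν := by push_cast; rfl
    rw [h2] at h1
    rw [← h1, Real.sqrt_sq (norm_nonneg _)]
  have hs0 : 0 < Real.sqrt ((p : ℝ) ^ ν) := Real.sqrt_pos.2 (by positivity)
  have hsC : ((Real.sqrt ((p : ℝ) ^ ν) : ℝ) : ℂ) ≠ 0 := by exact_mod_cast hs0.ne'
  have hsq : ((Real.sqrt ((p : ℝ) ^ ν) : ℝ) : ℂ) ^ 2 = (p : ℂ) ^ ν := by
    have := Real.sq_sqrt (by positivity : (0 : ℝ) ≤ (p : ℝ) ^ ν)
    have h3 : (((Real.sqrt ((p : ℝ) ^ ν)) ^ 2 : ℝ) : ℂ) = (((p : ℝ) ^ ν : ℝ) : ℂ) := by rw [this]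
    push_cast at h3
    exact h3
  refine ⟨χ⁻¹ u * τ / (Real.sqrt ((p : ℝ) ^ ν) : ℂ), ?_, ?_⟩
  · rw [norm_div, norm_mul, hκ, one_mul, hτn, Complex.norm_real, Real.norm_of_nonneg hs0.le]
    exact div_self hs0.ne'
  · intro z hz
    have hz0 : z ≠ 0 := by intro h; rw [h] at hz; simp at hz
    have hpois := poisZ hfr (F := fun n => χ (n : ZMod (p ^ ν))) (fun n k => by
      congr 1
      push_cast
      have h0 : ((p ^ ν : ℕ) : ZMod (p ^ ν)) = 0 := ZMod.natCast_self _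
      push_cast at h0
      rw [h0]; ring) (fun n => χ.norm_le_one _) hz
    have e1 : Th χ ι z = ∑' β, (fun n : ℤ => χ (n : ZMod (p ^ ν))) (red ι β) * gz z β := rfl
    rw [e1, hpois]
    have e2 : ∑' h, FH (p ^ ν) (fun n => χ (n : ZMod (p ^ ν))) (RJ ν ϖ h) * gz (1 / (z * (p : ℂ) ^ ν)) h =
        χ⁻¹ u * τ * Th χ⁻¹ ι (1 / (z * (p : ℂ) ^ ν)) := by
      unfold Th
      rw [← tsum_mul_left]
      have hstar : Function.Bijective (star : GaussianInt → GaussianInt) := star_involutive.bijective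
      rw [← (Equiv.ofBijective star hstar).tsum_eq]
      refine tsum_congr fun h => ?_
      rw [FH_char hχ, hRJ, map_mul, ← hτ, Equiv.ofBijective_apply, star_star]
      have : gz (1 / (z * (p : ℂ) ^ ν)) (star h) = gz (1 / (z * (p : ℂ) ^ ν)) h := by
        unfold gz
        congr 1
        simp
      rw [this]
      ring
    rw [e2, ← hsq]
    field_simp

end Run7.h343.GI
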