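import Pool.Agent.Run7.h343.GI.Bd

/-!
The final form of the mean square bound.
-/

set_option autoImplicit false

namespace Run7.h343.GI

open Complex Finset
open Pool.Agent.Y766.R3 (prim_mul)

lemma exists_fr {p ν : ℕ} (hp : p.Prime) (hp2 : p ≠ 2) (hν : 1 ≤ ν) {ι : ℤ}
    (h : (p : ℤ) ^ ν ∣ ι ^ 2 + 1) : ∃ ϖ : GaussianInt, Fr p ν ι ϖ := by
  haveI : Fact p.Prime := ⟨hp⟩
  have h1 : (p : ℤ) ∣ ι ^ 2 + 1 := (dvd_pow_self _ (by omega)).trans h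
  have h2 : ((ι : ℤ) : ZMod p) ^ 2 = -1 := by
    have h3 : (((ι ^ 2 + 1 : ℤ)) : ZMod p) = 0 := (ZMod.intCast_zmod_eq_zero_iff_dvd _ _).2 h1
    push_cast at h3
    linear_combination h3
  obtain ⟨a, b, hab⟩ := Nat.Prime.sq_add_sq (ZMod.mod_four_ne_three_of_sq_eq_neg_one h2)
  have habZ : (a : ℤ) ^ 2 + (b : ℤ) ^ 2 = p := by exact_mod_cast hab
  have hpZ : Prime (p : ℤ) := Nat.prime_iff_prime_int.1 hp
  have h4 : (p : ℤ) ∣ ((a : ℤ) + ι * b) * ((a : ℤ) - ι * b) := by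
    have e1 : ((a : ℤ) + ι * b) * ((a : ℤ) - ι * b) = p - (ι ^ 2 + 1) * b ^ 2 := by
      rw [← habZ]; ring
    rw [e1]
    exact dvd_sub (dvd_refl _) (Dvd.dvd.mul_right h1 _)
  rcases hpZ.dvd_or_dvd h4 with h5 | h5
  · exact ⟨⟨a, b⟩, hp, hp2, h, habZ, h5⟩
  · refine ⟨⟨a, -b⟩, hp, hp2, h, ?_, ?_⟩
    · simpa using habZ
    · unfold red
      have e1 : (a : ℤ) + ι * -b = a - ι * b := by ring
      simp only
      rw [e1]
      exact h5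

/-- the case of level `p` -/
theorem triv_bd : ∃ C : ℝ, 0 < C ∧ ∀ p : ℕ, p.Prime →
    ∀ (ν : ℕ) (ι : ℤ) (ϖ : GaussianInt), Fr p ν ι ϖ → 1 ≤ ν →
    ∀ χ : DirichletCharacter ℂ (p ^ ν), χ.IsPrimitive →
    ∀ L : ℂ → ℂ, Differentiable ℂ L → (∀ s : ℂ, 1 < s.re → L s = Ds χ ι s) → ∀ t : ℝ,
    ‖L (1 / 2 + t * I)‖ ^ 2 ≤ C * (1 + |t|) ^ 3 * ((p : ℝ) ^ ν) ^ 3 := by
  have hCG := CG_one
  refine ⟨Real.exp 1 ^ 2 * (136 * CG ^ 2), by positivity, ?_⟩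
  intro p hp ν ι ϖ hfr hν χ hχ L hL hLs t
  have hp0 : (0 : ℝ) < p := by exact_mod_cast hp.pos
  obtain ⟨Q, hQ⟩ : ∃ Q : ℝ, Q = (p : ℝ) ^ ν := ⟨_, rfl⟩
  have hQ0 : 0 < Q := by rw [hQ]; positivity
  have hQ1 : 1 < Q := by
    rw [hQ]
    exact one_lt_pow₀ (by exact_mod_cast hp.one_lt) (by omega)
  obtain ⟨ω, hω1, hωre, hω2⟩ := ray t
  have ht : 0 < 1 + |t| := by positivity
  have ht1 : 1 ≤ 1 + |t| := by linarith [abs_nonneg t]
  have hω : 0 < ω.re := lt_of_lt_of_le (by positivity) hωre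
  have hinv : 1 / ω.re ≤ 2 * (1 + |t|) := by
    rw [div_le_iff₀ hω]
    rw [div_le_iff₀ (by positivity)] at hωre
    linarith
  have hmain := int_sq (J := Unit) (F := fun _ (x : ℝ) => ‖Th χ ι (ω * x)‖) (Q := Q) (D := CG / ω.re)
    (B := (CG / ω.re) ^ 2 * Q) (fun _ => (fx_cont _ ι hω).norm) (fun _ x => norm_nonneg _) hQ1 (by positivity)
    (fun _ x hx => by
      have hx0 : 0 < x := by linarith
      have hre : (ω * x : ℂ).re = ω.re * x := by rw [re_mul_ofReal]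
      refine (Th_le hp (by omega) _ ι (z := ω * x) (by rw [hre]; positivity)).trans (le_of_eq ?_)
      rw [hre, div_div])
    (fun _ x hx hxQ => by
      rw [fx_fe hfr (by omega) hχ hω hω1 hx, ← hQ]
      have hre : (starRingEnd ℂ ω * ((1 / (x * Q) : ℝ) : ℂ)).re = ω.re / (x * Q) := by
        rw [re_mul_ofReal, conj_re]; ring
      have h2 := Th_le hfr.pr (by omega) χ⁻¹ ι
        (z := starRingEnd ℂ ω * ((1 / (x * Q) : ℝ) : ℂ)) (by rw [hre]; positivity)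
      rw [hre] at h2
      have hs0 : 0 < Real.sqrt Q := Real.sqrt_pos.2 hQ0
      calc _ ≤ 1 / (Real.sqrt Q * x) * (CG / (ω.re / (x * Q))) := by gcongr
        _ = CG / ω.re * (Q / Real.sqrt Q) := by field_simp
        _ = _ := by rw [Real.div_sqrt])
    (fun x hx hx1 => by
      have hx0 : 0 < x := lt_of_lt_of_le (by positivity) hx
      have hre : (ω * x : ℂ).re = ω.re * x := by rw [re_mul_ofReal]
      have h2 := Th_le hp (by omega) χ ι (z := ω * x) (by rw [hre]; positivity)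
      rw [hre] at h2
      have h3 : ‖Th χ ι (ω * x)‖ ^ 2 ≤ (CG / (ω.re * x)) ^ 2 := pow_le_pow_left₀ (norm_nonneg _) h2 2
      simp only [univ_unique, sum_singleton]
      refine h3.trans ?_
      have e1 : (CG / (ω.re * x)) ^ 2 = (CG / ω.re) ^ 2 * (1 / x) / x := by field_simp
      rw [e1]
      have e2 : 1 / x ≤ Q := by
        rw [div_le_iff₀ hQ0] at hx
        rw [div_le_iff₀ hx0]
        linarith
      gcongr)
  simp only [univ_unique, sum_singleton, Fintype.card_unit] at hmain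
  have hlog : 0 < Real.log Q := Real.log_pos hQ1
  have hlogQ : Real.log Q ≤ Q := by
    have := Real.log_le_sub_one_of_pos hQ0
    linarith
  have h1 := L_half_le hfr hν hχ hL hLs hω hω1 hω2
  have h2 : ‖L (1 / 2 + t * I)‖ ^ 2 ≤ Real.exp 1 ^ 2 *
      (∫ x in Set.Ioi (0 : ℝ), x ^ (-(1 / 2) : ℝ) * ‖Th χ ι (ω * x)‖) ^ 2 := by
    rw [← mul_pow]
    exact pow_le_pow_left₀ (norm_nonneg _) h1 2
  have h4 : (1 / ω.re) ^ 2 ≤ 4 * (1 + |t|) ^ 3 := by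
    calc (1 / ω.re) ^ 2 ≤ (2 * (1 + |t|)) ^ 2 := by gcongr
      _ = 4 * (1 + |t|) ^ 2 := by ring
      _ ≤ 4 * (1 + |t|) ^ 3 := by
        have := pow_le_pow_right₀ ht1 (show 2 ≤ 3 by norm_num)
        linarith
  have hQ3 : 1 ≤ Q ^ 3 := one_le_pow₀ hQ1.le
  have h5 : Q * (Real.log Q) ^ 2 ≤ Q ^ 3 := by
    calc Q * (Real.log Q) ^ 2 ≤ Q * Q ^ 2 := by gcongr
      _ = Q ^ 3 := by ring
  rw [← hQ]
  calc ‖L (1 / 2 + t * I)‖ ^ 2 ≤ Real.exp 1 ^ 2 * (32 * (CG / ω.re) ^ 2 * ((1 : ℕ) : ℝ) +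
        2 * ((CG / ω.re) ^ 2 * Q) * (Real.log Q) ^ 2) := h2.trans (by gcongr)
    _ = Real.exp 1 ^ 2 * (CG ^ 2 * (1 / ω.re) ^ 2 * (32 + 2 * (Q * (Real.log Q) ^ 2))) := by
        push_cast; ring
    _ ≤ Real.exp 1 ^ 2 * (CG ^ 2 * (4 * (1 + |t|) ^ 3) * (32 * Q ^ 3 + 2 * Q ^ 3)) := by
        gcongr
        linarith
    _ = _ := by ring

lemma log_fac {ε : ℝ} (hε : 0 < ε) {p ν : ℕ} (hp7 : 7 ≤ p) :
    (1 + (ν : ℝ)) ^ 2 * (1 + Real.log ((p : ℝ) ^ ν)) ^ 2 ≤ (1 + 4 / ε) ^ 4 * ((p : ℝ) ^ ν) ^ ε := by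
  have hp0 : (0 : ℝ) < p := by exact_mod_cast (by omega : 0 < p)
  have hp7' : (7 : ℝ) ≤ p := by exact_mod_cast hp7
  have hp1 : (1 : ℝ) ≤ p := by linarith
  obtain ⟨Q, hQ⟩ : ∃ Q : ℝ, Q = (p : ℝ) ^ ν := ⟨_, rfl⟩
  have hQ1 : 1 ≤ Q := by rw [hQ]; exact one_le_pow₀ hp1
  have hlogp : 1 ≤ Real.log p := by
    rw [Real.le_log_iff_exp_le hp0]
    have := Real.exp_one_lt_three
    linarith
  have hνl : (ν : ℝ) ≤ Real.log Q := by
    rw [hQ, Real.log_pow]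
    have : (0 : ℝ) ≤ ν := Nat.cast_nonneg ν
    nlinarith
  have hlog0 : 0 ≤ Real.log Q := Real.log_nonneg hQ1
  have h1 : Real.log Q ≤ Q ^ (ε / 4) / (ε / 4) := Real.log_le_rpow_div (by linarith) (by positivity)
  have h2 : 1 ≤ Q ^ (ε / 4) := Real.one_le_rpow hQ1 (by positivity)
  have h3 : 1 + Real.log Q ≤ (1 + 4 / ε) * Q ^ (ε / 4) := by
    have e1 : Q ^ (ε / 4) / (ε / 4) = 4 / ε * Q ^ (ε / 4) := by field_simp
    rw [e1] at h1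
    linarith
  rw [← hQ]
  calc (1 + (ν : ℝ)) ^ 2 * (1 + Real.log Q) ^ 2 ≤ (1 + Real.log Q) ^ 2 * (1 + Real.log Q) ^ 2 := by gcongr
    _ = (1 + Real.log Q) ^ 4 := by ring
    _ ≤ ((1 + 4 / ε) * Q ^ (ε / 4)) ^ 4 := by gcongr
    _ = (1 + 4 / ε) ^ 4 * (Q ^ (ε / 4)) ^ 4 := by ring
    _ = (1 + 4 / ε) ^ 4 * Q ^ ε := by
        congr 1
        rw [← Real.rpow_natCast, ← Real.rpow_mul (by linarith)]
        congr 1
        push_cast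
        ring

theorem main_coset {ε : ℝ} (hε : 0 < ε) : ∃ C : ℝ, 0 < C ∧ ∀ p : ℕ, p.Prime → 7 ≤ p →
    ∀ (ν m : ℕ) (hmν : m < ν) (ι : ℤ), (p : ℤ) ^ ν ∣ ι ^ 2 + 1 → ∀ [NeZero (p ^ m)],
    ∀ χ : DirichletCharacter ℂ (p ^ ν), χ.IsPrimitive →
    ∀ L : DirichletCharacter ℂ (p ^ m) → ℂ → ℂ, (∀ θ, Differentiable ℂ (L θ)) →
    (∀ θ (s : ℂ), 1 < s.re → L θ s =
      Ds (χ * DirichletCharacter.changeLevel (pow_dvd_pow p hmν.le) θ) ι s) → ∀ t : ℝ,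
    ∑ θ : DirichletCharacter ℂ (p ^ m), ‖L θ (1 / 2 + t * I)‖ ^ 2 ≤
      C * (p : ℝ) ^ 5 * (1 + |t|) ^ 3 * ((p : ℝ) ^ ν) ^ ε *
        ((p : ℝ) ^ m + ((p : ℝ) ^ ν) ^ (19 / 58 : ℝ)) := by
  classical
  obtain ⟨C1, hC1, h1⟩ := bd_main
  obtain ⟨C2, hC2, h2⟩ := triv_bd
  obtain ⟨K, hK⟩ : ∃ K : ℝ, K = (1 + 4 / ε) ^ 4 := ⟨_, rfl⟩
  have hK0 : 0 < K := by rw [hK]; positivity
  refine ⟨C2 + C1 * K, by positivity, ?_⟩
  intro p hp hp7 ν m hmν ι hι _ χ hχ L hL hLs t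
  obtain ⟨ϖ, hfr⟩ := exists_fr hp (by omega) (by omega) hι
  have hp0 : (0 : ℝ) < p := by exact_mod_cast hp.pos
  have hp1 : (1 : ℝ) ≤ p := by exact_mod_cast hp.one_le
  haveI : ∀ n, NeZero (p ^ n) := fun n => ⟨pow_ne_zero _ hp.ne_zero⟩
  obtain ⟨q, hqd⟩ : ∃ q : ℝ, q = (p : ℝ) ^ ν := ⟨_, rfl⟩
  have hq1 : 1 ≤ q := by rw [hqd]; exact one_le_pow₀ hp1
  have hq0 : 0 < q := by linarith
  have hqe1 : 1 ≤ q ^ ε := Real.one_le_rpow hq1 hε.le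
  have ht1 : (1 : ℝ) ≤ 1 + |t| := by linarith [abs_nonneg t]
  have hqs : (0 : ℝ) < q ^ (19 / 58 : ℝ) := by positivity
  have hp45 : (p : ℝ) ^ 4 ≤ (p : ℝ) ^ 5 := pow_le_pow_right₀ hp1 (by norm_num)
  have hlf := log_fac hε (ν := ν) hp7
  rw [← hqd, ← hK] at hlf
  rw [← hqd]
  rcases le_or_gt (19 * ν) (58 * m) with h19 | h19
  · have h3 := h1 p hp hp7 ν m ι ϖ hfr (by omega) hmν h19 χ hχ L hL hLs t
    rw [← hqd] at h3
    refine h3.trans ?_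
    have hle : (p : ℝ) ^ m ≤ (p : ℝ) ^ m + q ^ (19 / 58 : ℝ) := by linarith
    calc C1 * (p : ℝ) ^ 4 * (1 + |t|) ^ 3 * ((1 + ν) ^ 2 * (1 + Real.log q) ^ 2) * (p : ℝ) ^ m
        ≤ C1 * (p : ℝ) ^ 5 * (1 + |t|) ^ 3 * (K * q ^ ε) * ((p : ℝ) ^ m + q ^ (19 / 58 : ℝ)) := by gcongr
      _ = C1 * K * (p : ℝ) ^ 5 * (1 + |t|) ^ 3 * q ^ ε * ((p : ℝ) ^ m + q ^ (19 / 58 : ℝ)) := by ring
      _ ≤ _ := by
        have : C1 * K ≤ C2 + C1 * K := by linarith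
        gcongr
  rcases Nat.lt_or_ge ν 2 with hν2 | hν2
  · obtain rfl : ν = 1 := by omega
    obtain rfl : m = 0 := by omega
    have hcard : (Fintype.card (DirichletCharacter ℂ (p ^ 0)) : ℝ) ≤ 1 := by
      have := card_le (m := 0) hp
      simpa using this
    have hone : ∀ θ : DirichletCharacter ℂ (p ^ 0), ‖L θ (1 / 2 + t * I)‖ ^ 2 ≤ C2 * (1 + |t|) ^ 3 * q ^ 3 := by
      intro θ
      have h3 := h2 p hp 1 ι ϖ hfr le_rfl _ (prim_mul hp hmν hχ θ) (L θ) (hL θ) (hLs θ) t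
      rw [← hqd] at h3
      exact h3
    have hqp : q = p := by rw [hqd, pow_one]
    have h5 : (1 : ℝ) ≤ (p : ℝ) ^ 0 + q ^ (19 / 58 : ℝ) := by rw [pow_zero]; linarith
    have hp35 : (p : ℝ) ^ 3 ≤ (p : ℝ) ^ 5 := pow_le_pow_right₀ hp1 (by norm_num)
    calc _ ≤ ∑ θ : DirichletCharacter ℂ (p ^ 0), C2 * (1 + |t|) ^ 3 * q ^ 3 :=
          sum_le_sum fun θ _ => hone θ
      _ = (Fintype.card (DirichletCharacter ℂ (p ^ 0)) : ℝ) * (C2 * (1 + |t|) ^ 3 * q ^ 3) := by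
          rw [sum_const, nsmul_eq_mul, card_univ]
      _ ≤ 1 * (C2 * (1 + |t|) ^ 3 * q ^ 3) := by gcongr
      _ = C2 * (p : ℝ) ^ 3 * (1 + |t|) ^ 3 * 1 * 1 := by rw [hqp]; ring
      _ ≤ (C2 + C1 * K) * (p : ℝ) ^ 5 * (1 + |t|) ^ 3 * q ^ ε * ((p : ℝ) ^ 0 + q ^ (19 / 58 : ℝ)) := by
          have hC : C2 ≤ C2 + C1 * K := by
            have : 0 < C1 * K := by positivity
            linarith
          gcongr
  · -- embed the coset in a larger one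
    obtain ⟨m', hm'⟩ : ∃ m' : ℕ, m' = (19 * ν + 57) / 58 := ⟨_, rfl⟩
    have hm'ν : m' < ν := by omega
    have hmm' : m ≤ m' := by omega
    have h19' : 19 * ν ≤ 58 * m' := by omega
    have hex : ∀ θ' : DirichletCharacter ℂ (p ^ m'), ∃ L' : ℂ → ℂ, Differentiable ℂ L' ∧
        ∀ s : ℂ, 1 < s.re → L' s = Ds (χ * DirichletCharacter.changeLevel (pow_dvd_pow p hm'ν.le) θ') ι s :=
      fun θ' => exists_L hfr (by omega) (prim_mul hp hm'ν hχ θ')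
    choose L' hL' hLs' using hex
    have h3 := h1 p hp hp7 ν m' ι ϖ hfr (by omega) hm'ν h19' χ hχ L' hL' hLs' t
    rw [← hqd] at h3
    obtain ⟨e, he⟩ : ∃ e : DirichletCharacter ℂ (p ^ m) → DirichletCharacter ℂ (p ^ m'), e = fun θ =>
      DirichletCharacter.changeLevel (pow_dvd_pow p hmm') θ := ⟨_, rfl⟩
    have heinj : Function.Injective e := by
      intro θ θ' h
      rw [he] at h
      exact DirichletCharacter.changeLevel_injective (pow_dvd_pow p hmm') h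
    have hsum : ∑ θ : DirichletCharacter ℂ (p ^ m), ‖L θ (1 / 2 + t * I)‖ ^ 2 ≤
        ∑ θ : DirichletCharacter ℂ (p ^ m'), ‖L' θ (1 / 2 + t * I)‖ ^ 2 := by
      have e1 : ∀ θ : DirichletCharacter ℂ (p ^ m), L θ = L' (e θ) := by
        intro θ
        refine entire_unique (hL θ) (hL' (e θ)) fun s hs => ?_
        rw [hLs θ s hs, hLs' (e θ) s hs, he]
        simp only
        congr 2
        exact DirichletCharacter.changeLevel_trans θ _ _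
      simp_rw [e1]
      rw [← sum_image (s := univ) (g := e) (f := fun θ' => ‖L' θ' (1 / 2 + t * I)‖ ^ 2)
        (fun x _ y _ h => heinj h)]
      exact sum_le_sum_of_subset_of_nonneg (subset_univ _) fun _ _ _ => by positivity
    have hpm : (p : ℝ) ^ m' ≤ p * q ^ (19 / 58 : ℝ) := by
      have e1 : p * q ^ (19 / 58 : ℝ) = (p : ℝ) ^ (1 + (ν : ℝ) * (19 / 58)) := by
        rw [Real.rpow_add hp0, Real.rpow_one, hqd, Real.rpow_mul hp0.le, Real.rpow_natCast]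
      rw [e1, ← Real.rpow_natCast]
      refine Real.rpow_le_rpow_of_exponent_le hp1 ?_
      have : (58 : ℝ) * m' ≤ 19 * ν + 57 := by exact_mod_cast (by omega : 58 * m' ≤ 19 * ν + 57)
      linarith
    refine hsum.trans (h3.trans ?_)
    have hpm0 : (0 : ℝ) < (p : ℝ) ^ m := by positivity
    calc C1 * (p : ℝ) ^ 4 * (1 + |t|) ^ 3 * ((1 + ν) ^ 2 * (1 + Real.log q) ^ 2) * (p : ℝ) ^ m'
        ≤ C1 * (p : ℝ) ^ 4 * (1 + |t|) ^ 3 * (K * q ^ ε) * (p * q ^ (19 / 58 : ℝ)) := by gcongr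
      _ = C1 * K * (p : ℝ) ^ 5 * (1 + |t|) ^ 3 * q ^ ε * q ^ (19 / 58 : ℝ) := by ring
      _ ≤ (C2 + C1 * K) * (p : ℝ) ^ 5 * (1 + |t|) ^ 3 * q ^ ε * ((p : ℝ) ^ m + q ^ (19 / 58 : ℝ)) := by
          have hC : C1 * K ≤ C2 + C1 * K := by linarith
          have hle : q ^ (19 / 58 : ℝ) ≤ (p : ℝ) ^ m + q ^ (19 / 58 : ℝ) := by linarith
          gcongr

end Run7.h343.GI
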