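import Pool.Agent.Run7.h343.GI.Gau2

/-!
A split prime of the Gaussian integers and its powers.
-/

set_option autoImplicit false

namespace Run7.h343.GI

open Complex

/-- the reduction `a + b i ↦ a + b ι` -/
def red (ι : ℤ) (α : GaussianInt) : ℤ := α.re + ι * α.im

lemma red_add (ι : ℤ) (α β : GaussianInt) : red ι (α + β) = red ι α + red ι β := by
  unfold red; simp; ring

lemma red_sub (ι : ℤ) (α β : GaussianInt) : red ι (α - β) = red ι α - red ι β := by
  unfold red; simp; ring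

lemma red_neg (ι : ℤ) (α : GaussianInt) : red ι (-α) = -red ι α := by
  unfold red; simp; ring

lemma red_zero (ι : ℤ) : red ι 0 = 0 := by unfold red; simp

lemma red_int (ι a : ℤ) : red ι (a : GaussianInt) = a := by unfold red; simp

lemma red_mul (ι : ℤ) (α β : GaussianInt) :
    red ι α * red ι β = red ι (α * β) + (ι ^ 2 + 1) * (α.im * β.im) := by
  unfold red; simp; ring

/-- `ϖ` is a prime element above `p`, corresponding to the root `ι` of `-1` modulo `p ^ ν` -/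
structure Fr (p ν : ℕ) (ι : ℤ) (ϖ : GaussianInt) : Prop where
  pr : p.Prime
  odd : p ≠ 2
  root : (p : ℤ) ^ ν ∣ ι ^ 2 + 1
  nrm : ϖ.re ^ 2 + ϖ.im ^ 2 = p
  rd : (p : ℤ) ∣ red ι ϖ

variable {p ν : ℕ} {ι : ℤ} {ϖ : GaussianInt}

namespace Fr

lemma conj (h : Fr p ν ι ϖ) : Fr p ν (-ι) (star ϖ) := by
  refine ⟨h.pr, h.odd, by simpa using h.root, by simpa using h.nrm, ?_⟩
  have : GI.red (-ι) (star ϖ) = GI.red ι ϖ := by unfold GI.red; simp
  rw [this]; exact h.rd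

lemma two (h : Fr p ν ι ϖ) : ¬ (p : ℤ) ∣ 2 := by
  intro hd
  have h2 : p ∣ 2 := by exact_mod_cast hd
  exact h.odd ((Nat.prime_dvd_prime_iff_eq h.pr Nat.prime_two).1 h2)

lemma pZ (h : Fr p ν ι ϖ) : Prime (p : ℤ) := Nat.prime_iff_prime_int.1 h.pr

lemma p0 (h : Fr p ν ι ϖ) : (p : ℤ) ≠ 0 := by exact_mod_cast h.pr.ne_zero

lemma norm_eq (h : Fr p ν ι ϖ) : ϖ * star ϖ = (p : GaussianInt) := by
  have := h.nrm
  ext
  · simp; nlinarith
  · simp; ring

lemma ne0 (h : Fr p ν ι ϖ) : ϖ ≠ 0 := by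
  intro h0
  have := h.norm_eq
  rw [h0, zero_mul] at this
  have h2 : (p : GaussianInt) ≠ 0 := by exact_mod_cast h.pr.ne_zero
  exact h2 this.symm

lemma normSq_pow (h : Fr p ν ι ϖ) (j : ℕ) : normSq ((ϖ ^ j : GaussianInt) : ℂ) = (p : ℝ) ^ j := by
  rw [map_pow, map_pow]
  congr 1
  rw [normSq_apply, ← GaussianInt.intCast_re, ← GaussianInt.intCast_im]
  have := h.nrm
  have h2 : ((ϖ.re ^ 2 + ϖ.im ^ 2 : ℤ) : ℝ) = p := by exact_mod_cast this
  rw [← h2]; push_cast; ring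

/-- `red` is multiplicative modulo `p ^ ν` -/
lemma red_mul (h : Fr p ν ι ϖ) (α β : GaussianInt) :
    (p : ℤ) ^ ν ∣ GI.red ι α * GI.red ι β - GI.red ι (α * β) := by
  rw [GI.red_mul]
  have e : GI.red ι (α * β) + (ι ^ 2 + 1) * (α.im * β.im) - GI.red ι (α * β) =
      (ι ^ 2 + 1) * (α.im * β.im) := by ring
  rw [e]
  exact Dvd.dvd.mul_right h.root _

lemma red_pow (h : Fr p ν ι ϖ) (α : GaussianInt) (j : ℕ) :
    (p : ℤ) ^ ν ∣ GI.red ι α ^ j - GI.red ι (α ^ j) := by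
  induction j with
  | zero => simp [GI.red]
  | succ j ih =>
    have h1 := h.red_mul (α ^ j) α
    rw [pow_succ, pow_succ]
    have e : GI.red ι α ^ j * GI.red ι α - GI.red ι (α ^ j * α) =
        (GI.red ι α ^ j - GI.red ι (α ^ j)) * GI.red ι α +
          (GI.red ι (α ^ j) * GI.red ι α - GI.red ι (α ^ j * α)) := by ring
    rw [e]
    exact dvd_add (Dvd.dvd.mul_right ih _) h1

/-- multiples of `ϖ ^ j` -/
lemma dvd_red_mul (h : Fr p ν ι ϖ) {j : ℕ} (hj : j ≤ ν) (x : GaussianInt) :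
    (p : ℤ) ^ j ∣ GI.red ι (ϖ ^ j * x) := by
  have h1 := (pow_dvd_pow (p : ℤ) hj).trans (h.red_mul (ϖ ^ j) x)
  have h2 := (pow_dvd_pow (p : ℤ) hj).trans (h.red_pow ϖ j)
  have h3 : (p : ℤ) ^ j ∣ GI.red ι ϖ ^ j := pow_dvd_pow_of_dvd h.rd j
  have h4 : (p : ℤ) ^ j ∣ GI.red ι (ϖ ^ j) := by
    have := dvd_sub h3 h2
    simpa using this
  have := dvd_sub (Dvd.dvd.mul_right h4 (GI.red ι x)) h1
  simpa using this

/-- the kernel of the reduction -/
lemma dvd_of_red (h : Fr p ν ι ϖ) {j : ℕ} (hj : j ≤ ν) {α : GaussianInt} (hα : (p : ℤ) ^ j ∣ GI.red ι α) :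
    ϖ ^ j ∣ α := by
  rcases Nat.eq_zero_or_pos j with rfl | hj1
  · simp
  have hν : 1 ≤ ν := by omega
  set γ : GaussianInt := α * (star ϖ) ^ j with hγ
  have hc := h.conj
  -- both reductions of `γ` vanish
  have h1 : (p : ℤ) ^ j ∣ GI.red ι γ := by
    have := (pow_dvd_pow (p : ℤ) hj).trans (h.red_mul α ((star ϖ) ^ j))
    have := dvd_sub (Dvd.dvd.mul_right hα (GI.red ι ((star ϖ) ^ j))) this
    simpa using this
  have h2 : (p : ℤ) ^ j ∣ GI.red (-ι) γ := by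
    rw [hγ, mul_comm]
    exact hc.dvd_red_mul hj α
  have h3 : (p : ℤ) ^ j ∣ 2 * γ.re := by
    have := dvd_add h1 h2
    have e : GI.red ι γ + GI.red (-ι) γ = 2 * γ.re := by unfold GI.red; ring
    rwa [e] at this
  have hcop2 : IsCoprime ((p : ℤ) ^ j) 2 :=
    ((h.pZ.coprime_iff_not_dvd).2 h.two).pow_left
  have h4 : (p : ℤ) ^ j ∣ γ.re := hcop2.dvd_of_dvd_mul_left h3
  have hι : ¬ (p : ℤ) ∣ ι := by
    intro hd
    have h5 : (p : ℤ) ∣ ι ^ 2 + 1 := (dvd_pow_self _ (by omega)).trans h.root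
    have h6 : (p : ℤ) ∣ ι ^ 2 := dvd_pow hd (by norm_num)
    have h7 := dvd_sub h5 h6
    have : (p : ℤ) ∣ 1 := by simpa using h7
    exact h.pZ.not_dvd_one this
  have h5 : (p : ℤ) ^ j ∣ ι * γ.im := by
    have := dvd_sub h1 h4
    have e : GI.red ι γ - γ.re = ι * γ.im := by unfold GI.red; ring
    rwa [e] at this
  have hcopι : IsCoprime ((p : ℤ) ^ j) ι := ((h.pZ.coprime_iff_not_dvd).2 hι).pow_left
  have h6 : (p : ℤ) ^ j ∣ γ.im := hcopι.dvd_of_dvd_mul_left h5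
  obtain ⟨x, hx⟩ := h4
  obtain ⟨y, hy⟩ := h6
  have h7 : γ = (p : GaussianInt) ^ j * ⟨x, y⟩ := by
    have e : ((p : GaussianInt) ^ j) = (((p : ℤ) ^ j : ℤ) : GaussianInt) := by push_cast; rfl
    rw [e]
    generalize (p : ℤ) ^ j = P at hx hy
    ext
    · simp [hx]
    · simp [hy]
  refine ⟨⟨x, y⟩, ?_⟩
  have h8 : (star ϖ) ^ j ≠ 0 := pow_ne_zero _ hc.ne0
  apply mul_right_cancel₀ h8
  rw [← hγ, h7, ← h.norm_eq, mul_pow]
  ring

lemma dvd_iff (h : Fr p ν ι ϖ) {j : ℕ} (hj : j ≤ ν) {α : GaussianInt} :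
    (p : ℤ) ^ j ∣ GI.red ι α ↔ ϖ ^ j ∣ α := by
  refine ⟨h.dvd_of_red hj, ?_⟩
  rintro ⟨x, rfl⟩
  exact h.dvd_red_mul hj x

/-- every element is `a + ϖ ^ j x` with a unique `0 ≤ a < p ^ j` -/
noncomputable def dec (h : Fr p ν ι ϖ) {j : ℕ} (hj : j ≤ ν) :
    Finset.range (p ^ j) × GaussianInt ≃ GaussianInt := by
  refine Equiv.ofBijective (fun x => ((x.1 : ℕ) : GaussianInt) + ϖ ^ j * x.2) ⟨?_, ?_⟩
  · rintro ⟨⟨a, ha⟩, x⟩ ⟨⟨b, hb⟩, y⟩ hab
    simp only at hab
    rw [Finset.mem_range] at ha hb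
    have h1 : (p : ℤ) ^ j ∣ (a : ℤ) - b := by
      have e : ((a : GaussianInt)) - b = ϖ ^ j * (y - x) := by linear_combination hab
      have h2 := h.dvd_red_mul hj (y - x)
      rw [← e, GI.red_sub] at h2
      have e1 : GI.red ι ((a : ℕ) : GaussianInt) = a := by
        have := GI.red_int ι a
        simpa using this
      have e2 : GI.red ι ((b : ℕ) : GaussianInt) = b := by
        have := GI.red_int ι b
        simpa using this
      rwa [e1, e2] at h2
    have h3 : (a : ℤ) = b := by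
      have h4 : (a : ℤ) - b = 0 := by
        apply Int.eq_zero_of_abs_lt_dvd h1
        rw [abs_lt]
        have ha' : (a : ℤ) < (p : ℤ) ^ j := by exact_mod_cast ha
        have hb' : (b : ℤ) < (p : ℤ) ^ j := by exact_mod_cast hb
        constructor <;> omega
      omega
    have h4 : a = b := by exact_mod_cast h3
    subst h4
    have h5 : x = y := by
      apply mul_left_cancel₀ (pow_ne_zero j h.ne0)
      exact add_left_cancel hab
    rw [h5]
  · intro α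
    have hp0 : (0 : ℤ) < (p : ℤ) ^ j := by
      have := h.pr.pos
      positivity
    set a : ℤ := GI.red ι α % (p : ℤ) ^ j with ha
    have ha0 := Int.emod_nonneg (GI.red ι α) hp0.ne'
    have ha1 := Int.emod_lt_of_pos (GI.red ι α) hp0
    rw [← ha] at ha0 ha1
    have h1 : (p : ℤ) ^ j ∣ GI.red ι (α - (a : GaussianInt)) := by
      rw [GI.red_sub, GI.red_int]
      exact Int.dvd_self_sub_emod
    obtain ⟨x, hx⟩ := h.dvd_of_red hj h1
    refine ⟨⟨⟨a.toNat, ?_⟩, x⟩, ?_⟩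
    · rw [Finset.mem_range]
      zify
      rw [Int.toNat_of_nonneg ha0]
      exact ha1
    · simp only
      have e : ((a.toNat : ℕ) : GaussianInt) = (a : GaussianInt) := by
        have : ((a.toNat : ℕ) : ℤ) = a := Int.toNat_of_nonneg ha0
        rw [← this]
        push_cast
        rfl
      rw [e, ← hx]
      ring

lemma dec_apply (h : Fr p ν ι ϖ) {j : ℕ} (hj : j ≤ ν) (x : Finset.range (p ^ j) × GaussianInt) :
    h.dec hj x = ((x.1 : ℕ) : GaussianInt) + ϖ ^ j * x.2 := rfl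

/-- sums over residue classes -/
lemma tsum_dec (h : Fr p ν ι ϖ) {j : ℕ} (hj : j ≤ ν) {f : GaussianInt → ℂ} (hf : Summable f) :
    ∑' α, f α = ∑ a ∈ Finset.range (p ^ j), ∑' x, f ((a : GaussianInt) + ϖ ^ j * x) := by
  have h1 : Summable fun x : Finset.range (p ^ j) × GaussianInt => f (h.dec hj x) :=
    (h.dec hj).summable_iff.2 hf
  rw [← (h.dec hj).tsum_eq, h1.tsum_prod, tsum_fintype]
  exact Finset.sum_coe_sort (Finset.range (p ^ j))
    (fun a : ℕ => ∑' x, f ((a : GaussianInt) + ϖ ^ j * x))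

end Fr

end Run7.h343.GI
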