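import Pool.Agent.Run7.h343.GI.Frame

/-!
The two linear functionals on the Gaussian integers.
-/

set_option autoImplicit false

namespace Run7.h343.GI

open Complex

/-- a linear functional compatible with the powers of the prime element `g` up to `g ^ r` -/
structure Fu (p r : ℕ) (ι : ℤ) (g : GaussianInt) (R : GaussianInt → ℤ) : Prop where
  fr : Fr p r ι g
  add : ∀ x y, R (x + y) = R x + R y
  one : ¬ (p : ℤ) ∣ R 1
  loc : ∀ c c' : ℕ, c + c' ≤ r → 1 ≤ c' → ∃ A B : ℤ,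
    (∀ x, R (g ^ c * x) = (p : ℤ) ^ c * (A * x.re + B * x.im)) ∧
    (∀ (y : GaussianInt) (k : ℤ), (p : ℤ) ^ c' ∣ y.re - k * A → (p : ℤ) ^ c' ∣ y.im - k * B → g ^ c' ∣ y) ∧
    ¬ ((p : ℤ) ∣ A ∧ (p : ℤ) ∣ B)

variable {p ν : ℕ} {ι : ℤ} {ϖ : GaussianInt}

lemma Fr.mono (h : Fr p ν ι ϖ) {r : ℕ} (hr : r ≤ ν) : Fr p r ι ϖ :=
  ⟨h.pr, h.odd, (pow_dvd_pow _ hr).trans h.root, h.nrm, h.rd⟩

lemma red_lin (ι : ℤ) (β x : GaussianInt) :
    red ι (β * x) = red ι β * x.re + red ι (β * ⟨0, 1⟩) * x.im := by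
  unfold red; simp; ring

/-- `ϖ ^ (j + 1)` does not divide `ϖ ^ j` -/
lemma Fr.ndvd_pow (h : Fr p ν ι ϖ) {j : ℕ} (hj : j + 1 ≤ ν) : ¬ (p : ℤ) ^ (j + 1) ∣ red ι (ϖ ^ j) := by
  intro hd
  obtain ⟨x, hx⟩ := h.dvd_of_red hj hd
  rw [pow_succ, mul_assoc] at hx
  have h1 : ϖ * x = 1 := by
    apply mul_left_cancel₀ (pow_ne_zero j h.ne0)
    rw [mul_one]; exact hx.symm
  have h2 : (p : GaussianInt) * (x * star x) = 1 := by
    have h3 : star ϖ * star x = 1 := by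
      rw [← star_mul', h1, star_one]
    calc (p : GaussianInt) * (x * star x) = (ϖ * star ϖ) * (x * star x) := by rw [h.norm_eq]
      _ = (ϖ * x) * (star ϖ * star x) := by ring
      _ = 1 := by rw [h1, h3, mul_one]
  have h4 := congrArg Zsqrtd.re h2
  have h5 : ((p : ℤ)) ∣ 1 := by
    refine ⟨(x * star x).re, ?_⟩
    have : ((p : GaussianInt) * (x * star x)).re = (p : ℤ) * (x * star x).re := by
      simp
    rw [← this, h4]; rfl
  exact h.pZ.not_dvd_one h5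

/-- the functional `l ↦ red (ϖ ^ m l) / p ^ m` -/
def RL (p m : ℕ) (ι : ℤ) (ϖ : GaussianInt) (l : GaussianInt) : ℤ := red ι (ϖ ^ m * l) / (p : ℤ) ^ m

lemma RL_spec (h : Fr p ν ι ϖ) {m : ℕ} (hm : m ≤ ν) (l : GaussianInt) :
    red ι (ϖ ^ m * l) = (p : ℤ) ^ m * RL p m ι ϖ l :=
  (Int.mul_ediv_cancel' (h.dvd_red_mul hm l)).symm

lemma RL_lin (h : Fr p ν ι ϖ) {m : ℕ} (hm : m ≤ ν) (x : GaussianInt) :
    RL p m ι ϖ x = RL p m ι ϖ 1 * x.re + RL p m ι ϖ ⟨0, 1⟩ * x.im := by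
  have h0 := h.p0
  have hp : (p : ℤ) ^ m ≠ 0 := pow_ne_zero _ h0
  apply mul_left_cancel₀ hp
  rw [← RL_spec h hm, red_lin, mul_add, ← mul_assoc, ← mul_assoc, ← RL_spec h hm, ← RL_spec h hm, mul_one]

lemma RL_shift (h : Fr p ν ι ϖ) {m c : ℕ} (hm : m + c ≤ ν) (x : GaussianInt) :
    RL p m ι ϖ (ϖ ^ c * x) = (p : ℤ) ^ c * RL p (m + c) ι ϖ x := by
  have h0 := h.p0
  have hp : (p : ℤ) ^ m ≠ 0 := pow_ne_zero _ h0
  apply mul_left_cancel₀ hp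
  rw [← RL_spec h (by omega), ← mul_assoc, ← mul_assoc, ← pow_add, ← pow_add, ← RL_spec h hm]

theorem RL_fu (h : Fr p ν ι ϖ) {m : ℕ} (hm : m < ν) : Fu p (ν - m) ι ϖ (RL p m ι ϖ) := by
  refine ⟨h.mono (Nat.sub_le _ _), ?_, ?_, ?_⟩
  · intro x y
    rw [RL_lin h hm.le, RL_lin h hm.le x, RL_lin h hm.le y]
    simp
    ring
  · intro hd
    obtain ⟨z, hz⟩ := hd
    apply h.ndvd_pow (j := m) (by omega)
    have := RL_spec h hm.le 1
    rw [mul_one, hz] at this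
    rw [this, pow_succ]
    exact ⟨z, by ring⟩
  · intro c c' hc hc'
    have hmc : m + c ≤ ν := by omega
    refine ⟨RL p (m + c) ι ϖ 1, RL p (m + c) ι ϖ ⟨0, 1⟩, ?_, ?_, ?_⟩
    · intro x
      rw [RL_shift h hmc, RL_lin h hmc x]
    · intro y k h1 h2
      apply h.dvd_of_red (by omega)
      have h3 : (p : ℤ) ^ c' ∣ RL p (m + c) ι ϖ 1 + ι * RL p (m + c) ι ϖ ⟨0, 1⟩ := by
        have h4 : (p : ℤ) ^ ν ∣ (p : ℤ) ^ (m + c) * (RL p (m + c) ι ϖ 1 + ι * RL p (m + c) ι ϖ ⟨0, 1⟩) := by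
          have e : (p : ℤ) ^ (m + c) * (RL p (m + c) ι ϖ 1 + ι * RL p (m + c) ι ϖ ⟨0, 1⟩) =
              red ι (ϖ ^ (m + c) * 1) + ι * red ι (ϖ ^ (m + c) * ⟨0, 1⟩) := by
            rw [RL_spec h hmc, RL_spec h hmc]; ring
          have e2 : red ι (ϖ ^ (m + c) * 1) + ι * red ι (ϖ ^ (m + c) * ⟨0, 1⟩) =
              (ι ^ 2 + 1) * (ϖ ^ (m + c)).re := by
            unfold red; simp; ring
          rw [e, e2]
          exact Dvd.dvd.mul_right h.root _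
        have h5 : (p : ℤ) ^ (m + c) * (p : ℤ) ^ c' ∣
            (p : ℤ) ^ (m + c) * (RL p (m + c) ι ϖ 1 + ι * RL p (m + c) ι ϖ ⟨0, 1⟩) := by
          rw [← pow_add]
          exact (pow_dvd_pow _ (by omega)).trans h4
        exact Int.dvd_of_mul_dvd_mul_left (pow_ne_zero _ h.p0) h5
      have h6 : red ι y = (y.re - k * RL p (m + c) ι ϖ 1) + ι * (y.im - k * RL p (m + c) ι ϖ ⟨0, 1⟩) +
          k * (RL p (m + c) ι ϖ 1 + ι * RL p (m + c) ι ϖ ⟨0, 1⟩) := by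
        unfold red; ring
      rw [h6]
      exact dvd_add (dvd_add h1 (Dvd.dvd.mul_left h2 _)) (Dvd.dvd.mul_left h3 _)
    · rintro ⟨h1, -⟩
      obtain ⟨z, hz⟩ := h1
      apply h.ndvd_pow (j := m + c) (by omega)
      have := RL_spec h hmc 1
      rw [mul_one, hz] at this
      rw [this, pow_succ]
      exact ⟨z, by ring⟩

/-- the functional `h ↦ Re (ϖ ^ r h)` -/
def RJ (r : ℕ) (ϖ : GaussianInt) (h : GaussianInt) : ℤ := (ϖ ^ r * h).re

lemma Fr.conj_ndvd (h : Fr p ν ι ϖ) : ¬ (p : ℤ) ∣ red (-ι) ϖ := by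
  intro hd
  have h1 : (p : ℤ) ∣ 2 * ϖ.re := by
    have := dvd_add h.rd hd
    have e : red ι ϖ + red (-ι) ϖ = 2 * ϖ.re := by unfold red; ring
    rwa [e] at this
  have h2 : (p : ℤ) ∣ ϖ.re := (h.pZ.dvd_or_dvd h1).resolve_left h.two
  obtain ⟨a, ha⟩ := h2
  have h3 : (p : ℤ) ∣ ϖ.im ^ 2 := by
    have e : ϖ.im ^ 2 = p - ϖ.re * ϖ.re := by linear_combination h.nrm
    rw [e, ha]
    exact dvd_sub (dvd_refl _) (Dvd.dvd.mul_right (Dvd.dvd.mul_right (dvd_refl _) _) _)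
  obtain ⟨b, hb⟩ := h.pZ.dvd_of_dvd_pow h3
  have h4 : (p : ℤ) * (p * (a ^ 2 + b ^ 2)) = p * 1 := by
    have := h.nrm
    rw [ha, hb] at this
    linear_combination this
  have h5 := mul_left_cancel₀ h.p0 h4
  exact h.pZ.not_dvd_one ⟨_, h5.symm⟩

lemma Fr.conj_ndvd_pow (h : Fr p ν ι ϖ) (hν : 1 ≤ ν) (j : ℕ) : ¬ (p : ℤ) ∣ red (-ι) (ϖ ^ j) := by
  intro hd
  -- `red (-ι) (ϖ ^ j) ≡ red (-ι) ϖ ^ j`
  have h1 : ∀ j : ℕ, (p : ℤ) ∣ red (-ι) ϖ ^ j - red (-ι) (ϖ ^ j) := by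
    intro j
    induction j with
    | zero => simp [red]
    | succ j ih =>
      have h1 := GI.red_mul (-ι) (ϖ ^ j) ϖ
      rw [pow_succ, pow_succ]
      have e : red (-ι) ϖ ^ j * red (-ι) ϖ - red (-ι) (ϖ ^ j * ϖ) =
          (red (-ι) ϖ ^ j - red (-ι) (ϖ ^ j)) * red (-ι) ϖ +
            (ι ^ 2 + 1) * ((ϖ ^ j).im * ϖ.im) := by linear_combination h1
      rw [e]
      have h2 : (p : ℤ) ∣ ι ^ 2 + 1 := (dvd_pow_self _ (by omega)).trans h.root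
      exact dvd_add (Dvd.dvd.mul_right ih _) (Dvd.dvd.mul_right h2 _)
  have h2 := dvd_add (h1 j) hd
  rw [sub_add_cancel] at h2
  exact h.conj_ndvd (h.pZ.dvd_of_dvd_pow h2)

lemma Fr.pow_split (h : Fr p ν ι ϖ) {r c : ℕ} (hc : c ≤ r) (x : GaussianInt) :
    ϖ ^ r * ((star ϖ) ^ c * x) = (p : GaussianInt) ^ c * (ϖ ^ (r - c) * x) := by
  have e : ϖ ^ r = ϖ ^ (r - c) * ϖ ^ c := by rw [← pow_add]; congr 1; omega
  rw [e, ← h.norm_eq, mul_pow]
  ring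

lemma re_pow_mul (p c : ℕ) (x : GaussianInt) : ((p : GaussianInt) ^ c * x).re = (p : ℤ) ^ c * x.re := by
  have e : ((p : GaussianInt) ^ c) = (((p : ℤ) ^ c : ℤ) : GaussianInt) := by push_cast; rfl
  rw [e]
  generalize (p : ℤ) ^ c = P
  simp

lemma im_pow_mul (p c : ℕ) (x : GaussianInt) : ((p : GaussianInt) ^ c * x).im = (p : ℤ) ^ c * x.im := by
  have e : ((p : GaussianInt) ^ c) = (((p : ℤ) ^ c : ℤ) : GaussianInt) := by push_cast; rfl
  rw [e]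
  generalize (p : ℤ) ^ c = P
  simp

theorem RJ_fu (h : Fr p ν ι ϖ) {r : ℕ} (hr : r ≤ ν) (hr1 : 1 ≤ r) :
    Fu p r (-ι) (star ϖ) (RJ r ϖ) := by
  refine ⟨h.conj.mono hr, ?_, ?_, ?_⟩
  · intro x y
    unfold RJ
    rw [mul_add]
    simp
  · intro hd
    have h1 : (p : ℤ) ∣ red ι (ϖ ^ r) := by
      have := h.dvd_red_mul hr 1
      rw [mul_one] at this
      exact (dvd_pow_self _ (by omega)).trans this
    have h2 : (p : ℤ) ∣ red (-ι) (ϖ ^ r) := by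
      have e : red (-ι) (ϖ ^ r) = 2 * RJ r ϖ 1 - red ι (ϖ ^ r) := by
        unfold red RJ; rw [mul_one]; ring
      rw [e]
      exact dvd_sub (Dvd.dvd.mul_left hd _) h1
    exact h.conj_ndvd_pow (by omega) r h2
  · intro c c' hc hc'
    refine ⟨(ϖ ^ (r - c)).re, -(ϖ ^ (r - c)).im, ?_, ?_, ?_⟩
    · intro x
      unfold RJ
      rw [h.pow_split (by omega), re_pow_mul]
      congr 1
      rw [Zsqrtd.re_mul]
      ring
    · intro y k h1 h2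
      obtain ⟨a, ha⟩ := h1
      obtain ⟨b, hb⟩ := h2
      have h3 : star y = (k : GaussianInt) * ϖ ^ (r - c) + (p : GaussianInt) ^ c' * ⟨a, -b⟩ := by
        ext
        · rw [Zsqrtd.re_add, re_pow_mul]
          simp
          linarith
        · rw [Zsqrtd.im_add, im_pow_mul]
          simp
          linarith
      have h4 : ϖ ^ c' ∣ star y := by
        rw [h3, ← h.norm_eq, mul_pow]
        refine dvd_add (Dvd.dvd.mul_left (pow_dvd_pow _ (by omega)) _) ?_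
        exact Dvd.dvd.mul_right (Dvd.dvd.mul_right (dvd_refl _) _) _
      obtain ⟨w, hw⟩ := h4
      refine ⟨star w, ?_⟩
      rw [← star_pow, ← star_mul', ← hw, star_star]
    · rintro ⟨h1, h2⟩
      rw [dvd_neg] at h2
      apply h.conj_ndvd_pow (by omega) (r - c)
      unfold red
      exact dvd_add h1 (Dvd.dvd.mul_left h2 _)

end Run7.h343.GI
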