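import Mathlib

/-!
Gaussian sums over the Gaussian integers.
-/

set_option autoImplicit false

namespace Run7.h343.GI

open Complex

/-- the Gaussian integers as pairs -/
def prE : GaussianInt ≃ ℤ × ℤ where
  toFun a := (a.re, a.im)
  invFun x := ⟨x.1, x.2⟩
  left_inv a := by cases a; rfl
  right_inv x := by cases x; rfl

/-- one variable -/
lemma summ1 {a : ℂ} (ha : 0 < a.re) (b : ℂ) :
    Summable fun n : ℤ => cexp (-Real.pi * a * n ^ 2 + 2 * Real.pi * b * n) := by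
  have h := (summable_jacobiTheta₂_term_iff (-I * b) (I * a)).2 (by simpa using ha)
  refine h.congr fun n => ?_
  unfold jacobiTheta₂_term
  congr 1
  linear_combination (-2 * Real.pi * n * b + Real.pi * n ^ 2 * a) * I_sq

/-- the exponential of a quadratic polynomial -/
noncomputable def EE (a b1 b2 : ℂ) (α : GaussianInt) : ℂ :=
  cexp (-Real.pi * a * (α.re ^ 2 + α.im ^ 2) + 2 * Real.pi * (b1 * α.re + b2 * α.im))

lemma EE_mul (a b1 b2 : ℂ) (x : ℤ × ℤ) : EE a b1 b2 (prE.symm x) =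
    cexp (-Real.pi * a * x.1 ^ 2 + 2 * Real.pi * b1 * x.1) *
      cexp (-Real.pi * a * x.2 ^ 2 + 2 * Real.pi * b2 * x.2) := by
  unfold EE prE
  rw [← Complex.exp_add]
  congr 1
  simp
  ring

lemma summ2n {a : ℂ} (ha : 0 < a.re) (b1 b2 : ℂ) : Summable fun α => ‖EE a b1 b2 α‖ := by
  rw [← prE.symm.summable_iff]
  have h := (summ1 ha b1).norm.mul_of_nonneg (summ1 ha b2).norm (fun _ => norm_nonneg _)
    (fun _ => norm_nonneg _)
  refine h.congr fun x => ?_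
  simp only [Function.comp_apply]
  rw [EE_mul, norm_mul]

lemma summ2 {a : ℂ} (ha : 0 < a.re) (b1 b2 : ℂ) : Summable (EE a b1 b2) :=
  (summ2n ha b1 b2).of_norm

lemma tsum2 {a : ℂ} (ha : 0 < a.re) (b1 b2 : ℂ) : ∑' α, EE a b1 b2 α =
    (∑' n : ℤ, cexp (-Real.pi * a * n ^ 2 + 2 * Real.pi * b1 * n)) *
      ∑' n : ℤ, cexp (-Real.pi * a * n ^ 2 + 2 * Real.pi * b2 * n) := by
  rw [tsum_mul_tsum_of_summable_norm (summ1 ha b1).norm (summ1 ha b2).norm, ← prE.symm.tsum_eq]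
  exact tsum_congr fun x => EE_mul a b1 b2 x

lemma re_inv_pos {a : ℂ} (ha : 0 < a.re) : 0 < (1 / a).re := by
  rw [one_div, inv_re]
  refine div_pos ha (normSq_pos.mpr ?_)
  intro h; rw [h] at ha; simp at ha

/-- Poisson summation -/
theorem poisson {a : ℂ} (ha : 0 < a.re) (b1 b2 : ℂ) : ∑' α, EE a b1 b2 α =
    (1 / a) * cexp (Real.pi / a * (b1 ^ 2 + b2 ^ 2)) *
      ∑' α, EE (1 / a) (-I * b1 / a) (-I * b2 / a) α := by
  have ha0 : a ≠ 0 := by intro h; rw [h] at ha; simp at ha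
  rw [tsum2 ha, tsum2 (re_inv_pos ha), Complex.tsum_exp_neg_quadratic ha b1,
    Complex.tsum_exp_neg_quadratic ha b2]
  have h1 : ∀ b : ℂ, ∑' n : ℤ, cexp (-Real.pi / a * (n + I * b) ^ 2) =
      cexp (Real.pi / a * b ^ 2) *
        ∑' n : ℤ, cexp (-Real.pi * (1 / a) * n ^ 2 + 2 * Real.pi * (-I * b / a) * n) := by
    intro b
    rw [← tsum_mul_left]
    refine tsum_congr fun n => ?_
    rw [← Complex.exp_add]
    congr 1
    field_simp
    linear_combination (-b ^ 2) * I_sq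
  rw [h1 b1, h1 b2]
  have h2 : (1 / a ^ (1 / 2 : ℂ)) * (1 / a ^ (1 / 2 : ℂ)) = 1 / a := by
    rw [div_mul_div_comm, one_mul, ← cpow_add _ _ ha0]
    norm_num
  have h3 : cexp (Real.pi / a * (b1 ^ 2 + b2 ^ 2)) =
      cexp (Real.pi / a * b1 ^ 2) * cexp (Real.pi / a * b2 ^ 2) := by
    rw [← Complex.exp_add]; congr 1; ring
  rw [h3, ← h2]
  ring

/-- the Gaussian weight of variance `X` and centre `z` -/
noncomputable def gw (X : ℝ) (z : ℂ) (α : GaussianInt) : ℝ :=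
  Real.exp (-(Real.pi * normSq ((α : ℂ) - z) / X))

lemma gw_pos (X : ℝ) (z : ℂ) (α : GaussianInt) : 0 < gw X z α := Real.exp_pos _

lemma gw_nonneg (X : ℝ) (z : ℂ) (α : GaussianInt) : 0 ≤ gw X z α := (gw_pos X z α).le

lemma gw_le_one {X : ℝ} (hX : 0 < X) (z : ℂ) (α : GaussianInt) : gw X z α ≤ 1 := by
  unfold gw
  rw [Real.exp_le_one_iff, neg_nonpos]
  have := normSq_nonneg ((α : ℂ) - z)
  positivity

/-- a Gaussian times a character as a term `EE` -/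
lemma gw_EE {X : ℝ} (hX : 0 < X) (z η : ℂ) (α : GaussianInt) :
    (gw X z α : ℂ) * cexp (2 * Real.pi * I * (η.re * α.re + η.im * α.im)) =
      cexp (-(Real.pi * normSq z / X : ℝ)) *
        EE ((1 / X : ℝ) : ℂ) ((z.re / X : ℝ) + I * η.re) ((z.im / X : ℝ) + I * η.im) α := by
  unfold gw EE
  rw [ofReal_exp, ← Complex.exp_add, ← Complex.exp_add]
  congr 1
  rw [normSq_apply, normSq_apply, sub_re, sub_im, ← GaussianInt.intCast_re, ← GaussianInt.intCast_im]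
  have hX' : (X : ℂ) ≠ 0 := by exact_mod_cast hX.ne'
  push_cast
  field_simp
  ring

lemma gw_summable {X : ℝ} (hX : 0 < X) (z : ℂ) : Summable (gw X z) := by
  have h := summ2n (a := ((1 / X : ℝ) : ℂ)) (by simpa using hX) ((z.re / X : ℝ) + I * (0 : ℂ).re)
    ((z.im / X : ℝ) + I * (0 : ℂ).im)
  refine (h.mul_left (Real.exp (-(Real.pi * normSq z / X)))).congr fun α => ?_
  have h2 := congrArg norm (gw_EE hX z 0 α)
  rw [norm_mul, norm_mul] at h2
  have e1 : ‖(gw X z α : ℂ)‖ = gw X z α := by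
    rw [Complex.norm_real, Real.norm_eq_abs, abs_of_nonneg (gw_nonneg _ _ _)]
  have e2 : ‖cexp (2 * Real.pi * I * (((0 : ℂ).re : ℂ) * α.re + ((0 : ℂ).im : ℂ) * α.im))‖ = 1 := by
    simp
  have e3 : ‖cexp (-(Real.pi * normSq z / X : ℝ))‖ = Real.exp (-(Real.pi * normSq z / X)) := by
    rw [← ofReal_neg, Complex.norm_exp, ofReal_re]
  rw [e1, e2, e3, mul_one] at h2
  exact h2.symm

/-- the mass of a Gaussian weight -/
noncomputable def GG (X : ℝ) : ℝ := ∑' α, gw X 0 α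

lemma GG_pos {X : ℝ} (hX : 0 < X) : 0 < GG X :=
  (gw_summable hX 0).tsum_pos (fun α => gw_nonneg _ _ _) 0 (gw_pos _ _ _)

/-- the norm of the dual term -/
lemma dual_norm {X : ℝ} (hX : 0 < X) (z η : ℂ) (α : GaussianInt) :
    ‖cexp (-(Real.pi * normSq z / X : ℝ))‖ * (X * (‖cexp (Real.pi / ((1 / X : ℝ) : ℂ) *
      (((z.re / X : ℝ) + I * η.re) ^ 2 + ((z.im / X : ℝ) + I * η.im) ^ 2))‖ *
      ‖EE (1 / ((1 / X : ℝ) : ℂ)) (-I * ((z.re / X : ℝ) + I * η.re) / ((1 / X : ℝ) : ℂ))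
        (-I * ((z.im / X : ℝ) + I * η.im) / ((1 / X : ℝ) : ℂ)) α‖)) = X * gw (1 / X) η α := by
  unfold EE gw
  have hX0 : X ≠ 0 := hX.ne'
  have hX' : (X : ℂ) ≠ 0 := by exact_mod_cast hX.ne'
  rw [Complex.norm_exp, Complex.norm_exp, Complex.norm_exp]
  have e1 : ∀ a b c : ℝ, Real.exp a * (X * (Real.exp b * Real.exp c)) = X * Real.exp (a + b + c) := by
    intro a b c; rw [Real.exp_add, Real.exp_add]; ring
  rw [e1]
  congr 2
  have f2 : (Real.pi / ((1 / X : ℝ) : ℂ) * (((z.re / X : ℝ) + I * η.re) ^ 2 +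
      ((z.im / X : ℝ) + I * η.im) ^ 2) : ℂ) =
      ((Real.pi * X * ((z.re / X) ^ 2 - η.re ^ 2 + (z.im / X) ^ 2 - η.im ^ 2) : ℝ) : ℂ) +
      ((2 * Real.pi * (z.re * η.re + z.im * η.im) : ℝ) : ℂ) * I := by
    push_cast
    field_simp
    linear_combination (X ^ 2 * (η.re ^ 2 + η.im ^ 2 : ℂ)) * I_sq
  have f3 : (-Real.pi * (1 / ((1 / X : ℝ) : ℂ)) * (α.re ^ 2 + α.im ^ 2) + 2 * Real.pi *
      ((-I * ((z.re / X : ℝ) + I * η.re) / ((1 / X : ℝ) : ℂ)) * α.re +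
        (-I * ((z.im / X : ℝ) + I * η.im) / ((1 / X : ℝ) : ℂ)) * α.im) : ℂ) =
      ((-Real.pi * X * (α.re ^ 2 + α.im ^ 2) + 2 * Real.pi * X * (η.re * α.re + η.im * α.im) : ℝ) : ℂ) +
      ((-2 * Real.pi * (z.re * α.re + z.im * α.im) : ℝ) : ℂ) * I := by
    push_cast
    field_simp
    linear_combination (-2 * X * (η.re * α.re + η.im * α.im : ℂ)) * I_sq
  rw [f2, f3]
  rw [← ofReal_neg]
  simp only [add_re, ofReal_re, mul_re, ofReal_im, I_re, I_im, mul_zero, zero_mul, sub_zero, add_zero,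
    mul_one, sub_self]
  rw [normSq_apply, normSq_apply, sub_re, sub_im, ← GaussianInt.intCast_re, ← GaussianInt.intCast_im]
  field_simp
  ring

/-- the Fourier transform of a Gaussian weight, upper bound -/
theorem gw_fourier {X : ℝ} (hX : 0 < X) (z η : ℂ) :
    ‖∑' α, (gw X z α : ℂ) * cexp (2 * Real.pi * I * (η.re * α.re + η.im * α.im))‖ ≤
      X * ∑' α, gw (1 / X) η α := by
  have ha : 0 < (((1 / X : ℝ) : ℂ)).re := by simpa using hX
  have h1 : ∑' α, (gw X z α : ℂ) * cexp (2 * Real.pi * I * (η.re * α.re + η.im * α.im)) =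
      cexp (-(Real.pi * normSq z / X : ℝ)) * ∑' α,
        EE ((1 / X : ℝ) : ℂ) ((z.re / X : ℝ) + I * η.re) ((z.im / X : ℝ) + I * η.im) α := by
    rw [← tsum_mul_left]
    exact tsum_congr fun α => gw_EE hX z η α
  rw [h1, poisson ha, norm_mul, norm_mul, norm_mul]
  have h2 : ‖1 / ((1 / X : ℝ) : ℂ)‖ = X := by
    rw [ofReal_div, ofReal_one, one_div_one_div, Complex.norm_real, Real.norm_eq_abs, abs_of_pos hX]
  rw [h2]
  have h3 := summ2n (re_inv_pos ha) (-I * ((z.re / X : ℝ) + I * η.re) / ((1 / X : ℝ) : ℂ))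
        (-I * ((z.im / X : ℝ) + I * η.im) / ((1 / X : ℝ) : ℂ))
  have h4 := norm_tsum_le_tsum_norm h3
  calc _ ≤ ‖cexp (-(Real.pi * normSq z / X : ℝ))‖ * (X * ‖cexp (Real.pi / ((1 / X : ℝ) : ℂ) *
      (((z.re / X : ℝ) + I * η.re) ^ 2 + ((z.im / X : ℝ) + I * η.im) ^ 2))‖ *
      ∑' α, ‖EE (1 / ((1 / X : ℝ) : ℂ)) (-I * ((z.re / X : ℝ) + I * η.re) / ((1 / X : ℝ) : ℂ))
        (-I * ((z.im / X : ℝ) + I * η.im) / ((1 / X : ℝ) : ℂ)) α‖) := by
        gcongr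
    _ = X * ∑' α, gw (1 / X) η α := by
        rw [← tsum_mul_left, ← tsum_mul_left, ← tsum_mul_left]
        refine tsum_congr fun α => ?_
        rw [← dual_norm hX z η α]
        ring

end Run7.h343.GI
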