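import Pool.Agent.Run7.h343.GI.Gau

/-!
Bounds for Gaussian sums over the Gaussian integers.
-/

set_option autoImplicit false

namespace Run7.h343.GI

open Complex

/-- one-dimensional theta series -/
noncomputable def th (δ : ℝ) : ℝ := ∑' n : ℤ, Real.exp (-Real.pi * δ * (n : ℝ) ^ 2)

lemma th_summable {δ : ℝ} (hδ : 0 < δ) : Summable fun n : ℤ => Real.exp (-Real.pi * δ * (n : ℝ) ^ 2) := by
  have h := (summ1 (a := (δ : ℂ)) (by simpa using hδ) 0).norm
  refine h.congr fun n => ?_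
  have e : (-Real.pi * δ * n ^ 2 + 2 * Real.pi * 0 * n : ℂ) = ((-Real.pi * δ * (n : ℝ) ^ 2 : ℝ) : ℂ) := by
    push_cast; ring
  rw [e, Complex.norm_exp_ofReal]

lemma th_feq {δ : ℝ} (hδ : 0 < δ) : th δ = 1 / Real.sqrt δ * th (1 / δ) := by
  unfold th
  rw [Real.tsum_exp_neg_mul_int_sq hδ, ← Real.sqrt_eq_rpow]
  congr 1
  refine tsum_congr fun n => ?_
  congr 2
  ring

lemma gw_zero_eq {X : ℝ} (hX : 0 < X) (x : ℤ × ℤ) : gw X 0 (prE.symm x) =
    Real.exp (-Real.pi * (1 / X) * (x.1 : ℝ) ^ 2) * Real.exp (-Real.pi * (1 / X) * (x.2 : ℝ) ^ 2) := by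
  unfold gw prE
  rw [← Real.exp_add]
  congr 1
  rw [sub_zero, normSq_apply]
  simp
  field_simp
  ring

lemma GG_eq {X : ℝ} (hX : 0 < X) : GG X = th (1 / X) ^ 2 := by
  have h := th_summable (δ := 1 / X) (by positivity)
  have hn : Summable fun n : ℤ => ‖Real.exp (-Real.pi * (1 / X) * (n : ℝ) ^ 2)‖ := h.norm
  unfold GG th
  rw [sq, tsum_mul_tsum_of_summable_norm hn hn, ← prE.symm.tsum_eq]
  exact tsum_congr fun x => gw_zero_eq hX x

lemma GG_feq {X : ℝ} (hX : 0 < X) : GG X = X * GG (1 / X) := by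
  rw [GG_eq hX, GG_eq (by positivity), th_feq (by positivity : 0 < 1 / X), mul_pow, div_pow, one_pow,
    Real.sq_sqrt (by positivity)]
  simp

theorem gw_sum_le {X : ℝ} (hX : 0 < X) (z : ℂ) : ∑' α, gw X z α ≤ GG X := by
  have h := gw_fourier hX z 0
  have e1 : ∑' α, (gw X z α : ℂ) * cexp (2 * Real.pi * I * (((0 : ℂ).re : ℂ) * (α.re : ℂ) +
      ((0 : ℂ).im : ℂ) * (α.im : ℂ))) = ((∑' α, gw X z α : ℝ) : ℂ) := by
    rw [ofReal_tsum]
    refine tsum_congr fun α => ?_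
    simp
  rw [e1, Complex.norm_real, Real.norm_eq_abs, abs_of_nonneg (tsum_nonneg fun α => gw_nonneg _ _ _)] at h
  refine h.trans (le_of_eq ?_)
  rw [GG_feq hX]
  rfl

/-- `∑ 1/n²` -/
noncomputable def C0 : ℝ := ∑' n : ℤ, 1 / (n : ℝ) ^ 2

lemma C0_nonneg : 0 ≤ C0 := tsum_nonneg fun n => by positivity

/-- the non-constant terms of the theta series -/
lemma th_tail {δ : ℝ} (hδ : 0 < δ) : th δ ≤ 1 + C0 / δ := by
  have hs := th_summable hδ
  have h2 : Summable fun n : ℤ => 1 / (n : ℝ) ^ 2 := Real.summable_one_div_int_pow.2 one_lt_two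
  have h3 : Summable fun n : ℤ => (if n = 0 then (1 : ℝ) else 0) :=
    (hasSum_ite_eq (0 : ℤ) (1 : ℝ)).summable
  have h4 : ∀ n : ℤ, Real.exp (-Real.pi * δ * (n : ℝ) ^ 2) ≤
      (if n = 0 then (1 : ℝ) else 0) + 1 / δ * (1 / (n : ℝ) ^ 2) := by
    intro n
    by_cases hn : n = 0
    · rw [hn]; simp
    · rw [if_neg hn, zero_add]
      have hn' : (0 : ℝ) < (n : ℝ) ^ 2 := by positivity
      have h5 : δ * (n : ℝ) ^ 2 ≤ Real.exp (Real.pi * δ * (n : ℝ) ^ 2) := by
        have h6 := Real.add_one_le_exp (Real.pi * δ * (n : ℝ) ^ 2)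
        have h7 : δ * (n : ℝ) ^ 2 ≤ Real.pi * δ * (n : ℝ) ^ 2 := by
          have h8 : (1 : ℝ) ≤ Real.pi := by linarith [Real.pi_gt_three]
          have h9 : 0 < δ * (n : ℝ) ^ 2 := by positivity
          nlinarith
        linarith
      have e : -Real.pi * δ * (n : ℝ) ^ 2 = -(Real.pi * δ * (n : ℝ) ^ 2) := by ring
      rw [e, Real.exp_neg, one_div_mul_one_div, ← one_div]
      exact one_div_le_one_div_of_le (by positivity) h5
  unfold th
  calc _ ≤ ∑' n : ℤ, ((if n = 0 then (1 : ℝ) else 0) + 1 / δ * (1 / (n : ℝ) ^ 2)) :=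
        hs.tsum_le_tsum h4 (h3.add (h2.mul_left _))
    _ = 1 + C0 / δ := by
        rw [h3.tsum_add (h2.mul_left _), tsum_mul_left, tsum_ite_eq]
        unfold C0
        ring

/-- the constant in the bounds for Gaussian sums -/
noncomputable def CG : ℝ := 1 + 2 * C0 + C0 ^ 2

lemma CG_one : 1 ≤ CG := by
  have := C0_nonneg
  unfold CG
  nlinarith

theorem GG_le {X : ℝ} (hX : 0 < X) : GG X ≤ 1 + CG * X := by
  have h0 := C0_nonneg
  have key : ∀ Y : ℝ, 0 < Y → Y ≤ 1 → GG Y ≤ 1 + (2 * C0 + C0 ^ 2) * Y := by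
    intro Y hY hY1
    rw [GG_eq hY]
    have h1 := th_tail (by positivity : 0 < 1 / Y)
    rw [div_div_eq_mul_div, div_one] at h1
    have h2 : 0 ≤ th (1 / Y) := tsum_nonneg fun n => (Real.exp_pos _).le
    calc th (1 / Y) ^ 2 ≤ (1 + C0 * Y) ^ 2 := by gcongr
      _ = 1 + 2 * C0 * Y + C0 ^ 2 * Y * Y := by ring
      _ ≤ 1 + 2 * C0 * Y + C0 ^ 2 * Y * 1 := by gcongr
      _ = _ := by ring
  rcases le_or_gt X 1 with h | h
  · refine (key X hX h).trans ?_
    unfold CG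
    nlinarith
  · rw [GG_feq hX]
    have h1 := key (1 / X) (by positivity) (by rw [div_le_one hX]; exact h.le)
    calc X * GG (1 / X) ≤ X * (1 + (2 * C0 + C0 ^ 2) * (1 / X)) := by gcongr
      _ = X + (2 * C0 + C0 ^ 2) := by field_simp
      _ ≤ _ := by unfold CG; nlinarith [sq_nonneg C0]

lemma GG_le' {X : ℝ} (hX : 1 ≤ X) : GG X ≤ 2 * CG * X := by
  have h1 := GG_le (by linarith : 0 < X)
  have h2 := CG_one
  nlinarith

/-- the sum over nonzero elements -/
theorem nz_le {X : ℝ} (hX : 0 < X) : ∑' α : GaussianInt, (if α = 0 then 0 else gw X 0 α) ≤ CG * X := by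
  have h1 := GG_le hX
  have h2 := gw_summable hX 0
  have h3 : GG X = gw X 0 0 + ∑' α : GaussianInt, (if α = 0 then 0 else gw X 0 α) :=
    h2.tsum_eq_add_tsum_ite 0
  have h4 : gw X 0 0 = 1 := by unfold gw; simp
  linarith

lemma nz_summable {X : ℝ} (hX : 0 < X) : Summable fun α : GaussianInt => (if α = 0 then 0 else gw X 0 α) := by
  refine Summable.of_nonneg_of_le (fun α => ?_) (fun α => ?_) (gw_summable hX 0)
  · split_ifs
    · exact le_rfl
    · exact gw_nonneg _ _ _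
  · split_ifs
    · exact gw_nonneg _ _ _
    · exact le_rfl

end Run7.h343.GI
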