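import Pool.Agent.Run7.h343.GI.Z4
import Pool.Agent.Y766.R7.ZC

/-!
The mean square over `l` of the sums of `KL` over the Gaussian integers.
-/

set_option autoImplicit false

namespace Run7.h343.GI

open Complex Finset
open Pool.Agent.Y766.R7
open Pool.Agent.Y766.R3 (eu KL S_KLO)

variable {p r : ℕ}

theorem keyg (hbr : S_BR) (hklo : S_KLO) [NeZero (p ^ r)] (hp : p.Prime) (hp2 : p ≠ 2)
    {u : ℕ} (hr2 : 2 ≤ r) (hu : 2 * u + 1 ≤ r)
    {Ψ : ZMod (p ^ r) → ℂ} (hΨ : ∀ y, ‖Ψ y‖ = 1)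
    (hΨ2 : ∀ y z : ZMod (p ^ r), Ψ (y + (p : ZMod (p ^ r)) ^ u * z) = Ψ y)
    {A L : ZMod (p ^ r)} (hA : IsUnit A) (hL : IsUnit L) {χ : GaussianInt → GaussianInt → ℂ}
    (hχ : ∀ l, IsCh (χ l)) (R1 R2 : GaussianInt → ℤ) {ω : GaussianInt → ℝ} (hω : Summable ω)
    (hω0 : ∀ l, 0 ≤ ω l) {K : ℝ} (hK : 0 < K) (z : ℂ) {Z : ℝ}
    (hZ : ∀ l0 h0 : ℤ, ¬ (p : ℤ) ∣ l0 → ¬ (p : ℤ) ∣ h0 → ∀ Y C : ZMod (p ^ r), IsUnit C →
      Af ω K z (Fm p r l0 h0 Ψ Y C R1 R2 χ) ≤ Z) :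
    ∑' l, (if (p : ℤ) ∣ R1 l then 0 else ω l) *
      ‖∑' h, KL Ψ A (L * ((R1 l * R2 h : ℤ) : ZMod (p ^ r))) * χ l h * (gw K z h : ℂ)‖ ^ 2 ≤
      4 * (p : ℝ) ^ 5 * (p : ℝ) ^ r * Z := by
  classical
  have hp0 : (0 : ℝ) < p := by exact_mod_cast hp.pos
  have hp1 : (1 : ℝ) ≤ p := by exact_mod_cast hp.one_le
  have hpZ : Prime (p : ℤ) := Nat.prime_iff_prime_int.1 hp
  obtain ⟨-, k2, -⟩ := hklo p r u hp hp2 hr2 (by omega) Ψ hΨ hΨ2 A L hA hL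
  have hex : ∀ l0 h0 : ℤ, ∃ (ρ : Fin 2 → ℂ) (Y : Fin 2 → ZMod (p ^ r)), ¬ (p : ℤ) ∣ l0 →
      ¬ (p : ℤ) ∣ h0 → (∀ i, ‖ρ i‖ ≤ p ∧ IsUnit (Y i)) ∧
      ∀ l h : ℤ, (p : ℤ) ∣ l - l0 → (p : ℤ) ∣ h - h0 →
      KL Ψ A (L * ((l * h : ℤ) : ZMod (p ^ r))) = (p : ℂ) ^ (r / 2) *
        ∑ i, ρ i * Ψ (Y i * (aa p r l0 l * aa p r h0 h)) *
          ZMod.stdAddChar (2 * A * Y i * (aa p r l0 l * aa p r h0 h)) := by
    intro l0 h0
    by_cases hc : ¬ (p : ℤ) ∣ l0 ∧ ¬ (p : ℤ) ∣ h0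
    · obtain ⟨ρ, Y, h1, h2⟩ := hbr p r u hp hp2 hr2 hu Ψ hΨ2 A L hA hL l0 h0 hc.1 hc.2
      exact ⟨ρ, Y, fun _ _ => ⟨h1, h2⟩⟩
    · exact ⟨fun _ => 0, fun _ => 0, fun a b => absurd ⟨a, b⟩ hc⟩
  choose ρ Y hρY using hex
  have h2u : IsUnit (2 : ZMod (p ^ r)) := by
    have h1 : ¬ (p : ℤ) ∣ 2 := by
      intro h
      have h2 : p ∣ 2 := by exact_mod_cast h
      exact hp2 ((Nat.prime_dvd_prime_iff_eq hp Nat.prime_two).1 h2)
    have := Pool.Agent.Y779.R3.unit_int (r := r) hp h1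
    simpa using this
  obtain ⟨Fx, hFx⟩ : ∃ Fx : ℤ → ℤ → Fin 2 → GaussianInt → GaussianInt → ℂ, Fx = fun l0 h0 i =>
    Fm p r l0 h0 Ψ (Y l0 h0 i) (2 * A * Y l0 h0 i) R1 R2 χ := ⟨_, rfl⟩
  have hFxn : ∀ l0 h0 i l h, ‖Fx l0 h0 i l h‖ ≤ 1 := by
    intro l0 h0 i l h
    rw [hFx]
    exact Fm_norm hΨ _ _ R1 R2 hχ l h
  -- pointwise in `l`
  obtain ⟨X, hX⟩ : ∃ X : ℤ → ℤ → Fin 2 → GaussianInt → ℝ, X = fun l0 h0 i l =>
    ‖∑' h, Fx l0 h0 i l h * (gw K z h : ℂ)‖ ^ 2 := ⟨_, rfl⟩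
  have hX0 : ∀ l0 h0 i l, 0 ≤ X l0 h0 i l := fun l0 h0 i l => by
    simp only [hX]; positivity
  have hone : ∀ l, ¬ (p : ℤ) ∣ R1 l →
      ‖∑' h, KL Ψ A (L * ((R1 l * R2 h : ℤ) : ZMod (p ^ r))) * χ l h * (gw K z h : ℂ)‖ ^ 2 ≤
      ∑ l0 ∈ Ico (1 : ℤ) p, ∑ h0 ∈ Ico (1 : ℤ) p, ∑ i : Fin 2,
        2 * (p : ℝ) ^ 3 * (p : ℝ) ^ r * X l0 h0 i l := by
    intro l hl
    obtain ⟨m1, m2⟩ := mod_cls hp hl
    obtain ⟨l0, hl0⟩ : ∃ l0, l0 = R1 l % p := ⟨_, rfl⟩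
    rw [← hl0] at m1 m2
    have hl0d := cls_nd hp m1
    have e1 : ∑' h, KL Ψ A (L * ((R1 l * R2 h : ℤ) : ZMod (p ^ r))) * χ l h * (gw K z h : ℂ) =
        ∑ h0 ∈ Ico (1 : ℤ) p, ∑ i : Fin 2, (p : ℂ) ^ (r / 2) * ρ l0 h0 i *
          ∑' h, Fx l0 h0 i l h * (gw K z h : ℂ) := by
      have e2 : ∀ h, KL Ψ A (L * ((R1 l * R2 h : ℤ) : ZMod (p ^ r))) * χ l h * (gw K z h : ℂ) =
          ∑ h0 ∈ Ico (1 : ℤ) p, ∑ i : Fin 2, (p : ℂ) ^ (r / 2) * ρ l0 h0 i *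
            (Fx l0 h0 i l h * (gw K z h : ℂ)) := by
        intro h
        have e3 : ∀ h0 ∈ Ico (1 : ℤ) p, ∑ i : Fin 2, (p : ℂ) ^ (r / 2) * ρ l0 h0 i *
            (Fx l0 h0 i l h * (gw K z h : ℂ)) = if (p : ℤ) ∣ R2 h - h0 then
            KL Ψ A (L * ((R1 l * R2 h : ℤ) : ZMod (p ^ r))) * χ l h * (gw K z h : ℂ) else 0 := by
          intro h0 hh0
          have hh0d := cls_nd hp hh0
          by_cases hc : (p : ℤ) ∣ R2 h - h0
          · rw [if_pos hc, (hρY l0 h0 hl0d hh0d).2 (R1 l) (R2 h) m2 hc, mul_sum, sum_mul, sum_mul]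
            refine sum_congr rfl fun i _ => ?_
            rw [hFx]
            simp only
            unfold Fm
            rw [if_pos ⟨m2, hc⟩]
            ring
          · rw [if_neg hc]
            refine sum_eq_zero fun i _ => ?_
            rw [hFx]
            simp only
            unfold Fm
            rw [if_neg (fun h1 => hc h1.2), zero_mul, mul_zero]
        rw [sum_congr rfl e3]
        by_cases hc : (p : ℤ) ∣ R2 h
        · rw [k2 (R1 l * R2 h) (Dvd.dvd.mul_left hc _)]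
          simp
        · obtain ⟨n1, n2⟩ := mod_cls hp hc
          rw [sum_eq_single (R2 h % p)]
          · rw [if_pos n2]
          · intro h0 hh0 hne
            rw [if_neg]
            intro hd
            apply hne
            have h3 : (p : ℤ) ∣ h0 - R2 h % p := by
              have := dvd_sub n2 hd
              have e : R2 h - R2 h % p - (R2 h - h0) = h0 - R2 h % p := by ring
              rwa [e] at this
            rw [mem_Ico] at hh0 n1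
            have h4 : (h0 - R2 h % p) = 0 := by
              apply Int.eq_zero_of_abs_lt_dvd h3
              rw [abs_lt]
              constructor <;> omega
            omega
          · intro h1
            exact absurd n1 h1
      simp_rw [e2]
      have hs : ∀ h0 i, Summable fun h => (p : ℂ) ^ (r / 2) * ρ l0 h0 i *
            (Fx l0 h0 i l h * (gw K z h : ℂ)) := by
        intro h0 i
        exact (gsum hK z (hFxn l0 h0 i l)).mul_left _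
      rw [Summable.tsum_finsetSum (fun h0 _ => summable_sum fun i _ => hs h0 i)]
      refine sum_congr rfl fun h0 _ => ?_
      rw [Summable.tsum_finsetSum (fun i _ => hs h0 i)]
      refine sum_congr rfl fun i _ => ?_
      rw [tsum_mul_left]
    rw [e1]
    have hcs : ‖∑ h0 ∈ Ico (1 : ℤ) p, ∑ i : Fin 2, (p : ℂ) ^ (r / 2) * ρ l0 h0 i *
          ∑' h, Fx l0 h0 i l h * (gw K z h : ℂ)‖ ^ 2 ≤
        ∑ h0 ∈ Ico (1 : ℤ) p, ∑ i : Fin 2, 2 * (p : ℝ) ^ 3 * (p : ℝ) ^ r * X l0 h0 i l := by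
      have f1 : ‖∑ h0 ∈ Ico (1 : ℤ) p, ∑ i : Fin 2, (p : ℂ) ^ (r / 2) * ρ l0 h0 i *
          ∑' h, Fx l0 h0 i l h * (gw K z h : ℂ)‖ ≤
          ∑ h0 ∈ Ico (1 : ℤ) p, ∑ i : Fin 2, ‖(p : ℂ) ^ (r / 2) * ρ l0 h0 i *
          ∑' h, Fx l0 h0 i l h * (gw K z h : ℂ)‖ := by
        refine (norm_sum_le _ _).trans (sum_le_sum fun h0 _ => norm_sum_le _ _)
      have f2 : (∑ h0 ∈ Ico (1 : ℤ) p, ∑ i : Fin 2, ‖(p : ℂ) ^ (r / 2) * ρ l0 h0 i *
          ∑' h, Fx l0 h0 i l h * (gw K z h : ℂ)‖) ^ 2 ≤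
          ((Ico (1 : ℤ) p ×ˢ (univ : Finset (Fin 2))).card : ℝ) *
          ∑ h0 ∈ Ico (1 : ℤ) p, ∑ i : Fin 2, ‖(p : ℂ) ^ (r / 2) * ρ l0 h0 i *
          ∑' h, Fx l0 h0 i l h * (gw K z h : ℂ)‖ ^ 2 := by
        have := sq_sum_le_card_mul_sum_sq (s := Ico (1 : ℤ) p ×ˢ (univ : Finset (Fin 2)))
          (f := fun x => ‖(p : ℂ) ^ (r / 2) * ρ l0 x.1 x.2 *
          ∑' h, Fx l0 x.1 x.2 l h * (gw K z h : ℂ)‖)
        rwa [sum_product, sum_product] at this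
      have f3 : ((Ico (1 : ℤ) p ×ˢ (univ : Finset (Fin 2))).card : ℝ) ≤ 2 * p := by
        rw [card_product, Int.card_Ico, card_univ, Fintype.card_fin]
        have : ((p : ℤ) - 1).toNat * 2 ≤ 2 * p := by omega
        exact_mod_cast this
      refine (pow_le_pow_left₀ (norm_nonneg _) f1 2).trans (f2.trans ?_)
      calc _ ≤ (2 * (p : ℝ)) * ∑ h0 ∈ Ico (1 : ℤ) p, ∑ i : Fin 2, (p : ℝ) ^ 2 * (p : ℝ) ^ r * X l0 h0 i l := by
            refine mul_le_mul f3 ?_ (by positivity) (by positivity)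
            refine sum_le_sum fun h0 hh0 => sum_le_sum fun i _ => ?_
            rw [norm_mul, mul_pow, norm_mul, mul_pow]
            have g1 : ‖(p : ℂ) ^ (r / 2)‖ ^ 2 ≤ (p : ℝ) ^ r := by
              rw [norm_pow, Complex.norm_natCast, ← pow_mul]
              exact pow_le_pow_right₀ hp1 (by omega)
            have g2 : ‖ρ l0 h0 i‖ ^ 2 ≤ (p : ℝ) ^ 2 :=
              pow_le_pow_left₀ (norm_nonneg _) ((hρY l0 h0 hl0d (cls_nd hp hh0)).1 i).1 2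
            calc _ ≤ (p : ℝ) ^ r * (p : ℝ) ^ 2 * X l0 h0 i l := by
                  simp only [hX]
                  gcongr
              _ = _ := by ring
        _ = _ := by
            rw [mul_sum]
            refine sum_congr rfl fun h0 _ => ?_
            rw [mul_sum]
            refine sum_congr rfl fun i _ => ?_
            ring
    refine hcs.trans ?_
    exact single_le_sum (f := fun l0 => ∑ h0 ∈ Ico (1 : ℤ) p, ∑ i : Fin 2,
        2 * (p : ℝ) ^ 3 * (p : ℝ) ^ r * X l0 h0 i l)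
      (fun l0 _ => sum_nonneg fun h0 _ => sum_nonneg fun i _ =>
        mul_nonneg (by positivity) (hX0 _ _ _ _)) m1
  have hXs : ∀ l0 h0 i, Summable fun l => ω l * X l0 h0 i l := by
    intro l0 h0 i
    rw [hX]
    exact A_summ hω hω0 hK (hFxn l0 h0 i) z
  have hZ' : ∀ l0 ∈ Ico (1 : ℤ) p, ∀ h0 ∈ Ico (1 : ℤ) p, ∀ i : Fin 2,
      ∑' l, ω l * X l0 h0 i l ≤ Z := by
    intro l0 hl0 h0 hh0 i
    have g1 := hZ l0 h0 (cls_nd hp hl0) (cls_nd hp hh0) (Y l0 h0 i) (2 * A * Y l0 h0 i)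
      ((h2u.mul hA).mul ((hρY l0 h0 (cls_nd hp hl0) (cls_nd hp hh0)).1 i).2)
    refine le_trans (le_of_eq ?_) g1
    unfold Af
    refine tsum_congr fun l => ?_
    rw [hX, hFx]
  have hZ0 : 0 ≤ Z := by
    have hp1' : (1 : ℤ) ∈ Ico (1 : ℤ) p := by
      rw [mem_Ico]
      have := hp.one_lt
      omega
    refine le_trans ?_ (hZ' 1 hp1' 1 hp1' 0)
    exact tsum_nonneg fun l => mul_nonneg (hω0 l) (hX0 _ _ _ _)
  obtain ⟨Q, hQ⟩ : ∃ Q : GaussianInt → ℝ, Q = fun l => ∑ l0 ∈ Ico (1 : ℤ) p, ∑ h0 ∈ Ico (1 : ℤ) p,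
    ∑ i : Fin 2, 2 * (p : ℝ) ^ 3 * (p : ℝ) ^ r * (ω l * X l0 h0 i l) := ⟨_, rfl⟩
  have hQs : Summable Q := by
    rw [hQ]
    exact summable_sum fun l0 _ => summable_sum fun h0 _ => summable_sum fun i _ =>
      (hXs l0 h0 i).mul_left _
  have hle : ∀ l, (if (p : ℤ) ∣ R1 l then 0 else ω l) *
      ‖∑' h, KL Ψ A (L * ((R1 l * R2 h : ℤ) : ZMod (p ^ r))) * χ l h * (gw K z h : ℂ)‖ ^ 2 ≤ Q l := by
    intro l
    have hQ0 : 0 ≤ Q l := by
      rw [hQ]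
      exact sum_nonneg fun l0 _ => sum_nonneg fun h0 _ => sum_nonneg fun i _ =>
        mul_nonneg (by positivity) (mul_nonneg (hω0 l) (hX0 _ _ _ _))
    split_ifs with hc
    · rw [zero_mul]; exact hQ0
    · refine (mul_le_mul_of_nonneg_left (hone l hc) (hω0 l)).trans (le_of_eq ?_)
      rw [hQ, mul_sum]
      refine sum_congr rfl fun l0 _ => ?_
      rw [mul_sum]
      refine sum_congr rfl fun h0 _ => ?_
      rw [mul_sum]
      refine sum_congr rfl fun i _ => ?_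
      ring
  have hs0 : Summable fun l => (if (p : ℤ) ∣ R1 l then 0 else ω l) *
      ‖∑' h, KL Ψ A (L * ((R1 l * R2 h : ℤ) : ZMod (p ^ r))) * χ l h * (gw K z h : ℂ)‖ ^ 2 := by
    refine Summable.of_nonneg_of_le (fun l => ?_) hle hQs
    refine mul_nonneg ?_ (sq_nonneg _)
    split_ifs
    · exact le_rfl
    · exact hω0 l
  calc _ ≤ ∑' l, Q l := hs0.tsum_le_tsum hle hQs
    _ = ∑ l0 ∈ Ico (1 : ℤ) p, ∑ h0 ∈ Ico (1 : ℤ) p, ∑ i : Fin 2, 2 * (p : ℝ) ^ 3 * (p : ℝ) ^ r *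
        ∑' l, ω l * X l0 h0 i l := by
        rw [hQ, Summable.tsum_finsetSum (fun l0 _ => summable_sum fun h0 _ => summable_sum fun i _ =>
          (hXs l0 h0 i).mul_left _)]
        refine sum_congr rfl fun l0 _ => ?_
        rw [Summable.tsum_finsetSum (fun h0 _ => summable_sum fun i _ => (hXs l0 h0 i).mul_left _)]
        refine sum_congr rfl fun h0 _ => ?_
        rw [Summable.tsum_finsetSum (fun i _ => (hXs l0 h0 i).mul_left _)]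
        refine sum_congr rfl fun i _ => ?_
        rw [tsum_mul_left]
    _ ≤ ∑ l0 ∈ Ico (1 : ℤ) p, ∑ h0 ∈ Ico (1 : ℤ) p, ∑ i : Fin 2, 2 * (p : ℝ) ^ 3 * (p : ℝ) ^ r * Z := by
        refine sum_le_sum fun l0 hl0 => sum_le_sum fun h0 hh0 => sum_le_sum fun i _ => ?_
        exact mul_le_mul_of_nonneg_left (hZ' l0 hl0 h0 hh0 i) (by positivity)
    _ = (((Ico (1 : ℤ) p).card : ℝ) ^ 2) * (4 * (p : ℝ) ^ 3 * (p : ℝ) ^ r * Z) := by
        simp only [sum_const, nsmul_eq_mul, card_univ, Fintype.card_fin]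
        push_cast
        ring
    _ ≤ ((p : ℝ) ^ 2) * (4 * (p : ℝ) ^ 3 * (p : ℝ) ^ r * Z) := by
        have hc : ((Ico (1 : ℤ) p).card : ℝ) ≤ p := by
          rw [Int.card_Ico]
          have : ((p : ℤ) - 1).toNat ≤ p := by omega
          exact_mod_cast this
        gcongr
    _ = _ := by ring

end Run7.h343.GI
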