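import Pool.Agent.Run7.h343.GI.Mel

/-!
The entire function attached to a character, its values on the central line.
-/

set_option autoImplicit false

namespace Run7.h343.GI

open Complex MeasureTheory Filter Topology

variable {p ν : ℕ} {ι : ℤ} {ϖ : GaussianInt}

lemma pi_ne {ω : ℂ} (hω : 0 < ω.re) : (Real.pi * ω : ℂ) ≠ 0 := by
  intro h
  have h1 : (Real.pi * ω : ℂ).re = Real.pi * ω.re := re_ofReal_mul _ _
  rw [h] at h1
  simp only [zero_re] at h1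
  have := mul_pos Real.pi_pos hω
  linarith

/-- the function attached to a ray -/
noncomputable def Lr {q : ℕ} (χ : DirichletCharacter ℂ q) (ι : ℤ) (ω : ℂ) (s : ℂ) : ℂ :=
  (Real.pi * ω) ^ s * (Gamma s)⁻¹ * mellin (fun x : ℝ => Th χ ι (ω * x)) s

lemma Lr_diff (hfr : Fr p ν ι ϖ) (hν : 1 ≤ ν) {χ : DirichletCharacter ℂ (p ^ ν)} (hχ : χ.IsPrimitive) {ω : ℂ}
    (hω : 0 < ω.re) (hω1 : ‖ω‖ = 1) : Differentiable ℂ (Lr χ ι ω) := by
  unfold Lr
  refine (Differentiable.mul ?_ differentiable_one_div_Gamma).mul (mel_diff hfr hν hχ hω hω1)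
  intro s
  exact differentiableAt_id.const_cpow (Or.inl (pi_ne hω))

lemma Lr_eq (hp : p.Prime) (hν : 1 ≤ ν) (χ : DirichletCharacter ℂ (p ^ ν)) (ι : ℤ) {ω : ℂ}
    (hω : 0 < ω.re) {s : ℂ} (hs : 1 < s.re) : Lr χ ι ω s = Ds χ ι s := by
  unfold Lr
  have h1 := mel_eq hp hν χ ι hω hs
  have hG : Gamma s ≠ 0 := Gamma_ne_zero_of_re_pos (by linarith)
  calc _ = (Gamma s)⁻¹ * ((Real.pi * ω) ^ s * mellin (fun x : ℝ => Th χ ι (ω * x)) s) := by ring
    _ = _ := by rw [h1]; field_simp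

theorem exists_L (hfr : Fr p ν ι ϖ) (hν : 1 ≤ ν) {χ : DirichletCharacter ℂ (p ^ ν)} (hχ : χ.IsPrimitive) :
    ∃ L : ℂ → ℂ, Differentiable ℂ L ∧ ∀ s : ℂ, 1 < s.re → L s = Ds χ ι s :=
  ⟨Lr χ ι 1, Lr_diff hfr hν hχ (by simp) (by simp), fun s hs => Lr_eq hfr.pr hν χ ι (by simp) hs⟩

lemma entire_unique {f g : ℂ → ℂ} (hf : Differentiable ℂ f) (hg : Differentiable ℂ g)
    (h : ∀ s : ℂ, 1 < s.re → f s = g s) : f = g := by
  have h1 : AnalyticOnNhd ℂ f Set.univ := (Complex.analyticOnNhd_univ_iff_differentiable).2 hf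
  have h2 : AnalyticOnNhd ℂ g Set.univ := (Complex.analyticOnNhd_univ_iff_differentiable).2 hg
  refine h1.eq_of_eventuallyEq h2 (z₀ := 2) ?_
  have hU : {z : ℂ | 1 < z.re} ∈ 𝓝 (2 : ℂ) :=
    (isOpen_lt continuous_const Complex.continuous_re).mem_nhds (by simp)
  filter_upwards [hU] with s hs
  exact h s hs

theorem L_eq (hfr : Fr p ν ι ϖ) (hν : 1 ≤ ν) {χ : DirichletCharacter ℂ (p ^ ν)} (hχ : χ.IsPrimitive)
    {L : ℂ → ℂ} (hL : Differentiable ℂ L) (hLs : ∀ s : ℂ, 1 < s.re → L s = Ds χ ι s) {ω : ℂ}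
    (hω : 0 < ω.re) (hω1 : ‖ω‖ = 1) : L = Lr χ ι ω :=
  entire_unique hL (Lr_diff hfr hν hχ hω hω1) fun s hs => by rw [hLs s hs, Lr_eq hfr.pr hν χ ι hω hs]

/-- a lower bound for the gamma function on the central line -/
lemma gamma_lower (t : ℝ) :
    Real.sqrt Real.pi * Real.exp (-(Real.pi * |t| / 2)) ≤ ‖Gamma (1 / 2 + t * I)‖ := by
  have h1 := Gamma_mul_Gamma_one_sub (1 / 2 + t * I)
  have e1 : (1 - (1 / 2 + t * I) : ℂ) = starRingEnd ℂ (1 / 2 + t * I) := by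
    simp only [map_add, map_mul, conj_ofReal, conj_I, map_div₀, map_one]
    have : (starRingEnd ℂ) 2 = 2 := by
      have := conj_ofReal 2
      simpa using this
    rw [this]
    ring
  rw [e1, Gamma_conj, mul_conj, Complex.normSq_eq_norm_sq] at h1
  have e2 : sin (Real.pi * (1 / 2 + t * I)) = ((Real.cosh (Real.pi * t) : ℝ) : ℂ) := by
    have : (Real.pi * (1 / 2 + t * I) : ℂ) = (Real.pi * t : ℝ) * I + Real.pi / 2 := by push_cast; ring
    rw [this, sin_add_pi_div_two, cos_mul_I]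
    push_cast
    rfl
  rw [e2] at h1
  have h2 : ‖Gamma (1 / 2 + t * I)‖ ^ 2 = Real.pi / Real.cosh (Real.pi * t) := by
    exact_mod_cast h1
  have h3 : Real.cosh (Real.pi * t) ≤ Real.exp (Real.pi * |t|) := by
    rw [Real.cosh_eq]
    have h4 : Real.exp (Real.pi * t) ≤ Real.exp (Real.pi * |t|) := by
      rw [Real.exp_le_exp]
      exact mul_le_mul_of_nonneg_left (le_abs_self t) Real.pi_pos.le
    have h5 : Real.exp (-(Real.pi * t)) ≤ Real.exp (Real.pi * |t|) := by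
      rw [Real.exp_le_exp]
      have := mul_le_mul_of_nonneg_left (neg_abs_le t) Real.pi_pos.le
      linarith
    linarith
  refine abs_le_of_sq_le_sq' ?_ (norm_nonneg _) |>.2
  rw [mul_pow, Real.sq_sqrt Real.pi_pos.le, h2, ← Real.exp_nat_mul]
  rw [le_div_iff₀ (Real.cosh_pos _)]
  have e3 : ((2 : ℕ) : ℝ) * -(Real.pi * |t| / 2) = -(Real.pi * |t|) := by push_cast; ring
  rw [e3]
  calc Real.pi * Real.exp (-(Real.pi * |t|)) * Real.cosh (Real.pi * t)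
      ≤ Real.pi * Real.exp (-(Real.pi * |t|)) * Real.exp (Real.pi * |t|) :=
        mul_le_mul_of_nonneg_left h3 (mul_nonneg Real.pi_pos.le (Real.exp_pos _).le)
    _ = Real.pi := by rw [mul_assoc, ← Real.exp_add]; simp

/-- the choice of the ray -/
lemma ray (t : ℝ) : ∃ ω : ℂ, ‖ω‖ = 1 ∧ 1 / (2 * (1 + |t|)) ≤ ω.re ∧
    ‖(Real.pi * ω : ℂ) ^ (1 / 2 + t * I : ℂ)‖ ≤
      Real.exp 1 * (Real.sqrt Real.pi * Real.exp (-(Real.pi * |t| / 2))) := by
  have ht : 0 < 1 + |t| := by positivity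
  obtain ⟨δ, hδ⟩ : ∃ δ : ℝ, δ = 1 / (1 + |t|) := ⟨_, rfl⟩
  have hδ0 : 0 < δ := by rw [hδ]; positivity
  have hδ1 : δ ≤ 1 := by
    rw [hδ, div_le_one ht]; linarith [abs_nonneg t]
  have hpi := Real.pi_gt_three
  obtain ⟨ε, hε⟩ : ∃ ε : ℝ, ε = if 0 ≤ t then 1 else -1 := ⟨_, rfl⟩
  have hεt : ε * t = |t| := by
    rw [hε]
    split_ifs with h
    · rw [one_mul, abs_of_nonneg h]
    · rw [abs_of_neg (not_le.1 h)]; ring
  have hε1 : ε = 1 ∨ ε = -1 := by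
    rw [hε]
    split_ifs
    · exact Or.inl rfl
    · exact Or.inr rfl
  obtain ⟨φ, hφ⟩ : ∃ φ : ℝ, φ = ε * (Real.pi / 2 - δ) := ⟨_, rfl⟩
  have hφ1 : |φ| ≤ Real.pi / 2 := by
    rw [abs_le]
    rcases hε1 with h | h <;> rw [hφ, h] <;> constructor <;> linarith
  have hcos : Real.cos φ = Real.sin δ := by
    rcases hε1 with h | h
    · rw [hφ, h, one_mul, Real.cos_pi_div_two_sub]
    · rw [hφ, h, neg_one_mul, Real.cos_neg, Real.cos_pi_div_two_sub]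
  refine ⟨cexp (φ * I), norm_exp_ofReal_mul_I φ, ?_, ?_⟩
  · rw [Complex.exp_ofReal_mul_I_re, hcos]
    have h1 : 2 / Real.pi * δ ≤ Real.sin δ := Real.mul_le_sin hδ0.le (by linarith)
    refine le_trans ?_ h1
    have h2 : (1 : ℝ) / 2 ≤ 2 / Real.pi := by
      rw [div_le_div_iff₀ (by norm_num) Real.pi_pos]
      linarith [Real.pi_le_four]
    calc 1 / (2 * (1 + |t|)) = 1 / 2 * δ := by rw [hδ]; field_simp
      _ ≤ _ := by gcongr
  · have hne : (Real.pi * cexp (φ * I) : ℂ) ≠ 0 :=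
      mul_ne_zero (by exact_mod_cast Real.pi_pos.ne') (Complex.exp_ne_zero _)
    rw [norm_cpow_of_ne_zero hne, arg_real_mul _ Real.pi_pos, norm_mul, norm_exp_ofReal_mul_I,
      Complex.norm_real, Real.norm_of_nonneg Real.pi_pos.le, mul_one]
    have harg : arg (cexp (φ * I)) = φ := by
      rw [Complex.arg_exp_mul_I, toIocMod_eq_self]
      have h3 := abs_le.1 hφ1
      constructor
      · linarith
      · linarith
    rw [harg]
    have e1 : ((1 / 2 + t * I : ℂ)).re = 1 / 2 := by simp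
    have e2 : ((1 / 2 + t * I : ℂ)).im = t := by simp
    rw [e1, e2, Real.sqrt_eq_rpow]
    have e3 : φ * t = Real.pi * |t| / 2 - δ * |t| := by
      rw [hφ]
      calc ε * (Real.pi / 2 - δ) * t = (Real.pi / 2 - δ) * (ε * t) := by ring
        _ = _ := by rw [hεt]; ring
    have e4 : δ * |t| ≤ 1 := by
      rw [hδ, one_div, inv_mul_le_iff₀ ht]
      linarith
    rw [div_eq_mul_inv, ← Real.exp_neg]
    have e5 : Real.exp (-(φ * t)) ≤ Real.exp 1 * Real.exp (-(Real.pi * |t| / 2)) := by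
      rw [← Real.exp_add, Real.exp_le_exp, e3]
      linarith
    calc Real.pi ^ (1 / 2 : ℝ) * Real.exp (-(φ * t))
        ≤ Real.pi ^ (1 / 2 : ℝ) * (Real.exp 1 * Real.exp (-(Real.pi * |t| / 2))) := by gcongr
      _ = _ := by ring

theorem L_half_le (hfr : Fr p ν ι ϖ) (hν : 1 ≤ ν) {χ : DirichletCharacter ℂ (p ^ ν)} (hχ : χ.IsPrimitive)
    {L : ℂ → ℂ} (hL : Differentiable ℂ L) (hLs : ∀ s : ℂ, 1 < s.re → L s = Ds χ ι s) {t : ℝ} {ω : ℂ}
    (hω : 0 < ω.re) (hω1 : ‖ω‖ = 1) (hω2 : ‖(Real.pi * ω : ℂ) ^ (1 / 2 + t * I : ℂ)‖ ≤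
      Real.exp 1 * (Real.sqrt Real.pi * Real.exp (-(Real.pi * |t| / 2)))) :
    ‖L (1 / 2 + t * I)‖ ≤ Real.exp 1 * ∫ x in Set.Ioi (0 : ℝ), x ^ (-(1 / 2) : ℝ) * ‖Th χ ι (ω * x)‖ := by
  rw [L_eq hfr hν hχ hL hLs hω hω1]
  unfold Lr
  rw [norm_mul, norm_mul, norm_inv]
  have h1 : ‖mellin (fun x : ℝ => Th χ ι (ω * x)) (1 / 2 + t * I)‖ ≤
      ∫ x in Set.Ioi (0 : ℝ), x ^ (-(1 / 2) : ℝ) * ‖Th χ ι (ω * x)‖ := by
    unfold mellin
    refine (norm_integral_le_integral_norm _).trans (le_of_eq ?_)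
    refine setIntegral_congr_fun measurableSet_Ioi fun x hx => ?_
    have hx0 : (0 : ℝ) < x := hx
    simp only [norm_smul]
    rw [Complex.norm_cpow_eq_rpow_re_of_pos hx0]
    have : ((1 / 2 + t * I : ℂ) - 1).re = -(1 / 2) := by
      simp only [sub_re, add_re, one_re, mul_re, ofReal_re, I_re, mul_zero, ofReal_im, I_im, mul_one, sub_self,
        add_zero]
      norm_num
    rw [this]
  have h2 := gamma_lower t
  have hE : 0 < Real.sqrt Real.pi * Real.exp (-(Real.pi * |t| / 2)) := by positivity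
  have hG : 0 < ‖Gamma (1 / 2 + t * I)‖ := lt_of_lt_of_le hE h2
  have h3 : ‖(Real.pi * ω : ℂ) ^ (1 / 2 + t * I : ℂ)‖ * ‖Gamma (1 / 2 + t * I)‖⁻¹ ≤ Real.exp 1 := by
    rw [← div_eq_mul_inv, div_le_iff₀ hG]
    refine hω2.trans ?_
    gcongr
  have hI : 0 ≤ ∫ x in Set.Ioi (0 : ℝ), x ^ (-(1 / 2) : ℝ) * ‖Th χ ι (ω * x)‖ :=
    setIntegral_nonneg measurableSet_Ioi fun x hx => by
      have hx0 : (0 : ℝ) < x := hx
      positivity
  exact mul_le_mul h3 h1 (norm_nonneg _) (Real.exp_pos _).le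

end Run7.h343.GI
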