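import Pool.Agent.Run7.h343.GI.LinA
import Pool.Agent.Y924.R7.Lin

/-!
Two-dimensional sums of a locally linear phase over the Gaussian integers with Gaussian weights.
-/

set_option autoImplicit false

namespace Run7.h343.GI

open Complex Finset
open Pool.Agent.Y924.R7 Pool.Agent.Y924.R7.Lin Pool.Agent.Y779.R3

theorem fib_sum2 {ι : Type} [DecidableEq ι] (S : Finset ι) (f1 f2 : ι → ℕ) (U : Finset ℕ) (M : ℕ)
    (g1 g2 : ℕ → ℝ)
    (hg1 : ∀ b ∈ U, 0 ≤ g1 b) (hg2 : ∀ b ∈ U, 0 ≤ g2 b)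
    (h1 : ∀ i ∈ S, f1 i ∈ U) (h2 : ∀ i ∈ S, f2 i ∈ U)
    (hM : ∀ i ∈ S, (S.filter (fun k => f1 k = f1 i ∧ f2 k = f2 i)).card ≤ M) :
    ∑ i ∈ S, g1 (f1 i) * g2 (f2 i) ≤ M * ((∑ b ∈ U, g1 b) * (∑ b ∈ U, g2 b)) := by
  classical
  have hmaps : ∀ i ∈ S, (f1 i, f2 i) ∈ U ×ˢ U := by
    intro i hi
    rw [mem_product]
    exact ⟨h1 i hi, h2 i hi⟩
  rw [← Finset.sum_fiberwise_of_maps_to (g := fun i => (f1 i, f2 i)) hmaps,
    Finset.sum_mul_sum, ← Finset.sum_product', Finset.mul_sum]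
  apply Finset.sum_le_sum
  intro b hb
  rw [mem_product] at hb
  have e : ∑ i ∈ S with (f1 i, f2 i) = b, g1 (f1 i) * g2 (f2 i) =
      ((S.filter (fun i => (f1 i, f2 i) = b)).card : ℝ) * (g1 b.1 * g2 b.2) := by
    rw [← nsmul_eq_mul, ← Finset.sum_const]
    apply Finset.sum_congr rfl
    intro i hi
    rw [mem_filter] at hi
    rw [← hi.2]
  rw [e]
  apply mul_le_mul_of_nonneg_right _ (mul_nonneg (hg1 _ hb.1) (hg2 _ hb.2))
  rcases Finset.eq_empty_or_nonempty (S.filter (fun i => (f1 i, f2 i) = b)) with h | ⟨i, hi⟩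
  · rw [h]; simp
  · rw [mem_filter] at hi
    have h3 := hM i hi.1
    have e2 : S.filter (fun i => (f1 i, f2 i) = b) =
        S.filter (fun k => f1 k = f1 i ∧ f2 k = f2 i) := by
      apply Finset.filter_congr
      intro k _
      rw [← hi.2, Prod.mk.injEq]
    rw [e2]
    exact_mod_cast h3

theorem card_classN {q N : ℕ} (hq : 0 < q) (u0 : ℕ) :
    ((range (q * N)).filter (fun u : ℕ => (q:ℤ) ∣ (u : ℤ) - u0)).card ≤ N := by
  classical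
  refine le_trans (Finset.card_le_card_of_injOn (fun u : ℕ => (u : ℤ)) ?_ ?_) (card_class (N := N) hq u0)
  · intro u hu
    rw [coe_filter, Set.mem_ofPred_eq, mem_range] at hu
    rw [coe_filter, Set.mem_ofPred_eq, mem_Ico]
    refine ⟨⟨Nat.cast_nonneg _, ?_⟩, hu.2⟩
    exact Nat.cast_lt.2 hu.1
  · intro u _ v _ huv
    simpa using huv

variable {p r : ℕ} {ι ι' : ℤ} {g g' : GaussianInt} {R1 R2 : GaussianInt → ℤ}

lemma Fu.zero (h : Fu p r ι g R1) : R1 0 = 0 := by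
  have := h.add 0 0
  simpa using this

lemma Fu.nat (h : Fu p r ι g R1) (n : ℕ) : R1 (n : GaussianInt) = n * R1 1 := by
  induction n with
  | zero => simpa using h.zero
  | succ n ih =>
    push_cast
    rw [h.add, ih]; ring

theorem lin2 [NeZero (p ^ r)] {τ : ℕ} (hτ : τ + 2 ≤ r)
    (F1 : Fu p r ι g R1) (F2 : Fu p r ι' g' R2) (l0 h0 T : ℤ)
    (hT1 : (p : ℤ) ^ τ ∣ T) (hT2 : ¬ (p : ℤ) ^ (τ + 1) ∣ T)
    (ph ψ1 ψ2 : ℤ → ℤ → ZMod (p ^ r))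
    (hunit : ∀ l h : ℤ, (p : ℤ) ∣ l - l0 → (p : ℤ) ∣ h - h0 → IsUnit (ψ1 l h) ∧ IsUnit (ψ2 l h))
    (hloc : ∀ c : ℕ, 1 ≤ c → (T : ZMod (p ^ r)) * ((p : ZMod (p ^ r)) ^ c) ^ 2 = 0 →
    ∀ l h : ℤ, (p : ℤ) ∣ l - l0 → (p : ℤ) ∣ h - h0 → ∀ x y : ℤ,
      ph (l + (p : ℤ) ^ c * x) (h + (p : ℤ) ^ c * y) =
        ph l h + (T : ZMod (p ^ r)) * (p : ZMod (p ^ r)) ^ c * (ψ1 l h * x + ψ2 l h * y))
    (hinj : ∀ (s : ℕ) (l h l' h' : ℤ), (p : ℤ) ∣ l - l0 → (p : ℤ) ∣ h - h0 → (p : ℤ) ∣ l' - l0 →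
    (p : ℤ) ∣ h' - h0 → (p : ZMod (p ^ r)) ^ s * ψ1 l h = (p : ZMod (p ^ r)) ^ s * ψ1 l' h' →
    (p : ZMod (p ^ r)) ^ s * ψ2 l h = (p : ZMod (p ^ r)) ^ s * ψ2 l' h' →
    (p : ZMod (p ^ r)) ^ s * ((l - l' : ℤ) : ZMod (p ^ r)) = 0 ∧
      (p : ZMod (p ^ r)) ^ s * ((h - h' : ℤ) : ZMod (p ^ r)) = 0)
    {X1 X2 : ℝ} (hX1 : 0 < X1) (hX2 : 0 < X2) (z1 z2 : ℂ) :
    ‖∑' l, (if (p : ℤ) ∣ R1 l - l0 then (gw X1 z1 l : ℂ) else 0) *
      ∑' h, (if (p : ℤ) ∣ R2 h - h0 then (gw X2 z2 h : ℂ) else 0) *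
        (ZMod.stdAddChar (ph (R1 l) (R2 h)) : ℂ)‖ ≤
      (p : ℝ) ^ 2 * (CG ^ 2 * (p : ℝ) ^ (r - τ)) := by
  classical
  have hp : p.Prime := F1.fr.pr
  obtain ⟨T', hT'⟩ := hT1
  have hT'p : ¬ (p : ℤ) ∣ T' := by
    rintro ⟨k, rfl⟩
    apply hT2
    refine ⟨k, ?_⟩
    rw [hT', pow_succ]; ring
  have uT' : IsUnit ((T' : ℤ) : ZMod (p ^ r)) := unit_int hp hT'p
  obtain ⟨ρ, hρ⟩ : ∃ ρ, ρ = r - τ := ⟨_, rfl⟩
  obtain ⟨c, hc⟩ : ∃ c, c = (ρ + 1) / 2 := ⟨_, rfl⟩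
  obtain ⟨j, hj⟩ : ∃ j, j = ρ / 2 := ⟨_, rfl⟩
  have hcj : c + j = ρ := by omega
  have hj1 : 1 ≤ j := by omega
  have hc1 : 1 ≤ c := by omega
  have hjc : j ≤ c := by omega
  have hcj1 : c ≤ j + 1 := by omega
  have hjr : j ≤ r := by omega
  have hcr : c ≤ r := by omega
  have hcjr : c + j ≤ r := by omega
  have hrj : r - j = τ + c := by omega
  have hp0 : 0 < p := hp.pos
  have hTR : ((T : ℤ) : ZMod (p ^ r)) = (p : ZMod (p ^ r)) ^ τ * T' := by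
    rw [hT']; push_cast; ring
  have hTc : ((T : ℤ) : ZMod (p ^ r)) * ((p : ZMod (p ^ r)) ^ c) ^ 2 = 0 := by
    have h1 : (p : ZMod (p ^ r)) ^ (τ + c + c) = 0 := pi_zero (by omega)
    rw [hTR]
    have h2 : (p : ZMod (p ^ r)) ^ τ * T' * ((p : ZMod (p ^ r)) ^ c) ^ 2 =
        (p : ZMod (p ^ r)) ^ (τ + c + c) * T' := by rw [pow_add, pow_add]; ring
    rw [h2, h1, zero_mul]
  have hTP : ∀ y : ZMod (p ^ r), ((T : ℤ) : ZMod (p ^ r)) * (p : ZMod (p ^ r)) ^ c * y =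
      (p : ZMod (p ^ r)) ^ (r - j) * (T' * y) := by
    intro y
    rw [hTR, hrj, pow_add]; ring
  obtain ⟨q, hq⟩ : ∃ q : ℕ, q = p ^ j := ⟨_, rfl⟩
  have hq0 : 0 < q := by rw [hq]; positivity
  obtain ⟨U, hU⟩ : ∃ U, U = (range q).filter (fun k : ℕ => ¬ (p : ℤ) ∣ k) := ⟨_, rfl⟩
  -- the residues
  obtain ⟨bb, hbb⟩ : ∃ bb : (ℤ → ℤ → ZMod (p ^ r)) → ℕ × ℕ → ℕ,
    bb = fun ψ i => (((T' : ℤ) : ZMod (p ^ r)) * ψ (R1 i.1) (R2 i.2)).val % q := ⟨_, rfl⟩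
  have hbmem : ∀ ψ : ℤ → ℤ → ZMod (p ^ r), ∀ i : ℕ × ℕ, IsUnit (ψ (R1 i.1) (R2 i.2)) →
      bb ψ i ∈ U := by
    intro ψ i hu
    rw [hU, mem_filter, mem_range, hbb]
    refine ⟨Nat.mod_lt _ hq0, ?_⟩
    intro hcon
    have h1 : p ∣ (((T' : ℤ) : ZMod (p ^ r)) * ψ (R1 i.1) (R2 i.2)).val % q := by
      exact_mod_cast hcon
    have hpq : p ∣ q := by rw [hq]; exact dvd_pow_self p (by omega)
    have h3 : p ∣ (((T' : ℤ) : ZMod (p ^ r)) * ψ (R1 i.1) (R2 i.2)).val :=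
      (Nat.dvd_mod_iff hpq).1 h1
    obtain ⟨m, hm⟩ := h3
    have h4 : ((T' : ℤ) : ZMod (p ^ r)) * ψ (R1 i.1) (R2 i.2) = p * (m : ZMod (p ^ r)) := by
      rw [← Nat.cast_mul, ← hm, ZMod.natCast_zmod_val]
    have h5 := uT'.mul hu
    rw [h4] at h5
    exact not_unit_pi hp (by omega) _ h5
  -- the character at a multiple
  have hzz : ∀ ψ : ℤ → ℤ → ZMod (p ^ r), ∀ i : ℕ × ℕ, ∀ n : ℤ,
      (ZMod.stdAddChar (((T : ℤ) : ZMod (p ^ r)) * (p : ZMod (p ^ r)) ^ c *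
        (ψ (R1 i.1) (R2 i.2) * (n : ZMod (p ^ r)))) : ℂ) =
      cexp (2 * Real.pi * I * (bb ψ i * n) / (p : ℂ) ^ j) := by
    intro ψ i n
    have e0 : ((T : ℤ) : ZMod (p ^ r)) * (p : ZMod (p ^ r)) ^ c *
        (ψ (R1 i.1) (R2 i.2) * (n : ZMod (p ^ r))) = ((p : ZMod (p ^ r)) ^ (r - j) *
          (T' * ψ (R1 i.1) (R2 i.2))) * n := by
      rw [← hTP]; ring
    rw [e0, val_mod hjr, ← hq]
    have e : (p : ZMod (p ^ r)) ^ (r - j) *
        (((((T' : ℤ) : ZMod (p ^ r)) * ψ (R1 i.1) (R2 i.2)).val % q : ℕ) : ZMod (p ^ r)) * n =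
        (((p : ℤ) ^ (r - j) * ((bb ψ i : ℕ) : ℤ) * n : ℤ) : ZMod (p ^ r)) := by
      have e3 : (((T' : ℤ) : ZMod (p ^ r)) * ψ (R1 i.1) (R2 i.2)).val % q = bb ψ i := by rw [hbb]
      rw [e3]
      push_cast
      ring
    rw [e, ZMod.stdAddChar_coe]
    congr 1
    have hpc : (p : ℂ) ≠ 0 := by exact_mod_cast hp.ne_zero
    have e2 : (p:ℂ) ^ r = (p:ℂ) ^ (r - j) * (p:ℂ) ^ j := by
      rw [← pow_add]; congr 1; omega
    push_cast
    rw [e2]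
    field_simp
  obtain ⟨A1, B1, hA1, hA1', hA1''⟩ := F1.loc c j hcjr hj1
  obtain ⟨A2, B2, hA2, hA2', hA2''⟩ := F2.loc c j hcjr hj1
  have hpc : (p : ℤ) ∣ (p : ℤ) ^ c := dvd_pow_self _ (by omega)
  have hR1 : ∀ (a : ℕ) (x : GaussianInt), R1 ((a : GaussianInt) + g ^ c * x) =
      R1 a + (p : ℤ) ^ c * (A1 * x.re + B1 * x.im) := by
    intro a x
    rw [F1.add, hA1]
  have hR2 : ∀ (b : ℕ) (y : GaussianInt), R2 ((b : GaussianInt) + g' ^ c * y) =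
      R2 b + (p : ℤ) ^ c * (A2 * y.re + B2 * y.im) := by
    intro b y
    rw [F2.add, hA2]
  have hdv1 : ∀ (a : ℕ) (x : GaussianInt), ((p : ℤ) ∣ R1 ((a : GaussianInt) + g ^ c * x) - l0 ↔
      (p : ℤ) ∣ R1 a - l0) := by
    intro a x
    rw [hR1]
    have e : R1 a + (p : ℤ) ^ c * (A1 * x.re + B1 * x.im) - l0 =
        (R1 a - l0) + (p : ℤ) ^ c * (A1 * x.re + B1 * x.im) := by ring
    rw [e]
    exact dvd_add_left (Dvd.dvd.mul_right hpc _)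
  have hdv2 : ∀ (b : ℕ) (y : GaussianInt), ((p : ℤ) ∣ R2 ((b : GaussianInt) + g' ^ c * y) - h0 ↔
      (p : ℤ) ∣ R2 b - h0) := by
    intro a x
    rw [hR2]
    have e : R2 a + (p : ℤ) ^ c * (A2 * x.re + B2 * x.im) - h0 =
        (R2 a - h0) + (p : ℤ) ^ c * (A2 * x.re + B2 * x.im) := by ring
    rw [e]
    exact dvd_add_left (Dvd.dvd.mul_right hpc _)
  obtain ⟨w1, hw1⟩ : ∃ w1 : GaussianInt → ℂ, w1 = fun l =>
    (if (p : ℤ) ∣ R1 l - l0 then (gw X1 z1 l : ℂ) else 0) := ⟨_, rfl⟩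
  obtain ⟨w2, hw2⟩ : ∃ w2 : GaussianInt → ℂ, w2 = fun h =>
    (if (p : ℤ) ∣ R2 h - h0 then (gw X2 z2 h : ℂ) else 0) := ⟨_, rfl⟩
  have hw1n : ∀ l, ‖w1 l‖ ≤ gw X1 z1 l := by
    intro l
    rw [hw1]
    simp only
    split_ifs
    · rw [Complex.norm_real, Real.norm_of_nonneg (gw_nonneg _ _ _)]
    · rw [norm_zero]; exact gw_nonneg _ _ _
  have hw2n : ∀ l, ‖w2 l‖ ≤ gw X2 z2 l := by
    intro l
    rw [hw2]
    simp only
    split_ifs
    · rw [Complex.norm_real, Real.norm_of_nonneg (gw_nonneg _ _ _)]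
    · rw [norm_zero]; exact gw_nonneg _ _ _
  have hst : ∀ x : ZMod (p ^ r), ‖(ZMod.stdAddChar x : ℂ)‖ = 1 := fun x => AddChar.norm_apply _ _
  have hs2 : ∀ l, Summable fun h => w2 h * (ZMod.stdAddChar (ph l (R2 h)) : ℂ) := by
    intro l
    refine Summable.of_norm_bounded (gw_summable hX2 z2) fun h => ?_
    rw [norm_mul, hst, mul_one]
    exact hw2n h
  have hs1 : Summable fun l => w1 l * ∑' h, w2 h * (ZMod.stdAddChar (ph (R1 l) (R2 h)) : ℂ) := by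
    refine Summable.of_norm_bounded ((gw_summable hX1 z1).mul_right (GG X2)) fun l => ?_
    rw [norm_mul]
    refine mul_le_mul (hw1n l) ?_ (norm_nonneg _) (gw_nonneg _ _ _)
    refine le_trans (tsum_of_norm_bounded (gw_summable hX2 z2).hasSum fun h => ?_) (gw_sum_le hX2 z2)
    rw [norm_mul, hst, mul_one]
    exact hw2n h
  obtain ⟨S, hS⟩ : ∃ S, S = ((range (p ^ c)).filter (fun a : ℕ => (p : ℤ) ∣ R1 a - l0)) ×ˢ
    ((range (p ^ c)).filter (fun b : ℕ => (p : ℤ) ∣ R2 b - h0)) := ⟨_, rfl⟩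
  -- the inner sum
  have hinner : ∀ (a : ℕ) (x : GaussianInt), (p : ℤ) ∣ R1 a - l0 →
      ∑' h, w2 h * (ZMod.stdAddChar (ph (R1 ((a : GaussianInt) + g ^ c * x)) (R2 h)) : ℂ) =
      ∑ b ∈ (range (p ^ c)).filter (fun b : ℕ => (p : ℤ) ∣ R2 b - h0),
        (ZMod.stdAddChar (ph (R1 a) (R2 b)) : ℂ) *
        cexp (2 * Real.pi * I * (bb ψ1 (a, b) * ((A1 * x.re + B1 * x.im : ℤ))) / (p : ℂ) ^ j) *
        ∑' y : GaussianInt, (gw X2 z2 ((b : GaussianInt) + g' ^ c * y) : ℂ) *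
          cexp (2 * Real.pi * I * (bb ψ2 (a, b) * ((A2 * y.re + B2 * y.im : ℤ))) / (p : ℂ) ^ j) := by
    intro a x ha
    rw [F2.fr.tsum_dec hcr (hs2 _), sum_filter]
    refine sum_congr rfl fun b _ => ?_
    split_ifs with hb
    · rw [← tsum_mul_left]
      refine tsum_congr fun y => ?_
      rw [hw2]
      simp only
      rw [if_pos ((hdv2 b y).2 hb), hR1, hR2, hloc c hc1 hTc _ _ ha hb, mul_add,
        AddChar.map_add_eq_mul, AddChar.map_add_eq_mul, hzz ψ1 (a, b), hzz ψ2 (a, b)]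
      ring
    · have : ∀ y, w2 ((b : GaussianInt) + g' ^ c * y) = 0 := by
        intro y
        rw [hw2]
        simp only
        rw [if_neg (fun h => hb ((hdv2 b y).1 h))]
      simp_rw [this, zero_mul]
      exact tsum_zero
  have hdec : ∑' l, w1 l * ∑' h, w2 h * (ZMod.stdAddChar (ph (R1 l) (R2 h)) : ℂ) =
      ∑ i ∈ S, (ZMod.stdAddChar (ph (R1 i.1) (R2 i.2)) : ℂ) *
        ((∑' x : GaussianInt, (gw X1 z1 ((i.1 : GaussianInt) + g ^ c * x) : ℂ) *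
          cexp (2 * Real.pi * I * (bb ψ1 i * ((A1 * x.re + B1 * x.im : ℤ))) / (p : ℂ) ^ j)) *
        (∑' y : GaussianInt, (gw X2 z2 ((i.2 : GaussianInt) + g' ^ c * y) : ℂ) *
          cexp (2 * Real.pi * I * (bb ψ2 i * ((A2 * y.re + B2 * y.im : ℤ))) / (p : ℂ) ^ j))) := by
    rw [F1.fr.tsum_dec hcr hs1, hS, sum_product, sum_filter]
    refine sum_congr rfl fun a _ => ?_
    split_ifs with ha
    · have hsx : ∀ b : ℕ, Summable fun x : GaussianInt =>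
          (gw X1 z1 ((a : GaussianInt) + g ^ c * x) : ℂ) *
          cexp (2 * Real.pi * I * (bb ψ1 (a, b) * ((A1 * x.re + B1 * x.im : ℤ))) / (p : ℂ) ^ j) := by
        intro b
        refine Summable.of_norm_bounded (g := fun x => gw X1 z1 ((a : GaussianInt) + g ^ c * x)) ?_
          fun x => ?_
        · refine (gw_summable hX1 z1).comp_injective (i := fun x => (a : GaussianInt) + g ^ c * x) ?_
          intro x y hxy
          exact mul_left_cancel₀ (pow_ne_zero c F1.fr.ne0) (add_left_cancel hxy)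
        · rw [norm_mul, Complex.norm_real, Real.norm_of_nonneg (gw_nonneg _ _ _), ← hzz ψ1 (a, b), hst,
            mul_one]
      have e1 : ∀ x : GaussianInt, w1 ((a : GaussianInt) + g ^ c * x) *
          ∑' h, w2 h * (ZMod.stdAddChar (ph (R1 ((a : GaussianInt) + g ^ c * x)) (R2 h)) : ℂ) =
          ∑ b ∈ (range (p ^ c)).filter (fun b : ℕ => (p : ℤ) ∣ R2 b - h0),
          ((ZMod.stdAddChar (ph (R1 a) (R2 b)) : ℂ) *
          (∑' y : GaussianInt, (gw X2 z2 ((b : GaussianInt) + g' ^ c * y) : ℂ) *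
          cexp (2 * Real.pi * I * (bb ψ2 (a, b) * ((A2 * y.re + B2 * y.im : ℤ))) / (p : ℂ) ^ j))) *
          ((gw X1 z1 ((a : GaussianInt) + g ^ c * x) : ℂ) *
          cexp (2 * Real.pi * I * (bb ψ1 (a, b) * ((A1 * x.re + B1 * x.im : ℤ))) / (p : ℂ) ^ j)) := by
        intro x
        rw [hinner a x ha, mul_sum]
        refine sum_congr rfl fun b _ => ?_
        rw [hw1]
        simp only
        rw [if_pos ((hdv1 a x).2 ha)]
        ring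
      simp_rw [e1]
      rw [Summable.tsum_finsetSum (fun b _ => (hsx b).mul_left _)]
      refine sum_congr rfl fun b _ => ?_
      rw [tsum_mul_left]
      ring
    · have : ∀ x, w1 ((a : GaussianInt) + g ^ c * x) = 0 := by
        intro y
        rw [hw1]
        simp only
        rw [if_neg (fun h => ha ((hdv1 a y).1 h))]
      simp_rw [this, zero_mul]
      exact tsum_zero
  have hLHS : ∑' l, (if (p : ℤ) ∣ R1 l - l0 then (gw X1 z1 l : ℂ) else 0) *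
      ∑' h, (if (p : ℤ) ∣ R2 h - h0 then (gw X2 z2 h : ℂ) else 0) *
        (ZMod.stdAddChar (ph (R1 l) (R2 h)) : ℂ) =
      ∑' l, w1 l * ∑' h, w2 h * (ZMod.stdAddChar (ph (R1 l) (R2 h)) : ℂ) := by
    rw [hw1, hw2]
  rw [hLHS, hdec]
  refine (norm_sum_le _ _).trans ?_
  have hQ1 : ∀ i ∈ S, ‖∑' x : GaussianInt, (gw X1 z1 ((i.1 : GaussianInt) + g ^ c * x) : ℂ) *
          cexp (2 * Real.pi * I * (bb ψ1 i * ((A1 * x.re + B1 * x.im : ℤ))) / (p : ℂ) ^ j)‖ ≤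
      Qs p c j X1 A1 B1 (bb ψ1 i) := by
    intro i _
    refine le_trans (le_of_eq ?_) (char_sum F1.fr c j hX1 z1 i.1 A1 B1 (bb ψ1 i))
    congr 1
    refine tsum_congr fun x => ?_
    push_cast
    rfl
  have hQ2 : ∀ i ∈ S, ‖∑' x : GaussianInt, (gw X2 z2 ((i.2 : GaussianInt) + g' ^ c * x) : ℂ) *
          cexp (2 * Real.pi * I * (bb ψ2 i * ((A2 * x.re + B2 * x.im : ℤ))) / (p : ℂ) ^ j)‖ ≤
      Qs p c j X2 A2 B2 (bb ψ2 i) := by
    intro i _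
    refine le_trans (le_of_eq ?_) (char_sum F2.fr c j hX2 z2 i.2 A2 B2 (bb ψ2 i))
    congr 1
    refine tsum_congr fun x => ?_
    push_cast
    rfl
  have hstep : ∑ i ∈ S, ‖(ZMod.stdAddChar (ph (R1 i.1) (R2 i.2)) : ℂ) *
        ((∑' x : GaussianInt, (gw X1 z1 ((i.1 : GaussianInt) + g ^ c * x) : ℂ) *
          cexp (2 * Real.pi * I * (bb ψ1 i * ((A1 * x.re + B1 * x.im : ℤ))) / (p : ℂ) ^ j)) *
        (∑' y : GaussianInt, (gw X2 z2 ((i.2 : GaussianInt) + g' ^ c * y) : ℂ) *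
          cexp (2 * Real.pi * I * (bb ψ2 i * ((A2 * y.re + B2 * y.im : ℤ))) / (p : ℂ) ^ j)))‖ ≤
      ∑ i ∈ S, Qs p c j X1 A1 B1 (bb ψ1 i) * Qs p c j X2 A2 B2 (bb ψ2 i) := by
    refine sum_le_sum fun i hi => ?_
    rw [norm_mul, norm_mul, hst, one_mul]
    exact mul_le_mul (hQ1 i hi) (hQ2 i hi) (norm_nonneg _) (Qs_nonneg _ _ _ hX1 _ _ _)
  refine hstep.trans ?_
  obtain ⟨N, hN⟩ : ∃ N : ℕ, N = p ^ (c - j) := ⟨_, rfl⟩
  have hPN : p ^ c = q * N := by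
    rw [hq, hN, ← pow_add]
    congr 1
    omega
  have hmemS : ∀ i ∈ S, (p : ℤ) ∣ R1 i.1 - l0 ∧ (p : ℤ) ∣ R2 i.2 - h0 := by
    intro i hi
    rw [hS, mem_product, mem_filter, mem_filter] at hi
    exact ⟨hi.1.2, hi.2.2⟩
  have hfib := fib_sum2 S (bb ψ1) (bb ψ2) U (N * N) (fun k => Qs p c j X1 A1 B1 k)
    (fun k => Qs p c j X2 A2 B2 k) (fun b _ => Qs_nonneg _ _ _ hX1 _ _ _)
    (fun b _ => Qs_nonneg _ _ _ hX2 _ _ _)
    (fun i hi => hbmem ψ1 i (hunit _ _ (hmemS i hi).1 (hmemS i hi).2).1)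
    (fun i hi => hbmem ψ2 i (hunit _ _ (hmemS i hi).1 (hmemS i hi).2).2) (by
      intro i hi
      have hi2 := hmemS i hi
      have hcan : ∀ ψ : ℤ → ℤ → ZMod (p ^ r), ∀ k : ℕ × ℕ, bb ψ k = bb ψ i →
          (p : ZMod (p ^ r)) ^ (r - j) * ψ (R1 k.1) (R2 k.2) =
            (p : ZMod (p ^ r)) ^ (r - j) * ψ (R1 i.1) (R2 i.2) := by
        intro ψ k hk
        have h1 := val_mod hjr (((T' : ℤ) : ZMod (p ^ r)) * ψ (R1 k.1) (R2 k.2))
        have h2 := val_mod hjr (((T' : ℤ) : ZMod (p ^ r)) * ψ (R1 i.1) (R2 i.2))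
        rw [hbb] at hk
        simp only at hk
        rw [← hq, hk] at h1
        rw [← hq, ← h1] at h2
        apply uT'.mul_left_cancel
        linear_combination -h2
      have hsub : S.filter (fun k => bb ψ1 k = bb ψ1 i ∧ bb ψ2 k = bb ψ2 i) ⊆
          ((range (q * N)).filter (fun u : ℕ => (q:ℤ) ∣ (u : ℤ) - i.1)) ×ˢ
          ((range (q * N)).filter (fun u : ℕ => (q:ℤ) ∣ (u : ℤ) - i.2)) := by
        intro k hk
        rw [mem_filter] at hk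
        obtain ⟨hkS, hk5, hk6⟩ := hk
        have hk2 := hmemS k hkS
        obtain ⟨h7, h8⟩ := hinj (r - j) _ _ _ _ hk2.1 hk2.2 hi2.1 hi2.2
          (hcan ψ1 k hk5) (hcan ψ2 k hk6)
        have hdv : ∀ x : ℤ, (p : ZMod (p ^ r)) ^ (r - j) * ((x : ℤ) : ZMod (p ^ r)) = 0 →
            (q : ℤ) ∣ x := by
          intro x hx
          have e : (p : ZMod (p ^ r)) ^ (r - j) * ((x : ℤ) : ZMod (p ^ r)) =
              (((p : ℤ) ^ (r - j) * x : ℤ) : ZMod (p ^ r)) := by push_cast; ring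
          rw [e, ZMod.intCast_zmod_eq_zero_iff_dvd] at hx
          have e2 : ((p ^ r : ℕ) : ℤ) = (p : ℤ) ^ (r - j) * q := by
            rw [hq]; push_cast; rw [← pow_add]; congr 1; omega
          rw [e2] at hx
          exact Int.dvd_of_mul_dvd_mul_left (by positivity) hx
        have hred : ∀ {ι0 : ℤ} {g0 : GaussianInt} {R0 : GaussianInt → ℤ}, Fu p r ι0 g0 R0 →
            ∀ a b : ℕ, (q : ℤ) ∣ R0 a - R0 b → (q : ℤ) ∣ (a : ℤ) - b := by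
          intro ι0 g0 R0 hF0 a b hab
          rw [hF0.nat, hF0.nat, ← sub_mul] at hab
          have hco : IsCoprime (q : ℤ) (R0 1) := by
            rw [hq]; push_cast
            exact ((hF0.fr.pZ.coprime_iff_not_dvd).2 hF0.one).pow_left
          exact hco.dvd_of_dvd_mul_right hab
        rw [hS, mem_product, mem_filter, mem_filter, hPN] at hkS
        rw [mem_product, mem_filter, mem_filter]
        exact ⟨⟨hkS.1.1, hred F1 _ _ (hdv _ h7)⟩, ⟨hkS.2.1, hred F2 _ _ (hdv _ h8)⟩⟩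
      refine (Finset.card_le_card hsub).trans ?_
      rw [Finset.card_product]
      exact Nat.mul_le_mul (card_classN hq0 _) (card_classN hq0 _))
  refine hfib.trans ?_
  -- numbers
  have hp1 : (1:ℝ) ≤ p := by exact_mod_cast hp0
  have hjν1 : j ≤ r := hjr
  have hs1 : ∑ k ∈ U, Qs p c j X1 A1 B1 k ≤ CG * q := by
    rw [hU, hq]
    push_cast
    exact Qs_sum F1.fr hjr hX1 hA1' hA1'' hj1
  have hs2 : ∑ k ∈ U, Qs p c j X2 A2 B2 k ≤ CG * q := by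
    rw [hU, hq]
    push_cast
    exact Qs_sum F2.fr hjr hX2 hA2' hA2'' hj1
  have hCG : 0 ≤ CG := by linarith [CG_one]
  calc ((N * N : ℕ) : ℝ) * ((∑ k ∈ U, Qs p c j X1 A1 B1 k) * ∑ k ∈ U, Qs p c j X2 A2 B2 k)
      ≤ ((N * N : ℕ) : ℝ) * ((CG * q) * (CG * q)) := by
        apply mul_le_mul_of_nonneg_left _ (Nat.cast_nonneg _)
        exact mul_le_mul hs1 hs2 (sum_nonneg fun k _ => Qs_nonneg _ _ _ hX2 _ _ _) (by positivity)
    _ = (p:ℝ) ^ (c + c) * CG ^ 2 := by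
        have e : (p:ℝ) ^ c = q * N := by
          rw [hq, hN]; push_cast; rw [← pow_add]; congr 1; omega
        rw [pow_add, e]
        push_cast
        ring
    _ ≤ (p : ℝ) ^ 2 * (p : ℝ) ^ (r - τ) * CG ^ 2 := by
        apply mul_le_mul_of_nonneg_right _ (sq_nonneg _)
        rw [← pow_add]
        exact pow_le_pow_right₀ hp1 (by omega)
    _ = (p : ℝ) ^ 2 * (CG ^ 2 * (p : ℝ) ^ (r - τ)) := by ring

end Run7.h343.GI
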