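import Pool.Agent.Run7.h343.GI.Func

/-!
Sums of Gaussian weights against additive characters, over the multiples of a power of a prime.
-/

set_option autoImplicit false

namespace Run7.h343.GI

open Complex Finset

variable {p r ν : ℕ} {ι : ℤ} {g : GaussianInt} {R : GaussianInt → ℤ}

lemma Fr.pow_ne (h : Fr p ν ι g) (c : ℕ) : ((g ^ c : GaussianInt) : ℂ) ≠ 0 := by
  rw [Ne, GaussianInt.toComplex_eq_zero]
  exact pow_ne_zero c h.ne0

lemma gw_shift (h : Fr p ν ι g) (c : ℕ) (X : ℝ) (z : ℂ) (a x : GaussianInt) :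
    gw X z (a + g ^ c * x) = gw (X / p ^ c) ((z - a) / (g ^ c : GaussianInt)) x := by
  unfold gw
  congr 1
  have h0 := h.pow_ne c
  have e1 : (((a + g ^ c * x : GaussianInt)) : ℂ) - z =
      ((g ^ c : GaussianInt) : ℂ) * ((x : ℂ) - (z - a) / (g ^ c : GaussianInt)) := by
    rw [GaussianInt.toComplex_add, GaussianInt.toComplex_mul]
    field_simp
    ring
  rw [e1, normSq_mul, h.normSq_pow]
  have hp : (0 : ℝ) < (p : ℝ) ^ c := by
    have := h.pr.pos
    positivity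
  rw [div_div_eq_mul_div]
  congr 2
  ring

/-- the majorant of a sum against a character of conductor `p ^ c'` -/
noncomputable def Qs (p c c' : ℕ) (X : ℝ) (A B κ : ℤ) : ℝ :=
  (X / p ^ c) * ∑' y, gw (p ^ c / X) ((κ * (A + B * I)) / (p : ℂ) ^ c') y

lemma Qs_nonneg (p c c' : ℕ) {X : ℝ} (hX : 0 < X) (A B κ : ℤ) : 0 ≤ Qs p c c' X A B κ := by
  unfold Qs
  exact mul_nonneg (by positivity) (tsum_nonneg fun y => gw_nonneg _ _ _)

lemma eta_eq (p c' : ℕ) (A B κ : ℤ) : ((κ * (A + B * I)) / (p : ℂ) ^ c' : ℂ) =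
    ((κ * A / (p : ℝ) ^ c' : ℝ) : ℂ) + ((κ * B / (p : ℝ) ^ c' : ℝ) : ℂ) * I := by
  push_cast
  ring

lemma eta_re (p c' : ℕ) (A B κ : ℤ) : ((κ * (A + B * I)) / (p : ℂ) ^ c' : ℂ).re =
    κ * A / (p : ℝ) ^ c' := by
  rw [eta_eq]; simp only [add_re, ofReal_re, mul_re, I_re, mul_zero, ofReal_im, I_im, mul_one,
    sub_self, add_zero, zero_mul, sub_zero]

lemma eta_im (p c' : ℕ) (A B κ : ℤ) : ((κ * (A + B * I)) / (p : ℂ) ^ c' : ℂ).im =
    κ * B / (p : ℝ) ^ c' := by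
  rw [eta_eq]; simp only [add_im, ofReal_im, mul_im, I_im, ofReal_re, I_re, mul_one, mul_zero,
    add_zero, zero_add]

theorem char_sum (h : Fr p ν ι g) (c c' : ℕ) {X : ℝ} (hX : 0 < X) (z : ℂ) (a : GaussianInt)
    (A B κ : ℤ) :
    ‖∑' x, (gw X z (a + g ^ c * x) : ℂ) *
      cexp (2 * Real.pi * I * (κ * (A * x.re + B * x.im)) / (p : ℂ) ^ c')‖ ≤ Qs p c c' X A B κ := by
  have hp : (0 : ℝ) < (p : ℝ) ^ c := by
    have := h.pr.pos
    positivity
  have hX' : 0 < X / (p : ℝ) ^ c := by positivity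
  have h1 := gw_fourier hX' ((z - a) / (g ^ c : GaussianInt)) ((κ * (A + B * I)) / (p : ℂ) ^ c')
  refine le_trans (le_of_eq ?_) (h1.trans (le_of_eq ?_))
  · congr 1
    refine tsum_congr fun x => ?_
    rw [gw_shift h, eta_re, eta_im]
    congr 2
    push_cast
    ring
  · unfold Qs
    rw [one_div_div]

lemma Qs_periodic (p c c' : ℕ) (hp : 0 < p) (X : ℝ) (A B κ j : ℤ) :
    Qs p c c' X A B (κ + (p : ℤ) ^ c' * j) = Qs p c c' X A B κ := by
  unfold Qs
  congr 1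
  rw [← (Equiv.addRight (⟨j * A, j * B⟩ : GaussianInt)).tsum_eq]
  refine tsum_congr fun y => ?_
  unfold gw
  congr 4
  have hp0 : (p : ℂ) ^ c' ≠ 0 := by
    have : (p : ℂ) ≠ 0 := by exact_mod_cast hp.ne'
    exact pow_ne_zero _ this
  rw [Equiv.coe_addRight, GaussianInt.toComplex_add, GaussianInt.toComplex_def' (j * A) (j * B)]
  field_simp
  push_cast
  ring

lemma Qs_mod (p c c' : ℕ) (hp : 0 < p) (X : ℝ) (A B κ : ℤ) :
    Qs p c c' X A B κ = Qs p c c' X A B (κ % (p : ℤ) ^ c') := by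
  conv_lhs => rw [← Int.emod_add_mul_ediv κ ((p : ℤ) ^ c')]
  exact Qs_periodic p c c' hp X A B _ _

/-- the sum of the majorants over the unit residues -/
theorem Qs_sum (h : Fr p ν ι g) {c c' : ℕ} (hc' : c' ≤ ν) {X : ℝ} (hX : 0 < X) {A B : ℤ}
    (h1 : ∀ (y : GaussianInt) (k : ℤ), (p : ℤ) ^ c' ∣ y.re - k * A → (p : ℤ) ^ c' ∣ y.im - k * B →
      g ^ c' ∣ y) (h2 : ¬ ((p : ℤ) ∣ A ∧ (p : ℤ) ∣ B)) (hc1 : 1 ≤ c') :
    ∑ k ∈ (range (p ^ c')).filter (fun k : ℕ => ¬ (p : ℤ) ∣ k), Qs p c c' X A B k ≤ CG * p ^ c' := by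
  classical
  have hp0 : (0 : ℝ) < p := by exact_mod_cast h.pr.pos
  set U := (range (p ^ c')).filter (fun k : ℕ => ¬ (p : ℤ) ∣ k) with hU
  set Y : ℝ := (p : ℝ) ^ (c + c') / X with hY
  have hY0 : 0 < Y := by positivity
  -- the element attached to `(k, y)`
  have hex : ∀ t : ℕ × GaussianInt, ∃ x : GaussianInt,
      (p : GaussianInt) ^ c' * t.2 - ⟨t.1 * A, t.1 * B⟩ = g ^ c' * x := by
    intro t
    apply h1 _ (-(t.1 : ℤ))
    · rw [Zsqrtd.re_sub, re_pow_mul]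
      exact ⟨t.2.re, by simp⟩
    · rw [Zsqrtd.im_sub, im_pow_mul]
      exact ⟨t.2.im, by simp⟩
  choose f hf using hex
  have hpc : ((p : ℤ) ^ c') ≠ 0 := pow_ne_zero _ h.p0
  have hunit : ∀ n : ℤ, (p : ℤ) ^ c' ∣ n * A → (p : ℤ) ^ c' ∣ n * B → (p : ℤ) ^ c' ∣ n := by
    intro n ha hb
    by_cases hA : (p : ℤ) ∣ A
    · have hB : ¬ (p : ℤ) ∣ B := fun hB => h2 ⟨hA, hB⟩
      exact ((h.pZ.coprime_iff_not_dvd).2 hB).pow_left.dvd_of_dvd_mul_right hb
    · exact ((h.pZ.coprime_iff_not_dvd).2 hA).pow_left.dvd_of_dvd_mul_right ha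
  -- injectivity
  have hinj : ∀ t t' : ℕ × GaussianInt, t.1 ∈ U → t'.1 ∈ U → f t = f t' → t = t' := by
    intro t t' ht ht' hff
    have e1 : (p : GaussianInt) ^ c' * t.2 - ⟨t.1 * A, t.1 * B⟩ =
        (p : GaussianInt) ^ c' * t'.2 - ⟨t'.1 * A, t'.1 * B⟩ := by rw [hf, hf, hff]
    have er := congrArg Zsqrtd.re e1
    have ei := congrArg Zsqrtd.im e1
    rw [Zsqrtd.re_sub, Zsqrtd.re_sub, re_pow_mul, re_pow_mul] at er
    rw [Zsqrtd.im_sub, Zsqrtd.im_sub, im_pow_mul, im_pow_mul] at ei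
    simp only at er ei
    have d1 : (p : ℤ) ^ c' ∣ ((t.1 : ℤ) - t'.1) * A := ⟨t.2.re - t'.2.re, by linear_combination -er⟩
    have d2 : (p : ℤ) ^ c' ∣ ((t.1 : ℤ) - t'.1) * B := ⟨t.2.im - t'.2.im, by linear_combination -ei⟩
    have d3 := hunit _ d1 d2
    have b1 : (t.1 : ℤ) < (p : ℤ) ^ c' := by
      have := (mem_filter.1 ht).1
      rw [mem_range] at this
      exact_mod_cast this
    have b2 : (t'.1 : ℤ) < (p : ℤ) ^ c' := by
      have := (mem_filter.1 ht').1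
      rw [mem_range] at this
      exact_mod_cast this
    have e2 : (t.1 : ℤ) - t'.1 = 0 := by
      apply Int.eq_zero_of_abs_lt_dvd d3
      rw [abs_lt]
      constructor <;> omega
    have e3 : t.1 = t'.1 := by omega
    rw [e3] at er ei
    have e4 : t.2 = t'.2 := by
      ext
      · apply mul_left_cancel₀ hpc
        linarith
      · apply mul_left_cancel₀ hpc
        linarith
    exact Prod.ext e3 e4
  have hne : ∀ t : ℕ × GaussianInt, t.1 ∈ U → f t ≠ 0 := by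
    intro t ht h0
    have e1 := hf t
    rw [h0, mul_zero] at e1
    have er := congrArg Zsqrtd.re e1
    have ei := congrArg Zsqrtd.im e1
    rw [Zsqrtd.re_sub, re_pow_mul] at er
    rw [Zsqrtd.im_sub, im_pow_mul] at ei
    simp only [Zsqrtd.re_zero, Zsqrtd.im_zero] at er ei
    have d1 : (p : ℤ) ^ c' ∣ (t.1 : ℤ) * A := ⟨t.2.re, by linarith⟩
    have d2 : (p : ℤ) ^ c' ∣ (t.1 : ℤ) * B := ⟨t.2.im, by linarith⟩
    have d3 := hunit _ d1 d2
    exact (mem_filter.1 ht).2 ((dvd_pow_self _ (by omega)).trans d3)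
  -- the weights
  have hw : ∀ t : ℕ × GaussianInt, gw (p ^ c / X) (((t.1 : ℤ) * (A + B * I)) / (p : ℂ) ^ c') t.2 =
      gw Y 0 (f t) := by
    intro t
    unfold gw
    congr 1
    have hpC : (p : ℂ) ^ c' ≠ 0 := by
      have : (p : ℂ) ≠ 0 := by exact_mod_cast h.pr.ne_zero
      exact pow_ne_zero _ this
    have e1 : ((t.2 : GaussianInt) : ℂ) - ((t.1 : ℤ) * (A + B * I)) / (p : ℂ) ^ c' =
        ((g ^ c' : GaussianInt) : ℂ) * (f t : ℂ) / (p : ℂ) ^ c' := by
      rw [← GaussianInt.toComplex_mul, ← hf t, GaussianInt.toComplex_sub, GaussianInt.toComplex_mul,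
        map_pow, map_natCast, GaussianInt.toComplex_def' ((t.1 : ℤ) * A) ((t.1 : ℤ) * B)]
      field_simp
      push_cast
      ring
    rw [e1, map_div₀, normSq_mul, h.normSq_pow, map_pow, normSq_natCast, sub_zero, hY, pow_add]
    have := hp0.ne'
    rw [mul_pow]
    field_simp
  have hsumm : ∀ k : ℕ, Summable fun y => gw (p ^ c / X) (((k : ℤ) * (A + B * I)) / (p : ℂ) ^ c') y :=
    fun k => gw_summable (by positivity) _
  have hnz := nz_summable hY0
  have key : ∑ k ∈ U, ∑' y, gw (p ^ c / X) (((k : ℤ) * (A + B * I)) / (p : ℂ) ^ c') y ≤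
      ∑' α : GaussianInt, (if α = 0 then 0 else gw Y 0 α) := by
    have hs : Summable fun t : U × GaussianInt => gw Y 0 (f (t.1, t.2)) := by
      refine (gw_summable hY0 0).comp_injective (i := fun t : U × GaussianInt => f (t.1, t.2)) ?_
      rintro ⟨k, y⟩ ⟨k', y'⟩ hkk
      have := hinj (k, y) (k', y') k.2 k'.2 hkk
      rw [Prod.mk.injEq] at this
      exact Prod.ext (Subtype.ext this.1) this.2
    have e1 : ∑ k ∈ U, ∑' y, gw (p ^ c / X) (((k : ℤ) * (A + B * I)) / (p : ℂ) ^ c') y =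
        ∑' t : U × GaussianInt, gw Y 0 (f (t.1, t.2)) := by
      rw [hs.tsum_prod, tsum_fintype, ← Finset.sum_coe_sort]
      refine sum_congr rfl fun k _ => tsum_congr fun y => ?_
      have := hw (k, y)
      simpa using this
    rw [e1]
    refine hs.tsum_le_tsum_of_inj (fun t : U × GaussianInt => f (t.1, t.2)) ?_ ?_ ?_ hnz
    · rintro ⟨k, y⟩ ⟨k', y'⟩ hkk
      have := hinj (k, y) (k', y') k.2 k'.2 hkk
      rw [Prod.mk.injEq] at this
      exact Prod.ext (Subtype.ext this.1) this.2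
    · intro α _
      split_ifs
      · exact le_rfl
      · exact gw_nonneg _ _ _
    · intro t
      rw [if_neg (hne (t.1, t.2) t.1.2)]
  unfold Qs
  rw [← mul_sum]
  calc (X / p ^ c) * ∑ k ∈ U, ∑' y, gw (p ^ c / X) (((k : ℤ) * (A + B * I)) / (p : ℂ) ^ c') y
      ≤ (X / p ^ c) * (CG * Y) := by
        refine mul_le_mul_of_nonneg_left (key.trans (nz_le hY0)) (by positivity)
    _ = CG * p ^ c' := by
        rw [hY, pow_add]
        field_simp

end Run7.h343.GI
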