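import Pool.Agent.Run7.h343.GI.Key
import Pool.Agent.Y766.R7.ZE
import Pool.Agent.Y870.R3.Phi
import Pool.Agent.Y779.R3.Klo

/-!
The mean square over `l` of the Fourier sums attached to `χ(n + ϖ^m l) conj χ(n)`.
-/

set_option autoImplicit false

namespace Run7.h343.GI

open Complex Finset
open Pool.Agent.Y766.R7
open Pool.Agent.H442R2
open Pool.Agent.Y766
open Pool.Agent.Y766.R3 (eu KL S_KLO S_PHI FF FH)

variable {p r : ℕ} {ι : ℤ} {g : GaussianInt} {R : GaussianInt → ℤ}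

lemma Fu.dvd_iff (h : Fu p r ι g R) (hr : 1 ≤ r) (x : GaussianInt) : (p : ℤ) ∣ R x ↔ g ∣ x := by
  obtain ⟨A, B, h1, -, hA, h3⟩ := h.loc' (c := 0) (c' := 1) (by omega) le_rfl
  simp only [pow_zero, one_mul, pow_one] at h1 h3
  have hgp : g ∣ (p : GaussianInt) := ⟨star g, h.fr.norm_eq.symm⟩
  constructor
  · intro hd
    -- `x = a + g y`
    obtain ⟨⟨⟨a, ha⟩, y⟩, hxy⟩ := (h.fr.dec (j := 1) hr).surjective x
    rw [Fr.dec_apply] at hxy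
    simp only [pow_one] at hxy
    rw [← hxy] at hd ⊢
    rw [h.add, h.nat] at hd
    have h4 : (p : ℤ) ∣ R (g * y) := by rw [h1]; exact h3 y
    have h5 : (p : ℤ) ∣ (a : ℤ) * R 1 := (dvd_add_left h4).1 hd
    have h6 : (p : ℤ) ∣ (a : ℤ) := (h.fr.pZ.dvd_or_dvd h5).resolve_right h.one
    obtain ⟨k, hk⟩ := h6
    have h7 : g ∣ ((a : ℕ) : GaussianInt) := by
      have e : ((a : ℕ) : GaussianInt) = (p : GaussianInt) * (k : GaussianInt) := by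
        have : ((a : ℕ) : GaussianInt) = (((a : ℕ) : ℤ) : GaussianInt) := by push_cast; rfl
        rw [this, hk]; push_cast; rfl
      rw [e]
      exact Dvd.dvd.mul_right hgp _
    exact dvd_add h7 (Dvd.intro _ rfl)
  · rintro ⟨y, rfl⟩
    rw [h1]
    exact h3 y

open Classical in
/-- the weight on the elements prime to `ϖ` -/
noncomputable def wt (ϖ : GaussianInt) (X : ℝ) (l : GaussianInt) : ℝ := if ϖ ∣ l then 0 else gw X 0 l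

theorem mean_g : ∃ C : ℝ, 0 < C ∧ ∀ p : ℕ, p.Prime → 7 ≤ p →
    ∀ (ν m s : ℕ) (ι : ℤ) (ϖ : GaussianInt) [NeZero (p ^ (ν - m))], Fr p ν ι ϖ →
      1 ≤ m → 1 ≤ s → ν = 3 * m + s → 19 * s ≤ m →
    ∀ χ : DirichletCharacter ℂ (p ^ ν), χ.IsPrimitive → ∀ X K : ℝ, 0 < X →
      (p : ℝ) ^ ((m + 11 * s + 2) / 3) ≤ K → (p : ℝ) ^ (m + s) ≤ X * K →
    ∀ ψ : GaussianInt → GaussianInt → ℂ, (∀ l, IsCh (ψ l)) → ∀ z : ℂ,
    ∑' l, wt ϖ X l *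
      ‖∑' h, FH (p ^ (ν - m)) (FF χ (red ι (ϖ ^ m * l))) (RJ (ν - m) ϖ h) * ψ l h * (gw K z h : ℂ)‖ ^ 2 ≤
      C * (p : ℝ) ^ 6 * (1 + ν) * GG X * GG K ^ 2 * ((p : ℝ) ^ m) ^ 2 := by
  have hCG := CG_one
  obtain ⟨c, hc⟩ : ∃ c : ℝ, c = 16 * Real.exp (2 * Real.pi) ^ 7 * (11 + CG ^ 2) := ⟨_, rfl⟩
  have hE1 : 1 ≤ Real.exp (2 * Real.pi) := Real.one_le_exp (by positivity)
  have hE7 : 1 ≤ Real.exp (2 * Real.pi) ^ 7 := one_le_pow₀ hE1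
  have hc1 : 1 ≤ c := by
    rw [hc]
    nlinarith [sq_nonneg CG]
  refine ⟨4 * c, by positivity, ?_⟩
  intro p hp hp7 ν m s ι ϖ _ hfr hm hs hν h19 χ hχ X K hX hK hXK ψ hψ z
  have hp0 : (0 : ℝ) < p := by exact_mod_cast hp.pos
  have hp1 : (1 : ℝ) ≤ p := by exact_mod_cast hp.one_le
  have hp2 : p ≠ 2 := by omega
  have hK0 : 0 < K := lt_of_lt_of_le (by positivity) hK
  have hsq := Pool.Agent.Y155.R7.sq_main
  have hbr := Pool.Agent.Y924.R7.Br.br hsq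
  have hklo := Pool.Agent.Y779.R3.klo
  have hPhi := Pool.Agent.Y870.R3.phi
  obtain ⟨κ, hκ⟩ : ∃ κ, κ = (m + 11 * s + 2) / 3 := ⟨_, rfl⟩
  rw [← hκ] at hK
  obtain ⟨Ψ, A, L, hΨ1, hΨ2, hAu, hLu, hFH⟩ :=
    get_dataU hPhi (u := s) hp hp2 hm (by omega) (by omega) (by omega) hχ
  have F1 : Fu p (ν - m) ι ϖ (RL p m ι ϖ) := RL_fu hfr (by omega)
  have F2 : Fu p (ν - m) (-ι) (star ϖ) (RJ (ν - m) ϖ) := RJ_fu hfr (by omega) (by omega)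
  have hGX := GG_pos hX
  have hGK := GG_pos hK0
  obtain ⟨Z, hZd⟩ : ∃ Z : ℝ, Z = c * p * (1 + ν) * (GG X * GG K ^ 2 / (p : ℝ) ^ s) := ⟨_, rfl⟩
  have hZ0 : 0 ≤ Z := by rw [hZd]; positivity
  -- the phases
  have hex : ∀ l : GaussianInt, ∃ θ : GaussianInt → ℂ, IsCh θ ∧ (¬ (p : ℤ) ∣ RL p m ι ϖ l → ∀ h : GaussianInt,
      FH (p ^ (ν - m)) (FF χ (red ι (ϖ ^ m * l))) (RJ (ν - m) ϖ h) * ψ l h =
        KL Ψ A (L * ((RL p m ι ϖ l * RJ (ν - m) ϖ h : ℤ) : ZMod (p ^ (ν - m)))) * θ h) := by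
    intro l
    by_cases hl : (p : ℤ) ∣ RL p m ι ϖ l
    · exact ⟨ψ l, hψ l, fun h => absurd hl h⟩
    · obtain ⟨d, hd⟩ := hFH (RL p m ι ϖ l) hl
      refine ⟨fun h => KF.e (((-(RJ (ν - m) ϖ h * d) : ℤ) : ℝ) / (p ^ (ν - m) : ℕ)) * ψ l h, ⟨?_, ?_⟩, ?_⟩
      · intro h
        rw [norm_mul, (hψ l).nrm, mul_one, ← Pool.Agent.Y766.R3.eu_eq, eu_norm]
      · intro h h'
        rw [(hψ l).add, F2.add, ← Pool.Agent.Y766.R3.eu_eq, ← Pool.Agent.Y766.R3.eu_eq,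
          ← Pool.Agent.Y766.R3.eu_eq]
        have e : (((-((RJ (ν - m) ϖ h + RJ (ν - m) ϖ h') * d) : ℤ) : ℝ) / (p ^ (ν - m) : ℕ)) =
            ((-(RJ (ν - m) ϖ h * d) : ℤ) : ℝ) / (p ^ (ν - m) : ℕ) +
            ((-(RJ (ν - m) ϖ h' * d) : ℤ) : ℝ) / (p ^ (ν - m) : ℕ) := by
          push_cast; ring
        rw [e, eu_add]
        ring
      · intro _ h
        rw [RL_spec hfr (by omega), hd]
        ring
  choose θ hθ1 hθ2 using hex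
  have hkey := keyg hbr hklo hp hp2 (u := s) (by omega) (by omega) hΨ1 hΨ2 hAu hLu hθ1 (RL p m ι ϖ)
    (RJ (ν - m) ϖ) (gw_summable hX 0) (fun l => gw_nonneg _ _ _) hK0 z (Z := Z)
    (fun l0 h0 hl0 hh0 Y C hC => by
      have h4 := Z4g hp7 (u := s) (κ := κ) (s := s) (by omega) (by omega) (by omega) (by omega) hs F1 F2
        hl0 hh0 hΨ1 hΨ2 Y hC hθ1 hX hK (by
          refine le_trans ?_ hXK
          exact pow_le_pow_right₀ hp1 (by omega)) z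
      refine le_of_pow_le_pow_left₀ (n := 4) (by norm_num) hZ0 (h4.trans ?_)
      have e1 : Z ^ 4 = (c * p) ^ 4 * (GG X ^ 4 * GG K ^ 8 / (p : ℝ) ^ (4 * s)) * (1 + ν) ^ 4 := by
        have : (p : ℝ) ^ (4 * s) = ((p : ℝ) ^ s) ^ 4 := by rw [← pow_mul]; congr 1; ring
        rw [this, hZd]
        field_simp
      rw [e1]
      have e2 : 16 * Real.exp (2 * Real.pi) ^ 7 * (3 + CG ^ 2 * (p : ℝ) ^ 2 + 8 * p) ≤ (c * p) ^ 4 := by
        have f1 : 3 + CG ^ 2 * (p : ℝ) ^ 2 + 8 * p ≤ (11 + CG ^ 2) * (p : ℝ) ^ 2 := by nlinarith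
        calc 16 * Real.exp (2 * Real.pi) ^ 7 * (3 + CG ^ 2 * (p : ℝ) ^ 2 + 8 * p) ≤
              16 * Real.exp (2 * Real.pi) ^ 7 * ((11 + CG ^ 2) * (p : ℝ) ^ 2) := by gcongr
          _ = c * (p : ℝ) ^ 2 := by rw [hc]; ring
          _ ≤ c ^ 4 * (p : ℝ) ^ 4 := by
              have g1 : c ≤ c ^ 4 := le_self_pow₀ hc1 (by norm_num)
              have g2 : (p : ℝ) ^ 2 ≤ (p : ℝ) ^ 4 := pow_le_pow_right₀ hp1 (by norm_num)
              gcongr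
          _ = _ := by ring
      have e3 : (1 + ((ν - m : ℕ) : ℝ)) ^ 3 ≤ (1 + (ν : ℝ)) ^ 4 := by
        have g1 : ((ν - m : ℕ) : ℝ) ≤ ν := by exact_mod_cast Nat.sub_le ν m
        calc (1 + ((ν - m : ℕ) : ℝ)) ^ 3 ≤ (1 + (ν : ℝ)) ^ 3 := by gcongr
          _ ≤ _ := pow_le_pow_right₀ (by linarith [Nat.cast_nonneg (α := ℝ) ν]) (by norm_num)
      gcongr)
  have e2 : ∀ l, wt ϖ X l *
      ‖∑' h, FH (p ^ (ν - m)) (FF χ (red ι (ϖ ^ m * l))) (RJ (ν - m) ϖ h) * ψ l h * (gw K z h : ℂ)‖ ^ 2 =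
      (if (p : ℤ) ∣ RL p m ι ϖ l then 0 else gw X 0 l) *
      ‖∑' h, KL Ψ A (L * ((RL p m ι ϖ l * RJ (ν - m) ϖ h : ℤ) : ZMod (p ^ (ν - m)))) * θ l h *
        (gw K z h : ℂ)‖ ^ 2 := by
    intro l
    unfold wt
    by_cases hl : (p : ℤ) ∣ RL p m ι ϖ l
    · rw [if_pos hl, if_pos ((F1.dvd_iff (by omega) l).1 hl), zero_mul, zero_mul]
    · rw [if_neg hl, if_neg (fun h => hl ((F1.dvd_iff (by omega) l).2 h))]
      congr 3
      refine tsum_congr fun h => ?_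
      rw [hθ2 l hl h]
  simp_rw [e2]
  refine hkey.trans ?_
  have hps : (p : ℝ) ^ (ν - m) = ((p : ℝ) ^ m) ^ 2 * (p : ℝ) ^ s := by
    rw [← pow_mul, ← pow_add]; congr 1; omega
  have hps0 : (0 : ℝ) < (p : ℝ) ^ s := by positivity
  refine le_of_eq ?_
  rw [hZd, hps]
  field_simp

end Run7.h343.GI
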