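import Pool.Agent.Run7.h343.GI.Mn
import Pool.Agent.H581R3.GPR.Rot

/-!
Mellin transforms of theta series along a ray.
-/

set_option autoImplicit false

namespace Run7.h343.GI

open Complex Finset MeasureTheory Filter Topology Asymptotics

/-- the norm of a Gaussian integer -/
def Nn (α : GaussianInt) : ℤ := α.re ^ 2 + α.im ^ 2

lemma one_le_Nn {α : GaussianInt} (h : α ≠ 0) : 1 ≤ Nn α := by
  have h1 := normSq_ge h
  unfold Nn
  exact_mod_cast h1

lemma Nn_zero : Nn 0 = 0 := by simp [Nn]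

lemma gz_eq (z : ℂ) (x : ℝ) (α : GaussianInt) :
    gz (z * x) α = cexp (-((Real.pi * z * (Nn α : ℂ)) * x)) := by
  unfold gz Nn
  congr 1
  push_cast
  ring

lemma w_summable {σ : ℝ} (hσ : 1 < σ) : Summable fun n : ℤ => (1 + |(n : ℝ)|) ^ (-σ) := by
  have h1 : Summable fun n : ℤ => |(n : ℝ)| ^ (-σ) + (if n = 0 then (1 : ℝ) else 0) := by
    refine (Real.summable_abs_int_rpow hσ).add ?_
    exact (hasSum_ite_eq (0 : ℤ) (1 : ℝ)).summable
  refine Summable.of_nonneg_of_le (fun n => by positivity) (fun n => ?_) h1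
  split_ifs with h
  · rw [h]
    simp only [Int.cast_zero, abs_zero, add_zero, Real.one_rpow]
    rw [Real.zero_rpow (by linarith), zero_add]
  · rw [add_zero]
    have h2 : (0 : ℝ) < |(n : ℝ)| := by
      rw [abs_pos]; exact_mod_cast h
    exact Real.rpow_le_rpow_of_nonpos h2 (by linarith) (by linarith)

lemma sum_Nn {σ : ℝ} (hσ : 1 < σ) : Summable fun α : GaussianInt => ((Nn α : ℤ) : ℝ) ^ (-σ) := by
  rw [← prE.symm.summable_iff]
  have h1 : Summable fun x : ℤ × ℤ => (1 + |(x.1 : ℝ)|) ^ (-σ) * (1 + |(x.2 : ℝ)|) ^ (-σ) :=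
    (w_summable hσ).mul_of_nonneg (w_summable hσ) (fun _ => by positivity) (fun _ => by positivity)
  refine Summable.of_nonneg_of_le (fun x => ?_) (fun x => ?_) (h1.mul_left ((3 : ℝ) ^ σ))
  · simp only [Function.comp]
    have : (0 : ℝ) ≤ ((Nn (prE.symm x) : ℤ) : ℝ) := by
      unfold Nn; positivity
    positivity
  · simp only [Function.comp]
    obtain ⟨α, hα⟩ : ∃ α, α = prE.symm x := ⟨_, rfl⟩
    rw [← hα]
    have hx1 : x.1 = α.re := by rw [hα]; rfl
    have hx2 : x.2 = α.im := by rw [hα]; rfl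
    rw [hx1, hx2]
    by_cases h0 : α = 0
    · rw [h0, Nn_zero, Int.cast_zero, Real.zero_rpow (by linarith)]
      positivity
    have h2 := normSq_ge h0
    have hN : ((Nn α : ℤ) : ℝ) = (α.re : ℝ) ^ 2 + (α.im : ℝ) ^ 2 := by unfold Nn; push_cast; rfl
    have hN0 : (0 : ℝ) < ((Nn α : ℤ) : ℝ) := by rw [hN]; linarith
    have habs : ∀ n : ℤ, |(n : ℝ)| ≤ (n : ℝ) ^ 2 := by
      intro n
      have h3 : |n| ≤ n ^ 2 := by
        rcases eq_or_ne n 0 with h | h
        · simp [h]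
        · have h4 : 1 ≤ |n| := Int.one_le_abs h
          rw [← sq_abs]
          nlinarith
      exact_mod_cast h3
    have h3 := habs α.re
    have h4 := habs α.im
    have h5 : |(α.re : ℝ)| * |(α.im : ℝ)| ≤ (α.re : ℝ) ^ 2 + (α.im : ℝ) ^ 2 := by
      rw [← sq_abs (α.re : ℝ), ← sq_abs (α.im : ℝ)]
      nlinarith [sq_nonneg (|(α.re : ℝ)| - |(α.im : ℝ)|), abs_nonneg (α.re : ℝ), abs_nonneg (α.im : ℝ)]
    have h6 : (1 + |(α.re : ℝ)|) * (1 + |(α.im : ℝ)|) ≤ 3 * ((Nn α : ℤ) : ℝ) := by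
      rw [hN]; nlinarith
    have h7 : (3 * ((Nn α : ℤ) : ℝ)) ^ (-σ) ≤ ((1 + |(α.re : ℝ)|) * (1 + |(α.im : ℝ)|)) ^ (-σ) :=
      Real.rpow_le_rpow_of_nonpos (by positivity) h6 (by linarith)
    rw [Real.mul_rpow (by norm_num) hN0.le, Real.mul_rpow (by positivity) (by positivity)] at h7
    calc ((Nn α : ℤ) : ℝ) ^ (-σ) = (3 : ℝ) ^ σ * ((3 : ℝ) ^ (-σ) * ((Nn α : ℤ) : ℝ) ^ (-σ)) := by
          rw [← mul_assoc, ← Real.rpow_add (by norm_num), add_neg_cancel, Real.rpow_zero, one_mul]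
      _ ≤ _ := by gcongr

variable {p ν : ℕ} {ι : ℤ} {ϖ : GaussianInt}

lemma gz_cont (α : GaussianInt) : Continuous fun z : ℂ => gz z α := by
  unfold gz
  fun_prop

lemma gw_mono {X Y : ℝ} (hX : 0 < X) (h : X ≤ Y) (z : ℂ) (α : GaussianInt) : gw X z α ≤ gw Y z α := by
  unfold gw
  rw [Real.exp_le_exp]
  have h1 : 0 ≤ Real.pi * normSq ((α : ℂ) - z) := mul_nonneg Real.pi_pos.le (normSq_nonneg _)
  have h2 : Real.pi * normSq ((α : ℂ) - z) / Y ≤ Real.pi * normSq ((α : ℂ) - z) / X := by gcongr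
  linarith

lemma Th_cont {q : ℕ} (χ : DirichletCharacter ℂ q) (ι : ℤ) : ContinuousOn (Th χ ι) {z : ℂ | 0 < z.re} := by
  intro z0 hz0
  have hz : 0 < z0.re := hz0
  have hU : {z : ℂ | z0.re / 2 < z.re} ∈ 𝓝 z0 :=
    (isOpen_lt continuous_const Complex.continuous_re).mem_nhds (by simp only [Set.mem_ofPred_eq]; linarith)
  have h1 : ContinuousOn (Th χ ι) {z : ℂ | z0.re / 2 < z.re} := by
    unfold Th
    refine continuousOn_tsum (u := gw (1 / (z0.re / 2)) 0) (fun α => ?_) (gw_summable (by positivity) 0) ?_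
    · exact (continuous_const.mul (gz_cont α)).continuousOn
    · intro α z hz'
      have hz'' : z0.re / 2 < z.re := hz'
      refine (chi_le χ ι z (by linarith) α).trans (gw_mono (by have : 0 < z.re := by linarith
                                                               positivity) ?_ 0 α)
      exact one_div_le_one_div_of_le (by positivity) hz''.le
  exact (h1.continuousAt hU).continuousWithinAt

lemma fx_cont {q : ℕ} (χ : DirichletCharacter ℂ q) (ι : ℤ) {ω : ℂ} (hω : 0 < ω.re) :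
    ContinuousOn (fun x : ℝ => Th χ ι (ω * x)) (Set.Ioi 0) := by
  refine (Th_cont χ ι).comp (by fun_prop) ?_
  intro x hx
  have hx' : (0 : ℝ) < x := hx
  simp only [Set.mem_ofPred_eq]
  rw [re_mul_ofReal]
  positivity

lemma fx_top (hp : p.Prime) (hν : 1 ≤ ν) (χ : DirichletCharacter ℂ (p ^ ν)) {ω : ℂ} (hω : 0 < ω.re) :
    (fun x : ℝ => Th χ ι (ω * x)) =O[atTop] (fun x : ℝ => Real.exp (-ω.re * x)) := by
  refine IsBigO.of_bound (2 * CG / ω.re) ?_
  filter_upwards [eventually_ge_atTop (1 : ℝ)] with x hx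
  have hx0 : 0 < x := by linarith
  have hre : (ω * x : ℂ).re = ω.re * x := by rw [re_mul_ofReal]
  have h1 := Th_exp hp hν χ ι (z := ω * x) (by rw [hre]; positivity)
  rw [hre] at h1
  rw [Real.norm_of_nonneg (Real.exp_pos _).le]
  have hCG := CG_one
  have h2 : 2 * CG / (ω.re * x) ≤ 2 * CG / ω.re := by
    refine div_le_div_of_nonneg_left (by positivity) hω ?_
    nlinarith
  calc _ ≤ Real.exp (-(ω.re * x)) * (2 * CG / (ω.re * x)) := h1
    _ ≤ Real.exp (-(ω.re * x)) * (2 * CG / ω.re) := by gcongr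
    _ = _ := by rw [neg_mul]; ring

/-- the functional equation in absolute value -/
lemma fx_fe (hfr : Fr p ν ι ϖ) (hν : 1 ≤ ν) {χ : DirichletCharacter ℂ (p ^ ν)} (hχ : χ.IsPrimitive) {ω : ℂ}
    (hω : 0 < ω.re) (hω1 : ‖ω‖ = 1) {x : ℝ} (hx : 0 < x) :
    ‖Th χ ι (ω * x)‖ = 1 / (Real.sqrt ((p : ℝ) ^ ν) * x) *
      ‖Th χ⁻¹ ι (starRingEnd ℂ ω * ((1 / (x * (p : ℝ) ^ ν) : ℝ) : ℂ))‖ := by
  obtain ⟨ε, hε, h⟩ := Th_fe hfr hν hχ
  have hp0 : (0 : ℝ) < p := by exact_mod_cast hfr.pr.pos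
  have hre : (ω * x : ℂ).re = ω.re * x := by rw [re_mul_ofReal]
  rw [h (ω * x) (by rw [hre]; positivity), norm_mul, norm_div, hε, norm_mul, norm_mul, hω1,
    Complex.norm_real, Complex.norm_real, Real.norm_of_nonneg hx.le, Real.norm_of_nonneg (Real.sqrt_nonneg _),
    one_mul]
  have hinv : starRingEnd ℂ ω = ω⁻¹ := by
    rw [Complex.inv_def, Complex.normSq_eq_norm_sq, hω1]
    simp
  have e1 : (1 / (ω * x * (p : ℂ) ^ ν)) = starRingEnd ℂ ω * ((1 / (x * (p : ℝ) ^ ν) : ℝ) : ℂ) := by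
    rw [hinv]
    push_cast
    rw [one_div, one_div, mul_assoc, mul_inv]
  rw [e1]

lemma fx_bot (hfr : Fr p ν ι ϖ) (hν : 1 ≤ ν) {χ : DirichletCharacter ℂ (p ^ ν)} (hχ : χ.IsPrimitive) {ω : ℂ}
    (hω : 0 < ω.re) (hω1 : ‖ω‖ = 1) (b : ℝ) :
    (fun x : ℝ => Th χ ι (ω * x)) =O[𝓝[>] 0] (fun x : ℝ => x ^ (-b)) := by
  have hp0 : (0 : ℝ) < p := by exact_mod_cast hfr.pr.pos
  obtain ⟨P, hP⟩ : ∃ P : ℝ, P = (p : ℝ) ^ ν := ⟨_, rfl⟩
  have hP0 : 0 < P := by rw [hP]; positivity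
  have hCG := CG_one
  have h1 : (fun x : ℝ => Th χ ι (ω * x)) =O[𝓝[>] 0] (fun x : ℝ => Real.exp (-(ω.re / P) * x⁻¹)) := by
    refine IsBigO.of_bound (1 / Real.sqrt P * (2 * CG * P / ω.re)) ?_
    filter_upwards [self_mem_nhdsWithin] with x hx
    have hx0 : (0 : ℝ) < x := hx
    rw [fx_fe hfr hν hχ hω hω1 hx0, Real.norm_of_nonneg (Real.exp_pos _).le, ← hP]
    have hre : (starRingEnd ℂ ω * ((1 / (x * P) : ℝ) : ℂ)).re = ω.re / (x * P) := by
      rw [re_mul_ofReal, conj_re]; ring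
    have h2 := Th_exp hfr.pr hν χ⁻¹ ι (z := starRingEnd ℂ ω * ((1 / (x * P) : ℝ) : ℂ)) (by rw [hre]; positivity)
    rw [hre] at h2
    have hs0 : 0 < Real.sqrt P := Real.sqrt_pos.2 hP0
    calc _ ≤ 1 / (Real.sqrt P * x) * (Real.exp (-(ω.re / (x * P))) * (2 * CG / (ω.re / (x * P)))) := by gcongr
      _ = _ := by
        have e1 : -(ω.re / (x * P)) = -(ω.re / P) * x⁻¹ := by field_simp
        rw [e1]
        field_simp
  refine h1.trans ?_
  have h2 := (isLittleO_exp_neg_mul_rpow_atTop (a := ω.re / P) (by positivity) b).isBigO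
  have h3 := h2.comp_tendsto (tendsto_inv_nhdsGT_zero (𝕜 := ℝ))
  refine h3.congr' (Eventually.of_forall fun x => ?_) ?_
  · simp only [Function.comp]
  · filter_upwards [self_mem_nhdsWithin] with x hx
    have hx0 : (0 : ℝ) < x := hx
    simp only [Function.comp]
    rw [Real.inv_rpow hx0.le, Real.rpow_neg hx0.le]

lemma mel_diff (hfr : Fr p ν ι ϖ) (hν : 1 ≤ ν) {χ : DirichletCharacter ℂ (p ^ ν)} (hχ : χ.IsPrimitive) {ω : ℂ}
    (hω : 0 < ω.re) (hω1 : ‖ω‖ = 1) : Differentiable ℂ (mellin fun x : ℝ => Th χ ι (ω * x)) := by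
  intro s
  exact mellin_differentiableAt_of_isBigO_rpow_exp hω ((fx_cont χ ι hω).locallyIntegrableOn measurableSet_Ioi)
    (fx_top hfr.pr hν χ hω) (fx_bot hfr hν hχ hω hω1 (s.re - 1)) (by linarith)

lemma mel_conv (hfr : Fr p ν ι ϖ) (hν : 1 ≤ ν) {χ : DirichletCharacter ℂ (p ^ ν)} (hχ : χ.IsPrimitive) {ω : ℂ}
    (hω : 0 < ω.re) (hω1 : ‖ω‖ = 1) (s : ℂ) : MellinConvergent (fun x : ℝ => Th χ ι (ω * x)) s :=
  mellinConvergent_of_isBigO_rpow_exp hω ((fx_cont χ ι hω).locallyIntegrableOn measurableSet_Ioi)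
    (fx_top hfr.pr hν χ hω) (fx_bot hfr hν hχ hω hω1 (s.re - 1)) (by linarith)

/-- the Dirichlet series -/
noncomputable def Ds {q : ℕ} (χ : DirichletCharacter ℂ q) (ι : ℤ) (s : ℂ) : ℂ :=
  ∑' α : GaussianInt, χ ((red ι α : ℤ) : ZMod q) * (Nn α : ℂ) ^ (-s)

theorem mel_eq (hp : p.Prime) (hν : 1 ≤ ν) (χ : DirichletCharacter ℂ (p ^ ν)) (ι : ℤ) {ω : ℂ}
    (hω : 0 < ω.re) {s : ℂ} (hs : 1 < s.re) :
    (Real.pi * ω) ^ s * mellin (fun x : ℝ => Th χ ι (ω * x)) s = Gamma s * Ds χ ι s := by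
  have hs0 : 0 < s.re := by linarith
  have hχ0 := chi_zero hp hν χ ι
  have hCG := CG_one
  -- the exponents
  have hr : ∀ α : GaussianInt, α ≠ 0 → 0 < (Real.pi * ω * (Nn α : ℂ)).re := by
    intro α hα
    have h1 : (1 : ℝ) ≤ (Nn α : ℤ) := by exact_mod_cast one_le_Nn hα
    have e1 : (Real.pi * ω * (Nn α : ℂ)) = ((Real.pi * ((Nn α : ℤ) : ℝ) : ℝ) : ℂ) * ω := by
      push_cast; ring
    rw [e1, re_ofReal_mul]
    have : (0 : ℝ) < (Nn α : ℤ) := by linarith
    positivity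
  obtain ⟨F, hF⟩ : ∃ F : GaussianInt → ℝ → ℂ, F = fun (α : GaussianInt) (x : ℝ) =>
      (x : ℂ) ^ (s - 1) * (χ ((red ι α : ℤ) : ZMod (p ^ ν)) * gz (ω * x) α) := ⟨_, rfl⟩
  have hFe : ∀ (α : GaussianInt) (x : ℝ), F α x = χ ((red ι α : ℤ) : ZMod (p ^ ν)) *
      ((x : ℂ) ^ (s - 1) * cexp (-((Real.pi * ω * (Nn α : ℂ)) * x))) := by
    intro α x
    rw [hF]
    simp only
    rw [gz_eq]
    ring
  have hint : ∀ α : GaussianInt, α ≠ 0 → Integrable (fun x : ℝ => (x : ℂ) ^ (s - 1) *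
      cexp (-((Real.pi * ω * (Nn α : ℂ)) * x))) (volume.restrict (Set.Ioi 0)) := by
    intro α hα
    refine Integrable.mono' (Pool.Agent.H581R3.GPR.Rot.int_rpow_exp (s := s.re - 1)
      (b := (Real.pi * ω * (Nn α : ℂ)).re) (by linarith) (hr α hα))
      (Pool.Agent.H581R3.GPR.Rot.cpow_exp_meas s _) ?_
    refine (ae_restrict_iff' measurableSet_Ioi).2 (Eventually.of_forall fun t ht => ?_)
    have ht0 : (0:ℝ) < t := ht
    rw [norm_mul, Complex.norm_cpow_eq_rpow_re_of_pos ht0, Complex.norm_exp]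
    simp
  have hFint : ∀ α, Integrable (F α) (volume.restrict (Set.Ioi 0)) := by
    intro α
    by_cases h0 : α = 0
    · have : F α = fun _ => 0 := by
        funext x
        rw [hFe, h0, hχ0, zero_mul]
      rw [this]
      exact integrable_zero _ _ _
    · have : F α = fun x : ℝ => χ ((red ι α : ℤ) : ZMod (p ^ ν)) *
        ((x : ℂ) ^ (s - 1) * cexp (-((Real.pi * ω * (Nn α : ℂ)) * x))) := funext (hFe α)
      rw [this]
      exact (hint α h0).const_mul _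
  have hFn : ∀ α, ∫ x in Set.Ioi (0 : ℝ), ‖F α x‖ ≤
      (1 / (Real.pi * ω.re)) ^ s.re * Real.Gamma s.re * ((Nn α : ℤ) : ℝ) ^ (-s.re) := by
    intro α
    by_cases h0 : α = 0
    · have : ∀ x, F α x = 0 := by
        intro x
        rw [hFe, h0, hχ0, zero_mul]
      simp_rw [this, norm_zero, integral_zero]
      rw [h0, Nn_zero, Int.cast_zero, Real.zero_rpow (by linarith), mul_zero]
    · have h1 : (0 : ℝ) < (Nn α : ℤ) := by exact_mod_cast one_le_Nn h0
      have hre : (Real.pi * ω * (Nn α : ℂ)).re = Real.pi * ω.re * ((Nn α : ℤ) : ℝ) := by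
        have e1 : (Real.pi * ω * (Nn α : ℂ)) = ((Real.pi * ((Nn α : ℤ) : ℝ) : ℝ) : ℂ) * ω := by
          push_cast; ring
        rw [e1, re_ofReal_mul]; ring
      have h2 : ∫ x in Set.Ioi (0 : ℝ), ‖F α x‖ ≤ ∫ x in Set.Ioi (0 : ℝ), x ^ (s.re - 1) *
          Real.exp (-((Real.pi * ω.re * ((Nn α : ℤ) : ℝ)) * x)) := by
        refine setIntegral_mono_on (hFint α).norm (Pool.Agent.H581R3.GPR.Rot.int_rpow_exp
          (s := s.re - 1) (by linarith) (by positivity)) measurableSet_Ioi ?_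
        intro x hx
        have hx0 : (0 : ℝ) < x := hx
        rw [hFe, norm_mul, norm_mul, Complex.norm_cpow_eq_rpow_re_of_pos hx0, Complex.norm_exp]
        have e1 : (-((Real.pi * ω * (Nn α : ℂ)) * x)).re = -((Real.pi * ω.re * ((Nn α : ℤ) : ℝ)) * x) := by
          rw [neg_re, re_mul_ofReal, hre]
        rw [e1, sub_re, one_re]
        exact mul_le_of_le_one_left (by positivity) (χ.norm_le_one _)
      refine h2.trans (le_of_eq ?_)
      rw [Real.integral_rpow_mul_exp_neg_mul_Ioi hs0 (by positivity)]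
      have e2 : 1 / (Real.pi * ω.re * ((Nn α : ℤ) : ℝ)) = 1 / (Real.pi * ω.re) * (((Nn α : ℤ) : ℝ))⁻¹ := by
        field_simp
      rw [e2, Real.mul_rpow (by positivity) (by positivity), Real.inv_rpow h1.le, ← Real.rpow_neg h1.le]
      ring
  have hsum : Summable fun α => ∫ x in Set.Ioi (0 : ℝ), ‖F α x‖ :=
    Summable.of_nonneg_of_le (fun α => integral_nonneg fun _ => norm_nonneg _) hFn
      ((sum_Nn hs).mul_left _)
  have hmain := (hasSum_integral_of_summable_integral_norm hFint hsum).tsum_eq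
  have h3 : mellin (fun x : ℝ => Th χ ι (ω * x)) s = ∑' α, ∫ x in Set.Ioi (0 : ℝ), F α x := by
    rw [hmain]
    unfold mellin
    refine setIntegral_congr_fun measurableSet_Ioi fun x _ => ?_
    simp only [smul_eq_mul]
    rw [hF]
    simp only
    rw [tsum_mul_left]
    rfl
  rw [h3]
  unfold Ds
  rw [← tsum_mul_left, ← tsum_mul_left]
  refine tsum_congr fun α => ?_
  by_cases h0 : α = 0
  · have : ∀ x, F α x = 0 := by
      intro x
      rw [hFe, h0, hχ0, zero_mul]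
    simp_rw [this, integral_zero]
    rw [h0, hχ0]
    ring
  · have h1 : (0 : ℝ) < (Nn α : ℤ) := by exact_mod_cast one_le_Nn h0
    simp_rw [hFe]
    rw [integral_const_mul, Pool.Agent.H581R3.GPR.Rot.rot_formula hs0 (hr α h0)]
    have hω0 : (Real.pi * ω : ℂ) ≠ 0 := by
      intro h
      have h4 := hr α h0
      rw [h, zero_mul] at h4
      simp at h4
    have hre0 : 0 < (Real.pi * ω : ℂ).re := by
      rw [re_ofReal_mul]
      exact mul_pos Real.pi_pos hω
    have e1 : (1 / (Real.pi * ω * (Nn α : ℂ))) ^ s = (Real.pi * ω : ℂ) ^ (-s) * (Nn α : ℂ) ^ (-s) := by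
      have hne : (Real.pi * ω * (Nn α : ℂ)) ≠ 0 := by
        intro h
        have h4 := hr α h0
        rw [h] at h4
        simp at h4
      have harg : (Real.pi * ω * (Nn α : ℂ)).arg ≠ Real.pi := by
        have h5 := hr α h0
        intro h6
        rw [Complex.arg_eq_pi_iff] at h6
        linarith [h6.1]
      rw [one_div, Complex.inv_cpow _ _ harg, ← Complex.cpow_neg]
      have hNc : (Nn α : ℂ) = (((Nn α : ℤ) : ℝ) : ℂ) := by push_cast; rfl
      have hNc0 : (Nn α : ℂ) ≠ 0 := by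
        rw [hNc]; exact_mod_cast h1.ne'
      rw [Complex.cpow_def_of_ne_zero hne, Complex.cpow_def_of_ne_zero hω0,
        Complex.cpow_def_of_ne_zero hNc0, ← Complex.exp_add]
      congr 1
      rw [mul_comm (Real.pi * ω : ℂ) (Nn α : ℂ), hNc, Complex.log_ofReal_mul h1 hω0, Complex.ofReal_log h1.le]
      ring
    rw [e1]
    have e2 : (Real.pi * ω : ℂ) ^ s * (Real.pi * ω : ℂ) ^ (-s) = 1 := by
      rw [← Complex.cpow_add _ _ hω0, add_neg_cancel, Complex.cpow_zero]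
    calc _ = ((Real.pi * ω : ℂ) ^ s * (Real.pi * ω : ℂ) ^ (-s)) *
          (χ ((red ι α : ℤ) : ZMod (p ^ ν)) * ((Nn α : ℂ) ^ (-s) * Gamma s)) := by ring
      _ = _ := by rw [e2]; ring

end Run7.h343.GI
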