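import Pool.Agent.Run7.h343.GI.FE

/-!
Mean squares and decay of theta series.
-/

set_option autoImplicit false

namespace Run7.h343.GI

open Complex Finset

theorem th_main : ∃ C : ℝ, 0 < C ∧ ∀ p : ℕ, p.Prime → 7 ≤ p →
    ∀ (ν m : ℕ) (ι : ℤ) (ϖ : GaussianInt), Fr p ν ι ϖ → 1 ≤ m → ∀ hmν : m < ν, 19 * ν ≤ 58 * m →
    ∀ [NeZero (p ^ m)],
    ∀ χ : DirichletCharacter ℂ (p ^ ν), χ.IsPrimitive → ∀ ρ σ u : ℝ, 0 < ρ → ρ ≤ u → |σ| ≤ u →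
      u ≤ 1 → 1 ≤ u ^ 2 * (p : ℝ) ^ ν →
    ∑ θ : DirichletCharacter ℂ (p ^ m),
      ‖Th (χ * DirichletCharacter.changeLevel (pow_dvd_pow p hmν.le) θ) ι (ρ + σ * I)‖ ^ 2 ≤
      C * (p : ℝ) ^ 4 * (1 + ν) ^ 2 * (u / ρ) ^ 3 * ((p : ℝ) ^ m / u) := by
  obtain ⟨C1, hC1, hall⟩ := off_sum
  have hCG := CG_one
  refine ⟨C1 + 2 * CG, by positivity, ?_⟩
  intro p hp hp7 ν m ι ϖ hfr hm hmν h19 _ χ hχ ρ σ u hρ hρu hσu hu1 huq
  have hp0 : (0 : ℝ) < p := by exact_mod_cast hp.pos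
  have hp1 : (1 : ℝ) ≤ p := by exact_mod_cast hp.one_le
  have hu0 : 0 < u := by linarith
  refine (Th_sq hfr hm hmν χ hρ σ (hall p hp hp7 ν m ι ϖ hfr hm hmν h19 χ hχ ρ σ u hρ hρu hσu hu1 huq)).trans ?_
  have h1 : GG (1 / (2 * ρ)) ≤ 2 * CG * (1 / ρ) := by
    have h2 := GG_le (X := 1 / (2 * ρ)) (by positivity)
    have h3 : 1 ≤ 1 / ρ := by rw [le_div_iff₀ hρ]; linarith
    have h4 : 1 / (2 * ρ) ≤ 1 / ρ := by
      rw [div_le_div_iff₀ (by positivity) hρ]; linarith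
    nlinarith
  have hr1 : 1 ≤ u / ρ := by rw [le_div_iff₀ hρ]; linarith
  have h5 : 1 / ρ ≤ (u / ρ) ^ 3 * (1 / u) := by
    have h6 : 1 / ρ = (u / ρ) * (1 / u) := by field_simp
    rw [h6]
    have h7 : u / ρ ≤ (u / ρ) ^ 3 := by
      calc u / ρ = (u / ρ) ^ 1 := (pow_one _).symm
        _ ≤ _ := pow_le_pow_right₀ hr1 (by norm_num)
    gcongr
  have h8 : 1 ≤ (p : ℝ) ^ 4 * (1 + (ν : ℝ)) ^ 2 := by
    have e1 : (1 : ℝ) ≤ (1 + (ν : ℝ)) ^ 2 := one_le_pow₀ (by linarith [Nat.cast_nonneg (α := ℝ) ν])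
    have e2 : 1 ≤ (p : ℝ) ^ 4 := one_le_pow₀ hp1
    nlinarith
  have hQ : 0 ≤ (u / ρ) ^ 3 * (1 / u) := by positivity
  calc (p : ℝ) ^ m * (GG (1 / (2 * ρ)) + C1 * (p : ℝ) ^ 4 * (1 + ν) ^ 2 * (u / ρ) ^ 3 * (1 / u))
      ≤ (p : ℝ) ^ m * (2 * CG * ((u / ρ) ^ 3 * (1 / u)) * ((p : ℝ) ^ 4 * (1 + ν) ^ 2) +
        C1 * (p : ℝ) ^ 4 * (1 + ν) ^ 2 * (u / ρ) ^ 3 * (1 / u)) := by
        have h9 : GG (1 / (2 * ρ)) ≤ 2 * CG * ((u / ρ) ^ 3 * (1 / u)) * ((p : ℝ) ^ 4 * (1 + ν) ^ 2) := by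
          calc _ ≤ 2 * CG * (1 / ρ) := h1
            _ ≤ 2 * CG * ((u / ρ) ^ 3 * (1 / u)) := by gcongr
            _ ≤ _ := le_mul_of_one_le_right (by positivity) h8
        gcongr
    _ = _ := by ring

/-- the value at zero -/
lemma chi_zero {p ν : ℕ} (hp : p.Prime) (hν : 1 ≤ ν) (χ : DirichletCharacter ℂ (p ^ ν)) (ι : ℤ) :
    χ ((red ι 0 : ℤ) : ZMod (p ^ ν)) = 0 := by
  have h0 : red ι 0 = 0 := by unfold red; simp
  rw [h0, Int.cast_zero]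
  haveI : Nontrivial (ZMod (p ^ ν)) := ZMod.nontrivial_iff.2 (Nat.one_lt_pow (by omega) hp.one_lt).ne'
  exact MulChar.map_zero _

lemma Th_le {p ν : ℕ} (hp : p.Prime) (hν : 1 ≤ ν) (χ : DirichletCharacter ℂ (p ^ ν)) (ι : ℤ) {z : ℂ}
    (hz : 0 < z.re) : ‖Th χ ι z‖ ≤ CG / z.re := by
  have hX : 0 < 1 / z.re := by positivity
  unfold Th
  refine (norm_tsum_le_tsum_norm (Th_summable χ ι z hz)).trans ?_
  have h1 : ∑' α, ‖χ ((red ι α : ℤ) : ZMod (p ^ ν)) * gz z α‖ ≤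
      ∑' α : GaussianInt, (if α = 0 then 0 else gw (1 / z.re) 0 α) := by
    refine (Th_summable χ ι z hz).tsum_le_tsum (fun α => ?_) (nz_summable hX)
    split_ifs with h
    · rw [h, chi_zero hp hν, zero_mul, norm_zero]
    · exact chi_le χ ι z hz α
  refine h1.trans ((nz_le hX).trans (le_of_eq ?_))
  rw [mul_one_div]

lemma normSq_ge {α : GaussianInt} (h : α ≠ 0) : (1 : ℝ) ≤ (α.re : ℝ) ^ 2 + (α.im : ℝ) ^ 2 := by
  have h1 : 0 < α.re ^ 2 + α.im ^ 2 := by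
    rcases eq_or_ne α.re 0 with h2 | h2
    · have h3 : α.im ≠ 0 := fun h3 => h (Zsqrtd.ext h2 h3)
      positivity
    · positivity
  exact_mod_cast h1

/-- exponential decay -/
lemma Th_exp {p ν : ℕ} (hp : p.Prime) (hν : 1 ≤ ν) (χ : DirichletCharacter ℂ (p ^ ν)) (ι : ℤ) {z : ℂ}
    (hz : 0 < z.re) : ‖Th χ ι z‖ ≤ Real.exp (-(z.re)) * (2 * CG / z.re) := by
  have hX : 0 < 2 / z.re := by positivity
  unfold Th
  refine (norm_tsum_le_tsum_norm (Th_summable χ ι z hz)).trans ?_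
  have h1 : ∑' α, ‖χ ((red ι α : ℤ) : ZMod (p ^ ν)) * gz z α‖ ≤
      ∑' α : GaussianInt, Real.exp (-(z.re)) * (if α = 0 then 0 else gw (2 / z.re) 0 α) := by
    refine (Th_summable χ ι z hz).tsum_le_tsum (fun α => ?_) ((nz_summable hX).mul_left _)
    split_ifs with h
    · rw [h, chi_zero hp hν, zero_mul, norm_zero, mul_zero]
    · refine (chi_le χ ι z hz α).trans ?_
      unfold gw
      rw [← Real.exp_add, sub_zero, normSq_int, Real.exp_le_exp]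
      have h2 := normSq_ge h
      have e1 : Real.pi * ((α.re : ℝ) ^ 2 + (α.im : ℝ) ^ 2) / (1 / z.re) =
          Real.pi * z.re * ((α.re : ℝ) ^ 2 + (α.im : ℝ) ^ 2) := by field_simp
      have e2 : Real.pi * ((α.re : ℝ) ^ 2 + (α.im : ℝ) ^ 2) / (2 / z.re) =
          Real.pi * z.re * ((α.re : ℝ) ^ 2 + (α.im : ℝ) ^ 2) / 2 := by field_simp
      rw [e1, e2]
      have h3 : z.re ≤ Real.pi * z.re * ((α.re : ℝ) ^ 2 + (α.im : ℝ) ^ 2) / 2 := by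
        have h4 : (2 : ℝ) ≤ Real.pi := by linarith [Real.pi_gt_three]
        have h5 : 2 * 1 ≤ Real.pi * ((α.re : ℝ) ^ 2 + (α.im : ℝ) ^ 2) := by gcongr
        nlinarith
      linarith
  refine h1.trans ?_
  rw [tsum_mul_left]
  refine mul_le_mul_of_nonneg_left ((nz_le hX).trans (le_of_eq ?_)) (Real.exp_pos _).le
  ring

end Run7.h343.GI
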