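import Pool.Agent.Run7.h343.GI.Gau2

/-!
Separation of the centre of a Gaussian weight.
-/

set_option autoImplicit false

namespace Run7.h343.GI

open Complex Finset MeasureTheory

/-- the plane -/
abbrev EP := EuclideanSpace ℝ (Fin 2)

noncomputable def E2 (y : ℂ) : EP := !₂[y.re, y.im]

lemma E2_inner (y : ℂ) (x : EP) : inner ℝ (E2 y) x = y.re * x 0 + y.im * x 1 := by
  unfold E2
  rw [PiLp.inner_apply, Fin.sum_univ_two]
  simp
  ring

lemma E2_sq (y : ℂ) : ‖E2 y‖ ^ 2 = normSq y := by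
  unfold E2
  rw [EuclideanSpace.norm_sq_eq, Fin.sum_univ_two, normSq_apply]
  simp
  ring

/-- the density -/
noncomputable def gd (a : ℝ) (x : EP) : ℝ := (1 / a) * Real.exp (-(Real.pi / a * ‖x‖ ^ 2))

lemma gd_nonneg {a : ℝ} (ha : 0 < a) (x : EP) : 0 ≤ gd a x := by
  unfold gd; positivity

/-- the character -/
noncomputable def ex (x : EP) (y : ℂ) : ℂ := cexp (2 * Real.pi * I * (inner ℝ (E2 y) x : ℝ))

lemma ex_norm (x : EP) (y : ℂ) : ‖ex x y‖ = 1 := by
  unfold ex
  have e : (2 * Real.pi * I * (inner ℝ (E2 y) x : ℝ) : ℂ) =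
      ((2 * Real.pi * (inner ℝ (E2 y) x : ℝ) : ℝ) : ℂ) * I := by
    push_cast; ring
  rw [e, Complex.norm_exp_ofReal_mul_I]

lemma ex_add (x : EP) (y y' : ℂ) : ex x (y + y') = ex x y * ex x y' := by
  unfold ex
  rw [← Complex.exp_add, E2_inner, E2_inner, E2_inner]
  congr 1
  rw [add_re, add_im]
  push_cast
  ring

lemma ex_neg (x : EP) (y : ℂ) : ex x (-y) * ex x y = 1 := by
  rw [← ex_add, neg_add_cancel]
  unfold ex
  rw [E2_inner]
  simp

lemma ex_cont (y : ℂ) : Continuous fun x => ex x y := by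
  unfold ex
  fun_prop

lemma gd_aux (a : ℝ) (y : ℂ) (x : EP) : (gd a x : ℂ) * ex x y = (1 / a : ℝ) *
    cexp (-((Real.pi / a : ℝ) : ℂ) * ‖x‖ ^ 2 + 2 * Real.pi * I * (inner ℝ (E2 y) x : ℝ)) := by
  unfold gd ex
  rw [Complex.exp_add]
  push_cast
  ring_nf

lemma gd_int {a : ℝ} (ha : 0 < a) (y : ℂ) : Integrable fun x => (gd a x : ℂ) * ex x y := by
  simp_rw [gd_aux]
  refine Integrable.const_mul ?_ _
  refine GaussianFourier.integrable_cexp_neg_mul_sq_norm_add (b := ((Real.pi / a : ℝ) : ℂ)) ?_ _ _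
  rw [ofReal_re]
  positivity

lemma gd_ft {a : ℝ} (ha : 0 < a) (y : ℂ) : ∫ x, (gd a x : ℂ) * ex x y =
    (Real.exp (-(Real.pi * a * normSq y)) : ℂ) := by
  simp_rw [gd_aux]
  rw [integral_const_mul]
  have hb : 0 < (((Real.pi / a : ℝ) : ℂ)).re := by
    rw [ofReal_re]; positivity
  rw [GaussianFourier.integral_cexp_neg_mul_sq_norm_add hb]
  have e1 : (Module.finrank ℝ EP / 2 : ℂ) = 1 := by
    rw [finrank_euclideanSpace_fin]
    norm_num
  rw [e1, cpow_one]
  have hpi : (Real.pi : ℂ) ≠ 0 := by exact_mod_cast Real.pi_ne_zero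
  have ha' : (a : ℂ) ≠ 0 := by exact_mod_cast ha.ne'
  have e2 : ((1 / a : ℝ) : ℂ) * (Real.pi / ((Real.pi / a : ℝ) : ℂ)) = 1 := by
    push_cast
    field_simp
  rw [← mul_assoc, e2, one_mul]
  have e3 : (‖E2 y‖ : ℂ) ^ 2 = (normSq y : ℂ) := by
    rw [← E2_sq]; push_cast; rfl
  rw [e3, ofReal_exp]
  congr 1
  have hI : I ^ 2 = -1 := I_sq
  push_cast
  field_simp
  linear_combination (4 * (normSq y : ℂ)) * hI

lemma gd_int' {a : ℝ} (ha : 0 < a) : Integrable (gd a) := by
  have h := (gd_int ha 0).norm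
  refine h.congr (Filter.Eventually.of_forall fun x => ?_)
  simp only
  rw [norm_mul, ex_norm, mul_one, Complex.norm_real, Real.norm_of_nonneg (gd_nonneg ha x)]

lemma gd_one {a : ℝ} (ha : 0 < a) : ∫ x, gd a x = 1 := by
  have h := gd_ft ha 0
  have e : ∀ x : EP, (gd a x : ℂ) * ex x 0 = ((gd a x : ℝ) : ℂ) := by
    intro x
    have : ex x 0 = 1 := by
      unfold ex
      rw [E2_inner]
      simp
    rw [this, mul_one]
  simp_rw [e] at h
  rw [integral_complex_ofReal] at h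
  simp only [map_zero, mul_zero, neg_zero, Real.exp_zero, ofReal_one] at h
  exact_mod_cast h

instance : Countable GaussianInt := prE.countable_iff.2 inferInstance

/-- the pointwise identity -/
lemma gw_sep {K0 K : ℝ} (hK0 : 0 < K0) (hK : K0 < K) (c : ℂ) (h : GaussianInt) :
    Real.exp (-(Real.pi * normSq c / (K - K0))) * gw K0 c h =
      gw K 0 h * Real.exp (-(Real.pi * (1 / K0 - 1 / K) *
        normSq ((h : ℂ) - c / ((1 / K0 - 1 / K : ℝ) * K0 : ℝ)))) := by
  have hK1 : 0 < K := by linarith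
  have hKK : 0 < K - K0 := by linarith
  unfold gw
  rw [← Real.exp_add, ← Real.exp_add]
  congr 1
  have e1 : (1 / K0 - 1 / K) * K0 = (K - K0) / K := by field_simp
  have e0 : (1 / K0 - 1 / K) = (K - K0) / (K0 * K) := by field_simp
  rw [e1, e0, sub_zero, normSq_apply, normSq_apply, normSq_apply, normSq_apply]
  simp only [sub_re, sub_im, div_ofReal_re, div_ofReal_im, ← GaussianInt.intCast_re,
    ← GaussianInt.intCast_im]
  field_simp
  ring

theorem sep {T : Type} {K0 K B V : ℝ} (hK0 : 0 < K0) (hK : K0 < K) (G : T → GaussianInt → ℂ)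
    (hG : ∀ t h, ‖G t h‖ ≤ B) (c : T → ℂ) {ω : T → ℝ} (hω : ∀ t, 0 ≤ ω t) (s : Finset T)
    (hV : ∀ x : EP, ∑ t ∈ s, ω t * ‖∑' h, G t h * ex x h * (gw K 0 h : ℂ)‖ ≤ V) :
    ∑ t ∈ s, ω t * (Real.exp (-(Real.pi * normSq (c t) / (K - K0))) *
      ‖∑' h, G t h * (gw K0 (c t) h : ℂ)‖) ≤ V := by
  have hK1 : 0 < K := by linarith
  have hKK : 0 < K - K0 := by linarith
  obtain ⟨a, ha⟩ : ∃ a : ℝ, a = 1 / K0 - 1 / K := ⟨_, rfl⟩
  have ha0 : 0 < a := by
    rw [ha, sub_pos]
    exact one_div_lt_one_div_of_lt hK0 hK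
  obtain ⟨Φ, hΦ⟩ : ∃ Φ : T → EP → ℂ, Φ = fun t x => ∑' h, G t h * ex x h * (gw K 0 h : ℂ) := ⟨_, rfl⟩
  have hsum := gw_summable hK1 0
  have hB : ∀ t x h, ‖G t h * ex x h * (gw K 0 h : ℂ)‖ ≤ B * gw K 0 h := by
    intro t x h
    rw [norm_mul, norm_mul, ex_norm, mul_one, Complex.norm_real, Real.norm_of_nonneg (gw_nonneg _ _ _)]
    exact mul_le_mul_of_nonneg_right (hG t h) (gw_nonneg _ _ _)
  have hΦc : ∀ t, Continuous (Φ t) := by
    intro t
    rw [hΦ]
    refine continuous_tsum (u := fun h => B * gw K 0 h) (fun h => ?_) (hsum.mul_left B) (fun h x => hB t x h)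
    exact (continuous_const.mul (ex_cont _)).mul continuous_const
  have hΦb : ∀ t x, ‖Φ t x‖ ≤ ∑' h, B * gw K 0 h := by
    intro t x
    rw [hΦ]
    exact tsum_of_norm_bounded (hsum.mul_left B).hasSum (fun h => hB t x h)
  have hint : ∀ t, Integrable fun x => gd a x * ‖Φ t x‖ := by
    intro t
    refine (gd_int' ha0).mul_bdd (c := ∑' h, B * gw K 0 h) ((hΦc t).norm.aestronglyMeasurable) ?_
    refine Filter.Eventually.of_forall fun x => ?_
    rw [norm_norm]
    exact hΦb t x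
  have hone : ∀ t, Real.exp (-(Real.pi * normSq (c t) / (K - K0))) *
      ‖∑' h, G t h * (gw K0 (c t) h : ℂ)‖ ≤ ∫ x, gd a x * ‖Φ t x‖ := by
    intro t
    obtain ⟨b, hb⟩ : ∃ b : ℂ, b = c t / ((1 / K0 - 1 / K : ℝ) * K0 : ℝ) := ⟨_, rfl⟩
    -- the functions
    obtain ⟨Fh, hFh⟩ : ∃ Fh : GaussianInt → EP → ℂ, Fh = fun h x =>
      (G t h * (gw K 0 h : ℂ)) * ((gd a x : ℂ) * ex x ((h : ℂ) - b)) := ⟨_, rfl⟩
    have hF1 : ∀ h, Integrable (Fh h) := by
      intro h
      rw [hFh]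
      exact (gd_int ha0 _).const_mul _
    have hF2 : ∀ h, ∫ x, Fh h x = (Real.exp (-(Real.pi * normSq (c t) / (K - K0))) : ℂ) *
        (G t h * (gw K0 (c t) h : ℂ)) := by
      intro h
      rw [hFh]
      simp only
      rw [integral_const_mul, gd_ft ha0]
      have h1 := gw_sep hK0 hK (c t) h
      rw [← hb, ← ha] at h1
      have h2 : (Real.exp (-(Real.pi * normSq (c t) / (K - K0))) : ℂ) * (gw K0 (c t) h : ℂ) =
          (gw K 0 h : ℂ) * (Real.exp (-(Real.pi * a * normSq ((h : ℂ) - b))) : ℂ) := by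
        exact_mod_cast h1
      linear_combination (-(G t h)) * h2
    have hF3 : ∀ h, ∫ x, ‖Fh h x‖ = ‖G t h‖ * gw K 0 h := by
      intro h
      rw [hFh]
      simp only
      have : ∀ x : EP, ‖(G t h * (gw K 0 h : ℂ)) * ((gd a x : ℂ) * ex x ((h : ℂ) - b))‖ =
          (‖G t h‖ * gw K 0 h) * gd a x := by
        intro x
        rw [norm_mul, norm_mul, norm_mul, ex_norm, mul_one, Complex.norm_real, Complex.norm_real,
          Real.norm_of_nonneg (gw_nonneg _ _ _), Real.norm_of_nonneg (gd_nonneg ha0 x)]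
      simp_rw [this]
      rw [integral_const_mul, gd_one ha0, mul_one]
    have hF4 : Summable fun h => ∫ x, ‖Fh h x‖ := by
      simp_rw [hF3]
      refine Summable.of_nonneg_of_le (fun h => mul_nonneg (norm_nonneg _) (gw_nonneg _ _ _))
        (fun h => ?_) (hsum.mul_left B)
      exact mul_le_mul_of_nonneg_right (hG t h) (gw_nonneg _ _ _)
    have hHS := hasSum_integral_of_summable_integral_norm hF1 hF4
    have e1 : (Real.exp (-(Real.pi * normSq (c t) / (K - K0))) : ℂ) *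
        ∑' h, G t h * (gw K0 (c t) h : ℂ) = ∫ x, ∑' h, Fh h x := by
      rw [← hHS.tsum_eq, ← tsum_mul_left]
      exact tsum_congr fun h => (hF2 h).symm
    have e2 : ∀ x : EP, ∑' h, Fh h x = (gd a x : ℂ) * (ex x (-b) * Φ t x) := by
      intro x
      rw [hΦ, hFh]
      simp only
      rw [← tsum_mul_left, ← tsum_mul_left]
      refine tsum_congr fun h => ?_
      rw [sub_eq_add_neg, ex_add]
      ring
    have e3 : Real.exp (-(Real.pi * normSq (c t) / (K - K0))) *
      ‖∑' h, G t h * (gw K0 (c t) h : ℂ)‖ = ‖∫ x, ∑' h, Fh h x‖ := by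
      rw [← e1, norm_mul, Complex.norm_real, Real.norm_of_nonneg (Real.exp_pos _).le]
    rw [e3]
    refine (norm_integral_le_integral_norm _).trans (le_of_eq ?_)
    congr 1
    ext x
    rw [e2, norm_mul, norm_mul, ex_norm, one_mul, Complex.norm_real, Real.norm_of_nonneg (gd_nonneg ha0 x)]
  calc _ ≤ ∑ t ∈ s, ω t * ∫ x, gd a x * ‖Φ t x‖ :=
        sum_le_sum fun t _ => mul_le_mul_of_nonneg_left (hone t) (hω t)
    _ = ∫ x, gd a x * ∑ t ∈ s, ω t * ‖Φ t x‖ := by
        simp_rw [← integral_const_mul]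
        rw [← integral_finsetSum _ (fun t _ => (hint t).const_mul _)]
        congr 1
        ext x
        rw [mul_sum]
        refine sum_congr rfl fun t _ => ?_
        ring
    _ ≤ ∫ x, gd a x * V := by
        refine integral_mono ?_ ((gd_int' ha0).mul_const V) fun x => ?_
        · have : (fun x => gd a x * ∑ t ∈ s, ω t * ‖Φ t x‖) = fun x => ∑ t ∈ s, ω t * (gd a x * ‖Φ t x‖) := by
            ext x
            rw [mul_sum]
            refine sum_congr rfl fun t _ => ?_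
            ring
          rw [this]
          exact integrable_finsetSum _ fun t _ => (hint t).const_mul _
        · refine mul_le_mul_of_nonneg_left ?_ (gd_nonneg ha0 x)
          have := hV x
          rw [hΦ]
          exact this
    _ = V := by rw [integral_mul_const, gd_one ha0, one_mul]

end Run7.h343.GI
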