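import Pool.Agent.Run7.h343.GI.Poi
import Pool.Agent.Run7.h343.GI.Sep
import Pool.Agent.Y766.R3.TB

/-!
The off-diagonal terms.
-/

set_option autoImplicit false

namespace Run7.h343.GI

open Complex Finset
open Pool.Agent.Y766.R7
open Pool.Agent.H442R2
open Pool.Agent.Y766
open Pool.Agent.Y766.R3 (eu KL S_KLO S_PHI FF FH)

lemma FF_norm {q : ℕ} (χ : DirichletCharacter ℂ q) (P n : ℤ) : ‖FF χ P n‖ ≤ 1 := by
  unfold FF
  rw [norm_mul, RCLike.norm_conj]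
  calc _ ≤ (1 : ℝ) * 1 := mul_le_mul (χ.norm_le_one _) (χ.norm_le_one _) (norm_nonneg _) zero_le_one
    _ = 1 := one_mul 1

lemma FH_norm (Q : ℕ) {F : ℤ → ℂ} (hF : ∀ n, ‖F n‖ ≤ 1) (j : ℤ) : ‖FH Q F j‖ ≤ Q := by
  unfold FH
  refine (norm_sum_le _ _).trans ?_
  calc _ ≤ ∑ n ∈ range Q, (1 : ℝ) := by
        refine sum_le_sum fun n _ => ?_
        rw [norm_mul, ← Pool.Agent.Y766.R3.eu_eq, eu_norm, mul_one]
        exact hF _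
    _ = Q := by simp

/-- the correlations -/
noncomputable def TT {q : ℕ} (χ : DirichletCharacter ℂ q) (ι : ℤ) (ρ σ : ℝ) (lam : GaussianInt) : ℂ :=
  ∑' β, FF χ (red ι lam) (red ι β) * Wt ρ σ lam β

lemma Wt_eq {ρ : ℝ} (hρ : 0 < ρ) (σ : ℝ) (lam β : GaussianInt) : ‖Wt ρ σ lam β‖ =
    Real.exp (-(Real.pi * ρ * normSq (lam : ℂ) / 2)) * gw (1 / (2 * ρ)) (-(lam : ℂ) / 2) β := by
  rw [Wt_norm]
  unfold gw
  rw [← Real.exp_add]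
  congr 1
  have e : normSq ((β : ℂ) - -(lam : ℂ) / 2) = ((β.re : ℝ) + lam.re / 2) ^ 2 + ((β.im : ℝ) + lam.im / 2) ^ 2 := by
    rw [normSq_apply]
    have h1 : ((β : ℂ) - -(lam : ℂ) / 2).re = (β.re : ℝ) + lam.re / 2 := by
      rw [sub_re, ← GaussianInt.intCast_re]
      have : (-(lam : ℂ) / 2).re = -(lam.re : ℝ) / 2 := by
        have h2 : (-(lam : ℂ) / 2) = -(lam : ℂ) / ((2 : ℝ) : ℂ) := by push_cast; rfl
        rw [h2, div_ofReal_re, neg_re, ← GaussianInt.intCast_re]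
      rw [this]; ring
    have h2 : ((β : ℂ) - -(lam : ℂ) / 2).im = (β.im : ℝ) + lam.im / 2 := by
      rw [sub_im, ← GaussianInt.intCast_im]
      have : (-(lam : ℂ) / 2).im = -(lam.im : ℝ) / 2 := by
        have h2 : (-(lam : ℂ) / 2) = -(lam : ℂ) / ((2 : ℝ) : ℂ) := by push_cast; rfl
        rw [h2, div_ofReal_im, neg_im, ← GaussianInt.intCast_im]
      rw [this]; ring
    rw [h1, h2]
    ring
  rw [e, normSq_int, normSq_int, normSq_int, Zsqrtd.re_add, Zsqrtd.im_add]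
  push_cast
  field_simp
  ring

lemma TT_triv {q : ℕ} (χ : DirichletCharacter ℂ q) (ι : ℤ) {ρ : ℝ} (hρ : 0 < ρ) (σ : ℝ)
    (lam : GaussianInt) : ‖TT χ ι ρ σ lam‖ ≤
      Real.exp (-(Real.pi * ρ * normSq (lam : ℂ) / 2)) * GG (1 / (2 * ρ)) := by
  unfold TT
  have hX : 0 < 1 / (2 * ρ) := by positivity
  refine (tsum_of_norm_bounded ((gw_summable hX (-(lam : ℂ) / 2)).mul_left
    (Real.exp (-(Real.pi * ρ * normSq (lam : ℂ) / 2)))).hasSum fun β => ?_).trans ?_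
  · rw [norm_mul, Wt_eq hρ]
    exact mul_le_of_le_one_left (by have := gw_nonneg (1 / (2 * ρ)) (-(lam : ℂ) / 2) β; positivity)
      (FF_norm _ _ _)
  · rw [tsum_mul_left]
    exact mul_le_mul_of_nonneg_left (gw_sum_le hX _) (Real.exp_pos _).le

variable {p ν m : ℕ} {ι : ℤ} {ϖ : GaussianInt}

lemma Fr.nsq_mul (hfr : Fr p ν ι ϖ) (m : ℕ) (l : GaussianInt) :
    normSq ((ϖ ^ m * l : GaussianInt) : ℂ) = (p : ℝ) ^ m * normSq (l : ℂ) := by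
  rw [GaussianInt.toComplex_mul, normSq_mul, hfr.normSq_pow]

lemma Fr.dvd_RL (hfr : Fr p ν ι ϖ) (hm : m < ν) (l : GaussianInt) :
    (p : ℤ) ∣ RL p m ι ϖ l ↔ ϖ ∣ l := (RL_fu hfr hm).dvd_iff (by omega) l

lemma TT_pois [NeZero (p ^ (ν - m))] (hfr : Fr p ν ι ϖ) (hm : 1 ≤ m) (hmν : m < ν)
    {χ : DirichletCharacter ℂ (p ^ ν)} (hχ : χ.IsPrimitive) {l : GaussianInt} (hl : ¬ ϖ ∣ l)
    {ρ : ℝ} (hρ : 0 < ρ) (σ : ℝ) : TT χ ι ρ σ (ϖ ^ m * l) =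
      (((1 / (2 * ρ * (p : ℝ) ^ (ν - m))) *
        Real.exp (-(Real.pi * ρ * normSq ((ϖ ^ m * l : GaussianInt) : ℂ) / 2)) : ℝ) : ℂ) *
      ∑' h, FH (p ^ (ν - m)) (FF χ (red ι (ϖ ^ m * l))) (RJ (ν - m) ϖ h) *
        lp p (ν - m) ϖ (ϖ ^ m * l) h *
        (gw (2 * ρ * (p : ℝ) ^ (ν - m)) (ctr (ν - m) ϖ σ (ϖ ^ m * l)) h : ℂ) := by
  unfold TT
  have hl' : ¬ (p : ℤ) ∣ RL p m ι ϖ l := fun h => hl ((hfr.dvd_RL hmν l).1 h)
  have hper := (Pool.Agent.Y766.R3.get_data Pool.Agent.Y870.R3.phi (u := ν - m - 1) hfr.pr hfr.odd hm hmν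
    (by omega) (by omega) hχ hl').1
  rw [← RL_spec hfr hmν.le] at hper
  exact poisT hfr (Nat.sub_le _ _) hper (FF_norm χ _) hρ σ _

/-- the weight of the elements `ϖ ^ m l` -/
lemma exp_gw (hfr : Fr p ν ι ϖ) {ρ : ℝ} (hρ : 0 < ρ) (m : ℕ) (l : GaussianInt) (c : ℝ) (hc : 0 < c) :
    Real.exp (-(Real.pi * ρ * normSq ((ϖ ^ m * l : GaussianInt) : ℂ) / c)) =
      gw (c / (ρ * (p : ℝ) ^ m)) 0 l := by
  have hp0 : (0 : ℝ) < p := by exact_mod_cast hfr.pr.pos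
  unfold gw
  rw [hfr.nsq_mul, sub_zero]
  congr 1
  field_simp

/-- pointwise bound -/
lemma TT_mid [NeZero (p ^ (ν - m))] (hfr : Fr p ν ι ϖ) (hm : 1 ≤ m) (hmν : 2 * m < ν) (hmν3 : ν ≤ 3 * m)
    {χ : DirichletCharacter ℂ (p ^ ν)} (hχ : χ.IsPrimitive) {l : GaussianInt} (hl : ¬ ϖ ∣ l)
    {ρ : ℝ} (hρ : 0 < ρ) (σ : ℝ) : ‖TT χ ι ρ σ (ϖ ^ m * l)‖ ≤
      gw (2 / (ρ * (p : ℝ) ^ m)) 0 l * ((p : ℝ) ^ (m + 1) * (1 / (ρ * (p : ℝ) ^ (ν - m)) + 2 * CG)) := by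
  have hp0 : (0 : ℝ) < p := by exact_mod_cast hfr.pr.pos
  have hp1 : (1 : ℝ) ≤ p := by exact_mod_cast hfr.pr.one_le
  have hl' : ¬ (p : ℤ) ∣ RL p m ι ϖ l := fun h => hl ((hfr.dvd_RL (by omega) l).1 h)
  have hK0 : 0 < 2 * ρ * (p : ℝ) ^ (ν - m) := by positivity
  rw [TT_pois hfr hm (by omega) hχ hl hρ σ, norm_mul, Complex.norm_real, Real.norm_of_nonneg (by positivity),
    exp_gw hfr hρ m l 2 (by norm_num)]
  obtain ⟨-, Ψ, A, L, d, hΨ1, hΨ2, hA, hL, hFH⟩ :=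
    Pool.Agent.Y766.R3.get_data Pool.Agent.Y870.R3.phi (u := 0) hfr.pr hfr.odd hm (by omega)
      (by omega) (by omega) hχ hl'
  obtain ⟨k1, -, -⟩ := Pool.Agent.Y779.R3.klo p (ν - m) 0 hfr.pr hfr.odd (by omega) (by omega) Ψ hΨ1 hΨ2 A L hA hL
  have hFHb : ∀ j : ℤ, ‖FH (p ^ (ν - m)) (FF χ (red ι (ϖ ^ m * l))) j‖ ≤ 2 * (p : ℝ) ^ (m + 1) := by
    intro j
    rw [RL_spec hfr (by omega), hFH, norm_mul, ← Pool.Agent.Y766.R3.eu_eq, eu_norm, one_mul]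
    refine (k1 j).trans ?_
    have : (p : ℝ) ^ ((ν - m + 1) / 2) ≤ (p : ℝ) ^ (m + 1) := pow_le_pow_right₀ hp1 (by omega)
    linarith
  have hS : ‖∑' h, FH (p ^ (ν - m)) (FF χ (red ι (ϖ ^ m * l))) (RJ (ν - m) ϖ h) *
        lp p (ν - m) ϖ (ϖ ^ m * l) h *
        (gw (2 * ρ * (p : ℝ) ^ (ν - m)) (ctr (ν - m) ϖ σ (ϖ ^ m * l)) h : ℂ)‖ ≤
      2 * (p : ℝ) ^ (m + 1) * (1 + CG * (2 * ρ * (p : ℝ) ^ (ν - m))) := by
    refine (tsum_of_norm_bounded ((gw_summable hK0 (ctr (ν - m) ϖ σ (ϖ ^ m * l))).mul_left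
      (2 * (p : ℝ) ^ (m + 1))).hasSum fun h => ?_).trans ?_
    · rw [norm_mul, norm_mul, (lp_ch _ _ _ _).nrm, mul_one, Complex.norm_real,
        Real.norm_of_nonneg (gw_nonneg _ _ _)]
      exact mul_le_mul_of_nonneg_right (hFHb _) (gw_nonneg _ _ _)
    · rw [tsum_mul_left]
      exact mul_le_mul_of_nonneg_left ((gw_sum_le hK0 _).trans (GG_le hK0)) (by positivity)
  calc _ ≤ 1 / (2 * ρ * (p : ℝ) ^ (ν - m)) * gw (2 / (ρ * (p : ℝ) ^ m)) 0 l *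
        (2 * (p : ℝ) ^ (m + 1) * (1 + CG * (2 * ρ * (p : ℝ) ^ (ν - m)))) := by
        have := gw_nonneg (2 / (ρ * (p : ℝ) ^ m)) 0 l
        gcongr
    _ = _ := by
        field_simp

/-- finite sums over nonzero elements -/
lemma nz_fin {X : ℝ} (hX : 0 < X) (s : Finset GaussianInt) (hs : ∀ l ∈ s, l ≠ 0) :
    ∑ l ∈ s, gw X 0 l ≤ CG * X := by
  refine le_trans ?_ (nz_le hX)
  calc ∑ l ∈ s, gw X 0 l = ∑ l ∈ s, (if l = 0 then 0 else gw X 0 l) := by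
        refine sum_congr rfl fun l hl => ?_
        rw [if_neg (hs l hl)]
    _ ≤ _ := (nz_summable hX).sum_le_tsum s fun l _ => by
        split_ifs
        · exact le_rfl
        · exact gw_nonneg _ _ _

/-- the main range -/
theorem off_main : ∃ C : ℝ, 0 < C ∧ ∀ p : ℕ, p.Prime → 7 ≤ p →
    ∀ (ν m s : ℕ) (ι : ℤ) (ϖ : GaussianInt) [NeZero (p ^ (ν - m))], Fr p ν ι ϖ →
      1 ≤ m → 1 ≤ s → ν = 3 * m + s → 19 * s ≤ m →
    ∀ χ : DirichletCharacter ℂ (p ^ ν), χ.IsPrimitive → ∀ ρ σ u : ℝ, 0 < ρ → ρ ≤ u → |σ| ≤ u →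
      1 ≤ u ^ 2 * (p : ℝ) ^ ν → 1 ≤ 4 / (ρ * (p : ℝ) ^ m) →
    ∀ S : Finset GaussianInt, (∀ l ∈ S, ¬ ϖ ∣ l) →
      ∑ l ∈ S, ‖TT χ ι ρ σ (ϖ ^ m * l)‖ ≤ C * (p : ℝ) ^ 4 * (1 + ν) * (u / ρ) ^ 3 * (1 / u) := by
  obtain ⟨Cm, hCm, hmean⟩ := mean_g
  have hCG := CG_one
  refine ⟨64 * CG ^ 2 * Real.sqrt Cm, by positivity, ?_⟩
  intro p hp hp7 ν m s ι ϖ _ hfr hm hs hν h19 χ hχ ρ σ u hρ hρu hσu huq hY1 S hS
  have hp0 : (0 : ℝ) < p := by exact_mod_cast hp.pos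
  have hp1 : (1 : ℝ) ≤ p := by exact_mod_cast hp.one_le
  have hu0 : 0 < u := by linarith
  obtain ⟨r, hr⟩ : ∃ r, r = ν - m := ⟨_, rfl⟩
  obtain ⟨K, hKd⟩ : ∃ K : ℝ, K = 8 * (p : ℝ) ^ (r + 1) * u ^ 2 / ρ := ⟨_, rfl⟩
  obtain ⟨K0, hK0d⟩ : ∃ K0 : ℝ, K0 = 2 * ρ * (p : ℝ) ^ r := ⟨_, rfl⟩
  obtain ⟨Y, hYd⟩ : ∃ Y : ℝ, Y = 4 / (ρ * (p : ℝ) ^ m) := ⟨_, rfl⟩
  have hK0 : 0 < K0 := by rw [hK0d]; positivity
  have hY0 : 0 < Y := by rw [hYd]; positivity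
  have hKpos : 0 < K := by rw [hKd]; positivity
  -- the size of `K`
  have hκK : (p : ℝ) ^ ((m + 11 * s + 2) / 3) ≤ K := by
    refine le_of_pow_le_pow_left₀ (n := 2) (by norm_num) hKpos.le ?_
    have e1 : ((p : ℝ) ^ ((m + 11 * s + 2) / 3)) ^ 2 ≤ (p : ℝ) ^ (m + s + 2) := by
      rw [← pow_mul]
      exact pow_le_pow_right₀ hp1 (by omega)
    have e2 : (p : ℝ) ^ (r + 1) * u ≤ K := by
      rw [hKd, le_div_iff₀ hρ]
      have h1 : 0 < (p : ℝ) ^ (r + 1) := by positivity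
      have h2 : u * ρ ≤ u ^ 2 := by nlinarith
      nlinarith [mul_le_mul_of_nonneg_left h2 h1.le, mul_pos h1 (pow_pos hu0 2)]
    have e3 : (p : ℝ) ^ (m + s + 2) ≤ ((p : ℝ) ^ (r + 1) * u) ^ 2 := by
      have e4 : ((p : ℝ) ^ (r + 1) * u) ^ 2 = (p : ℝ) ^ (m + s + 2) * (u ^ 2 * (p : ℝ) ^ ν) := by
        have : ((p : ℝ) ^ (r + 1)) ^ 2 = (p : ℝ) ^ (m + s + 2) * (p : ℝ) ^ ν := by
          rw [← pow_mul, ← pow_add]; congr 1; omega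
        rw [mul_pow, this]; ring
      rw [e4]
      exact le_mul_of_one_le_right (by positivity) huq
    calc _ ≤ (p : ℝ) ^ (m + s + 2) := e1
      _ ≤ ((p : ℝ) ^ (r + 1) * u) ^ 2 := e3
      _ ≤ K ^ 2 := by gcongr
  have hK1 : 1 ≤ K := le_trans (one_le_pow₀ hp1) hκK
  have hYK : (p : ℝ) ^ (m + s) ≤ Y * K := by
    have e1 : Y * K = 32 * (p : ℝ) ^ (m + s + 1) * (u ^ 2 / ρ ^ 2) := by
      have : (p : ℝ) ^ (r + 1) = (p : ℝ) ^ (m + s + 1) * (p : ℝ) ^ m := by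
        rw [← pow_add]; congr 1; omega
      rw [hYd, hKd, this]
      field_simp
      ring
    rw [e1]
    have e2 : 1 ≤ u ^ 2 / ρ ^ 2 := by
      rw [one_le_div (by positivity)]
      exact pow_le_pow_left₀ hρ.le hρu 2
    have e3 : (p : ℝ) ^ (m + s) ≤ (p : ℝ) ^ (m + s + 1) := pow_le_pow_right₀ hp1 (by omega)
    have e4 : 0 < (p : ℝ) ^ (m + s + 1) := by positivity
    nlinarith
  have hKK0 : 4 * σ ^ 2 * (p : ℝ) ^ r ≤ ρ * (K - K0) := by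
    have hσ2 : σ ^ 2 ≤ u ^ 2 := sq_le_sq' (by linarith [neg_abs_le σ]) (by linarith [le_abs_self σ])
    have hρ2 : ρ ^ 2 ≤ u ^ 2 := pow_le_pow_left₀ hρ.le hρu 2
    have e1 : ρ * (K - K0) = (8 * p * u ^ 2 - 2 * ρ ^ 2) * (p : ℝ) ^ r := by
      rw [hKd, hK0d, pow_succ]
      field_simp
    rw [e1]
    refine mul_le_mul_of_nonneg_right ?_ (by positivity)
    nlinarith [pow_pos hu0 2]
  have hK0K : K0 < K := by
    have hρ2 : ρ ^ 2 ≤ u ^ 2 := pow_le_pow_left₀ hρ.le hρu 2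
    rw [hKd, hK0d, lt_div_iff₀ hρ, pow_succ]
    have h1 : 0 < (p : ℝ) ^ r := by positivity
    have h2 : 2 * ρ ^ 2 < 8 * p * u ^ 2 := by nlinarith [pow_pos hu0 2]
    nlinarith [mul_lt_mul_of_pos_left h2 h1]
  have hGY := GG_pos hY0
  have hGK := GG_pos hKpos
  obtain ⟨V, hVd⟩ : ∃ V : ℝ, V = GG Y * GG K * (p : ℝ) ^ m * (Real.sqrt Cm * (p : ℝ) ^ 3 * (1 + ν)) := ⟨_, rfl⟩
  have hV0 : 0 ≤ V := by rw [hVd]; positivity
  -- the family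
  obtain ⟨G, hGd⟩ : ∃ G : GaussianInt → GaussianInt → ℂ, G = fun l h =>
    FH (p ^ (ν - m)) (FF χ (red ι (ϖ ^ m * l))) (RJ (ν - m) ϖ h) * lp p (ν - m) ϖ (ϖ ^ m * l) h := ⟨_, rfl⟩
  have hGb : ∀ l h, ‖G l h‖ ≤ ((p ^ (ν - m) : ℕ) : ℝ) := by
    intro l h
    rw [hGd]
    simp only
    rw [norm_mul, (lp_ch _ _ _ _).nrm, mul_one]
    exact FH_norm _ (FF_norm _ _) _
  have hwt : ∀ l, 0 ≤ wt ϖ Y l := by
    intro l
    unfold wt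
    split_ifs
    · exact le_rfl
    · exact gw_nonneg _ _ _
  have hwle : ∀ l, wt ϖ Y l ≤ gw Y 0 l := by
    intro l
    unfold wt
    split_ifs
    · exact gw_nonneg _ _ _
    · exact le_rfl
  have hVx : ∀ x : EP, ∑ l ∈ S, wt ϖ Y l * ‖∑' h, G l h * ex x h * (gw K 0 h : ℂ)‖ ≤ V := by
    intro x
    refine le_of_pow_le_pow_left₀ (n := 2) (by norm_num) hV0 ?_
    have hcs : (∑ l ∈ S, wt ϖ Y l * ‖∑' h, G l h * ex x h * (gw K 0 h : ℂ)‖) ^ 2 ≤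
        (∑ l ∈ S, wt ϖ Y l) * ∑ l ∈ S, wt ϖ Y l * ‖∑' h, G l h * ex x h * (gw K 0 h : ℂ)‖ ^ 2 := by
      refine sum_sq_le_sum_mul_sum_of_sq_le_mul S (fun l _ => hwt l)
        (fun l _ => mul_nonneg (hwt l) (sq_nonneg _)) (fun l _ => le_of_eq ?_)
      ring
    have h1 : ∑ l ∈ S, wt ϖ Y l ≤ GG Y := by
      calc ∑ l ∈ S, wt ϖ Y l ≤ ∑ l ∈ S, gw Y 0 l := sum_le_sum fun l _ => hwle l
        _ ≤ GG Y := (gw_summable hY0 0).sum_le_tsum S fun l _ => gw_nonneg _ _ _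
    have hm2 := hmean p hp hp7 ν m s ι ϖ hfr hm hs hν h19 χ hχ Y K hY0 hκK hYK
      (fun l h => lp p (ν - m) ϖ (ϖ ^ m * l) h * ex x h) (fun l => by
        constructor
        · intro h
          rw [norm_mul, (lp_ch _ _ _ _).nrm, ex_norm, one_mul]
        · intro h h'
          rw [(lp_ch _ _ _ _).add, GaussianInt.toComplex_add, ex_add]
          ring) 0
    have e1 : ∀ l, wt ϖ Y l * ‖∑' h, FH (p ^ (ν - m)) (FF χ (red ι (ϖ ^ m * l))) (RJ (ν - m) ϖ h) *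
        (lp p (ν - m) ϖ (ϖ ^ m * l) h * ex x h) * (gw K 0 h : ℂ)‖ ^ 2 =
        wt ϖ Y l * ‖∑' h, G l h * ex x h * (gw K 0 h : ℂ)‖ ^ 2 := by
      intro l
      congr 3
      refine tsum_congr fun h => ?_
      rw [hGd]
      ring
    simp_rw [e1] at hm2
    have hsm : Summable fun l => wt ϖ Y l * ‖∑' h, G l h * ex x h * (gw K 0 h : ℂ)‖ ^ 2 := by
      refine Summable.of_nonneg_of_le (fun l => mul_nonneg (hwt l) (sq_nonneg _)) (fun l => ?_)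
        ((gw_summable hY0 0).mul_right ((((p ^ (ν - m) : ℕ) : ℝ) * GG K) ^ 2))
      refine mul_le_mul (hwle l) ?_ (sq_nonneg _) (gw_nonneg _ _ _)
      refine pow_le_pow_left₀ (norm_nonneg _) ?_ 2
      refine (tsum_of_norm_bounded ((gw_summable hKpos 0).mul_left ((p ^ (ν - m) : ℕ) : ℝ)).hasSum
        fun h => ?_).trans ?_
      · rw [norm_mul, norm_mul, ex_norm, mul_one, Complex.norm_real, Real.norm_of_nonneg (gw_nonneg _ _ _)]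
        exact mul_le_mul_of_nonneg_right (hGb l h) (gw_nonneg _ _ _)
      · rw [tsum_mul_left]
        rfl
    have h2 : ∑ l ∈ S, wt ϖ Y l * ‖∑' h, G l h * ex x h * (gw K 0 h : ℂ)‖ ^ 2 ≤
        Cm * (p : ℝ) ^ 6 * (1 + ν) * GG Y * GG K ^ 2 * ((p : ℝ) ^ m) ^ 2 :=
      (hsm.sum_le_tsum S fun l _ => mul_nonneg (hwt l) (sq_nonneg _)).trans hm2
    calc _ ≤ (∑ l ∈ S, wt ϖ Y l) * ∑ l ∈ S, wt ϖ Y l * ‖∑' h, G l h * ex x h * (gw K 0 h : ℂ)‖ ^ 2 := hcs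
      _ ≤ GG Y * (Cm * (p : ℝ) ^ 6 * (1 + ν) * GG Y * GG K ^ 2 * ((p : ℝ) ^ m) ^ 2) :=
          mul_le_mul h1 h2 (sum_nonneg fun l _ => mul_nonneg (hwt l) (sq_nonneg _)) hGY.le
      _ ≤ GG Y * (Cm * (p : ℝ) ^ 6 * (1 + ν) ^ 2 * GG Y * GG K ^ 2 * ((p : ℝ) ^ m) ^ 2) := by
          have : (1 + (ν : ℝ)) ≤ (1 + (ν : ℝ)) ^ 2 := le_self_pow₀ (by linarith [Nat.cast_nonneg (α := ℝ) ν])
            (by norm_num)
          gcongr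
      _ = V ^ 2 := by
          rw [hVd]
          have hsq : Real.sqrt Cm ^ 2 = Cm := Real.sq_sqrt hCm.le
          linear_combination (-(GG Y * GG K * (p : ℝ) ^ m * ((p : ℝ) ^ 3 * (1 + ν))) ^ 2) * hsq
  have hsep := sep hK0 hK0K G hGb (fun l => ctr (ν - m) ϖ σ (ϖ ^ m * l)) hwt S hVx
  have hone : ∀ l ∈ S, ‖TT χ ι ρ σ (ϖ ^ m * l)‖ ≤ 1 / (2 * ρ * (p : ℝ) ^ r) *
      (wt ϖ Y l * (Real.exp (-(Real.pi * normSq (ctr (ν - m) ϖ σ (ϖ ^ m * l)) / (K - K0))) *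
      ‖∑' h, G l h * (gw K0 (ctr (ν - m) ϖ σ (ϖ ^ m * l)) h : ℂ)‖)) := by
    intro l hl
    rw [TT_pois hfr hm (by omega) hχ (hS l hl) hρ σ, norm_mul, Complex.norm_real,
      Real.norm_of_nonneg (by positivity), ← hr, ← hK0d]
    have e1 : Real.exp (-(Real.pi * ρ * normSq ((ϖ ^ m * l : GaussianInt) : ℂ) / 2)) =
        wt ϖ Y l * Real.exp (-(Real.pi * ρ * normSq ((ϖ ^ m * l : GaussianInt) : ℂ) / 4)) := by
      unfold wt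
      rw [if_neg (hS l hl), hYd, ← exp_gw hfr hρ m l 4 (by norm_num), ← Real.exp_add]
      congr 1
      ring
    have e2 : Real.exp (-(Real.pi * ρ * normSq ((ϖ ^ m * l : GaussianInt) : ℂ) / 4)) ≤
        Real.exp (-(Real.pi * normSq (ctr r ϖ σ (ϖ ^ m * l)) / (K - K0))) := by
      apply Real.exp_le_exp.2
      rw [ctr_normSq hfr, neg_le_neg_iff, div_le_iff₀ (by linarith)]
      have hn := normSq_nonneg ((ϖ ^ m * l : GaussianInt) : ℂ)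
      have hpi := Real.pi_pos
      have := mul_le_mul_of_nonneg_left hKK0 (mul_nonneg hpi.le hn)
      nlinarith
    rw [e1, hGd, hr]
    rw [hr] at e2
    have hn0 := norm_nonneg (∑' h, FH (p ^ (ν - m)) (FF χ (red ι (ϖ ^ m * l))) (RJ (ν - m) ϖ h) *
        lp p (ν - m) ϖ (ϖ ^ m * l) h * (gw K0 (ctr (ν - m) ϖ σ (ϖ ^ m * l)) h : ℂ))
    have hw0 := hwt l
    calc _ = 1 / K0 * (wt ϖ Y l *
          (Real.exp (-(Real.pi * ρ * normSq ((ϖ ^ m * l : GaussianInt) : ℂ) / 4)) *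
          ‖∑' h, FH (p ^ (ν - m)) (FF χ (red ι (ϖ ^ m * l))) (RJ (ν - m) ϖ h) *
        lp p (ν - m) ϖ (ϖ ^ m * l) h * (gw K0 (ctr (ν - m) ϖ σ (ϖ ^ m * l)) h : ℂ)‖)) := by ring
      _ ≤ _ := by gcongr
  calc ∑ l ∈ S, ‖TT χ ι ρ σ (ϖ ^ m * l)‖ ≤ 1 / (2 * ρ * (p : ℝ) ^ r) * V := by
        refine (sum_le_sum hone).trans ?_
        rw [← mul_sum]
        exact mul_le_mul_of_nonneg_left hsep (by positivity)
    _ ≤ 1 / (2 * ρ * (p : ℝ) ^ r) * ((2 * CG * Y) * (2 * CG * K) * (p : ℝ) ^ m *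
        (Real.sqrt Cm * (p : ℝ) ^ 3 * (1 + ν))) := by
        rw [hVd]
        have g1 : GG Y ≤ 2 * CG * Y := GG_le' (by rw [hYd]; exact hY1)
        have g2 : GG K ≤ 2 * CG * K := GG_le' hK1
        gcongr
    _ = _ := by
        rw [hYd, hKd, pow_succ]
        field_simp
        ring

end Run7.h343.GI
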