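import Pool.Agent.Run7.h343.GI.Off

/-!
The off-diagonal terms, all ranges.
-/

set_option autoImplicit false

namespace Run7.h343.GI

open Complex Finset

/-- trivial bound -/
lemma off_triv {p ν : ℕ} {ι : ℤ} {ϖ : GaussianInt} (hfr : Fr p ν ι ϖ) (m : ℕ)
    (χ : DirichletCharacter ℂ (p ^ ν)) {ρ : ℝ} (hρ : 0 < ρ) (σ : ℝ)
    (S : Finset GaussianInt) (hS : ∀ l ∈ S, l ≠ 0) :
    ∑ l ∈ S, ‖TT χ ι ρ σ (ϖ ^ m * l)‖ ≤ CG * (2 / (ρ * (p : ℝ) ^ m)) * (1 + CG / (2 * ρ)) := by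
  have hp0 : (0 : ℝ) < p := by exact_mod_cast hfr.pr.pos
  have hX : 0 < 2 / (ρ * (p : ℝ) ^ m) := by positivity
  have hCG := CG_one
  have h2 : 0 < 1 / (2 * ρ) := by positivity
  calc ∑ l ∈ S, ‖TT χ ι ρ σ (ϖ ^ m * l)‖ ≤ ∑ l ∈ S, gw (2 / (ρ * (p : ℝ) ^ m)) 0 l * GG (1 / (2 * ρ)) := by
        refine sum_le_sum fun l _ => ?_
        have := TT_triv χ ι hρ σ (ϖ ^ m * l)
        rwa [exp_gw hfr hρ m l 2 (by norm_num)] at this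
    _ = (∑ l ∈ S, gw (2 / (ρ * (p : ℝ) ^ m)) 0 l) * GG (1 / (2 * ρ)) := by rw [sum_mul]
    _ ≤ (CG * (2 / (ρ * (p : ℝ) ^ m))) * (1 + CG / (2 * ρ)) := by
        refine mul_le_mul (nz_fin hX S hS) ?_ (GG_pos h2).le (by positivity)
        refine (GG_le h2).trans (le_of_eq ?_)
        ring

lemma off_triv2 {p ν : ℕ} {ι : ℤ} {ϖ : GaussianInt} (hfr : Fr p ν ι ϖ) {m : ℕ}
    (χ : DirichletCharacter ℂ (p ^ ν)) {ρ u : ℝ} (hρ : 0 < ρ) (hρu : ρ ≤ u) (hu1 : u ≤ 1) (σ : ℝ)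
    (hup : 1 ≤ u * (p : ℝ) ^ m) (S : Finset GaussianInt) (hS : ∀ l ∈ S, l ≠ 0) :
    ∑ l ∈ S, ‖TT χ ι ρ σ (ϖ ^ m * l)‖ ≤ 4 * CG ^ 2 * (u / ρ) ^ 3 * (1 / u) := by
  have hp0 : (0 : ℝ) < p := by exact_mod_cast hfr.pr.pos
  have hu0 : 0 < u := by linarith
  have hCG := CG_one
  refine (off_triv hfr m χ hρ σ S hS).trans ?_
  have h1 : 1 ≤ u / ρ := by rw [one_le_div hρ]; exact hρu
  have h2 : 1 ≤ 1 / ρ := by rw [one_le_div hρ]; linarith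
  have h3 : 1 + CG / (2 * ρ) ≤ 2 * CG * (1 / ρ) := by
    have : CG / (2 * ρ) = CG / 2 * (1 / ρ) := by field_simp
    rw [this]
    nlinarith
  have h4 : 1 / (p : ℝ) ^ m ≤ u := by
    rw [div_le_iff₀ (by positivity)]; exact hup
  calc CG * (2 / (ρ * (p : ℝ) ^ m)) * (1 + CG / (2 * ρ)) ≤
        CG * (2 / (ρ * (p : ℝ) ^ m)) * (2 * CG * (1 / ρ)) := by gcongr
    _ = 4 * CG ^ 2 * (1 / ρ) ^ 2 * (1 / (p : ℝ) ^ m) := by field_simp; ring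
    _ ≤ 4 * CG ^ 2 * (1 / ρ) ^ 2 * u := by gcongr
    _ = 4 * CG ^ 2 * (u / ρ) ^ 2 * (1 / u) := by field_simp
    _ ≤ 4 * CG ^ 2 * (u / ρ) ^ 3 * (1 / u) := by
        have : (u / ρ) ^ 2 ≤ (u / ρ) ^ 3 := pow_le_pow_right₀ h1 (by norm_num)
        gcongr

theorem off_all : ∃ C : ℝ, 0 < C ∧ ∀ p : ℕ, p.Prime → 7 ≤ p →
    ∀ (ν m : ℕ) (ι : ℤ) (ϖ : GaussianInt), Fr p ν ι ϖ →
      1 ≤ m → m < ν → 19 * ν ≤ 58 * m →
    ∀ χ : DirichletCharacter ℂ (p ^ ν), χ.IsPrimitive → ∀ ρ σ u : ℝ, 0 < ρ → ρ ≤ u → |σ| ≤ u →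
      u ≤ 1 → 1 ≤ u ^ 2 * (p : ℝ) ^ ν →
    ∀ S : Finset GaussianInt, (∀ l ∈ S, ¬ ϖ ∣ l) →
      ∑ l ∈ S, ‖TT χ ι ρ σ (ϖ ^ m * l)‖ ≤ C * (p : ℝ) ^ 4 * (1 + ν) * (u / ρ) ^ 3 * (1 / u) := by
  obtain ⟨C1, hC1, hmain⟩ := off_main
  have hCG := CG_one
  refine ⟨C1 + 6 * CG ^ 2, by positivity, ?_⟩
  intro p hp hp7 ν m ι ϖ hfr hm hmν h19 χ hχ ρ σ u hρ hρu hσu hu1 huq S hS
  haveI : NeZero (p ^ (ν - m)) := ⟨pow_ne_zero _ hp.ne_zero⟩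
  have hp0 : (0 : ℝ) < p := by exact_mod_cast hp.pos
  have hp1 : (1 : ℝ) ≤ p := by exact_mod_cast hp.one_le
  have hu0 : 0 < u := by linarith
  have h1 : 1 ≤ u / ρ := by rw [one_le_div hρ]; exact hρu
  have hS0 : ∀ l ∈ S, l ≠ 0 := fun l hl h => hS l hl (by rw [h]; exact dvd_zero _)
  have hp4 : 1 ≤ (p : ℝ) ^ 4 := one_le_pow₀ hp1
  have hν1 : 1 ≤ 1 + (ν : ℝ) := by linarith [Nat.cast_nonneg (α := ℝ) ν]
  have h13 : (u / ρ) ^ 2 ≤ (u / ρ) ^ 3 := pow_le_pow_right₀ h1 (by norm_num)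
  have hfin : ∀ c : ℝ, 0 ≤ c → c ≤ C1 + 6 * CG ^ 2 → c * (u / ρ) ^ 3 * (1 / u) ≤
      (C1 + 6 * CG ^ 2) * (p : ℝ) ^ 4 * (1 + ν) * (u / ρ) ^ 3 * (1 / u) := by
    intro c hc hcc
    have e1 : c ≤ (C1 + 6 * CG ^ 2) * (p : ℝ) ^ 4 * (1 + ν) := by
      calc c ≤ (C1 + 6 * CG ^ 2) * 1 * 1 := by linarith
        _ ≤ _ := by gcongr
    gcongr
  rcases le_or_gt ν (2 * m) with hA | hA
  · refine (off_triv2 hfr χ hρ hρu hu1 σ ?_ S hS0).trans (hfin _ (by positivity) (by nlinarith))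
    refine le_of_pow_le_pow_left₀ (n := 2) (by norm_num) (by positivity) ?_
    rw [one_pow, mul_pow, ← pow_mul]
    refine huq.trans ?_
    have : (p : ℝ) ^ ν ≤ (p : ℝ) ^ (m * 2) := pow_le_pow_right₀ hp1 (by omega)
    gcongr
  rcases le_or_gt ν (3 * m) with hB | hB
  · have hX : 0 < 2 / (ρ * (p : ℝ) ^ m) := by positivity
    have e1 : 1 / (ρ * (p : ℝ) ^ (ν - m)) ≤ u / ρ := by
      have e2 : 1 ≤ u * (p : ℝ) ^ (ν - m) := by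
        refine le_of_pow_le_pow_left₀ (n := 2) (by norm_num) (by positivity) ?_
        rw [one_pow, mul_pow, ← pow_mul]
        refine huq.trans ?_
        have : (p : ℝ) ^ ν ≤ (p : ℝ) ^ ((ν - m) * 2) := pow_le_pow_right₀ hp1 (by omega)
        gcongr
      rw [div_le_div_iff₀ (by positivity) hρ]
      nlinarith
    calc ∑ l ∈ S, ‖TT χ ι ρ σ (ϖ ^ m * l)‖ ≤ ∑ l ∈ S, gw (2 / (ρ * (p : ℝ) ^ m)) 0 l *
          ((p : ℝ) ^ (m + 1) * (1 / (ρ * (p : ℝ) ^ (ν - m)) + 2 * CG)) :=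
          sum_le_sum fun l hl => TT_mid hfr hm hA hB hχ (hS l hl) hρ σ
      _ = (∑ l ∈ S, gw (2 / (ρ * (p : ℝ) ^ m)) 0 l) *
          ((p : ℝ) ^ (m + 1) * (1 / (ρ * (p : ℝ) ^ (ν - m)) + 2 * CG)) := by rw [sum_mul]
      _ ≤ (CG * (2 / (ρ * (p : ℝ) ^ m))) * ((p : ℝ) ^ (m + 1) * (u / ρ + 2 * CG * (u / ρ))) := by
          refine mul_le_mul (nz_fin hX S hS0) ?_ (by positivity) (by positivity)
          refine mul_le_mul_of_nonneg_left (add_le_add e1 ?_) (by positivity)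
          exact le_mul_of_one_le_right (by positivity) h1
      _ = (2 * CG * (1 + 2 * CG)) * p * (u / ρ) ^ 2 * (1 / u) := by
          rw [pow_succ]
          field_simp
      _ ≤ (C1 + 6 * CG ^ 2) * (p : ℝ) ^ 4 * (u / ρ) ^ 3 * (1 / u) := by
          have g1 : 2 * CG * (1 + 2 * CG) ≤ C1 + 6 * CG ^ 2 := by nlinarith
          have g2 : (p : ℝ) ≤ (p : ℝ) ^ 4 := le_self_pow₀ hp1 (by norm_num)
          gcongr
      _ ≤ _ := by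
          have : (C1 + 6 * CG ^ 2) * (p : ℝ) ^ 4 ≤ (C1 + 6 * CG ^ 2) * (p : ℝ) ^ 4 * (1 + ν) :=
            le_mul_of_one_le_right (by positivity) hν1
          gcongr
  obtain ⟨s, hs⟩ : ∃ s, ν = 3 * m + s := ⟨ν - 3 * m, by omega⟩
  rcases le_or_gt 1 (4 / (ρ * (p : ℝ) ^ m)) with hY | hY
  · refine (hmain p hp hp7 ν m s ι ϖ hfr hm (by omega) hs (by omega) χ hχ ρ σ u hρ hρu hσu huq hY S hS).trans ?_
    have : C1 ≤ C1 + 6 * CG ^ 2 := by nlinarith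
    gcongr
  · refine (off_triv hfr m χ hρ σ S hS0).trans ?_
    have h2 : 1 ≤ 1 / ρ := by rw [one_le_div hρ]; linarith
    have h3 : 1 + CG / (2 * ρ) ≤ 2 * CG * (1 / ρ) := by
      have : CG / (2 * ρ) = CG / 2 * (1 / ρ) := by field_simp
      rw [this]
      nlinarith
    have h4 : 2 / (ρ * (p : ℝ) ^ m) ≤ 1 / 2 := by
      have e : 2 / (ρ * (p : ℝ) ^ m) = 4 / (ρ * (p : ℝ) ^ m) / 2 := by field_simp; norm_num
      rw [e]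
      linarith
    refine le_trans ?_ (hfin (CG ^ 2) (by positivity) (by nlinarith))
    calc CG * (2 / (ρ * (p : ℝ) ^ m)) * (1 + CG / (2 * ρ)) ≤ CG * (1 / 2) * (2 * CG * (1 / ρ)) := by gcongr
      _ = CG ^ 2 * (u / ρ) ^ 1 * (1 / u) := by field_simp
      _ ≤ _ := by
          have : (u / ρ) ^ 1 ≤ (u / ρ) ^ 3 := pow_le_pow_right₀ h1 (by norm_num)
          gcongr

open Classical in
lemma split_pow (ϖ : GaussianInt) (f : GaussianInt → ℝ) (S : Finset GaussianInt) (n : ℕ) :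
    ∑ l ∈ S, f l = ∑ v ∈ range n, ∑ l ∈ S.filter (fun l => ϖ ^ v ∣ l ∧ ¬ ϖ ^ (v + 1) ∣ l), f l +
      ∑ l ∈ S.filter (fun l => ϖ ^ n ∣ l), f l := by
  induction n with
  | zero => simp
  | succ n ih =>
    rw [ih, sum_range_succ, add_assoc]
    congr 1
    rw [← sum_filter_add_sum_filter_not (S.filter (fun l => ϖ ^ n ∣ l)) (fun l => ϖ ^ (n + 1) ∣ l),
      add_comm, filter_filter, filter_filter]
    congr 1
    refine sum_congr ?_ fun _ _ => rfl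
    ext l
    simp only [mem_filter]
    constructor
    · rintro ⟨h1, _, h3⟩
      exact ⟨h1, h3⟩
    · rintro ⟨h1, h3⟩
      exact ⟨h1, (pow_dvd_pow ϖ (Nat.le_succ n)).trans h3, h3⟩

/-- all nonzero `l` -/
theorem off_sum : ∃ C : ℝ, 0 < C ∧ ∀ p : ℕ, p.Prime → 7 ≤ p →
    ∀ (ν m : ℕ) (ι : ℤ) (ϖ : GaussianInt), Fr p ν ι ϖ →
      1 ≤ m → m < ν → 19 * ν ≤ 58 * m →
    ∀ χ : DirichletCharacter ℂ (p ^ ν), χ.IsPrimitive → ∀ ρ σ u : ℝ, 0 < ρ → ρ ≤ u → |σ| ≤ u →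
      u ≤ 1 → 1 ≤ u ^ 2 * (p : ℝ) ^ ν →
    ∀ S : Finset GaussianInt, (∀ l ∈ S, l ≠ 0) →
      ∑ l ∈ S, ‖TT χ ι ρ σ (ϖ ^ m * l)‖ ≤ C * (p : ℝ) ^ 4 * (1 + ν) ^ 2 * (u / ρ) ^ 3 * (1 / u) := by
  classical
  obtain ⟨C1, hC1, hall⟩ := off_all
  have hCG := CG_one
  refine ⟨C1 + 4 * CG ^ 2, by positivity, ?_⟩
  intro p hp hp7 ν m ι ϖ hfr hm hmν h19 χ hχ ρ σ u hρ hρu hσu hu1 huq S hS
  have hp0 : (0 : ℝ) < p := by exact_mod_cast hp.pos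
  have hp1 : (1 : ℝ) ≤ p := by exact_mod_cast hp.one_le
  have hu0 : 0 < u := by linarith
  -- reduction to the quotients
  have hq : ∀ (v : ℕ) (S' : Finset GaussianInt), (∀ l ∈ S', ϖ ^ v ∣ l) →
      ∑ l ∈ S', ‖TT χ ι ρ σ (ϖ ^ m * l)‖ =
        ∑ l ∈ S'.image (fun l => l / ϖ ^ v), ‖TT χ ι ρ σ (ϖ ^ (m + v) * l)‖ := by
    intro v S' hS'
    have hg : ϖ ^ v ≠ 0 := pow_ne_zero v hfr.ne0
    have hc : ∀ l ∈ S', ϖ ^ v * (l / ϖ ^ v) = l := fun l hl => EuclideanDomain.mul_div_cancel' hg (hS' l hl)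
    rw [sum_image]
    · refine sum_congr rfl fun l hl => ?_
      rw [pow_add, mul_assoc, hc l hl]
    · intro l hl l' hl' h
      rw [← hc l hl, ← hc l' hl']
      simp only at h
      rw [h]
  rw [split_pow ϖ _ S (ν - m)]
  have h1 : ∀ v ∈ range (ν - m), ∑ l ∈ S.filter (fun l => ϖ ^ v ∣ l ∧ ¬ ϖ ^ (v + 1) ∣ l),
      ‖TT χ ι ρ σ (ϖ ^ m * l)‖ ≤ C1 * (p : ℝ) ^ 4 * (1 + ν) * (u / ρ) ^ 3 * (1 / u) := by
    intro v hv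
    rw [mem_range] at hv
    rw [hq v _ (fun l hl => (mem_filter.1 hl).2.1)]
    refine hall p hp hp7 ν (m + v) ι ϖ hfr (by omega) (by omega) (by omega) χ hχ ρ σ u hρ hρu hσu hu1 huq _ ?_
    intro l' hl' hd
    rw [mem_image] at hl'
    obtain ⟨l, hl, rfl⟩ := hl'
    rw [mem_filter] at hl
    apply hl.2.2
    have hc := EuclideanDomain.mul_div_cancel' (pow_ne_zero v hfr.ne0) hl.2.1
    rw [← hc, pow_succ]
    exact mul_dvd_mul_left _ hd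
  have h2 : ∑ l ∈ S.filter (fun l => ϖ ^ (ν - m) ∣ l), ‖TT χ ι ρ σ (ϖ ^ m * l)‖ ≤
      4 * CG ^ 2 * (u / ρ) ^ 3 * (1 / u) := by
    rw [hq (ν - m) _ (fun l hl => (mem_filter.1 hl).2)]
    refine off_triv2 hfr χ hρ hρu hu1 σ ?_ _ ?_
    · rw [show m + (ν - m) = ν by omega]
      have : u ^ 2 * (p : ℝ) ^ ν ≤ u * (p : ℝ) ^ ν := by
        refine mul_le_mul_of_nonneg_right ?_ (by positivity)
        nlinarith
      linarith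
    · intro l' hl' h0
      rw [mem_image] at hl'
      obtain ⟨l, hl, rfl⟩ := hl'
      rw [mem_filter] at hl
      have hc := EuclideanDomain.mul_div_cancel' (pow_ne_zero (ν - m) hfr.ne0) hl.2
      rw [h0, mul_zero] at hc
      exact hS l hl.1 hc.symm
  have hp4 : 1 ≤ (p : ℝ) ^ 4 := one_le_pow₀ hp1
  have hν0 : 0 ≤ (ν : ℝ) := Nat.cast_nonneg ν
  have hνm : ((ν - m : ℕ) : ℝ) ≤ ν := by exact_mod_cast Nat.sub_le ν m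
  have hQ : 0 ≤ (u / ρ) ^ 3 * (1 / u) := by positivity
  calc _ ≤ ∑ v ∈ range (ν - m), C1 * (p : ℝ) ^ 4 * (1 + ν) * (u / ρ) ^ 3 * (1 / u) +
        4 * CG ^ 2 * (u / ρ) ^ 3 * (1 / u) := add_le_add (sum_le_sum h1) h2
    _ = ((ν - m : ℕ) : ℝ) * (C1 * (p : ℝ) ^ 4 * (1 + ν) * (u / ρ) ^ 3 * (1 / u)) +
        4 * CG ^ 2 * (u / ρ) ^ 3 * (1 / u) := by rw [sum_const, card_range, nsmul_eq_mul]
    _ ≤ (1 + ν) * (C1 * (p : ℝ) ^ 4 * (1 + ν) * (u / ρ) ^ 3 * (1 / u)) +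
        4 * CG ^ 2 * ((p : ℝ) ^ 4 * (1 + ν) ^ 2) * ((u / ρ) ^ 3 * (1 / u)) := by
        have e1 : 1 ≤ (p : ℝ) ^ 4 * (1 + (ν : ℝ)) ^ 2 := by
          have : (1 : ℝ) ≤ (1 + (ν : ℝ)) ^ 2 := one_le_pow₀ (by linarith)
          nlinarith
        have e2 : ((ν - m : ℕ) : ℝ) ≤ 1 + ν := by linarith
        refine add_le_add (mul_le_mul_of_nonneg_right e2 (by positivity)) ?_
        calc 4 * CG ^ 2 * (u / ρ) ^ 3 * (1 / u) = 4 * CG ^ 2 * 1 * ((u / ρ) ^ 3 * (1 / u)) := by ring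
          _ ≤ _ := by gcongr
    _ = _ := by ring

end Run7.h343.GI
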