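import Pool.Agent.Run7.h343.GI.Mean

/-!
Poisson summation for the correlations of the theta series.
-/

set_option autoImplicit false

namespace Run7.h343.GI

open Complex Finset
open Pool.Agent.Y766.R7
open Pool.Agent.H442R2
open Pool.Agent.Y766
open Pool.Agent.Y766.R3 (eu FF FH)

lemma alg1 (ρ σ c d l1 l2 a h1 h2 P : ℂ) (hP : c ^ 2 + d ^ 2 = P) (hρ : ρ ≠ 0) (hP0 : P ≠ 0) (pi : ℂ) :
    -pi * ((ρ + σ * I) * ((a + l1) ^ 2 + l2 ^ 2) + (ρ - σ * I) * a ^ 2) +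
    pi / (2 * ρ * P) * ((-((ρ + σ * I) * ((a + l1) * c + l2 * d) + (ρ - σ * I) * a * c)) ^ 2 +
      (-((ρ + σ * I) * (-(a + l1) * d + l2 * c) - (ρ - σ * I) * a * d)) ^ 2) +
    (-pi * (1 / (2 * ρ * P)) * (h1 ^ 2 + h2 ^ 2) +
      2 * pi * ((-I * (-((ρ + σ * I) * ((a + l1) * c + l2 * d) + (ρ - σ * I) * a * c)) / (2 * ρ * P)) * h1 +
        (-I * (-((ρ + σ * I) * (-(a + l1) * d + l2 * c) - (ρ - σ * I) * a * d)) / (2 * ρ * P)) * h2)) =
    -pi * ρ * (l1 ^ 2 + l2 ^ 2) / 2 -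
      pi * ((h1 + σ * (c * l1 + d * l2)) ^ 2 + (h2 + σ * (c * l2 - d * l1)) ^ 2) / (2 * ρ * P) +
      2 * pi * I * (a * (c * h1 - d * h2) / P) +
      2 * pi * I * ((l1 * (c * h1 - d * h2) + l2 * (c * h2 + d * h1)) / (2 * P)) := by
  have hI : I ^ 2 = -1 := I_sq
  field_simp
  subst hP
  linear_combination (pi * (σ ^ 2 * ((l1 * c + l2 * d) ^ 2 + (-l1 * d + l2 * c) ^ 2) +
    2 * σ * ((l1 * c + l2 * d) * h1 + (-l1 * d + l2 * c) * h2))) * hI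

lemma exp3 (c E1 E2 E3 E : ℂ) (h : E1 + E2 + E3 = E) :
    cexp E1 * (c * cexp E2 * cexp E3) = c * cexp E := by
  rw [← h, Complex.exp_add, Complex.exp_add]; ring

/-- the correlation weight -/
noncomputable def Wt (ρ σ : ℝ) (lam β : GaussianInt) : ℂ :=
  cexp (-Real.pi * ((ρ + σ * I) * ((β.re + lam.re) ^ 2 + (β.im + lam.im) ^ 2) +
    (ρ - σ * I) * (β.re ^ 2 + β.im ^ 2)))

/-- a linear phase -/
noncomputable def lp (p r : ℕ) (ϖ lam h : GaussianInt) : ℂ :=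
  cexp (2 * Real.pi * I * ((lam.re * ((ϖ ^ r).re * h.re - (ϖ ^ r).im * h.im) +
    lam.im * ((ϖ ^ r).re * h.im + (ϖ ^ r).im * h.re)) / (2 * (p : ℂ) ^ r)))

/-- the centre of the dual weight -/
noncomputable def ctr (r : ℕ) (ϖ : GaussianInt) (σ : ℝ) (lam : GaussianInt) : ℂ :=
  ⟨-(σ * ((ϖ ^ r).re * lam.re + (ϖ ^ r).im * lam.im)), -(σ * ((ϖ ^ r).re * lam.im - (ϖ ^ r).im * lam.re))⟩

lemma lp_ch (p r : ℕ) (ϖ lam : GaussianInt) : IsCh (lp p r ϖ lam) := by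
  constructor
  · intro h
    unfold lp
    have e : (2 * Real.pi * I * ((lam.re * ((ϖ ^ r).re * h.re - (ϖ ^ r).im * h.im) +
        lam.im * ((ϖ ^ r).re * h.im + (ϖ ^ r).im * h.re)) / (2 * (p : ℂ) ^ r)) : ℂ) =
        ((2 * Real.pi * ((lam.re * ((ϖ ^ r).re * h.re - (ϖ ^ r).im * h.im) +
        lam.im * ((ϖ ^ r).re * h.im + (ϖ ^ r).im * h.re)) / (2 * (p : ℝ) ^ r)) : ℝ) : ℂ) * I := by
      push_cast; ring
    rw [e, Complex.norm_exp_ofReal_mul_I]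
  · intro h h'
    unfold lp
    rw [← Complex.exp_add]
    congr 1
    rw [Zsqrtd.re_add, Zsqrtd.im_add]
    push_cast
    ring

lemma normSq_int (x : GaussianInt) : normSq (x : ℂ) = (x.re : ℝ) ^ 2 + (x.im : ℝ) ^ 2 := by
  rw [normSq_apply, ← GaussianInt.intCast_re, ← GaussianInt.intCast_im]
  ring

lemma Wt_norm (ρ σ : ℝ) (lam β : GaussianInt) : ‖Wt ρ σ lam β‖ =
    Real.exp (-(Real.pi * ρ * (normSq ((β + lam : GaussianInt) : ℂ) + normSq (β : ℂ)))) := by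
  unfold Wt
  rw [Complex.norm_exp]
  congr 1
  have e : (-Real.pi * ((ρ + σ * I) * ((β.re + lam.re) ^ 2 + (β.im + lam.im) ^ 2) +
    (ρ - σ * I) * (β.re ^ 2 + β.im ^ 2)) : ℂ) =
    ((-(Real.pi * ρ * (normSq ((β + lam : GaussianInt) : ℂ) + normSq (β : ℂ))) : ℝ) : ℂ) +
    ((-(Real.pi * σ * (normSq ((β + lam : GaussianInt) : ℂ) - normSq (β : ℂ))) : ℝ) : ℂ) * I := by
    rw [normSq_int, normSq_int, Zsqrtd.re_add, Zsqrtd.im_add]
    push_cast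
    ring
  rw [e, add_re, ofReal_re, re_ofReal_mul, I_re, mul_zero, add_zero]

lemma Wt_le (ρ σ : ℝ) (hρ : 0 < ρ) (lam β : GaussianInt) : ‖Wt ρ σ lam β‖ ≤ gw (1 / ρ) 0 β := by
  rw [Wt_norm]
  unfold gw
  apply Real.exp_le_exp.2
  rw [sub_zero]
  have h1 := normSq_nonneg ((β + lam : GaussianInt) : ℂ)
  have h2 := normSq_nonneg (β : ℂ)
  have e : Real.pi * normSq (β : ℂ) / (1 / ρ) = Real.pi * ρ * normSq (β : ℂ) := by
    field_simp
  rw [e]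
  have hpi := Real.pi_pos
  nlinarith [mul_nonneg (mul_nonneg hpi.le hρ.le) h1]

variable {p ν r : ℕ} {ι : ℤ} {ϖ : GaussianInt}

lemma Fr.nsq (h : Fr p ν ι ϖ) (r : ℕ) : (ϖ ^ r).re ^ 2 + (ϖ ^ r).im ^ 2 = (p : ℤ) ^ r := by
  have h1 := h.normSq_pow r
  rw [normSq_int] at h1
  exact_mod_cast h1

lemma ctr_normSq (h : Fr p ν ι ϖ) (r : ℕ) (σ : ℝ) (lam : GaussianInt) :
    normSq (ctr r ϖ σ lam) = σ ^ 2 * (p : ℝ) ^ r * normSq (lam : ℂ) := by
  have h1 : (((ϖ ^ r).re : ℝ)) ^ 2 + ((ϖ ^ r).im : ℝ) ^ 2 = (p : ℝ) ^ r := by exact_mod_cast h.nsq r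
  rw [normSq_int, ← h1]
  unfold ctr
  rw [normSq_apply]
  ring

theorem poisT (hfr : Fr p ν ι ϖ) (hr : r ≤ ν) {F : ℤ → ℂ} (hF : ∀ n k : ℤ, F (n + (p ^ r : ℕ) * k) = F n)
    (hF1 : ∀ n, ‖F n‖ ≤ 1) {ρ : ℝ} (hρ : 0 < ρ) (σ : ℝ) (lam : GaussianInt) :
    ∑' β, F (red ι β) * Wt ρ σ lam β =
      (((1 / (2 * ρ * (p : ℝ) ^ r)) * Real.exp (-(Real.pi * ρ * normSq (lam : ℂ) / 2)) : ℝ) : ℂ) *
      ∑' h, FH (p ^ r) F (RJ r ϖ h) * lp p r ϖ lam h *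
        (gw (2 * ρ * (p : ℝ) ^ r) (ctr r ϖ σ lam) h : ℂ) := by
  have hp0 : (0 : ℝ) < p := by exact_mod_cast hfr.pr.pos
  obtain ⟨P, hP⟩ : ∃ P : ℝ, P = (p : ℝ) ^ r := ⟨_, rfl⟩
  have hP0 : 0 < P := by rw [hP]; positivity
  obtain ⟨c, hc⟩ : ∃ c : ℤ, c = (ϖ ^ r).re := ⟨_, rfl⟩
  obtain ⟨d, hd⟩ : ∃ d : ℤ, d = (ϖ ^ r).im := ⟨_, rfl⟩
  have hcd : (c : ℂ) ^ 2 + (d : ℂ) ^ 2 = (P : ℂ) := by
    have h1 := hfr.nsq r
    rw [← hc, ← hd] at h1
    rw [hP]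
    exact_mod_cast h1
  have hρC : (ρ : ℂ) ≠ 0 := by exact_mod_cast hρ.ne'
  have hPC : (P : ℂ) ≠ 0 := by exact_mod_cast hP0.ne'
  have hA0 : 0 < ((2 * ρ * P : ℂ)).re := by
    have : (2 * ρ * P : ℂ) = ((2 * ρ * P : ℝ) : ℂ) := by push_cast; ring
    rw [this, ofReal_re]
    positivity
  have hsum : Summable fun β => F (red ι β) * Wt ρ σ lam β := by
    refine Summable.of_norm_bounded (gw_summable (X := 1 / ρ) (by positivity) 0) fun β => ?_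
    rw [norm_mul]
    calc _ ≤ 1 * gw (1 / ρ) 0 β := mul_le_mul (hF1 _) (Wt_le ρ σ hρ lam β) (norm_nonneg _) zero_le_one
      _ = _ := one_mul _
  rw [hfr.tsum_dec hr hsum]
  have hper : ∀ (a : ℕ) (x : GaussianInt), F (red ι ((a : GaussianInt) + ϖ ^ r * x)) = F a := by
    intro a x
    obtain ⟨k, hk⟩ := hfr.dvd_red_mul hr x
    rw [red_add, hk]
    have e1 : red ι ((a : ℕ) : GaussianInt) = a := by
      have := red_int ι a
      simpa using this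
    rw [e1]
    have := hF a k
    push_cast at this
    exact this
  obtain ⟨T, hT⟩ : ∃ T : ℝ, T = (1 / (2 * ρ * P)) * Real.exp (-(Real.pi * ρ * normSq (lam : ℂ) / 2)) :=
    ⟨_, rfl⟩
  obtain ⟨G, hG⟩ : ∃ G : GaussianInt → ℂ, G = fun h => lp p r ϖ lam h *
    (gw (2 * ρ * P) (ctr r ϖ σ lam) h : ℂ) := ⟨_, rfl⟩
  -- one residue class
  have hcls : ∀ a : ℕ, ∑' x, Wt ρ σ lam ((a : GaussianInt) + ϖ ^ r * x) =
      (T : ℂ) * ∑' h, KF.e ((RJ r ϖ h : ℝ) * ((a : ℝ) / (p ^ r : ℕ))) * G h := by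
    intro a
    obtain ⟨b1, hb1⟩ : ∃ b1 : ℂ, b1 = -((ρ + σ * I) * ((a + lam.re) * c + lam.im * d) + (ρ - σ * I) * a * c) :=
      ⟨_, rfl⟩
    obtain ⟨b2, hb2⟩ : ∃ b2 : ℂ, b2 = -((ρ + σ * I) * (-(a + lam.re) * d + lam.im * c) - (ρ - σ * I) * a * d) :=
      ⟨_, rfl⟩
    have e1 : ∀ x : GaussianInt, Wt ρ σ lam ((a : GaussianInt) + ϖ ^ r * x) =
        cexp (-Real.pi * ((ρ + σ * I) * ((a + lam.re) ^ 2 + lam.im ^ 2) + (ρ - σ * I) * a ^ 2)) *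
          EE (2 * ρ * P) b1 b2 x := by
      intro x
      unfold Wt EE
      rw [← Complex.exp_add]
      congr 1
      have r1 : ((a : GaussianInt) + ϖ ^ r * x).re = a + (c * x.re - d * x.im) := by
        rw [Zsqrtd.re_add, Zsqrtd.re_mul, ← hc, ← hd]
        simp
        ring
      have r2 : ((a : GaussianInt) + ϖ ^ r * x).im = c * x.im + d * x.re := by
        rw [Zsqrtd.im_add, Zsqrtd.im_mul, ← hc, ← hd]
        simp
      rw [r1, r2, hb1, hb2, ← hcd]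
      push_cast
      ring
    simp_rw [e1]
    rw [tsum_mul_left, poisson hA0, ← tsum_mul_left, ← tsum_mul_left, ← tsum_mul_left]
    refine tsum_congr fun h => ?_
    rw [hT, hG]
    unfold EE lp gw KF.e
    simp only
    have e2 : ((RJ r ϖ h : ℤ) : ℂ) = c * h.re - d * h.im := by
      unfold RJ
      rw [Zsqrtd.re_mul, ← hc, ← hd]
      push_cast
      ring
    have e3 : normSq ((h : ℂ) - ctr r ϖ σ lam) = (h.re + σ * (c * lam.re + d * lam.im)) ^ 2 +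
        (h.im + σ * (c * lam.im - d * lam.re)) ^ 2 := by
      rw [normSq_apply]
      unfold ctr
      rw [sub_re, sub_im, ← GaussianInt.intCast_re, ← GaussianInt.intCast_im, ← hc, ← hd]
      ring
    have e4 : normSq (lam : ℂ) = (lam.re : ℝ) ^ 2 + (lam.im : ℝ) ^ 2 := normSq_int lam
    have key := alg1 ρ σ c d lam.re lam.im a h.re h.im P hcd hρC hPC Real.pi
    rw [← hb1, ← hb2] at key
    rw [e3, e4, ← hc, ← hd]
    have hpr : ((p : ℂ)) ^ r = (P : ℂ) := by rw [hP]; push_cast; rfl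
    rw [hpr]
    have hpr2 : (((p ^ r : ℕ) : ℝ)) = P := by rw [hP]; push_cast; rfl
    rw [hpr2]
    have k2 : cexp (-Real.pi * ((ρ + σ * I) * ((a + lam.re) ^ 2 + lam.im ^ 2) + (ρ - σ * I) * a ^ 2)) *
        (1 / (2 * ρ * P) * cexp (Real.pi / (2 * ρ * P) * (b1 ^ 2 + b2 ^ 2)) *
        cexp (-Real.pi * (1 / (2 * ρ * P)) * (h.re ^ 2 + h.im ^ 2) + 2 * Real.pi * (-I * b1 / (2 * ρ * P) * h.re +
          -I * b2 / (2 * ρ * P) * h.im))) = 1 / (2 * ρ * P) * cexp (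
          -Real.pi * ρ * (lam.re ^ 2 + lam.im ^ 2) / 2 -
      Real.pi * ((h.re + σ * (c * lam.re + d * lam.im)) ^ 2 + (h.im + σ * (c * lam.im - d * lam.re)) ^ 2) / (2 * ρ * P) +
      2 * Real.pi * I * (a * (c * h.re - d * h.im) / P) +
      2 * Real.pi * I * ((lam.re * (c * h.re - d * h.im) + lam.im * (c * h.im + d * h.re)) / (2 * P))) := by
      exact exp3 _ _ _ _ _ key
    rw [k2]
    push_cast
    rw [e2]
    have k3 : cexp (-Real.pi * ρ * (lam.re ^ 2 + lam.im ^ 2) / 2 -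
      Real.pi * ((h.re + σ * (c * lam.re + d * lam.im)) ^ 2 + (h.im + σ * (c * lam.im - d * lam.re)) ^ 2) / (2 * ρ * P) +
      2 * Real.pi * I * (a * (c * h.re - d * h.im) / P) +
      2 * Real.pi * I * ((lam.re * (c * h.re - d * h.im) + lam.im * (c * h.im + d * h.re)) / (2 * P))) =
      cexp (-(Real.pi * ρ * (lam.re ^ 2 + lam.im ^ 2) / 2)) *
      cexp (-(Real.pi * ((h.re + σ * (c * lam.re + d * lam.im)) ^ 2 +
        (h.im + σ * (c * lam.im - d * lam.re)) ^ 2) / (2 * ρ * P))) *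
      cexp (2 * Real.pi * ((c * h.re - d * h.im) * (a / P)) * I) *
      cexp (2 * Real.pi * I * ((lam.re * (c * h.re - d * h.im) + lam.im * (c * h.im + d * h.re)) / (2 * P))) := by
      rw [← Complex.exp_add, ← Complex.exp_add, ← Complex.exp_add]
      congr 1
      ring
    rw [k3]
    ring
  have e5 : ∀ a ∈ range (p ^ r), ∑' x, F (red ι ((a : GaussianInt) + ϖ ^ r * x)) *
      Wt ρ σ lam ((a : GaussianInt) + ϖ ^ r * x) =
      ∑' h, (T : ℂ) * ((F a * KF.e ((RJ r ϖ h : ℝ) * ((a : ℝ) / (p ^ r : ℕ)))) * G h) := by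
    intro a _
    simp_rw [hper]
    rw [tsum_mul_left, hcls, ← tsum_mul_left, ← tsum_mul_left]
    refine tsum_congr fun h => ?_
    ring
  rw [sum_congr rfl e5]
  have hGs : Summable fun h => ‖G h‖ := by
    rw [hG]
    refine (gw_summable (X := 2 * ρ * P) (by positivity) (ctr r ϖ σ lam)).congr fun h => ?_
    rw [norm_mul, (lp_ch p r ϖ lam).nrm, one_mul, Complex.norm_real, Real.norm_of_nonneg (gw_nonneg _ _ _)]
  have hs : ∀ a ∈ range (p ^ r), Summable fun h =>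
      (T : ℂ) * ((F a * KF.e ((RJ r ϖ h : ℝ) * ((a : ℝ) / (p ^ r : ℕ)))) * G h) := by
    intro a _
    refine Summable.mul_left _ ?_
    refine Summable.of_norm_bounded hGs fun h => ?_
    rw [norm_mul, norm_mul, ← Pool.Agent.Y766.R3.eu_eq, eu_norm, mul_one]
    exact mul_le_of_le_one_left (norm_nonneg _) (hF1 _)
  rw [← Summable.tsum_finsetSum hs, ← hP, ← hT, ← tsum_mul_left]
  refine tsum_congr fun h => ?_
  rw [← mul_sum, ← sum_mul, hG]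
  simp only
  unfold FH
  ring

end Run7.h343.GI
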