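import Pool.Agent.Run7.h343.GI.Func
import Pool.Agent.Run7.h343.GI.Gau2

/-!
Small representatives with prescribed values of a functional.
-/

set_option autoImplicit false

namespace Run7.h343.GI

open Complex Finset

variable {p r : ℕ} {ι : ℤ} {g : GaussianInt} {R : GaussianInt → ℤ}

lemma Fu.sub (h : Fu p r ι g R) (x y : GaussianInt) : R (x - y) = R x - R y := by
  have := h.add (x - y) y
  rw [sub_add_cancel] at this
  linarith

/-- `g ^ c' ∣ A + B i` -/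
lemma Fu.loc' (h : Fu p r ι g R) {c c' : ℕ} (hc : c + c' ≤ r) (hc' : 1 ≤ c') : ∃ A B : ℤ,
    (∀ x, R (g ^ c * x) = (p : ℤ) ^ c * (A * x.re + B * x.im)) ∧ (g ^ c' ∣ (⟨A, B⟩ : GaussianInt)) ∧
    ¬ (p : ℤ) ∣ A ∧ (∀ x : GaussianInt, (p : ℤ) ^ c' ∣ A * (g ^ c' * x).re + B * (g ^ c' * x).im) := by
  obtain ⟨A, B, h1, h2, h3⟩ := h.loc c c' hc hc'
  have h4 : g ^ c' ∣ (⟨A, B⟩ : GaussianInt) := h2 _ 1 (by simp) (by simp)
  refine ⟨A, B, h1, h4, ?_, ?_⟩
  · intro hA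
    apply h3
    refine ⟨hA, ?_⟩
    have h5 : g ∣ (⟨A, B⟩ : GaussianInt) := (dvd_pow_self g (by omega)).trans h4
    obtain ⟨x, hx⟩ := h5
    have h6 : (p : ℤ) ∣ A ^ 2 + B ^ 2 := by
      refine ⟨x.re ^ 2 + x.im ^ 2, ?_⟩
      have e1 := congrArg Zsqrtd.re hx
      have e2 := congrArg Zsqrtd.im hx
      simp only [Zsqrtd.re_mul, Zsqrtd.im_mul] at e1 e2
      rw [← h.fr.nrm, e1, e2]
      ring
    have h7 : (p : ℤ) ∣ B ^ 2 := by
      have := dvd_sub h6 (Dvd.dvd.mul_right hA A)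
      have e : A ^ 2 + B ^ 2 - A * A = B ^ 2 := by ring
      rwa [e] at this
    exact h.fr.pZ.dvd_of_dvd_pow h7
  · intro x
    obtain ⟨y, hy⟩ := h4
    refine ⟨(star y * x).re, ?_⟩
    have e : A * (g ^ c' * x).re + B * (g ^ c' * x).im = (star (⟨A, B⟩ : GaussianInt) * (g ^ c' * x)).re := by
      rw [Zsqrtd.re_mul]
      simp
    rw [e, hy]
    have e2 : star (g ^ c' * y) * (g ^ c' * x) = (p : GaussianInt) ^ c' * (star y * x) := by
      rw [star_mul', star_pow, ← h.fr.norm_eq, mul_pow]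
      ring
    rw [e2, re_pow_mul]

/-- representatives of the residue classes -/
theorem reps (h : Fu p r ι g R) {a b : ℕ} (hab : a + b ≤ r) (hb : 1 ≤ b) : ∃ w : ℕ → GaussianInt,
    ∀ k, normSq (w k : ℂ) ≤ (p : ℝ) ^ (a + b) ∧ (p : ℤ) ^ (a + b) ∣ R (w k) - (p : ℤ) ^ a * k := by
  obtain ⟨A, B, h1, -, hA, h3⟩ := h.loc' hab hb
  have hco : IsCoprime A ((p : ℤ) ^ b) := by
    exact (((h.fr.pZ.coprime_iff_not_dvd).2 hA).symm).pow_right
  obtain ⟨u, v, huv⟩ := hco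
  have hg : g ^ b ≠ 0 := pow_ne_zero b h.fr.ne0
  have hp0 : (0 : ℝ) < p := by exact_mod_cast h.fr.pr.pos
  refine ⟨fun k => g ^ a * (((u * k : ℤ) : GaussianInt) % g ^ b), fun k => ⟨?_, ?_⟩⟩
  · rw [GaussianInt.toComplex_mul, normSq_mul, h.fr.normSq_pow, pow_add]
    refine mul_le_mul_of_nonneg_left ?_ (by positivity)
    rw [← h.fr.normSq_pow, ← GaussianInt.intCast_real_norm, ← GaussianInt.intCast_real_norm]
    exact_mod_cast (GaussianInt.norm_mod_lt _ hg).le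
  · obtain ⟨q, hq⟩ : ∃ q, q = ((u * k : ℤ) : GaussianInt) / g ^ b := ⟨_, rfl⟩
    have e1 : ((u * k : ℤ) : GaussianInt) % g ^ b = ((u * k : ℤ) : GaussianInt) - g ^ b * q := by
      rw [hq]
      have := EuclideanDomain.div_add_mod ((u * k : ℤ) : GaussianInt) (g ^ b)
      linear_combination this
    simp only
    rw [e1, h1]
    obtain ⟨z, hz⟩ := h3 q
    refine ⟨-v * k - z, ?_⟩
    have e2 : A * (((u * k : ℤ) : GaussianInt) - g ^ b * q).re +
        B * (((u * k : ℤ) : GaussianInt) - g ^ b * q).im =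
        A * (u * k) - (A * (g ^ b * q).re + B * (g ^ b * q).im) := by
      rw [Zsqrtd.re_sub, Zsqrtd.im_sub]
      simp
      ring
    rw [e2, hz, pow_add]
    linear_combination ((p : ℤ) ^ a * k) * huv

end Run7.h343.GI
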