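import Pool.Agent.Run7.h343.GI.Tri
import Pool.Agent.Run7.h343.GI.Reps
import Pool.Agent.Y155.R7.Sq
import Pool.Agent.Y924.R7.Inj
import Pool.Agent.Y924.R7.Br
import Pool.Agent.Y948.R7.Var
import Pool.Agent.Y948.R7.Td
import Pool.Agent.Y287.R7.Cnt

/-!
The mean square over `l` of the sums over `h`, fourth power form.
-/

set_option autoImplicit false

namespace Run7.h343.GI

open Complex Finset
open Pool.Agent.Y766.R7

variable {p r : ℕ} {ι ι' : ℤ} {g g' : GaussianInt} {R1 R2 : GaussianInt → ℤ}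

/-- one two-dimensional sum -/
lemma one_vg [NeZero (p ^ r)] (hp7 : 7 ≤ p) {a τ : ℕ} (ha : 1 ≤ a)
    (hra : r ≤ 7 * a) (F1 : Fu p r ι g R1) (F2 : Fu p r ι' g' R2)
    {l0 h0 : ℤ} (hl0 : ¬ (p : ℤ) ∣ l0) (hh0 : ¬ (p : ℤ) ∣ h0)
    {C : ZMod (p ^ r)} (hC : IsUnit C) {t1 t2 t3 : ℤ} (h1 : (p : ℤ) ^ a ∣ t1)
    (h2 : (p : ℤ) ^ a ∣ t2) (h3 : (p : ℤ) ^ a ∣ t3) (hτ : (p : ℤ) ^ τ ∣ t1 * t2 * t3)
    (hτ' : ¬ (p : ℤ) ^ (τ + 1) ∣ t1 * t2 * t3) (hτr : τ + 2 ≤ r) {X1 X2 : ℝ} (hX1 : 0 < X1)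
    (hX2 : 0 < X2) (z1 z2 : ℂ) :
    ‖∑' l, (if (p : ℤ) ∣ R1 l - l0 then (gw X1 z1 l : ℂ) else 0) *
      ∑' h, (if (p : ℤ) ∣ R2 h - h0 then (gw X2 z2 h : ℂ) else 0) *
        (ZMod.stdAddChar (C * (aa p r l0 (R1 l) * dif3 p r h0 (R2 h) t1 t2 t3)) : ℂ)‖ ≤
      (p : ℝ) ^ 2 * (CG ^ 2 * (p : ℝ) ^ (r - τ)) := by
  have hp : p.Prime := F1.fr.pr
  have hp2 : p ≠ 2 := by omega
  have hr1 : 1 ≤ r := by omega
  have hsq := Pool.Agent.Y155.R7.sq_main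
  have hinj := Pool.Agent.Y924.R7.Inj.inj hsq
  have hvar := Pool.Agent.Y948.R7.var hsq
  have htd := Pool.Agent.Y948.R7.td hsq
  have hpa : ∀ t : ℤ, (p : ℤ) ^ a ∣ t → (p : ℤ) ∣ t := fun t h => (dvd_pow_self _ (by omega)).trans h
  obtain ⟨i1, i2⟩ := hinj p r hp hp7 hr1 l0 h0 t1 t2 t3 hl0 hh0 (hpa _ h1) (hpa _ h2) (hpa _ h3)
  have key := lin2 (τ := τ) hτr F1 F2 l0 h0 (t1 * t2 * t3) hτ hτ'
    (fun l h => C * (((t1 * t2 * t3 : ℤ) : ZMod (p ^ r)) * Lam p r l0 h0 t1 t2 t3 l h))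
    (fun l h => C * psi1 p r l0 h0 t1 t2 t3 l h) (fun l h => C * psi2 p r l0 h0 t1 t2 t3 l h)
    (fun l h hl hh => ⟨hC.mul (i1 l h hl hh).1, hC.mul (i1 l h hl hh).2⟩)
    (fun c hc hT l h hl hh x y => by
      have := hvar p r c hp (by omega) hr1 hc l0 h0 l h t1 t2 t3 hl0 hh0 hl hh (hpa _ h1) (hpa _ h2)
        (hpa _ h3) _ hT x y
      rw [this]
      ring)
    (fun s l h l' h' hl hh hl' hh' e1 e2 => by
      refine i2 s l h l' h' hl hh hl' hh' ?_ ?_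
      · apply hC.mul_left_cancel
        linear_combination e1
      · apply hC.mul_left_cancel
        linear_combination e2) hX1 hX2 z1 z2
  refine le_trans (le_of_eq ?_) key
  congr 1
  refine tsum_congr fun l => ?_
  congr 1
  refine tsum_congr fun h => ?_
  split_ifs with hh
  · rw [htd p r a hp hp2 hr1 ha hra h0 (R2 h) t1 t2 t3 hh0 hh h1 h2 h3]
    congr 2
    unfold Lam
    ring
  · rw [zero_mul, zero_mul]

/-- sums over pairs of distinct residues -/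
lemma pair_sum (n : ℕ) (f : ℤ → ℝ) (hf : ∀ d, 0 ≤ f d) :
    ∑ x ∈ (range n).offDiag, f ((x.1 : ℤ) - x.2) ≤ n * ∑ d ∈ (Ioo (-(n : ℤ)) n).filter (· ≠ 0), f d := by
  classical
  have h1 : ∑ x ∈ (range n).offDiag, f ((x.1 : ℤ) - x.2) ≤
      ∑ y ∈ (range n) ×ˢ (Ioo (-(n : ℤ)) n).filter (· ≠ 0), f y.2 := by
    have hinj : Set.InjOn (fun x : ℕ × ℕ => (x.2, (x.1 : ℤ) - x.2)) ((range n).offDiag : Finset (ℕ × ℕ)) := by
      rintro ⟨a, b⟩ _ ⟨a', b'⟩ _ h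
      simp only [Prod.mk.injEq] at h
      obtain ⟨h1, h2⟩ := h
      subst h1
      have : a = a' := by omega
      rw [this]
    have e : ∑ x ∈ (range n).offDiag, f ((x.1 : ℤ) - x.2) =
        ∑ y ∈ ((range n).offDiag).image (fun x : ℕ × ℕ => (x.2, (x.1 : ℤ) - x.2)), f y.2 := by
      rw [sum_image hinj]
    rw [e]
    refine sum_le_sum_of_subset_of_nonneg ?_ fun y _ _ => hf _
    intro y hy
    rw [mem_image] at hy
    obtain ⟨x, hx, rfl⟩ := hy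
    rw [mem_offDiag, mem_range, mem_range] at hx
    rw [mem_product, mem_range, mem_filter, mem_Ioo]
    refine ⟨hx.2.1, ⟨by omega, by omega⟩, ?_⟩
    intro h
    apply hx.2.2
    have : (x.1 : ℤ) = x.2 := by linarith
    exact_mod_cast this
  refine h1.trans (le_of_eq ?_)
  rw [sum_product]
  simp only [sum_const, card_range, nsmul_eq_mul]

/-- the exponent of `p` in a perturbation -/
lemma dvd_pert {p a b : ℕ} {t d : ℤ} (hp : p.Prime) (ht : (p : ℤ) ^ (a + b) ∣ t - (p : ℤ) ^ a * d)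
    (hd : d ≠ 0) (hdb : |d| < (p : ℤ) ^ b) : ∃ t' : ℤ, t = (p : ℤ) ^ a * t' ∧ ∀ j, (p : ℤ) ^ j ∣ t' ↔ (p : ℤ) ^ j ∣ d := by
  have hp0 : (p : ℤ) ≠ 0 := by exact_mod_cast hp.ne_zero
  obtain ⟨k, hk⟩ := ht
  have e : t = (p : ℤ) ^ a * (d + (p : ℤ) ^ b * k) := by
    rw [pow_add] at hk
    linear_combination hk
  have hdn : ¬ (p : ℤ) ^ b ∣ d := by
    intro h
    exact hd (Int.eq_zero_of_abs_lt_dvd h hdb)
  refine ⟨d + (p : ℤ) ^ b * k, e, fun j => ?_⟩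
  rcases le_or_gt j b with hj | hj
  · exact dvd_add_left (Dvd.dvd.mul_right (pow_dvd_pow _ hj) _)
  · constructor
    · intro h
      exfalso
      apply hdn
      have h2 := (pow_dvd_pow (p : ℤ) hj.le).trans h
      exact (dvd_add_left (Dvd.dvd.mul_right (dvd_refl _) _)).1 h2
    · intro h
      exact absurd ((pow_dvd_pow (p : ℤ) hj.le).trans h) hdn

lemma val_eq {p : ℕ} [Fact p.Prime] {t d : ℤ} (ht : t ≠ 0) (hd : d ≠ 0)
    (h : ∀ j, (p : ℤ) ^ j ∣ t ↔ (p : ℤ) ^ j ∣ d) : padicValInt p t = padicValInt p d := by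
  apply le_antisymm
  · have h1 := (h (padicValInt p t)).1 (padicValInt_dvd t)
    rw [padicValInt_dvd_iff] at h1
    exact h1.resolve_left hd
  · have h1 := (h (padicValInt p d)).2 (padicValInt_dvd d)
    rw [padicValInt_dvd_iff] at h1
    exact h1.resolve_left ht

lemma sum_offDiag_image {n : ℕ} {w : ℕ → GaussianInt} (hw : Set.InjOn w (range n : Finset ℕ))
    (f : GaussianInt × GaussianInt → ℝ) :
    ∑ x ∈ ((range n).image w).offDiag, f x = ∑ y ∈ (range n).offDiag, f (w y.1, w y.2) := by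
  classical
  symm
  refine sum_bij (fun y _ => (w y.1, w y.2)) ?_ ?_ ?_ ?_
  · intro y hy
    rw [mem_offDiag] at hy ⊢
    refine ⟨mem_image_of_mem _ hy.1, mem_image_of_mem _ hy.2.1, ?_⟩
    intro h
    exact hy.2.2 (hw hy.1 hy.2.1 h)
  · intro y hy y' hy' h
    rw [mem_offDiag] at hy hy'
    simp only [Prod.mk.injEq] at h
    exact Prod.ext (hw hy.1 hy'.1 h.1) (hw hy.2.1 hy'.2.1 h.2)
  · intro x hx
    rw [mem_offDiag, mem_image, mem_image] at hx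
    obtain ⟨⟨a, ha, ha'⟩, ⟨b, hb, hb'⟩, hne⟩ := hx
    refine ⟨(a, b), ?_, ?_⟩
    · rw [mem_offDiag]
      refine ⟨ha, hb, ?_⟩
      intro h
      apply hne
      have h' : a = b := h
      rw [← ha', ← hb', h']
    · exact Prod.ext ha' hb'
  · intro y _
    rfl

lemma GG_ge_one {X : ℝ} (hX : 0 < X) : 1 ≤ GG X := by
  unfold GG
  have h := (gw_summable hX 0).le_tsum 0 (fun j _ => gw_nonneg _ _ _)
  refine le_trans (le_of_eq ?_) h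
  unfold gw
  simp

lemma GG_ge {X : ℝ} (hX : 0 < X) : X ≤ GG X := by
  rw [GG_feq hX]
  exact le_mul_of_one_le_right hX.le (GG_ge_one (by positivity))

/-- the representatives form a set of the right size -/
lemma reps_inj {p a b : ℕ} {R : GaussianInt → ℤ} {w : ℕ → GaussianInt} (hp : p.Prime)
    (hw : ∀ k, normSq (w k : ℂ) ≤ (p : ℝ) ^ (a + b) ∧ (p : ℤ) ^ (a + b) ∣ R (w k) - (p : ℤ) ^ a * k) :
    Set.InjOn w (range (p ^ b) : Finset ℕ) := by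
  intro k hk k' hk' h
  rw [coe_range, Set.mem_Iio] at hk hk'
  have h1 := dvd_sub (hw k).2 (hw k').2
  rw [h] at h1
  have h2 : (p : ℤ) ^ a * (p : ℤ) ^ b ∣ (p : ℤ) ^ a * ((k' : ℤ) - k) := by
    rw [← pow_add]
    refine h1.trans (dvd_of_eq ?_)
    ring
  have hp0 : (p : ℤ) ^ a ≠ 0 := pow_ne_zero _ (by exact_mod_cast hp.ne_zero)
  have h3 := Int.dvd_of_mul_dvd_mul_left hp0 h2
  have hk1 : (k : ℤ) < (p : ℤ) ^ b := by exact_mod_cast hk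
  have hk2 : (k' : ℤ) < (p : ℤ) ^ b := by exact_mod_cast hk'
  have h4 : (k' : ℤ) - k = 0 := by
    apply Int.eq_zero_of_abs_lt_dvd h3
    rw [abs_lt]
    constructor <;> omega
  omega

theorem Z4g [NeZero (p ^ r)] (hp7 : 7 ≤ p) {u κ s : ℕ}
    (hκ : 4 * s + 1 ≤ κ) (hu : u ≤ κ - 4 * s) (hra : r ≤ 7 * (κ - 4 * s)) (hB : 3 * κ ≤ r + 3 * s)
    (hs : 1 ≤ s) (F1 : Fu p r ι g R1) (F2 : Fu p r ι' g' R2)
    {l0 h0 : ℤ} (hl0 : ¬ (p : ℤ) ∣ l0) (hh0 : ¬ (p : ℤ) ∣ h0)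
    {Ψ : ZMod (p ^ r) → ℂ} (hΨ : ∀ y, ‖Ψ y‖ = 1)
    (hΨ2 : ∀ y z : ZMod (p ^ r), Ψ (y + (p : ZMod (p ^ r)) ^ u * z) = Ψ y)
    (Y : ZMod (p ^ r)) {C : ZMod (p ^ r)} (hC : IsUnit C) {χ : GaussianInt → GaussianInt → ℂ}
    (hχ : ∀ l, IsCh (χ l)) {X K : ℝ} (hX : 0 < X) (hK : (p : ℝ) ^ κ ≤ K)
    (hA : (p : ℝ) ^ (r + 7 * s - 3 * κ + 4 * s) ≤ X * K) (z : ℂ) :
    Af (gw X 0) K z (Fm p r l0 h0 Ψ Y C R1 R2 χ) ^ 4 ≤
      16 * Real.exp (2 * Real.pi) ^ 7 * (3 + CG ^ 2 * (p : ℝ) ^ 2 + 8 * p) *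
        (GG X ^ 4 * GG K ^ 8 / (p : ℝ) ^ (4 * s)) * (1 + r) ^ 3 := by
  classical
  have hp : p.Prime := F1.fr.pr
  haveI := Fact.mk hp
  have hp2 : p ≠ 2 := by omega
  have hp0 : (0 : ℝ) < p := by exact_mod_cast hp.pos
  have hp1 : (1 : ℝ) ≤ p := by exact_mod_cast hp.one_le
  have hr1 : 1 ≤ r := by omega
  have hκr : κ ≤ r := by omega
  have hK0 : 0 < K := lt_of_lt_of_le (by positivity) hK
  have hsq := Pool.Agent.Y155.R7.sq_main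
  have hcnt := Pool.Agent.Y287.R7.cnt
  have hCG := CG_one
  obtain ⟨w1, hw1⟩ := reps F2 (a := κ - s) (b := s) (by omega) hs
  obtain ⟨w2, hw2⟩ := reps F2 (a := κ - 2 * s) (b := 2 * s) (by omega) (by omega)
  obtain ⟨w3, hw3⟩ := reps F2 (a := κ - 4 * s) (b := 4 * s) (by omega) (by omega)
  have i1 := reps_inj hp hw1
  have i2 := reps_inj hp hw2
  have i3 := reps_inj hp hw3
  obtain ⟨F, hF⟩ : ∃ F, F = Fm p r l0 h0 Ψ Y C R1 R2 χ := ⟨_, rfl⟩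
  have hFn : ∀ l h, ‖F l h‖ ≤ 1 := by
    rw [hF]
    exact fun l h => Fm_norm hΨ Y C R1 R2 hχ l h
  have hω := gw_summable hX 0
  have hω0 : ∀ l, 0 ≤ gw X 0 l := fun l => gw_nonneg _ _ _
  have hM : ∑' l, gw X 0 l = GG X := rfl
  have hpow : ∀ i, 0 < p ^ i := fun i => pow_pos hp.pos i
  have hV := vdc3 hω hω0 hK0 hFn z ((range (p ^ s)).image w1) ((range (p ^ (2 * s))).image w2)
    ((range (p ^ (4 * s))).image w3)
    ((nonempty_range_iff.2 (hpow _).ne').image _) ((nonempty_range_iff.2 (hpow _).ne').image _)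
    ((nonempty_range_iff.2 (hpow _).ne').image _)
    (by
      intro v hv
      rw [mem_image] at hv
      obtain ⟨k, -, rfl⟩ := hv
      refine (hw1 k).1.trans ?_
      rwa [show κ - s + s = κ by omega])
    (by
      intro v hv
      rw [mem_image] at hv
      obtain ⟨k, -, rfl⟩ := hv
      refine (hw2 k).1.trans ?_
      rwa [show κ - 2 * s + 2 * s = κ by omega])
    (by
      intro v hv
      rw [mem_image] at hv
      obtain ⟨k, -, rfl⟩ := hv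
      refine (hw3 k).1.trans ?_
      rwa [show κ - 4 * s + 4 * s = κ by omega])
  rw [card_image_of_injOn i1, card_image_of_injOn i2, card_image_of_injOn i3, card_range, card_range,
    card_range, hM] at hV
  rw [← hF]
  refine hV.trans ?_
  clear hV
  obtain ⟨e, he⟩ : ∃ e, e = r + 7 * s - 3 * κ - 1 := ⟨_, rfl⟩
  obtain ⟨ρ, hρ⟩ : ∃ ρ, ρ = r + 7 * s - 3 * κ := ⟨_, rfl⟩
  obtain ⟨B1, hB1⟩ : ∃ B1, B1 = (p : ℝ) ^ 2 * (CG ^ 2 * (p : ℝ) ^ ρ) := ⟨_, rfl⟩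
  have hB10 : 0 ≤ B1 := by rw [hB1]; positivity
  have hGX := GG_pos hX
  have hGK := GG_pos hK0
  -- pointwise bound
  have hpt : ∀ y1 ∈ (range (p ^ s)).offDiag, ∀ y2 ∈ (range (p ^ (2 * s))).offDiag,
      ∀ y3 ∈ (range (p ^ (4 * s))).offDiag,
      Bf (gw X 0) K (z - w1 y1.1 - w2 y2.1 - w3 y3.1) (Dx (w3 y3.1, w3 y3.2) (Dx (w2 y2.1, w2 y2.2)
        (Dx (w1 y1.1, w1 y1.2) F))) ≤
      B1 + if (p : ℤ) ^ e ∣ ((y1.1 : ℤ) - y1.2) * ((y2.1 : ℤ) - y2.2) * ((y3.1 : ℤ) - y3.2) then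
        GG X * GG K else 0 := by
    intro y1 hy1 y2 hy2 y3 hy3
    rw [mem_offDiag, mem_range, mem_range] at hy1 hy2 hy3
    have hd : ∀ {n x y : ℕ}, x < p ^ n → y < p ^ n → x ≠ y → ((x : ℤ) - y ≠ 0 ∧ |(x : ℤ) - y| < (p : ℤ) ^ n) := by
      intro n x y hx hy hxy
      have hx' : (x : ℤ) < (p : ℤ) ^ n := by exact_mod_cast hx
      have hy' : (y : ℤ) < (p : ℤ) ^ n := by exact_mod_cast hy
      refine ⟨fun h => hxy (by omega), ?_⟩
      rw [abs_lt]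
      constructor <;> omega
    have q1 := hd hy1.1 hy1.2.1 hy1.2.2
    have q2 := hd hy2.1 hy2.2.1 hy2.2.2
    have q3 := hd hy3.1 hy3.2.1 hy3.2.2
    obtain ⟨δ1, hδ1⟩ : ∃ δ : ℤ, δ = (y1.1 : ℤ) - y1.2 := ⟨_, rfl⟩
    obtain ⟨δ2, hδ2⟩ : ∃ δ : ℤ, δ = (y2.1 : ℤ) - y2.2 := ⟨_, rfl⟩
    obtain ⟨δ3, hδ3⟩ : ∃ δ : ℤ, δ = (y3.1 : ℤ) - y3.2 := ⟨_, rfl⟩
    rw [← hδ1] at q1
    rw [← hδ2] at q2
    rw [← hδ3] at q3
    rw [← hδ1, ← hδ2, ← hδ3]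
    have c1 : (p : ℤ) ^ (κ - s + s) ∣ R2 (w1 y1.1 - w1 y1.2) - (p : ℤ) ^ (κ - s) * δ1 := by
      have := dvd_sub (hw1 y1.1).2 (hw1 y1.2).2
      refine this.trans (dvd_of_eq ?_)
      rw [F2.sub, hδ1]; ring
    have c2 : (p : ℤ) ^ (κ - 2 * s + 2 * s) ∣ R2 (w2 y2.1 - w2 y2.2) - (p : ℤ) ^ (κ - 2 * s) * δ2 := by
      have := dvd_sub (hw2 y2.1).2 (hw2 y2.2).2
      refine this.trans (dvd_of_eq ?_)
      rw [F2.sub, hδ2]; ring
    have c3 : (p : ℤ) ^ (κ - 4 * s + 4 * s) ∣ R2 (w3 y3.1 - w3 y3.2) - (p : ℤ) ^ (κ - 4 * s) * δ3 := by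
      have := dvd_sub (hw3 y3.1).2 (hw3 y3.2).2
      refine this.trans (dvd_of_eq ?_)
      rw [F2.sub, hδ3]; ring
    obtain ⟨t1', e1, f1⟩ := dvd_pert hp c1 q1.1 q1.2
    obtain ⟨t2', e2, f2⟩ := dvd_pert hp c2 q2.1 q2.2
    obtain ⟨t3', e3, f3⟩ := dvd_pert hp c3 q3.1 q3.2
    obtain ⟨t1, ht1⟩ : ∃ t, t = R2 (w1 y1.1 - w1 y1.2) := ⟨_, rfl⟩
    obtain ⟨t2, ht2⟩ : ∃ t, t = R2 (w2 y2.1 - w2 y2.2) := ⟨_, rfl⟩
    obtain ⟨t3, ht3⟩ : ∃ t, t = R2 (w3 y3.1 - w3 y3.2) := ⟨_, rfl⟩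
    rw [← ht1] at e1
    rw [← ht2] at e2
    rw [← ht3] at e3
    have nz : ∀ {t' δ : ℤ}, δ ≠ 0 → (∀ j, (p : ℤ) ^ j ∣ t' ↔ (p : ℤ) ^ j ∣ δ) → t' ≠ 0 := by
      intro t' δ hδ h h0
      rw [h0] at h
      have h2 := (h (padicValInt p δ + 1)).1 (dvd_zero _)
      rw [padicValInt_dvd_iff] at h2
      rcases h2 with h2 | h2
      · exact hδ h2
      · omega
    have n1 := nz q1.1 f1
    have n2 := nz q2.1 f2
    have n3 := nz q3.1 f3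
    have v1 := val_eq n1 q1.1 f1
    have v2 := val_eq n2 q2.1 f2
    have v3 := val_eq n3 q3.1 f3
    have d1 : (p : ℤ) ^ (κ - 4 * s) ∣ t1 := by
      rw [e1]
      exact Dvd.dvd.mul_right (pow_dvd_pow _ (by omega)) _
    have d2 : (p : ℤ) ^ (κ - 4 * s) ∣ t2 := by
      rw [e2]
      exact Dvd.dvd.mul_right (pow_dvd_pow _ (by omega)) _
    have d3 : (p : ℤ) ^ (κ - 4 * s) ∣ t3 := by
      rw [e3]
      exact Dvd.dvd.mul_right (pow_dvd_pow _ (by omega)) _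
    have hT : t1 * t2 * t3 = (p : ℤ) ^ (3 * κ - 7 * s) * (t1' * t2' * t3') := by
      rw [e1, e2, e3]
      have e4 : 3 * κ - 7 * s = (κ - s) + (κ - 2 * s) + (κ - 4 * s) := by omega
      rw [e4, pow_add, pow_add]
      ring
    have hpz : (p : ℤ) ≠ 0 := by exact_mod_cast hp.ne_zero
    have hT0' : t1' * t2' * t3' ≠ 0 := mul_ne_zero (mul_ne_zero n1 n2) n3
    have hT0 : t1 * t2 * t3 ≠ 0 := by
      rw [hT]
      exact mul_ne_zero (pow_ne_zero _ hpz) hT0'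
    have hv : padicValInt p (t1' * t2' * t3') = padicValInt p (δ1 * δ2 * δ3) := by
      rw [padicValInt.mul (mul_ne_zero n1 n2) n3, padicValInt.mul n1 n2,
        padicValInt.mul (mul_ne_zero q1.1 q2.1) q3.1, padicValInt.mul q1.1 q2.1, v1, v2, v3]
    obtain ⟨τ, hτ⟩ : ∃ τ, τ = padicValInt p (t1 * t2 * t3) := ⟨_, rfl⟩
    have hτd : ∀ n, (p : ℤ) ^ n ∣ t1 * t2 * t3 ↔ n ≤ τ := by
      intro n
      rw [padicValInt_dvd_iff, hτ]
      constructor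
      · rintro (h | h)
        · exact absurd h hT0
        · exact h
      · intro h; exact Or.inr h
    by_cases hτr : τ + 2 ≤ r
    · have hτ1 : 3 * κ - 7 * s ≤ τ := (hτd _).1 (by rw [hT]; exact Dvd.intro _ rfl)
      have key := one_vg hp7 (a := κ - 4 * s) (τ := τ) (by omega) hra F1 F2 hl0 hh0 hC
        d1 d2 d3 ((hτd _).2 le_rfl) (fun h => by have := (hτd _).1 h; omega) hτr hX hK0 0
        (z - w1 y1.1 - w2 y2.1 - w3 y3.1)
      have e5 : Bf (gw X 0) K (z - w1 y1.1 - w2 y2.1 - w3 y3.1) (Dx (w3 y3.1, w3 y3.2)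
          (Dx (w2 y2.1, w2 y2.2) (Dx (w1 y1.1, w1 y1.2) F))) =
          ‖∑' l, (if (p : ℤ) ∣ R1 l - l0 then (gw X 0 l : ℂ) else 0) *
          ∑' h, (if (p : ℤ) ∣ R2 h - h0 then (gw K (z - w1 y1.1 - w2 y2.1 - w3 y3.1) h : ℂ) else 0) *
          (ZMod.stdAddChar (C * (aa p r l0 (R1 l) * dif3 p r h0 (R2 h) t1 t2 t3)) : ℂ)‖ := by
        unfold Bf
        congr 1
        refine tsum_congr fun l => ?_
        have htr : ∀ h, Dx (w3 y3.1, w3 y3.2) (Dx (w2 y2.1, w2 y2.2) (Dx (w1 y1.1, w1 y1.2) F)) l h =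
            if (p : ℤ) ∣ R1 l - l0 ∧ (p : ℤ) ∣ R2 h - h0 then
            (ZMod.stdAddChar (C * (aa p r l0 (R1 l) * dif3 p r h0 (R2 h) t1 t2 t3)) : ℂ) else 0 := by
          intro h
          unfold Dx
          rw [hF, triple3 hsq hp hp2 hr1 (a := κ - 4 * s) (by omega) hu hh0 hΨ hΨ2 Y C R1 F2.add hχ
            (w1 y1.1 - w1 y1.2) (w2 y2.1 - w2 y2.2) (w3 y3.1 - w3 y3.2) l h (by rw [← ht1]; exact d1)
            (by rw [← ht2]; exact d2) (by rw [← ht3]; exact d3), ht1, ht2, ht3]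
        simp_rw [htr]
        by_cases hl : (p : ℤ) ∣ R1 l - l0
        · rw [if_pos hl]
          congr 1
          refine tsum_congr fun h => ?_
          by_cases hh : (p : ℤ) ∣ R2 h - h0
          · rw [if_pos ⟨hl, hh⟩, if_pos hh, mul_comm]
          · rw [if_neg (fun hh' => hh hh'.2), if_neg hh, zero_mul, zero_mul]
        · rw [if_neg hl, zero_mul]
          have : ∀ h, (if (p : ℤ) ∣ R1 l - l0 ∧ (p : ℤ) ∣ R2 h - h0 then
            (ZMod.stdAddChar (C * (aa p r l0 (R1 l) * dif3 p r h0 (R2 h) t1 t2 t3)) : ℂ) else 0) *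
              (gw K (z - w1 y1.1 - w2 y2.1 - w3 y3.1) h : ℂ) = 0 := by
            intro h
            rw [if_neg (fun hh' => hl hh'.1), zero_mul]
          simp_rw [this, tsum_zero, mul_zero]
      rw [e5]
      refine key.trans ?_
      have h2 : (p : ℝ) ^ (r - τ) ≤ (p : ℝ) ^ ρ := pow_le_pow_right₀ hp1 (by omega)
      have h3 : (0 : ℝ) ≤ if (p : ℤ) ^ e ∣ δ1 * δ2 * δ3 then GG X * GG K else 0 := by
        split_ifs <;> positivity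
      calc _ ≤ (p : ℝ) ^ 2 * (CG ^ 2 * (p : ℝ) ^ ρ) := by gcongr
        _ ≤ _ := by rw [hB1]; linarith
    · have hdiv : (p : ℤ) ^ e ∣ δ1 * δ2 * δ3 := by
        rw [padicValInt_dvd_iff]
        right
        rw [← hv]
        have h1 : (p : ℤ) ^ (r - 1) ∣ t1 * t2 * t3 := (hτd _).2 (by omega)
        rw [hT] at h1
        have h2 : r - 1 = (3 * κ - 7 * s) + e := by omega
        rw [h2, pow_add] at h1
        have h3 := Int.dvd_of_mul_dvd_mul_left (pow_ne_zero _ hpz) h1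
        rw [padicValInt_dvd_iff] at h3
        exact h3.resolve_left hT0'
      rw [if_pos hdiv]
      have h3 := B_triv hω hω0 hK0 (Dx_norm (w3 y3.1, w3 y3.2) (Dx_norm (w2 y2.1, w2 y2.2)
        (Dx_norm (w1 y1.1, w1 y1.2) hFn))) (z - w1 y1.1 - w2 y2.1 - w3 y3.1)
      rw [hM] at h3
      linarith
  -- summing
  obtain ⟨n1, hn1⟩ : ∃ n, n = p ^ s := ⟨_, rfl⟩
  obtain ⟨n2, hn2⟩ : ∃ n, n = p ^ (2 * s) := ⟨_, rfl⟩
  obtain ⟨n3, hn3⟩ : ∃ n, n = p ^ (4 * s) := ⟨_, rfl⟩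
  have hsumv : ∑ x1 ∈ ((range (p ^ s)).image w1).offDiag, ∑ x2 ∈ ((range (p ^ (2 * s))).image w2).offDiag,
      ∑ x3 ∈ ((range (p ^ (4 * s))).image w3).offDiag,
      Bf (gw X 0) K (z - x1.1 - x2.1 - x3.1) (Dx x3 (Dx x2 (Dx x1 F))) ≤
      ((p : ℝ) ^ (7 * s)) ^ 2 * (B1 + GG X * GG K * (8 * (e + 1) ^ 3 / (p : ℝ) ^ e)) := by
    rw [sum_offDiag_image i1]
    have s2 : ∀ x1 : GaussianInt × GaussianInt, ∑ x2 ∈ ((range (p ^ (2 * s))).image w2).offDiag,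
      ∑ x3 ∈ ((range (p ^ (4 * s))).image w3).offDiag,
      Bf (gw X 0) K (z - x1.1 - x2.1 - x3.1) (Dx x3 (Dx x2 (Dx x1 F))) =
        ∑ y2 ∈ (range (p ^ (2 * s))).offDiag, ∑ y3 ∈ (range (p ^ (4 * s))).offDiag,
        Bf (gw X 0) K (z - x1.1 - w2 y2.1 - w3 y3.1) (Dx (w3 y3.1, w3 y3.2) (Dx (w2 y2.1, w2 y2.2)
        (Dx x1 F))) := by
      intro x1
      rw [sum_offDiag_image i2]
      refine sum_congr rfl fun y2 _ => ?_
      rw [sum_offDiag_image i3]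
    refine (le_of_eq (sum_congr rfl fun y1 _ => s2 (w1 y1.1, w1 y1.2))).trans ?_
    calc _ ≤ ∑ y1 ∈ (range (p ^ s)).offDiag, ∑ y2 ∈ (range (p ^ (2 * s))).offDiag,
          ∑ y3 ∈ (range (p ^ (4 * s))).offDiag, (B1 +
          if (p : ℤ) ^ e ∣ ((y1.1 : ℤ) - y1.2) * ((y2.1 : ℤ) - y2.2) * ((y3.1 : ℤ) - y3.2) then
        GG X * GG K else 0) := sum_le_sum fun y1 h1 => sum_le_sum fun y2 h2 => sum_le_sum fun y3 h3 =>
          hpt y1 h1 y2 h2 y3 h3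
      _ = ((range (p ^ s)).offDiag.card : ℝ) * (((range (p ^ (2 * s))).offDiag.card : ℝ) *
          (((range (p ^ (4 * s))).offDiag.card : ℝ) * B1)) +
          ∑ y1 ∈ (range (p ^ s)).offDiag, ∑ y2 ∈ (range (p ^ (2 * s))).offDiag,
          ∑ y3 ∈ (range (p ^ (4 * s))).offDiag,
          (if (p : ℤ) ^ e ∣ ((y1.1 : ℤ) - y1.2) * ((y2.1 : ℤ) - y2.2) * ((y3.1 : ℤ) - y3.2) then
        GG X * GG K else 0) := by
          simp_rw [sum_add_distrib, sum_const, nsmul_eq_mul]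
      _ ≤ ((p : ℝ) ^ s) ^ 2 * (((p : ℝ) ^ (2 * s)) ^ 2 * (((p : ℝ) ^ (4 * s)) ^ 2 * B1)) +
          (p : ℝ) ^ s * ((p : ℝ) ^ (2 * s) * ((p : ℝ) ^ (4 * s) *
          (GG X * GG K * (8 * (e + 1) ^ 3 * ((p : ℝ) ^ s * (p : ℝ) ^ (2 * s) * (p : ℝ) ^ (4 * s)) /
            (p : ℝ) ^ e)))) := by
          refine add_le_add ?_ ?_
          · have oc : ∀ n : ℕ, ((range (p ^ n)).offDiag.card : ℝ) ≤ ((p : ℝ) ^ n) ^ 2 := by
              intro n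
              have := offDiag_card_le (range (p ^ n))
              rw [card_range] at this
              exact_mod_cast this
            have o1 := oc s
            have o2 := oc (2 * s)
            have o3 := oc (4 * s)
            gcongr
          · have k3 : ∀ d1 d2 : ℤ, ∑ y3 ∈ (range (p ^ (4 * s))).offDiag,
                (if (p : ℤ) ^ e ∣ d1 * d2 * ((y3.1 : ℤ) - y3.2) then GG X * GG K else 0) ≤
                ((p ^ (4 * s) : ℕ) : ℝ) * ∑ d3 ∈ (Ioo (-((p ^ (4 * s) : ℕ) : ℤ)) (p ^ (4 * s) : ℕ)).filter (· ≠ 0),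
                (if (p : ℤ) ^ e ∣ d1 * d2 * d3 then GG X * GG K else 0) := by
              intro d1 d2
              exact pair_sum _ (fun d => if (p : ℤ) ^ e ∣ d1 * d2 * d then GG X * GG K else 0)
                (fun d => by split_ifs <;> positivity)
            have k2 : ∀ d1 : ℤ, ∑ y2 ∈ (range (p ^ (2 * s))).offDiag, ∑ y3 ∈ (range (p ^ (4 * s))).offDiag,
                (if (p : ℤ) ^ e ∣ d1 * ((y2.1 : ℤ) - y2.2) * ((y3.1 : ℤ) - y3.2) then GG X * GG K else 0) ≤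
                ((p ^ (2 * s) : ℕ) : ℝ) * ∑ d2 ∈ (Ioo (-((p ^ (2 * s) : ℕ) : ℤ)) (p ^ (2 * s) : ℕ)).filter (· ≠ 0),
                ((p ^ (4 * s) : ℕ) : ℝ) * ∑ d3 ∈ (Ioo (-((p ^ (4 * s) : ℕ) : ℤ)) (p ^ (4 * s) : ℕ)).filter (· ≠ 0),
                (if (p : ℤ) ^ e ∣ d1 * d2 * d3 then GG X * GG K else 0) := by
              intro d1
              refine (sum_le_sum fun y2 _ => k3 d1 ((y2.1 : ℤ) - y2.2)).trans ?_
              exact pair_sum _ (fun d => ((p ^ (4 * s) : ℕ) : ℝ) *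
                ∑ d3 ∈ (Ioo (-((p ^ (4 * s) : ℕ) : ℤ)) (p ^ (4 * s) : ℕ)).filter (· ≠ 0),
                (if (p : ℤ) ^ e ∣ d1 * d * d3 then GG X * GG K else 0))
                (fun d => mul_nonneg (Nat.cast_nonneg _) (sum_nonneg fun _ _ => by split_ifs <;> positivity))
            have k1 : ∑ y1 ∈ (range (p ^ s)).offDiag, ∑ y2 ∈ (range (p ^ (2 * s))).offDiag,
                ∑ y3 ∈ (range (p ^ (4 * s))).offDiag,
                (if (p : ℤ) ^ e ∣ ((y1.1 : ℤ) - y1.2) * ((y2.1 : ℤ) - y2.2) * ((y3.1 : ℤ) - y3.2) then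
                  GG X * GG K else 0) ≤
                ((p ^ s : ℕ) : ℝ) * ∑ d1 ∈ (Ioo (-((p ^ s : ℕ) : ℤ)) (p ^ s : ℕ)).filter (· ≠ 0),
                ((p ^ (2 * s) : ℕ) : ℝ) * ∑ d2 ∈ (Ioo (-((p ^ (2 * s) : ℕ) : ℤ)) (p ^ (2 * s) : ℕ)).filter (· ≠ 0),
                ((p ^ (4 * s) : ℕ) : ℝ) * ∑ d3 ∈ (Ioo (-((p ^ (4 * s) : ℕ) : ℤ)) (p ^ (4 * s) : ℕ)).filter (· ≠ 0),
                (if (p : ℤ) ^ e ∣ d1 * d2 * d3 then GG X * GG K else 0) := by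
              refine (sum_le_sum fun y1 _ => k2 ((y1.1 : ℤ) - y1.2)).trans ?_
              exact pair_sum _ (fun d => ((p ^ (2 * s) : ℕ) : ℝ) *
                ∑ d2 ∈ (Ioo (-((p ^ (2 * s) : ℕ) : ℤ)) (p ^ (2 * s) : ℕ)).filter (· ≠ 0),
                ((p ^ (4 * s) : ℕ) : ℝ) * ∑ d3 ∈ (Ioo (-((p ^ (4 * s) : ℕ) : ℤ)) (p ^ (4 * s) : ℕ)).filter (· ≠ 0),
                (if (p : ℤ) ^ e ∣ d * d2 * d3 then GG X * GG K else 0))
                (fun d => mul_nonneg (Nat.cast_nonneg _) (sum_nonneg fun _ _ =>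
                  mul_nonneg (Nat.cast_nonneg _) (sum_nonneg fun _ _ => by split_ifs <;> positivity)))
            refine k1.trans ?_
            have h5 := hcnt p e hp (p ^ s) (p ^ (2 * s)) (p ^ (4 * s))
            have e6 : ((p ^ s : ℕ) : ℝ) * ∑ d1 ∈ (Ioo (-((p ^ s : ℕ) : ℤ)) (p ^ s : ℕ)).filter (· ≠ 0),
                ((p ^ (2 * s) : ℕ) : ℝ) * ∑ d2 ∈ (Ioo (-((p ^ (2 * s) : ℕ) : ℤ)) (p ^ (2 * s) : ℕ)).filter (· ≠ 0),
                ((p ^ (4 * s) : ℕ) : ℝ) * ∑ d3 ∈ (Ioo (-((p ^ (4 * s) : ℕ) : ℤ)) (p ^ (4 * s) : ℕ)).filter (· ≠ 0),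
                (if (p : ℤ) ^ e ∣ d1 * d2 * d3 then GG X * GG K else 0) =
                (p : ℝ) ^ s * ((p : ℝ) ^ (2 * s) * ((p : ℝ) ^ (4 * s) * (GG X * GG K *
                ((((((Ioo (-((p ^ s : ℕ) : ℤ)) (p ^ s : ℕ)).filter (· ≠ 0)) ×ˢ
                  ((Ioo (-((p ^ (2 * s) : ℕ) : ℤ)) (p ^ (2 * s) : ℕ)).filter (· ≠ 0)) ×ˢ
                  ((Ioo (-((p ^ (4 * s) : ℕ) : ℤ)) (p ^ (4 * s) : ℕ)).filter (· ≠ 0))).filter
                  (fun v : ℤ × ℤ × ℤ => (p : ℤ) ^ e ∣ v.1 * v.2.1 * v.2.2)).card : ℝ))))) := by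
              have e7 : GG X * GG K * ((((((Ioo (-((p ^ s : ℕ) : ℤ)) (p ^ s : ℕ)).filter (· ≠ 0)) ×ˢ
                  ((Ioo (-((p ^ (2 * s) : ℕ) : ℤ)) (p ^ (2 * s) : ℕ)).filter (· ≠ 0)) ×ˢ
                  ((Ioo (-((p ^ (4 * s) : ℕ) : ℤ)) (p ^ (4 * s) : ℕ)).filter (· ≠ 0))).filter
                  (fun v : ℤ × ℤ × ℤ => (p : ℤ) ^ e ∣ v.1 * v.2.1 * v.2.2)).card : ℝ)) =
                  ∑ d1 ∈ (Ioo (-((p ^ s : ℕ) : ℤ)) (p ^ s : ℕ)).filter (· ≠ 0),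
                  ∑ d2 ∈ (Ioo (-((p ^ (2 * s) : ℕ) : ℤ)) (p ^ (2 * s) : ℕ)).filter (· ≠ 0),
                  ∑ d3 ∈ (Ioo (-((p ^ (4 * s) : ℕ) : ℤ)) (p ^ (4 * s) : ℕ)).filter (· ≠ 0),
                  (if (p : ℤ) ^ e ∣ d1 * d2 * d3 then GG X * GG K else 0) := by
                rw [mul_comm, ← nsmul_eq_mul, ← sum_const, sum_filter, sum_product]
                refine sum_congr rfl fun d1 _ => ?_
                rw [sum_product]
              rw [e7]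
              simp_rw [← mul_sum]
              push_cast
              ring
            rw [e6]
            gcongr
            refine h5.trans (le_of_eq ?_)
            push_cast
            ring
      _ = _ := by
          have e8 : (p : ℝ) ^ (7 * s) = (p : ℝ) ^ s * (p : ℝ) ^ (2 * s) * (p : ℝ) ^ (4 * s) := by
            rw [← pow_add, ← pow_add]; congr 1; ring
          rw [e8]
          ring
  -- final computation
  obtain ⟨M, hMd⟩ : ∃ M, M = GG X := ⟨_, rfl⟩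
  obtain ⟨G, hGd⟩ : ∃ G, G = GG K := ⟨_, rfl⟩
  have hXM : X ≤ M := by rw [hMd]; exact GG_ge hX
  have hKG : K ≤ G := by rw [hGd]; exact GG_ge hK0
  rw [← hMd, ← hGd] at hsumv ⊢
  rw [← hMd] at hGX
  rw [← hGd] at hGK
  have hρe : (p : ℝ) ^ ρ = (p : ℝ) ^ e * p := by rw [← pow_succ]; congr 1; omega
  have hA' : (p : ℝ) ^ ρ * (p : ℝ) ^ (4 * s) ≤ M * G := by
    rw [← pow_add, hρ]
    refine hA.trans ?_
    gcongr
  have hB' : (p : ℝ) ^ (4 * s) ≤ (p : ℝ) ^ ρ := pow_le_pow_right₀ hp1 (by omega)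
  have he1 : ((e : ℝ) + 1) ≤ 1 + r := by
    have h1 : e ≤ r := by omega
    have : (e : ℝ) ≤ r := by exact_mod_cast h1
    linarith
  have hr3 : (1 : ℝ) ≤ (1 + (r : ℝ)) ^ 3 := one_le_pow₀ (by linarith [Nat.cast_nonneg (α := ℝ) r])
  have hq1 : (0 : ℝ) < (p : ℝ) ^ (4 * s) := by positivity
  have hq7 : (0 : ℝ) < (p : ℝ) ^ (7 * s) := by positivity
  obtain ⟨W, hW⟩ : ∃ W, W = M ^ 4 * G ^ 8 / (p : ℝ) ^ (4 * s) := ⟨_, rfl⟩
  have hW0 : 0 ≤ W := by rw [hW]; positivity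
  have t1 : M ^ 4 * G ^ 8 * (1 / ((p ^ s : ℕ) : ℝ) ^ 4 + 1 / ((p ^ (2 * s) : ℕ) : ℝ) ^ 2 +
      1 / ((p ^ (4 * s) : ℕ) : ℝ)) = 3 * W := by
    rw [hW]
    push_cast
    rw [← pow_mul, ← pow_mul, show s * 4 = 4 * s by ring, show 2 * s * 2 = 4 * s by ring]
    ring
  have t2 : M ^ 3 * G ^ 7 / (((p ^ s : ℕ) : ℝ) * ((p ^ (2 * s) : ℕ) : ℝ) * ((p ^ (4 * s) : ℕ) : ℝ)) ^ 2 *
      ∑ x1 ∈ ((range (p ^ s)).image w1).offDiag, ∑ x2 ∈ ((range (p ^ (2 * s))).image w2).offDiag,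
      ∑ x3 ∈ ((range (p ^ (4 * s))).image w3).offDiag,
      Bf (gw X 0) K (z - x1.1 - x2.1 - x3.1) (Dx x3 (Dx x2 (Dx x1 F))) ≤
      (CG ^ 2 * (p : ℝ) ^ 2 + 8 * p) * W * (1 + r) ^ 3 := by
    have e1 : ((p ^ s : ℕ) : ℝ) * ((p ^ (2 * s) : ℕ) : ℝ) * ((p ^ (4 * s) : ℕ) : ℝ) =
        (p : ℝ) ^ (7 * s) := by
      push_cast
      rw [← pow_add, ← pow_add]; congr 1; ring
    rw [e1]
    have f1 : B1 ≤ CG ^ 2 * (p : ℝ) ^ 2 * (M * G / (p : ℝ) ^ (4 * s)) * (1 + r) ^ 3 := by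
      have g1 : (p : ℝ) ^ ρ ≤ M * G / (p : ℝ) ^ (4 * s) := by
        rw [le_div_iff₀ hq1]; exact hA'
      calc B1 = CG ^ 2 * (p : ℝ) ^ 2 * (p : ℝ) ^ ρ * 1 := by rw [hB1]; ring
        _ ≤ _ := by gcongr
    have f2 : M * G * (8 * ((e : ℝ) + 1) ^ 3 / (p : ℝ) ^ e) ≤
        8 * p * (M * G / (p : ℝ) ^ (4 * s)) * (1 + r) ^ 3 := by
      have g1 : 1 / (p : ℝ) ^ e ≤ p / (p : ℝ) ^ (4 * s) := by
        have h9 : (p : ℝ) * (p : ℝ) ^ e = (p : ℝ) ^ ρ := by rw [hρe]; ring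
        rw [div_le_div_iff₀ (by positivity) hq1, one_mul, h9]
        exact hB'
      have g2 : ((e : ℝ) + 1) ^ 3 ≤ (1 + (r : ℝ)) ^ 3 := by gcongr
      calc M * G * (8 * ((e : ℝ) + 1) ^ 3 / (p : ℝ) ^ e) =
            8 * (M * G) * (1 / (p : ℝ) ^ e) * ((e : ℝ) + 1) ^ 3 := by ring
        _ ≤ 8 * (M * G) * (p / (p : ℝ) ^ (4 * s)) * (1 + (r : ℝ)) ^ 3 := by gcongr
        _ = _ := by ring
    calc _ ≤ M ^ 3 * G ^ 7 / ((p : ℝ) ^ (7 * s)) ^ 2 * (((p : ℝ) ^ (7 * s)) ^ 2 *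
          (CG ^ 2 * (p : ℝ) ^ 2 * (M * G / (p : ℝ) ^ (4 * s)) * (1 + r) ^ 3 +
          8 * p * (M * G / (p : ℝ) ^ (4 * s)) * (1 + r) ^ 3)) := by
          refine mul_le_mul_of_nonneg_left ?_ (by positivity)
          refine hsumv.trans ?_
          exact mul_le_mul_of_nonneg_left (add_le_add f1 f2) (by positivity)
      _ = _ := by
          rw [hW]
          field_simp
  calc _ ≤ 16 * Real.exp (2 * Real.pi) ^ 7 * (3 * W + (CG ^ 2 * (p : ℝ) ^ 2 + 8 * p) * W * (1 + r) ^ 3) := by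
        refine mul_le_mul_of_nonneg_left (add_le_add (le_of_eq t1) t2) (by positivity)
    _ ≤ 16 * Real.exp (2 * Real.pi) ^ 7 * (3 * W * (1 + r) ^ 3 +
        (CG ^ 2 * (p : ℝ) ^ 2 + 8 * p) * W * (1 + r) ^ 3) := by
        have : 3 * W ≤ 3 * W * (1 + r) ^ 3 := le_mul_of_one_le_right (by positivity) hr3
        gcongr
    _ = _ := by rw [hW]; ring

end Run7.h343.GI
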